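import Pool.Agent.Lib.MP_7252b7_al_h6.CaseI

/-!
# Groups of order prime to 5 whose `F`-subgroups have order dividing 12
-/

set_option autoImplicit false
set_option linter.unusedSectionVars false

namespace Pool.Agent.CoveringSubgroups.H6

open Pool.Agent.CoveringSubgroups Pool.Agent.CoveringSubgroups.H9

namespace AlCore

/-- A `p`-subgroup is conjugate into a Sylow subgroup. -/
theorem conj_into {N : Type} [Group N] [Finite N] {p : ℕ} (hp : p.Prime) {D T : Subgroup N}
    (hD : IsPGroup p D) {n : ℕ} (hT : Nat.card T = p ^ n) (hn : ¬ p ^ (n + 1) ∣ Nat.card N) :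
    ∃ Q : N, ∀ d ∈ D, Q⁻¹ * d * Q ∈ T := by
  have : Fact p.Prime := ⟨hp⟩
  obtain ⟨P0, hP0⟩ := (IsPGroup.of_card hT).exists_le_sylow
  obtain ⟨P1, hP1⟩ := hD.exists_le_sylow
  obtain ⟨k, hk⟩ := IsPGroup.iff_card.1 P0.isPGroup'
  have hkn : k ≤ n := by
    by_contra h
    push Not at h
    apply hn
    refine (pow_dvd_pow p h).trans ?_
    rw [← hk]
    exact Subgroup.card_subgroup_dvd_card _
  have hT0 : T = (P0 : Subgroup N) := by
    refine Subgroup.eq_of_le_of_card_ge hP0 ?_
    rw [hT, hk]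
    exact Nat.pow_le_pow_right hp.pos hkn
  obtain ⟨g, hg⟩ := MulAction.exists_smul_eq N P0 P1
  refine ⟨g, fun d hd => ?_⟩
  have h1 : d ∈ (P1 : Subgroup N) := hP1 hd
  rw [← hg, Sylow.coe_subgroup_smul, Subgroup.mem_pointwise_smul_iff_inv_smul_mem] at h1
  rw [hT0]
  have h2 : ((MulAut.conj g)⁻¹ : MulAut N) • d = g⁻¹ * d * g := by
    rw [← map_inv]
    show g⁻¹ * d * g⁻¹⁻¹ = _
    rw [inv_inv]
  rw [← h2]
  exact h1

/-- No element of order six. -/
theorem no_comm {N : Type} [Group N] (h6 : ∀ g : N, orderOf g ≠ 6) {t c : N} (ht : t ^ 2 = 1)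
    (ht1 : t ≠ 1) (hc : c ^ 3 = 1) (hc1 : c ≠ 1) (h : t * c = c * t) : False := by
  have h1 : orderOf t = 2 := orderOf_eq_prime ht ht1
  have h3 : orderOf c = 3 := orderOf_eq_prime hc hc1
  apply h6 (t * c)
  have h4 : Commute t c := h
  rw [h4.orderOf_mul_eq_mul_orderOf_of_coprime (by rw [h1, h3]; norm_num), h1, h3]

theorem exists_order {G : Type} [Group G] [Finite G] {p : ℕ} (hp : p.Prime)
    (h : p ∣ Nat.card G) : ∃ g : G, g ^ p = 1 ∧ g ≠ 1 := by
  have : Fact p.Prime := ⟨hp⟩
  obtain ⟨g, hg⟩ := exists_prime_orderOf_dvd_card' (G := G) p h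
  refine ⟨g, ?_, ?_⟩
  · rw [← hg]; exact pow_orderOf_eq_one g
  · intro h1
    rw [h1, orderOf_one] at hg
    exact hp.ne_one hg.symm

theorem eq_one_of_23 {G : Type} [Group G] {g : G} (h2 : g ^ 2 = 1) (h3 : g ^ 3 = 1) : g = 1 := by
  have h : g ^ 3 = g ^ 2 * g := pow_succ g 2
  rw [h3, h2, one_mul] at h
  exact h.symm

theorem zp3 {G : Type} [Group G] {c t : G} (hc : c ^ 3 = 1) (ht : t ∈ Subgroup.zpowers c) :
    t = 1 ∨ t = c ∨ t = c⁻¹ := by
  obtain ⟨k, rfl⟩ := ht
  have h3 : c ^ (3 : ℤ) = 1 := by exact_mod_cast hc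
  have h1 : c ^ k = c ^ (k % 3) := by
    conv_lhs => rw [← Int.mul_ediv_add_emod k 3]
    rw [zpow_add, zpow_mul, h3, one_zpow, one_mul]
  have h2 : k % 3 = 0 ∨ k % 3 = 1 ∨ k % 3 = 2 := by omega
  change c ^ k = 1 ∨ c ^ k = c ∨ c ^ k = c⁻¹
  rw [h1]
  rcases h2 with h2 | h2 | h2
  · left; rw [h2, zpow_zero]
  · right; left; rw [h2, zpow_one]
  · right; right
    rw [h2, eq_inv_iff_mul_eq_one, ← hc, pow_succ c 2]
    congr 1
    exact zpow_natCast c 2

theorem card_zp3 {G : Type} [Group G] {c : G} (hc : c ^ 3 = 1) (hc1 : c ≠ 1) :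
    Nat.card (Subgroup.zpowers c) = 3 := by
  rw [Nat.card_zpowers]
  exact orderOf_eq_prime hc hc1

/-- Groups of order six. -/
theorem order_six {G : Type} [Group G] [Finite G] (hG : Nat.card G = 6) :
    ∃ c : G, c ^ 3 = 1 ∧ c ≠ 1 ∧ (∀ d : G, d * c * d⁻¹ = c ∨ d * c * d⁻¹ = c⁻¹) ∧
      ∀ t : G, t ^ 3 = 1 → t = 1 ∨ t = c ∨ t = c⁻¹ := by
  obtain ⟨c, hc, hc1⟩ := exists_order (G := G) Nat.prime_three (by rw [hG]; norm_num)
  have hi : (Subgroup.zpowers c).index = 2 := by
    have h1 := Subgroup.card_mul_index (Subgroup.zpowers c)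
    rw [card_zp3 hc hc1, hG] at h1
    omega
  have hn := Subgroup.normal_of_index_eq_two hi
  refine ⟨c, hc, hc1, fun d => ?_, fun t ht => ?_⟩
  · rcases zp3 hc (hn.conj_mem c (Subgroup.mem_zpowers c) d) with h | h | h
    · exfalso
      apply hc1
      have h1 : c = d⁻¹ * (d * c * d⁻¹) * d := by group
      rw [h1, h]
      group
    · exact Or.inl h
    · exact Or.inr h
  · have h1 := Subgroup.sq_mem_of_index_two hi t
    have h2 : t = (t ^ 2) ^ 2 := by
      have h3 : (t ^ 2) ^ 2 = t ^ 3 * t := by group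
      rw [h3, ht, one_mul]
    refine zp3 hc ?_
    rw [h2]
    exact Subgroup.pow_mem _ h1 2

/-- Groups of order twelve without elements of order six. -/
theorem order_twelve {G : Type} [Group G] [Finite G] (hG : Nat.card G = 12)
    (h6 : ∀ g : G, orderOf g ≠ 6) :
    ∃ mu : G →* Multiplicative (ZMod 3), Function.Surjective mu ∧ Nat.card mu.ker = 4 := by
  have : Fact (Nat.Prime 3) := ⟨Nat.prime_three⟩
  obtain ⟨P⟩ : Nonempty (Sylow 3 G) := inferInstance
  obtain ⟨k, hk⟩ := IsPGroup.iff_card.1 P.isPGroup'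
  have hind := Subgroup.card_mul_index (P : Subgroup G)
  have hnd := P.not_dvd_index
  rw [hk, hG] at hind
  have hk1 : k = 1 := by
    rcases Nat.lt_or_ge k 2 with h | h
    · interval_cases k
      · exfalso
        apply hnd
        rw [pow_zero, one_mul] at hind
        rw [hind]
        norm_num
      · rfl
    · exfalso
      have h1 : 3 ^ 2 ∣ 12 := by
        rw [← hind]
        exact Dvd.dvd.mul_right (pow_dvd_pow 3 h) _
      norm_num at h1
  rw [hk1, pow_one] at hk
  obtain ⟨c', hc', hc1'⟩ := exists_order (G := P) Nat.prime_three (by rw [hk])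
  obtain ⟨c, hcdef⟩ : ∃ c : G, c = (c' : G) := ⟨_, rfl⟩
  have hc : c ^ 3 = 1 := by rw [hcdef]; exact congrArg Subtype.val hc'
  have hc1 : c ≠ 1 := by
    rw [hcdef]
    exact fun h => hc1' (Subtype.ext h)
  have hcP : c ∈ (P : Subgroup G) := by rw [hcdef]; exact c'.2
  have hPc : (P : Subgroup G) = Subgroup.zpowers c := by
    symm
    refine Subgroup.eq_of_le_of_card_ge (by rw [Subgroup.zpowers_le]; exact hcP) ?_
    rw [card_zp3 hc hc1, hk]
  have hnc : ∀ d : G, d * c * d⁻¹ ∈ Subgroup.zpowers c → d * c * d⁻¹ = c ∨ d * c * d⁻¹ = c⁻¹ := by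
    intro d hd
    rcases zp3 hc hd with h | h | h
    · exfalso
      apply hc1
      have h1 : c = d⁻¹ * (d * c * d⁻¹) * d := by group
      rw [h1, h]
      group
    · exact Or.inl h
    · exact Or.inr h
  have hcc : c ≠ c⁻¹ := by
    intro h
    apply hc1
    refine eq_one_of_23 ?_ hc
    rw [pow_two]
    nth_rewrite 1 [h]
    exact inv_mul_cancel c
  have hPi : (P : Subgroup G).index = 4 := by
    rw [hk1] at hind
    omega
  have hind1 := P.card_eq_index_normalizer
  have hmod : (Nat.card (Sylow 3 G)) % 3 = 1 := card_sylow_modEq_one 3 G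
  have hdv : Nat.card (Sylow 3 G) ∣ 4 := by
    rw [← hPi]
    exact P.card_dvd_index
  have hP : Subgroup.normalizer ((P : Subgroup G) : Set G) ≤
      Subgroup.centralizer ((P : Subgroup G) : Set G) := by
    have hle := Nat.le_of_dvd (by norm_num) hdv
    have hcase : Nat.card (Sylow 3 G) = 1 ∨ Nat.card (Sylow 3 G) = 4 := by
      interval_cases h : Nat.card (Sylow 3 G) <;> omega
    rcases hcase with hcase | hcase
    · exfalso
      have hall : ∀ d : G, d ∈ fixInv c := by
        intro d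
        have h1 : d ∈ Subgroup.normalizer ((P : Subgroup G) : Set G) := by
          have h2 : Subgroup.normalizer ((P : Subgroup G) : Set G) = ⊤ := by
            rw [← Subgroup.index_eq_one]
            exact hind1.symm.trans hcase
          rw [h2]
          trivial
        have h2 := (Subgroup.mem_normalizer_iff.1 h1 c).1 hcP
        rw [hPc] at h2
        exact hnc d h2
      have h12 : Nat.card (fixInv c) = 12 := by
        have h1 : fixInv c = ⊤ := by
          rw [Subgroup.eq_top_iff']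
          exact hall
        rw [h1, Subgroup.card_top, hG]
      have h1 := Subgroup.card_mul_index (fixInvSign c hcc).ker
      rw [h12, Subgroup.index_ker] at h1
      have h2 : Nat.card (fixInvSign c hcc).range ∣ 2 := by
        have h3 := Subgroup.card_subgroup_dvd_card (fixInvSign c hcc).range
        have h4 : Nat.card (Multiplicative (ZMod 2)) = 2 := by simp
        rwa [h4] at h3
      have h3 : 2 ∣ Nat.card (fixInvSign c hcc).ker := by
        rcases (Nat.dvd_prime Nat.prime_two).1 h2 with h4 | h4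
        · rw [h4] at h1
          omega
        · rw [h4] at h1
          omega
      obtain ⟨t, ht, ht1⟩ := exists_order Nat.prime_two h3
      have h4 : fixInvSign c hcc t.1 = 1 := t.2
      rw [fixInvSign_eq_one] at h4
      refine no_comm h6 (t := t.1.1) (c := c) ?_ ?_ hc hc1 h4
      · exact congrArg (fun x : (fixInvSign c hcc).ker => x.1.1) ht
      · exact fun h => ht1 (Subtype.ext (Subtype.ext h))
    · have h1 := Subgroup.card_mul_index (Subgroup.normalizer ((P : Subgroup G) : Set G))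
      have h2 : (Subgroup.normalizer ((P : Subgroup G) : Set G)).index = 4 :=
        hind1.symm.trans hcase
      rw [h2, hG] at h1
      have h3 : (P : Subgroup G) = Subgroup.normalizer ((P : Subgroup G) : Set G) := by
        refine Subgroup.eq_of_le_of_card_ge Subgroup.le_normalizer ?_
        rw [hk]
        omega
      rw [← h3]
      intro d hd
      rw [Subgroup.mem_centralizer_iff]
      intro e he
      have hd' : d ∈ Subgroup.zpowers c := by rw [← hPc]; exact hd
      have he' : e ∈ Subgroup.zpowers c := by rw [← hPc]; exact he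
      obtain ⟨i, rfl⟩ := hd'
      obtain ⟨j, rfl⟩ := he'
      change c ^ j * c ^ i = c ^ i * c ^ j
      rw [← zpow_add, ← zpow_add, add_comm]
  have hcomp := MonoidHom.ker_transferSylow_isComplement' P hP
  have hcard := hcomp.card_mul_card
  rw [hk, hG] at hcard
  have hker : Nat.card (MonoidHom.transferSylow P hP).ker = 4 := by omega
  have hsurj : Function.Surjective (MonoidHom.transferSylow P hP) := by
    rw [← MonoidHom.range_eq_top]
    refine Subgroup.eq_top_of_card_eq _ ?_
    have h1 := Subgroup.card_mul_index (MonoidHom.transferSylow P hP).ker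
    rw [Subgroup.index_ker, hker, hG] at h1
    rw [hk]
    omega
  have e : P ≃* Multiplicative (ZMod 3) := mulEquivOfPrimeCardEq (p := 3) hk (by simp)
  refine ⟨e.toMonoidHom.comp (MonoidHom.transferSylow P hP), e.surjective.comp hsurj, ?_⟩
  have h1 : (e.toMonoidHom.comp (MonoidHom.transferSylow P hP)).ker =
      (MonoidHom.transferSylow P hP).ker := by
    ext x
    rw [MonoidHom.mem_ker, MonoidHom.mem_ker]
    exact e.map_eq_one_iff
  rw [h1, hker]

/-- Base elements of prime order, in a conjugate. -/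
theorem base_conj {G X : Type} [Group G] [Group X] [Finite G] [Finite X]
    {H : Subgroup (G ≀ᵣ X)} {s : ℕ} (hs : s.Prime) (hd : s ∣ Nat.card (compSub H))
    (m : G ≀ᵣ X) : ∃ w ∈ H.comap (MulAut.conj m).toMonoidHom, w.right = 1 ∧ w ≠ 1 ∧ w ^ s = 1 := by
  obtain ⟨w, hw, hw1, hw2, hw3⟩ := exists_base_order hs hd
  refine ⟨m⁻¹ * w * m, ?_, ?_, ?_, ?_⟩
  · show m * (m⁻¹ * w * m) * m⁻¹ ∈ H
    have e : m * (m⁻¹ * w * m) * m⁻¹ = w := by group
    rw [e]
    exact hw
  · simp [hw1]
  · intro h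
    apply hw2
    have e : w = m * (m⁻¹ * w * m) * m⁻¹ := by group
    rw [e, h]
    group
  · have e : m⁻¹ * w * m = m⁻¹ * w * m⁻¹⁻¹ := by group
    rw [e, conj_pow, hw3, mul_one, mul_inv_cancel]

theorem left_pow {G X : Type} [Group G] [Group X] {w : G ≀ᵣ X} (h1 : w.right = 1) {s : ℕ}
    (h : w ^ s = 1) (z : X) : w.left z ^ s = 1 := by
  have h2 := congrFun (pow_base w h1 s).2 z
  rw [h] at h2
  exact h2.symm

end AlCore

open AlCore

variable {F : GroupClass} {f : ℕ → GroupClass}

/-- **The core of the alternative.** -/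
theorem al_core (hF : IsFormation F) (hf : IsLocallyDefinedBy F f)
    (hher : ∀ (G : Type) [Group G] (H : Subgroup G), F G → F H)
    (hf2 : IsFormation (f 2)) (hf3 : IsFormation (f 3)) {N X Y2 Y3 : Type} [Group N] [Finite N]
    [Group X] [Group Y2] [Group Y3] (h12 : ∀ D : Subgroup N, F D → Nat.card D ∣ 12)
    (h8 : ¬ 8 ∣ Nat.card N) (h9 : ¬ 9 ∣ Nat.card N) (h6 : ∀ g : N, orderOf g ≠ 6)
    (hc : ∃ c g : N, orderOf c = 3 ∧ g * c * g⁻¹ = c⁻¹)
    (hV : ∃ (B V : Subgroup N) (mu : B →* Multiplicative (ZMod 3)), Function.Surjective mu ∧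
      Nat.card V = 4 ∧ ∀ v ∈ V, ∃ hv : v ∈ B, mu ⟨v, hv⟩ = 1)
    (hX : F X) {H : Subgroup (N ≀ᵣ X)} (hH : Cov F H) (z2 : X →* Y2)
    (hz2 : Function.Surjective z2) (hY2 : CF F f 2 Y2) (z3 : X →* Y3)
    (hz3 : Function.Surjective z3) (hY3 : CF F f 3 Y3) : CF F f 3 Y2 ∨ CF F f 2 Y3 := by
  classical
  have hXf : Finite X := hF.finite X hX
  obtain ⟨m, hm1, hm2, -⟩ := kk2 (right_surj (F := F) (f := f) hF hf hX hH)
  have hcov' : Cov F (H.comap (MulAut.conj m).toMonoidHom) := hH.conj hF m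
  have hord : ∀ s : ℕ, s.Prime → s ∣ Nat.card (compSub H) →
      ∃ w ∈ H.comap (MulAut.conj m).toMonoidHom, w.right = 1 ∧ w ≠ 1 ∧ w ^ s = 1 :=
    fun s hs hd => base_conj hs hd m
  have hFD : F (compSub H) := F_range hF hher hH.1
  have hdvd := h12 _ hFD
  set D := compSub H with hD
  set H' := H.comap (MulAut.conj m).toMonoidHom with hH'
  have hpos : 0 < Nat.card D := Nat.card_pos
  have hle : Nat.card D ≤ 12 := Nat.le_of_dvd (by norm_num) hdvd
  have hcases : Nat.card D ∣ 3 ^ 1 ∨ Nat.card D ∣ 2 ^ 2 ∨ Nat.card D = 6 ∨ Nat.card D = 12 := by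
    interval_cases Nat.card D <;> omega
  obtain ⟨c, g, hc3, hgc⟩ := hc
  have hc3' : c ^ 3 = 1 := by rw [← hc3]; exact pow_orderOf_eq_one c
  have hc1 : c ≠ 1 := by
    intro h
    rw [h, orderOf_one] at hc3
    norm_num at hc3
  have hcc : ∀ {e : N}, e ^ 3 = 1 → e ≠ 1 → e ≠ e⁻¹ := by
    intro e he he1 h
    apply he1
    refine eq_one_of_23 ?_ he
    rw [pow_two]
    nth_rewrite 1 [h]
    exact inv_mul_cancel e
  have h2Λ : IsPGroup 2 (Multiplicative (ZMod 2)) := IsPGroup.of_card (n := 1) (by simp)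
  have h3Λ : IsPGroup 3 (Multiplicative (ZMod 3)) := IsPGroup.of_card (n := 1) (by simp)
  rcases hcases with hcard | hcard | hcard | hcard
  · -- `D` is a 3-group
    exfalso
    have hDp : IsPGroup 3 D := by
      obtain ⟨k, -, hk⟩ := (Nat.dvd_prime_pow Nat.prime_three).1 hcard
      exact IsPGroup.of_card hk
    obtain ⟨Q, hQ⟩ := conj_into Nat.prime_three hDp (T := Subgroup.zpowers c) (n := 1)
      (by rw [card_zp3 hc3' hc1, pow_one]) h9
    have hN0 := left_of_const_conj Q hm2 hQ
    have hcz : ∀ t ∈ Subgroup.zpowers c, t * c = c * t := by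
      rintro _ ⟨i, rfl⟩
      change c ^ i * c = c * c ^ i
      rw [← zpow_add_one, ← zpow_one_add, add_comm]
    have hsub : ∀ t ∈ Subgroup.zpowers c, t ∈ fixInv c := by
      intro t ht
      rw [mem_fixInv]
      left
      rw [hcz t ht, mul_inv_cancel_right]
    have hmu : Function.Surjective (fixInvSign c (hcc hc3' hc1)) := by
      have hg : g ∈ fixInv c := Or.inr hgc
      have h1 : fixInvSign c (hcc hc3' hc1) ⟨g, hg⟩ ≠ 1 := by
        rw [Ne, fixInvSign_eq_one]
        intro h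
        have h2 : g * c * g⁻¹ = c := by
          rw [mul_inv_eq_iff_eq_mul]
          exact h
        exact hcc hc3' hc1 (h2.symm.trans hgc)
      have h2 : ∀ a b : Multiplicative (ZMod 2), a ≠ 1 → b = 1 ∨ b = a := by decide
      intro b
      rcases h2 _ b h1 with h3 | h3
      · exact ⟨1, by rw [map_one, h3]⟩
      · exact ⟨_, h3.symm⟩
    obtain ⟨h, hh, y, hy⟩ := exists_mu_ne hF hf hher Nat.prime_two hf2 (fixInv c) h2Λ
      (fixInvSign c (hcc hc3' hc1)) hmu hX (hcov'.conj hF _) (fun h hh z => hsub _ (hN0 h hh z))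
    apply hy
    rw [fixInvSign_eq_one]
    exact hcz _ (hN0 h hh y)
  · -- `D` is a 2-group
    exfalso
    have hDp : IsPGroup 2 D := by
      obtain ⟨k, -, hk⟩ := (Nat.dvd_prime_pow Nat.prime_two).1 hcard
      exact IsPGroup.of_card hk
    obtain ⟨B, V, mu, hmu, hV4, hVB⟩ := hV
    obtain ⟨Q, hQ⟩ := conj_into Nat.prime_two hDp (T := V) (n := 2)
      (by rw [hV4]; norm_num) h8
    have hN0 := left_of_const_conj Q hm2 hQ
    obtain ⟨h, hh, y, hy⟩ := exists_mu_ne hF hf hher Nat.prime_three hf3 B h3Λ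
      mu hmu hX (hcov'.conj hF _) (fun h hh z => (hVB _ (hN0 h hh z)).1)
    apply hy
    exact (hVB _ (hN0 h hh y)).2
  · -- order 6
    left
    obtain ⟨e, he3, he1, hen, het⟩ := order_six hcard
    have he3' : (e : N) ^ 3 = 1 := congrArg Subtype.val he3
    have he1' : (e : N) ≠ 1 := fun h => he1 (Subtype.ext h)
    have hsub : D ≤ fixInv (e : N) := by
      intro d hd
      rw [mem_fixInv]
      rcases hen ⟨d, hd⟩ with h | h
      · exact Or.inl (congrArg Subtype.val h)
      · exact Or.inr (congrArg Subtype.val h)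
    let μ : D →* Multiplicative (ZMod 2) :=
      (fixInvSign (e : N) (hcc he3' he1')).comp (Subgroup.inclusion hsub)
    have hμ1 : ∀ d : D, μ d = 1 ↔ (d : N) * e = e * d := by
      intro d
      exact fixInvSign_eq_one (e : N) (hcc he3' he1') (Subgroup.inclusion hsub d)
    have hμ : Function.Surjective μ := by
      obtain ⟨t, ht, ht1⟩ := exists_order (G := D) Nat.prime_two (by rw [hcard]; norm_num)
      have h1 : μ t ≠ 1 := by
        rw [Ne, hμ1]
        intro h
        exact no_comm h6 (congrArg Subtype.val ht) (fun h => ht1 (Subtype.ext h)) he3' he1' h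
      have h2 : ∀ a b : Multiplicative (ZMod 2), a ≠ 1 → b = 1 ∨ b = a := by decide
      intro b
      rcases h2 _ b h1 with h3 | h3
      · exact ⟨1, by rw [map_one, h3]⟩
      · exact ⟨_, h3.symm⟩
    have hCe : ∀ v ∈ Subgroup.zpowers (e : N), v ≠ 1 → ∀ t : N, t * v = v * t →
        t * e = e * t := by
      intro v hv hv1 t htv
      rcases zp3 he3' hv with h | h | h
      · exact absurd h hv1
      · rw [h] at htv; exact htv
      · rw [h] at htv
        have h1 : (e : N) * (t * (e : N)⁻¹) * e = e * ((e : N)⁻¹ * t) * e := by rw [htv]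
        have h2 : (e : N) * t = t * e := by
          have e1 : (e : N) * (t * (e : N)⁻¹) * e = e * t := by group
          have e2 : (e : N) * ((e : N)⁻¹ * t) * e = t * e := by group
          rw [← e1, ← e2]
          exact h1
        exact h2.symm
    obtain ⟨w0, hw0, hw01, hw02, hw03⟩ := hord 3 Nat.prime_three (by rw [hcard]; norm_num)
    refine apply_main hF hf hher Nat.prime_two Nat.prime_three hf2 hf3 D h2Λ μ hμ ?_ hX
      (W := baseSub H' (Subgroup.zpowers (e : N))) hcov' (fun w hw => hw.1) ?_ ?_ ?_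
      (fun w hw => hw.2.1) hm2 ?_ z2 hz2 hY2
    · rintro t ht ⟨j, hj⟩
      rw [hμ1] at ht
      by_contra ht1
      have h1 : orderOf t ∣ 2 ^ j := orderOf_dvd_of_pow_eq_one hj
      obtain ⟨i, -, hi⟩ := (Nat.dvd_prime_pow Nat.prime_two).1 h1
      have h2 : orderOf t ∣ 6 := by rw [← hcard]; exact orderOf_dvd_natCard t
      have hi1 : i ≤ 1 := by
        by_contra hi2
        push Not at hi2
        have h3 : 2 ^ 2 ∣ 6 := (pow_dvd_pow 2 hi2).trans (hi ▸ h2)
        norm_num at h3
      have h3 : t ^ 2 = 1 := by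
        apply orderOf_dvd_iff_pow_eq_one.1
        rw [hi]
        exact (pow_dvd_pow 2 hi1).trans (by norm_num)
      exact no_comm h6 (congrArg Subtype.val h3) (fun h => ht1 (Subtype.ext h)) he3' he1' ht
    · refine baseSub_normal fun h hh z u hu => ?_
      have h1 := hsub (hm2 h hh z)
      obtain ⟨i, rfl⟩ := hu
      change h.left z * (e : N) ^ i * (h.left z)⁻¹ ∈ _
      rw [← conj_zpow]
      rcases h1 with h1 | h1
      · rw [h1]; exact ⟨i, rfl⟩
      · rw [h1, inv_zpow]
        exact Subgroup.inv_mem _ ⟨i, rfl⟩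
    · rintro ⟨w, hw⟩
      refine ⟨1, Subtype.ext ?_⟩
      show w ^ 3 ^ 1 = 1
      rw [pow_one]
      have h1 := pow_base w hw.2.1 3
      refine RegularWreathProduct.ext ?_ h1.1
      rw [h1.2]
      funext z
      obtain ⟨i, hi⟩ := hw.2.2 z
      change (w.left z) ^ 3 = 1
      rw [← hi]
      change ((e : N) ^ i) ^ 3 = 1
      rw [← zpow_natCast, ← zpow_mul, mul_comm, zpow_mul, zpow_natCast, he3', one_zpow]
    · intro hbot
      have h1 : w0 ∈ baseSub H' (Subgroup.zpowers (e : N)) := by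
        refine ⟨hw0, hw01, fun z => ?_⟩
        have h2 : (⟨w0.left z, hm2 w0 hw0 z⟩ : D) ^ 3 = 1 := Subtype.ext (left_pow hw01 hw03 z)
        rcases het _ h2 with h3 | h3 | h3
        · have h4 : w0.left z = 1 := congrArg Subtype.val h3
          rw [h4]; exact Subgroup.one_mem _
        · have h4 : w0.left z = e := congrArg Subtype.val h3
          rw [h4]; exact Subgroup.mem_zpowers _
        · have h4 : w0.left z = (e : N)⁻¹ := congrArg Subtype.val h3
          rw [h4]; exact Subgroup.inv_mem _ (Subgroup.mem_zpowers _)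
      rw [hbot, Subgroup.mem_bot] at h1
      exact hw02 h1
    · intro w hw x hx
      refine ⟨Multiplicative.ofAdd 1, fun t ht htc => ?_⟩
      have h1 : μ t = 1 := by
        rw [hμ1]
        exact hCe _ (hw.2.2 x) hx t htc
      rw [h1] at ht
      exact absurd ht (by decide)
  · -- order 12
    right
    have h6D : ∀ d : D, orderOf d ≠ 6 := fun d => by
      rw [← Subgroup.orderOf_coe]
      exact h6 _
    obtain ⟨μ, hμ, hker⟩ := order_twelve hcard h6D
    set V := μ.ker.map D.subtype with hVdef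
    have hVmem : ∀ v : N, v ∈ V ↔ ∃ hv : v ∈ D, μ ⟨v, hv⟩ = 1 := by
      intro v
      constructor
      · rintro ⟨⟨v', hv'⟩, hv1, rfl⟩
        exact ⟨hv', hv1⟩
      · rintro ⟨hv, hv1⟩
        exact ⟨⟨v, hv⟩, hv1, rfl⟩
    have hV4 : ∀ v ∈ V, v ^ 4 = 1 := by
      intro v hv
      obtain ⟨hv0, hv1⟩ := (hVmem v).1 hv
      have h1 : (⟨⟨v, hv0⟩, hv1⟩ : μ.ker) ^ 4 = 1 := by
        rw [← hker]
        exact pow_card_eq_one'
      exact congrArg (fun x : μ.ker => x.1.1) h1
    have hcd : ∀ t : D, t ^ 12 = 1 := fun t => by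
      rw [← hcard]
      exact pow_card_eq_one'
    have hZ3 : ∀ a : Multiplicative (ZMod 3), a ^ 3 = 1 := by decide
    obtain ⟨w0, hw0, hw01, hw02, hw03⟩ := hord 2 Nat.prime_two (by rw [hcard]; norm_num)
    refine apply_main hF hf hher Nat.prime_three Nat.prime_two hf3 hf2 D h3Λ μ hμ ?_ hX
      (W := baseSub H' V) hcov' (fun w hw => hw.1) ?_ ?_ ?_
      (fun w hw => hw.2.1) hm2 ?_ z3 hz3 hY3
    · rintro t ht ⟨j, hj⟩
      have h1 : (t : N) ^ 4 = 1 := hV4 _ ((hVmem _).2 ⟨t.2, ht⟩)
      have h2 : t ^ 4 = 1 := Subtype.ext h1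
      have h3 : orderOf t ∣ Nat.gcd 4 (3 ^ j) :=
        Nat.dvd_gcd (orderOf_dvd_of_pow_eq_one h2) (orderOf_dvd_of_pow_eq_one hj)
      have h4 : Nat.gcd 4 (3 ^ j) = 1 := Nat.Coprime.pow_right _ (by norm_num)
      rw [h4, Nat.dvd_one, orderOf_eq_one_iff] at h3
      exact h3
    · refine baseSub_normal fun h hh z u hu => ?_
      obtain ⟨hu0, hu1⟩ := (hVmem u).1 hu
      refine (hVmem _).2 ⟨D.mul_mem (D.mul_mem (hm2 h hh z) hu0) (D.inv_mem (hm2 h hh z)), ?_⟩
      have e1 : (⟨h.left z * u * (h.left z)⁻¹,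
          D.mul_mem (D.mul_mem (hm2 h hh z) hu0) (D.inv_mem (hm2 h hh z))⟩ : D) =
          ⟨h.left z, hm2 h hh z⟩ * ⟨u, hu0⟩ * (⟨h.left z, hm2 h hh z⟩ : D)⁻¹ := rfl
      rw [e1, map_mul, map_mul, hu1, mul_one, map_inv, mul_inv_cancel]
    · rintro ⟨w, hw⟩
      refine ⟨2, Subtype.ext ?_⟩
      show w ^ 2 ^ 2 = 1
      have h1 := pow_base w hw.2.1 (2 ^ 2)
      refine RegularWreathProduct.ext ?_ h1.1
      rw [h1.2]
      funext z
      exact hV4 _ (hw.2.2 z)
    · intro hbot
      have h1 : w0 ∈ baseSub H' V := by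
        refine ⟨hw0, hw01, fun z => (hVmem _).2 ⟨hm2 w0 hw0 z, ?_⟩⟩
        have h2 : (⟨w0.left z, hm2 w0 hw0 z⟩ : D) ^ 2 = 1 := Subtype.ext (left_pow hw01 hw03 z)
        refine eq_one_of_23 ?_ (hZ3 _)
        rw [← map_pow, h2, map_one]
      rw [hbot, Subgroup.mem_bot] at h1
      exact hw02 h1
    · intro w hw x hx
      refine ⟨Multiplicative.ofAdd 1, fun t ht htc => ?_⟩
      set v := w.left x with hv
      have hvV : v ∈ V := hw.2.2 x
      have hv4 := hV4 v hvV
      -- an involution commuting with `t`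
      obtain ⟨i, hi2, hi1, hic⟩ : ∃ i : N, i ^ 2 = 1 ∧ i ≠ 1 ∧ (t : N) * i = i * t := by
        by_cases h2 : v ^ 2 = 1
        · exact ⟨v, h2, hx, htc⟩
        · refine ⟨v ^ 2, ?_, h2, ?_⟩
          · rw [← pow_mul]
            exact hv4
          · exact (Commute.pow_right (show Commute (t : N) v from htc) 2).eq
      have ht4 : μ (t ^ 4) ≠ 1 := by
        rw [map_pow, ht]
        decide
      have h3 : (t : N) ^ 4 ≠ 1 := by
        intro h
        apply ht4
        have h5 : t ^ 4 = 1 := Subtype.ext h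
        rw [h5, map_one]
      have h4 : ((t : N) ^ 4) ^ 3 = 1 := by
        rw [← pow_mul]
        exact congrArg Subtype.val (hcd t)
      exact no_comm h6 hi2 hi1 h4 h3
        (Commute.pow_right (show Commute i (t : N) from hic.symm) 4).eq

end Pool.Agent.CoveringSubgroups.H6
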