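import Pool.Agent.Lib.MP_7252b7_al_h9.SlCases

/-!
# Subgroups of `SL_3(K)` with a normal `3`-subgroup, `K` of characteristic `3`

* `parP`: the stabiliser of the line of the first basis vector, `alph : parP K →* Kˣ`;
* `IsR`: the matrices `1 + (entries in the first row)`; `SpanR`;
* `tauS`: inverse transpose;
* `caseI_geom`: a group with a normal `3`-subgroup `A ≠ 1` is conjugate into `lowB`, or (after
  `tauS`) into `parP` with `A` in `IsR`, spanning;
* `alph_eq_of_conj`: elements of `parP` which act in the same way on a spanning set have the same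
  `alph`;
* `parP_data`: the `r`-part of `alph`.
-/

set_option autoImplicit false
set_option linter.unusedSectionVars false

namespace Pool.Agent.CoveringSubgroups.H6

open Module Pool.Agent.CoveringSubgroups.H9

/-! ### Fixed vectors -/

/-- A `p`-group acting linearly on a nonzero space over a finite field of characteristic `p` has a
nonzero fixed vector. -/
theorem exists_fixed {p : ℕ} [Fact p.Prime] {K : Type} [Field K] [Finite K] [CharP K p] {A : Type}
    [Group A] (hA : IsPGroup p A) {M : Type} [AddCommGroup M] [Module K M]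
    [Finite M] [Nontrivial M] (ρ : A →* End K M) : ∃ m : M, m ≠ 0 ∧ ∀ a, ρ a m = m := by
  let _ : MulAction A M := MulAction.compHom M ρ
  have hsm : ∀ (a : A) (m : M), a • m = ρ a m := fun _ _ => rfl
  have hdvd : p ∣ Nat.card M := by
    obtain ⟨x, hx⟩ := exists_ne (0 : M)
    have h1 : p • x = 0 := by
      rw [← Nat.cast_smul_eq_nsmul K, CharP.cast_eq_zero, zero_smul]
    have h2 : addOrderOf x = p := addOrderOf_eq_prime h1 hx
    rw [← h2]
    exact addOrderOf_dvd_natCard x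
  have h0 : (0 : M) ∈ MulAction.fixedPoints A M := fun a => by rw [hsm, map_zero]
  obtain ⟨b, hb, hb0⟩ := hA.exists_fixed_point_of_prime_dvd_card_of_fixed_point M hdvd h0
  exact ⟨b, hb0.symm, fun a => hb a⟩

section

variable {K : Type} [Field K]

/-- the action on column vectors -/
def act (g : SLp 3 K) (v : Fin 3 → K) : Fin 3 → K := (g : Matrix (Fin 3) (Fin 3) K).mulVec v

theorem act_one (v : (Fin 3 → K)) : act (1 : SLp 3 K) v = v := by
  rw [act, Matrix.SpecialLinearGroup.coe_one, Matrix.one_mulVec]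

theorem act_mul (g h : SLp 3 K) (v : (Fin 3 → K)) : act (g * h) v = act g (act h v) := by
  rw [act, act, act, Matrix.SpecialLinearGroup.coe_mul, Matrix.mulVec_mulVec]

theorem act_add (g : SLp 3 K) (v w : (Fin 3 → K)) : act g (v + w) = act g v + act g w :=
  Matrix.mulVec_add _ _ _

theorem act_sub (g : SLp 3 K) (v w : (Fin 3 → K)) : act g (v - w) = act g v - act g w :=
  Matrix.mulVec_sub _ _ _

theorem act_smul (g : SLp 3 K) (c : K) (v : (Fin 3 → K)) : act g (c • v) = c • act g v :=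
  Matrix.mulVec_smul _ _ _

theorem act_inv (g : SLp 3 K) (v : (Fin 3 → K)) : act g⁻¹ (act g v) = v := by
  rw [← act_mul, inv_mul_cancel, act_one]

theorem act_inv' (g : SLp 3 K) (v : (Fin 3 → K)) : act g (act g⁻¹ v) = v := by
  rw [← act_mul, mul_inv_cancel, act_one]

/-- the action as a representation -/
def actHom (K : Type) [Field K] : SLp 3 K →* End K (Fin 3 → K) where
  toFun g :=
    { toFun := act g
      map_add' := act_add g
      map_smul' := act_smul g }
  map_one' := LinearMap.ext fun v => act_one v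
  map_mul' g h := LinearMap.ext fun v => act_mul g h v

theorem actHom_apply (g : SLp 3 K) (v : (Fin 3 → K)) : actHom K g v = act g v := rfl

theorem eq_of_act {g h : SLp 3 K} (H : ∀ v, act g v = act h v) : g = h := by
  apply Subtype.ext
  apply Matrix.toLin'.injective
  exact LinearMap.ext fun v => by
    rw [Matrix.toLin'_apply, Matrix.toLin'_apply]
    exact H v

/-! ### Bases -/

theorem indep3 {v0 v1 v2 : (Fin 3 → K)} (h2 : v2 ≠ 0) (h1 : v1 ∉ Submodule.span K {v2})
    (h0 : v0 ∉ Submodule.span K {v1, v2}) : LinearIndependent K ![v0, v1, v2] := by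
  have e1 : LinearIndependent K ![v2] := by
    rw [linearIndependent_unique_iff]
    exact h2
  have e2 : LinearIndependent K ![v1, v2] := by
    refine linearIndependent_finCons.2 ⟨e1, ?_⟩
    have : Set.range (![v2] : Fin 1 → (Fin 3 → K)) = {v2} := by
      rw [Matrix.range_cons, Matrix.range_empty, Set.union_empty]
    rw [this]
    exact h1
  refine linearIndependent_finCons.2 ⟨e2, ?_⟩
  have : Set.range (![v1, v2] : Fin 2 → (Fin 3 → K)) = {v1, v2} := by
    rw [Matrix.range_cons, Matrix.range_cons, Matrix.range_empty, Set.union_empty]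
    rfl
  rw [this]
  exact h0

theorem exists_basis3 {v0 v1 v2 : (Fin 3 → K)} (h2 : v2 ≠ 0) (h1 : v1 ∉ Submodule.span K {v2})
    (h0 : v0 ∉ Submodule.span K {v1, v2}) :
    ∃ b : Basis (Fin 3) K (Fin 3 → K), b 0 = v0 ∧ b 1 = v1 ∧ b 2 = v2 := by
  have h := indep3 h2 h1 h0
  refine ⟨basisOfLinearIndependentOfCardEqFinrank h (by
    rw [Fintype.card_fin, Module.finrank_fin_fun]), ?_, ?_, ?_⟩
  · rw [coe_basisOfLinearIndependentOfCardEqFinrank]; rfl
  · rw [coe_basisOfLinearIndependentOfCardEqFinrank]; rfl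
  · rw [coe_basisOfLinearIndependentOfCardEqFinrank]; rfl

theorem repr3 (b : Basis (Fin 3) K (Fin 3 → K)) (x : (Fin 3 → K)) :
    x = b.repr x 0 • b 0 + b.repr x 1 • b 1 + b.repr x 2 • b 2 := by
  conv_lhs => rw [← b.sum_repr x]
  rw [Fin.sum_univ_three]

theorem repr_eq (b : Basis (Fin 3) K (Fin 3 → K)) {x : (Fin 3 → K)} {c0 c1 c2 : K}
    (h : x = c0 • b 0 + c1 • b 1 + c2 • b 2) :
    b.repr x 0 = c0 ∧ b.repr x 1 = c1 ∧ b.repr x 2 = c2 := by
  rw [h]
  simp only [map_add, map_smul, Basis.repr_self, Finsupp.add_apply, Finsupp.smul_apply,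
    Finsupp.single_apply, smul_eq_mul]
  refine ⟨by simp, by simp, by simp⟩

/-- a basis adapted to a flag -/
theorem exists_flag_basis {L P : Submodule K (Fin 3 → K)} (hL : L ≠ ⊥) (hLP : L < P) (hP : P ≠ ⊤) :
    ∃ b : Basis (Fin 3) K (Fin 3 → K), (∀ x ∈ P, b.repr x 0 = 0) ∧
      (∀ x ∈ L, b.repr x 0 = 0 ∧ b.repr x 1 = 0) ∧ b 2 ∈ L ∧ b 1 ∈ P := by
  obtain ⟨v2, hv2, hv20⟩ := (Submodule.ne_bot_iff L).1 hL
  obtain ⟨v1, hv1, hv1L⟩ := Set.exists_of_ssubset hLP
  obtain ⟨v0, hv0⟩ : ∃ v0, v0 ∉ P := by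
    by_contra h
    push Not at h
    exact hP (eq_top_iff.2 fun x _ => h x)
  have hsL : Submodule.span K {v2} ≤ L := (Submodule.span_singleton_le_iff_mem v2 L).2 hv2
  have hsP : Submodule.span K {v1, v2} ≤ P := Submodule.span_le.2 (by
    rintro x (rfl | rfl)
    · exact hv1
    · exact hLP.le hv2)
  obtain ⟨b, hb0, hb1, hb2⟩ := exists_basis3 hv20 (fun h => hv1L (hsL h)) (fun h => hv0 (hsP h))
  have hP0 : ∀ x ∈ P, b.repr x 0 = 0 := by
    intro x hx
    by_contra hne
    apply hv0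
    have h1 := repr3 b x
    rw [hb0, hb1, hb2] at h1
    have h2 : b.repr x 0 • v0 ∈ P := by
      have h3 : b.repr x 0 • v0 = x - (b.repr x 1 • v1 + b.repr x 2 • v2) := by
        rw [eq_sub_iff_add_eq, ← add_assoc]
        exact h1.symm
      rw [h3]
      exact P.sub_mem hx (P.add_mem (P.smul_mem _ hv1) (P.smul_mem _ (hLP.le hv2)))
    exact (P.smul_mem_iff hne).1 h2
  refine ⟨b, hP0, fun x hx => ⟨hP0 x (hLP.le hx), ?_⟩, hb2 ▸ hv2, hb1 ▸ hv1⟩
  by_contra hne
  apply hv1L
  have h1 := repr3 b x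
  rw [hb0, hb1, hb2, hP0 x (hLP.le hx), zero_smul, zero_add] at h1
  have h2 : b.repr x 1 • v1 ∈ L := by
    have h3 : b.repr x 1 • v1 = x - b.repr x 2 • v2 := by
      rw [eq_sub_iff_add_eq]
      exact h1.symm
    rw [h3]
    exact L.sub_mem hx (L.smul_mem _ hv2)
  exact (L.smul_mem_iff hne).1 h2

end

section

variable {K : Type} [Field K] [Finite K] [CharP K 3]

/-- **A stable flag.** -/
theorem lowB_of_flag (D : Subgroup (SLp 3 K)) {L P : Submodule K (Fin 3 → K)} (hL : L ≠ ⊥) (hLP : L < P)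
    (hP : P ≠ ⊤) (hDL : ∀ d ∈ D, ∀ x ∈ L, act d x ∈ L) (hDP : ∀ d ∈ D, ∀ x ∈ P, act d x ∈ P) :
    ∃ Q : SLp 3 K, ∀ d ∈ D, Q⁻¹ * d * Q ∈ lowB 3 K := by
  obtain ⟨b, h1, h2, h3, h4⟩ := exists_flag_basis hL hLP hP
  obtain ⟨Q, hQ⟩ := exists_change Nat.prime_three b
  refine ⟨Q, fun d hd => mem_lowB.2 fun i j hij => ?_⟩
  rw [hQ]
  have e1 : b.repr (act d (b 1)) 0 = 0 := h1 _ (hDP d hd _ h4)
  have e2 := h2 _ (hDL d hd _ h3)
  fin_cases i <;> fin_cases j <;> first | exact absurd hij (by decide) | exact e1 | exact e2.1 |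
    exact e2.2

/-- The stabiliser of the line of the first basis vector. -/
def parP (K : Type) [Field K] [Finite K] : Subgroup (SLp 3 K) :=
  subOfFinite
    { carrier := {g | g 1 0 = 0 ∧ g 2 0 = 0}
      one_mem' := by
        constructor <;> rw [Matrix.SpecialLinearGroup.coe_one] <;>
          exact Matrix.one_apply_ne (by decide)
      mul_mem' := by
        rintro a b ⟨ha1, ha2⟩ ⟨hb1, hb2⟩
        constructor
        · rw [slp_mul, Fin.sum_univ_three, ha1, hb1, hb2]
          ring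
        · rw [slp_mul, Fin.sum_univ_three, ha2, hb1, hb2]
          ring }

omit [CharP K 3] in
theorem mem_parP {g : SLp 3 K} : g ∈ parP K ↔ g 1 0 = 0 ∧ g 2 0 = 0 := Iff.rfl

/-- `1 + (entries in the first row)` -/
def IsR (g : SLp 3 K) : Prop :=
  (g 0 0 = 1 ∧ g 1 1 = 1 ∧ g 2 2 = 1) ∧ g 1 0 = 0 ∧ g 2 0 = 0 ∧ g 1 2 = 0 ∧ g 2 1 = 0

/-- two elements with independent first rows -/
def SpanR (S : Set (SLp 3 K)) : Prop := ∃ a ∈ S, ∃ b ∈ S, a 0 1 * b 0 2 - a 0 2 * b 0 1 ≠ 0

omit [Finite K] [CharP K 3] in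
theorem det3 (g : SLp 3 K) : g 0 0 * g 1 1 * g 2 2 - g 0 0 * g 1 2 * g 2 1 - g 0 1 * g 1 0 * g 2 2 +
    g 0 1 * g 1 2 * g 2 0 + g 0 2 * g 1 0 * g 2 1 - g 0 2 * g 1 1 * g 2 0 = 1 := by
  have h := g.2
  rw [Matrix.det_fin_three] at h
  exact h

omit [Finite K] in
/-- An element of `parP` which commutes with a spanning set of `R` has first entry `1`. -/
theorem entry_of_comm {u : SLp 3 K} (hu : u 1 0 = 0 ∧ u 2 0 = 0) {S : Set (SLp 3 K)}
    (hS : ∀ s ∈ S, IsR s) (hsp : SpanR S) (hc : ∀ s ∈ S, u * s = s * u) : u 0 0 = 1 := by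
  have key : ∀ s ∈ S, u 0 0 * s 0 1 = s 0 1 * u 1 1 + s 0 2 * u 2 1 ∧
      u 0 0 * s 0 2 = s 0 1 * u 1 2 + s 0 2 * u 2 2 := by
    intro s hs
    obtain ⟨⟨h00, h11, h22⟩, h10, h20, h12, h21⟩ := hS s hs
    have e := hc s hs
    constructor
    · have e1 : (u * s) 0 1 = (s * u) 0 1 := by rw [e]
      rw [slp_mul, slp_mul, Fin.sum_univ_three, Fin.sum_univ_three, h00, h11, h21] at e1
      linear_combination e1
    · have e1 : (u * s) 0 2 = (s * u) 0 2 := by rw [e]
      rw [slp_mul, slp_mul, Fin.sum_univ_three, Fin.sum_univ_three, h00, h12, h22] at e1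
      linear_combination e1
  obtain ⟨a, ha, b, hb, hab⟩ := hsp
  obtain ⟨a1, a2⟩ := key a ha
  obtain ⟨b1, b2⟩ := key b hb
  have h1 : (u 0 0 - u 1 1) * (a 0 1 * b 0 2 - a 0 2 * b 0 1) = 0 := by
    linear_combination b 0 2 * a1 - a 0 2 * b1
  have h2 : u 2 1 * (a 0 1 * b 0 2 - a 0 2 * b 0 1) = 0 := by
    linear_combination b 0 1 * a1 - a 0 1 * b1
  have h3 : u 1 2 * (a 0 1 * b 0 2 - a 0 2 * b 0 1) = 0 := by
    linear_combination -b 0 2 * a2 + a 0 2 * b2
  have h4 : (u 0 0 - u 2 2) * (a 0 1 * b 0 2 - a 0 2 * b 0 1) = 0 := by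
    linear_combination -b 0 1 * a2 + a 0 1 * b2
  have e1 := sub_eq_zero.1 ((mul_eq_zero.1 h1).resolve_right hab)
  have e2 := (mul_eq_zero.1 h2).resolve_right hab
  have e3 := (mul_eq_zero.1 h3).resolve_right hab
  have e4 := sub_eq_zero.1 ((mul_eq_zero.1 h4).resolve_right hab)
  have hd := det3 u
  rw [hu.1, hu.2, e2, e3, ← e1, ← e4] at hd
  have h5 : u 0 0 ^ 3 = 1 := by linear_combination hd
  have h6 : (u 0 0 - 1) ^ 3 = 0 := by
    rw [sub_pow_char, h5, one_pow, sub_self]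
  exact sub_eq_zero.1 (pow_eq_zero_iff (by norm_num) |>.1 h6)

/-- The first entry. -/
def alph (K : Type) [Field K] [Finite K] : parP K →* Kˣ where
  toFun g := ⟨(g : SLp 3 K) 0 0, ((g⁻¹ : parP K) : SLp 3 K) 0 0, by
    have h : ((g : SLp 3 K) * ((g⁻¹ : parP K) : SLp 3 K)) 0 0 = 1 := by
      rw [Subgroup.coe_inv, mul_inv_cancel, Matrix.SpecialLinearGroup.coe_one]
      exact Matrix.one_apply_eq 0
    rw [slp_mul, Fin.sum_univ_three, (mem_parP.1 (g⁻¹ : parP K).2).1,
      (mem_parP.1 (g⁻¹ : parP K).2).2] at h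
    linear_combination h, by
    have h : (((g⁻¹ : parP K) : SLp 3 K) * (g : SLp 3 K)) 0 0 = 1 := by
      rw [Subgroup.coe_inv, inv_mul_cancel, Matrix.SpecialLinearGroup.coe_one]
      exact Matrix.one_apply_eq 0
    rw [slp_mul, Fin.sum_univ_three, (mem_parP.1 g.2).1, (mem_parP.1 g.2).2] at h
    linear_combination h⟩
  map_one' := by
    apply Units.ext
    change ((1 : SLp 3 K) 0 0) = 1
    rw [Matrix.SpecialLinearGroup.coe_one]
    exact Matrix.one_apply_eq 0
  map_mul' := by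
    intro a b
    apply Units.ext
    change ((a : SLp 3 K) * (b : SLp 3 K)) 0 0 = (a : SLp 3 K) 0 0 * (b : SLp 3 K) 0 0
    rw [slp_mul, Fin.sum_univ_three, (mem_parP.1 b.2).1, (mem_parP.1 b.2).2]
    ring

omit [CharP K 3] in
theorem alph_val (g : parP K) : ((alph K g : Kˣ) : K) = (g : SLp 3 K) 0 0 := rfl

/-- **Elements which act in the same way on a spanning set of `R`.** -/
theorem alph_eq_of_conj {h h' g : parP K} {S : Set (SLp 3 K)} (hS : ∀ s ∈ S, IsR s)
    (hsp : SpanR S) (hc : ∀ s ∈ S, ((h * g : parP K) : SLp 3 K) * s * ((h * g : parP K) : SLp 3 K)⁻¹ =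
      ((g * h' : parP K) : SLp 3 K) * s * ((g * h' : parP K) : SLp 3 K)⁻¹) :
    alph K h = alph K h' := by
  have h1 := entry_of_comm (u := (((g * h')⁻¹ * (h * g) : parP K) : SLp 3 K))
    (mem_parP.1 ((g * h')⁻¹ * (h * g) : parP K).2) hS hsp fun s hs => by
      have e := hc s hs
      rw [Subgroup.coe_mul, Subgroup.coe_inv]
      have e2 : ((g * h' : parP K) : SLp 3 K)⁻¹ * ((h * g : parP K) : SLp 3 K) * s =
          ((g * h' : parP K) : SLp 3 K)⁻¹ * (((h * g : parP K) : SLp 3 K) * s *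
            ((h * g : parP K) : SLp 3 K)⁻¹) * ((h * g : parP K) : SLp 3 K) := by group
      rw [e2, e]
      group
  have h2 : alph K ((g * h')⁻¹ * (h * g)) = 1 := Units.ext h1
  rw [map_mul, map_inv, map_mul, map_mul, inv_mul_eq_one, mul_comm] at h2
  exact (mul_right_cancel h2).symm

/-- inverse transpose -/
def tauS (K : Type) [Field K] : SLp 3 K ≃* SLp 3 K where
  toFun g := (g⁻¹).transpose
  invFun g := (g⁻¹).transpose
  left_inv g := by
    apply Subtype.ext
    change (((g⁻¹).transpose)⁻¹).transpose.1 = g.1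
    have h : ((g⁻¹).transpose)⁻¹ = g.transpose := by
      rw [inv_eq_iff_mul_eq_one]
      apply Subtype.ext
      change (g⁻¹).1.transpose * g.1.transpose = 1
      rw [← Matrix.transpose_mul]
      have h2 : g.1 * (g⁻¹).1 = 1 := congrArg Subtype.val (mul_inv_cancel g)
      rw [h2, Matrix.transpose_one]
    rw [h]
    exact Matrix.transpose_transpose _
  right_inv g := by
    apply Subtype.ext
    change (((g⁻¹).transpose)⁻¹).transpose.1 = g.1
    have h : ((g⁻¹).transpose)⁻¹ = g.transpose := by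
      rw [inv_eq_iff_mul_eq_one]
      apply Subtype.ext
      change (g⁻¹).1.transpose * g.1.transpose = 1
      rw [← Matrix.transpose_mul]
      have h2 : g.1 * (g⁻¹).1 = 1 := congrArg Subtype.val (mul_inv_cancel g)
      rw [h2, Matrix.transpose_one]
    rw [h]
    exact Matrix.transpose_transpose _
  map_mul' a b := by
    apply Subtype.ext
    change ((a * b)⁻¹).1.transpose = (a⁻¹).1.transpose * (b⁻¹).1.transpose
    rw [← Matrix.transpose_mul, mul_inv_rev]
    rfl

omit [Finite K] [CharP K 3] in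
theorem tauS_apply (g : SLp 3 K) (i j : Fin 3) : tauS K g i j = g⁻¹ j i := rfl

/-! ### The geometry of case I -/

/-- the second alternative: conjugate into `parP`, `A` in `R` and spanning -/
def AltR (D A : Subgroup (SLp 3 K)) : Prop :=
  ∃ Q : SLp 3 K, (∀ d ∈ D, Q⁻¹ * d * Q ∈ parP K) ∧ (∀ a ∈ A, IsR (Q⁻¹ * a * Q)) ∧
    SpanR {x | ∃ a ∈ A, x = Q⁻¹ * a * Q}

/-- The vectors fixed by `A`. -/
def fixS (A : Subgroup (SLp 3 K)) : Submodule K (Fin 3 → K) where
  carrier := {v | ∀ a ∈ A, act a v = v}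
  add_mem' := by
    intro v w hv hw a ha
    rw [act_add, hv a ha, hw a ha]
  zero_mem' := by
    intro a _
    exact Matrix.mulVec_zero _
  smul_mem' := by
    intro c v hv a ha
    rw [act_smul, hv a ha]

omit [Finite K] [CharP K 3] in
theorem mem_fixS {A : Subgroup (SLp 3 K)} {v : (Fin 3 → K)} : v ∈ fixS A ↔ ∀ a ∈ A, act a v = v := Iff.rfl

/-- The vectors which are fixed modulo the fixed vectors. -/
def fix2 (A : Subgroup (SLp 3 K)) : Submodule K (Fin 3 → K) where
  carrier := {v | ∀ a ∈ A, act a v - v ∈ fixS A}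
  add_mem' := by
    intro v w hv hw a ha
    rw [act_add, add_sub_add_comm]
    exact (fixS A).add_mem (hv a ha) (hw a ha)
  zero_mem' := by
    intro a _
    rw [sub_zero]
    have : act a (0 : (Fin 3 → K)) = 0 := Matrix.mulVec_zero _
    rw [this]
    exact (fixS A).zero_mem
  smul_mem' := by
    intro c v hv a ha
    rw [act_smul, ← smul_sub]
    exact (fixS A).smul_mem c (hv a ha)

omit [Finite K] [CharP K 3] in
theorem mem_fix2 {A : Subgroup (SLp 3 K)} {v : (Fin 3 → K)} :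
    v ∈ fix2 A ↔ ∀ a ∈ A, act a v - v ∈ fixS A := Iff.rfl

section

variable {D A : Subgroup (SLp 3 K)} (hn : ∀ d ∈ D, ∀ a ∈ A, d * a * d⁻¹ ∈ A)

include hn

omit [Finite K] [CharP K 3] in
theorem inv_conj_mem {d a : SLp 3 K} (hd : d ∈ D) (ha : a ∈ A) : d⁻¹ * a * d ∈ A := by
  have h := hn d⁻¹ (D.inv_mem hd) a ha
  rwa [inv_inv] at h

omit [Finite K] [CharP K 3] in
theorem fixS_stable {d : SLp 3 K} (hd : d ∈ D) {v : (Fin 3 → K)} (hv : v ∈ fixS A) : act d v ∈ fixS A := by
  intro a ha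
  have h1 := hv _ (inv_conj_mem hn hd ha)
  rw [act_mul, act_mul] at h1
  calc act a (act d v) = act d (act d⁻¹ (act a (act d v))) := (act_inv' d _).symm
    _ = act d v := by rw [h1]

omit [Finite K] [CharP K 3] in
theorem fix2_stable {d : SLp 3 K} (hd : d ∈ D) {v : (Fin 3 → K)} (hv : v ∈ fix2 A) : act d v ∈ fix2 A := by
  intro a ha
  have h1 := fixS_stable hn hd (hv _ (inv_conj_mem hn hd ha))
  rw [act_sub, act_mul, act_mul, act_inv'] at h1
  exact h1

end

omit [Finite K] [CharP K 3] in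
theorem fixS_ne_top {A : Subgroup (SLp 3 K)} (hA : A ≠ ⊥) : fixS A ≠ ⊤ := by
  intro h
  apply hA
  refine (Subgroup.eq_bot_iff_forall A).2 fun a ha => eq_of_act fun v => ?_
  rw [act_one]
  exact mem_fixS.1 (h ▸ Submodule.mem_top : v ∈ fixS A) a ha

/-- the restriction of the action to `A` -/
def actA (A : Subgroup (SLp 3 K)) : A →* End K (Fin 3 → K) := (actHom K).comp A.subtype

theorem fixS_ne_bot {A : Subgroup (SLp 3 K)} (hA : IsPGroup 3 A) : fixS A ≠ ⊥ := by
  have : Fact (Nat.Prime 3) := ⟨Nat.prime_three⟩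
  obtain ⟨m, hm, h⟩ := exists_fixed (K := K) hA (actA A)
  exact (Submodule.ne_bot_iff _).2 ⟨m, fun a ha => h ⟨a, ha⟩, hm⟩

omit [Finite K] [CharP K 3] in
theorem fixS_le_fix2 (A : Subgroup (SLp 3 K)) : fixS A ≤ fix2 A := by
  intro v hv a ha
  rw [hv a ha, sub_self]
  exact (fixS A).zero_mem

theorem fixS_lt_fix2 {A : Subgroup (SLp 3 K)} (hA : IsPGroup 3 A) (hA1 : A ≠ ⊥) :
    fixS A < fix2 A := by
  have : Fact (Nat.Prime 3) := ⟨Nat.prime_three⟩
  have hst : ∀ a : A, fixS A ≤ (fixS A).comap (actA A a) := fun a v hv => by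
    change act (a : SLp 3 K) v ∈ fixS A
    rw [hv a a.2]
    exact hv
  let ρ : A →* End K ((Fin 3 → K) ⧸ fixS A) :=
    { toFun := fun a => (fixS A).mapQ (fixS A) (actA A a) (hst a)
      map_one' := by
        refine LinearMap.ext fun x => ?_
        obtain ⟨v, rfl⟩ := Submodule.Quotient.mk_surjective _ x
        change Submodule.Quotient.mk (act (1 : SLp 3 K) v) = Submodule.Quotient.mk v
        rw [act_one]
      map_mul' := by
        intro a b
        refine LinearMap.ext fun x => ?_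
        obtain ⟨v, rfl⟩ := Submodule.Quotient.mk_surjective _ x
        change Submodule.Quotient.mk (act ((a : SLp 3 K) * (b : SLp 3 K)) v) =
          Submodule.Quotient.mk (act (a : SLp 3 K) (act (b : SLp 3 K) v))
        rw [act_mul] }
  have hnt : Nontrivial ((Fin 3 → K) ⧸ fixS A) := Submodule.Quotient.nontrivial_iff.2 (fixS_ne_top hA1)
  have hfin : Finite ((Fin 3 → K) ⧸ fixS A) := Quotient.finite _
  obtain ⟨m, hm, h⟩ := exists_fixed (K := K) hA ρ
  obtain ⟨v, rfl⟩ := Submodule.Quotient.mk_surjective _ m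
  refine lt_of_le_of_ne (fixS_le_fix2 A) fun heq => hm ?_
  rw [Submodule.Quotient.mk_eq_zero, heq]
  intro a ha
  have h1 : Submodule.Quotient.mk (act a v) = (Submodule.Quotient.mk v : (Fin 3 → K) ⧸ fixS A) :=
    h ⟨a, ha⟩
  exact (Submodule.Quotient.eq _).1 h1

/-- The span of the displacements. -/
def disp (A : Subgroup (SLp 3 K)) : Submodule K (Fin 3 → K) :=
  Submodule.span K {x | ∃ a ∈ A, ∃ v, x = act a v - v}

/-- **Geometry of case I.** -/
theorem caseI_geom (D A : Subgroup (SLp 3 K)) (hn : ∀ d ∈ D, ∀ a ∈ A, d * a * d⁻¹ ∈ A)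
    (hA : IsPGroup 3 A) (hA1 : A ≠ ⊥) :
    (∃ Q : SLp 3 K, ∀ d ∈ D, Q⁻¹ * d * Q ∈ lowB 3 K) ∨ AltR D A ∨
      AltR (D.map (tauS K).toMonoidHom) (A.map (tauS K).toMonoidHom) := by
  classical
  have hW0 := fixS_ne_bot hA
  have hWt := fixS_ne_top hA1
  have hlt := fixS_lt_fix2 hA hA1
  by_cases h2 : fix2 A ≠ ⊤
  · exact Or.inl (lowB_of_flag D hW0 hlt h2 (fun d hd x hx => fixS_stable hn hd hx)
      fun d hd x hx => fix2_stable hn hd hx)
  push Not at h2
  have hdisp : disp A ≤ fixS A := Submodule.span_le.2 (by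
    rintro x ⟨a, ha, v, rfl⟩
    exact mem_fix2.1 (h2 ▸ Submodule.mem_top : v ∈ fix2 A) a ha)
  have hdD : ∀ d ∈ D, ∀ x ∈ disp A, act d x ∈ disp A := by
    intro d hd x hx
    have h3 : disp A ≤ (disp A).comap (actHom K d) := Submodule.span_le.2 (by
      rintro x ⟨a, ha, v, rfl⟩
      change act d (act a v - v) ∈ disp A
      refine Submodule.subset_span ⟨d * a * d⁻¹, hn d hd a ha, act d v, ?_⟩
      rw [act_sub, act_mul, act_mul, act_inv])
    exact h3 hx
  have hd0 : disp A ≠ ⊥ := by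
    intro h
    apply hWt
    refine eq_top_iff.2 fun v _ => ?_
    intro a ha
    have h3 : act a v - v ∈ disp A := Submodule.subset_span ⟨a, ha, v, rfl⟩
    rw [h] at h3
    exact sub_eq_zero.1 ((Submodule.mem_bot K).1 h3)
  by_cases h3 : disp A ≠ fixS A
  · exact Or.inl (lowB_of_flag D hd0 (lt_of_le_of_ne hdisp h3) hWt hdD
      fun d hd x hx => fixS_stable hn hd hx)
  push Not at h3
  right
  obtain ⟨v0, hv0, hv00⟩ := (Submodule.ne_bot_iff _).1 hW0
  by_cases h4 : fixS A = Submodule.span K {v0}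
  · -- a line
    left
    obtain ⟨v1, hv1⟩ : ∃ v1, v1 ∉ Submodule.span K {v0} := by
      by_contra h
      push Not at h
      exact hWt (h4.trans (eq_top_iff.2 fun x _ => h x))
    obtain ⟨v2, hv2⟩ : ∃ v2, v2 ∉ Submodule.span K {v1, v0} := by
      by_contra h
      push Not at h
      have h5 : Submodule.span K ({v1, v0} : Set (Fin 3 → K)) = ⊤ := eq_top_iff.2 fun x _ => h x
      have h6 : finrank K (Submodule.span K ((({v1, v0} : Finset (Fin 3 → K))) : Set (Fin 3 → K))) ≤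
          ({v1, v0} : Finset (Fin 3 → K)).card := finrank_span_finset_le_card _
      rw [Finset.coe_pair, h5, finrank_top, Module.finrank_fin_fun] at h6
      have h7 : ({v1, v0} : Finset (Fin 3 → K)).card ≤ 2 := Finset.card_le_two
      omega
    obtain ⟨b', hb2, hb1, hb0⟩ := exists_basis3 hv00 hv1 hv2
    -- the basis `v0, v1, v2`
    set b : Basis (Fin 3) K (Fin 3 → K) := b'.reindex (Equiv.swap 0 2) with hb
    have e0 : b 0 = v0 := by
      rw [hb, Basis.reindex_apply, Equiv.symm_swap, Equiv.swap_apply_left, hb0]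
    have e1 : b 1 = v1 := by
      rw [hb, Basis.reindex_apply, Equiv.symm_swap,
        Equiv.swap_apply_of_ne_of_ne (by decide) (by decide), hb1]
    have e2 : b 2 = v2 := by
      rw [hb, Basis.reindex_apply, Equiv.symm_swap, Equiv.swap_apply_right, hb2]
    have hline : ∀ x ∈ fixS A, ∃ c : K, x = c • b 0 := by
      intro x hx
      rw [h4] at hx
      obtain ⟨c, hc⟩ := Submodule.mem_span_singleton.1 hx
      exact ⟨c, by rw [e0, hc]⟩
    have hline2 : ∀ x ∈ fixS A, b.repr x 1 = 0 ∧ b.repr x 2 = 0 := by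
      intro x hx
      obtain ⟨c, hc⟩ := hline x hx
      have h5 := repr_eq b (x := x) (c0 := c) (c1 := 0) (c2 := 0) (by
        rw [hc, zero_smul, zero_smul, add_zero, add_zero])
      exact h5.2
    obtain ⟨Q, hQ⟩ := exists_change Nat.prime_three b
    have hfix0 : ∀ a ∈ A, act a (b 0) = b 0 := fun a ha => by
      rw [e0]
      exact hv0 a ha
    have hmove : ∀ a ∈ A, ∀ j, b.repr (act a (b j)) = b.repr (act a (b j) - b j) + b.repr (b j) :=
      fun a _ j => by rw [← map_add, sub_add_cancel]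
    refine ⟨Q, fun d hd => ?_, fun a ha => ?_, ?_⟩
    · rw [mem_parP, hQ, hQ]
      exact hline2 _ (fixS_stable hn hd (e0 ▸ hv0 : b 0 ∈ fixS A))
    · have m : ∀ j, act a (b j) - b j ∈ fixS A := fun j =>
        mem_fix2.1 (h2 ▸ Submodule.mem_top : b j ∈ fix2 A) a ha
      have c0 : ∀ i, (Q⁻¹ * a * Q) i 0 = b.repr (b 0) i := fun i => by
        rw [hQ]
        change b.repr (act a (b 0)) i = _
        rw [hfix0 a ha]
      have cj : ∀ i j, (Q⁻¹ * a * Q) i j = b.repr (act a (b j) - b j) i + b.repr (b j) i :=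
        fun i j => by
        rw [hQ]
        change b.repr (act a (b j)) i = _
        rw [hmove a ha j, Finsupp.add_apply]
      refine ⟨⟨?_, ?_, ?_⟩, ?_, ?_, ?_, ?_⟩
      · rw [c0, Basis.repr_self, Finsupp.single_apply, if_pos rfl]
      · rw [cj, (hline2 _ (m 1)).1, Basis.repr_self, Finsupp.single_apply, if_pos rfl, zero_add]
      · rw [cj, (hline2 _ (m 2)).2, Basis.repr_self, Finsupp.single_apply, if_pos rfl, zero_add]
      · rw [c0, Basis.repr_self, Finsupp.single_apply, if_neg (by decide)]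
      · rw [c0, Basis.repr_self, Finsupp.single_apply, if_neg (by decide)]
      · rw [cj, (hline2 _ (m 2)).1, Basis.repr_self, Finsupp.single_apply, if_neg (by decide),
          zero_add]
      · rw [cj, (hline2 _ (m 1)).2, Basis.repr_self, Finsupp.single_apply, if_neg (by decide),
          zero_add]
    · -- the span
      by_contra hcon
      have hall : ∀ a ∈ A, ∀ a' ∈ A, (Q⁻¹ * a * Q) 0 1 * (Q⁻¹ * a' * Q) 0 2 -
          (Q⁻¹ * a * Q) 0 2 * (Q⁻¹ * a' * Q) 0 1 = 0 := by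
        intro a ha a' ha'
        by_contra hne
        exact hcon ⟨_, ⟨a, ha, rfl⟩, _, ⟨a', ha', rfl⟩, hne⟩
      have hx : ∀ a ∈ A, act a (b 1) = b 1 + (Q⁻¹ * a * Q) 0 1 • b 0 ∧
          act a (b 2) = b 2 + (Q⁻¹ * a * Q) 0 2 • b 0 := by
        intro a ha
        have m : ∀ j, act a (b j) - b j ∈ fixS A := fun j =>
          mem_fix2.1 (h2 ▸ Submodule.mem_top : b j ∈ fix2 A) a ha
        have cj : ∀ j, (Q⁻¹ * a * Q) 0 j = b.repr (act a (b j) - b j) 0 + b.repr (b j) 0 :=
          fun j => by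
          rw [hQ]
          change b.repr (act a (b j)) 0 = _
          rw [hmove a ha j, Finsupp.add_apply]
        constructor
        · have h5 := repr3 b (act a (b 1) - b 1)
          rw [(hline2 _ (m 1)).1, (hline2 _ (m 1)).2, zero_smul, zero_smul, add_zero,
            add_zero] at h5
          rw [cj, Basis.repr_self, Finsupp.single_apply, if_neg (by decide), add_zero, ← h5]
          abel
        · have h5 := repr3 b (act a (b 2) - b 2)
          rw [(hline2 _ (m 2)).1, (hline2 _ (m 2)).2, zero_smul, zero_smul, add_zero,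
            add_zero] at h5
          rw [cj, Basis.repr_self, Finsupp.single_apply, if_neg (by decide), add_zero, ← h5]
          abel
      -- a vector outside the line which is fixed
      obtain ⟨c1, c2, hc, hcz⟩ : ∃ c1 c2 : K, (c1 ≠ 0 ∨ c2 ≠ 0) ∧
          ∀ a ∈ A, c1 * (Q⁻¹ * a * Q) 0 1 + c2 * (Q⁻¹ * a * Q) 0 2 = 0 := by
        by_cases h5 : ∀ a ∈ A, (Q⁻¹ * a * Q) 0 1 = 0 ∧ (Q⁻¹ * a * Q) 0 2 = 0
        · exact ⟨1, 0, Or.inl one_ne_zero, fun a ha => by
            rw [(h5 a ha).1, (h5 a ha).2]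
            ring⟩
        · push Not at h5
          obtain ⟨a, ha, h6⟩ := h5
          refine ⟨-(Q⁻¹ * a * Q) 0 2, (Q⁻¹ * a * Q) 0 1, ?_, fun a' ha' => ?_⟩
          · by_contra h7
            push Not at h7
            exact h6 h7.2 (neg_eq_zero.1 h7.1)
          · have h7 := hall a ha a' ha'
            linear_combination h7
      have h5 : c1 • b 1 + c2 • b 2 ∈ fixS A := by
        intro a ha
        rw [act_add, act_smul, act_smul, (hx a ha).1, (hx a ha).2]
        have h6 : c1 • (b 1 + (Q⁻¹ * a * Q) 0 1 • b 0) + c2 • (b 2 + (Q⁻¹ * a * Q) 0 2 • b 0) =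
            c1 • b 1 + c2 • b 2 +
              (c1 * (Q⁻¹ * a * Q) 0 1 + c2 * (Q⁻¹ * a * Q) 0 2) • b 0 := by
          rw [smul_add, smul_add, smul_smul, smul_smul, add_smul]
          abel
        rw [h6, hcz a ha, zero_smul, add_zero]
      have h6 := hline2 _ h5
      have h7 := repr_eq b (x := c1 • b 1 + c2 • b 2) (c0 := 0) (c1 := c1) (c2 := c2) (by
        rw [zero_smul, zero_add])
      rcases hc with hc | hc
      · exact hc (h7.2.1.symm.trans h6.1)
      · exact hc (h7.2.2.symm.trans h6.2)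
  · -- a plane
    right
    obtain ⟨v1, hv1, hv1n⟩ : ∃ v1 ∈ fixS A, v1 ∉ Submodule.span K {v0} := by
      by_contra h
      push Not at h
      exact h4 (le_antisymm h ((Submodule.span_singleton_le_iff_mem v0 _).2 hv0))
    obtain ⟨u, hu⟩ : ∃ u, u ∉ fixS A := by
      by_contra h
      push Not at h
      exact hWt (eq_top_iff.2 fun x _ => h x)
    have hsW : Submodule.span K {v1, v0} ≤ fixS A := Submodule.span_le.2 (by
      rintro x (rfl | rfl)
      · exact hv1
      · exact hv0)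
    obtain ⟨b, hb0, hb1, hb2⟩ := exists_basis3 hv00 hv1n (fun h => hu (hsW h))
    have hW : ∀ x ∈ fixS A, b.repr x 0 = 0 := by
      intro x hx
      by_contra hne
      apply hu
      have h1 := repr3 b x
      rw [hb0, hb1, hb2] at h1
      have h2 : b.repr x 0 • u ∈ fixS A := by
        have h3 : b.repr x 0 • u = x - (b.repr x 1 • v1 + b.repr x 2 • v0) := by
          rw [eq_sub_iff_add_eq, ← add_assoc]
          exact h1.symm
        rw [h3]
        exact (fixS A).sub_mem hx ((fixS A).add_mem ((fixS A).smul_mem _ hv1)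
          ((fixS A).smul_mem _ hv0))
      exact ((fixS A).smul_mem_iff hne).1 h2
    obtain ⟨Q, hQ⟩ := exists_change Nat.prime_three b
    have f1 : b 1 ∈ fixS A := hb1 ▸ hv1
    have f2 : b 2 ∈ fixS A := hb2 ▸ hv0
    have hconj : ∀ g : SLp 3 K, (tauS K Q)⁻¹ * tauS K g * tauS K Q = tauS K (Q⁻¹ * g * Q) := by
      intro g
      rw [map_mul, map_mul, map_inv]
    have hcon' : ∀ g : SLp 3 K, (Q⁻¹ * g * Q)⁻¹ = Q⁻¹ * g⁻¹ * Q := fun g => by group
    refine ⟨tauS K Q, ?_, ?_, ?_⟩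
    · rintro _ ⟨d, hd, rfl⟩
      change (tauS K Q)⁻¹ * tauS K d * tauS K Q ∈ parP K
      rw [hconj, mem_parP, tauS_apply, tauS_apply, hcon', hQ, hQ]
      exact ⟨hW _ (fixS_stable hn (D.inv_mem hd) f1), hW _ (fixS_stable hn (D.inv_mem hd) f2)⟩
    · rintro _ ⟨a, ha, rfl⟩
      change IsR ((tauS K Q)⁻¹ * tauS K a * tauS K Q)
      rw [hconj]
      have ha' := A.inv_mem ha
      have c1 : ∀ i, (Q⁻¹ * a⁻¹ * Q) i 1 = b.repr (b 1) i := fun i => by
        rw [hQ]
        change b.repr (act a⁻¹ (b 1)) i = _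
        rw [f1 _ ha']
      have c2 : ∀ i, (Q⁻¹ * a⁻¹ * Q) i 2 = b.repr (b 2) i := fun i => by
        rw [hQ]
        change b.repr (act a⁻¹ (b 2)) i = _
        rw [f2 _ ha']
      have m : act a⁻¹ (b 0) - b 0 ∈ fixS A :=
        mem_fix2.1 (h2 ▸ Submodule.mem_top : b 0 ∈ fix2 A) a⁻¹ ha'
      have c0 : (Q⁻¹ * a⁻¹ * Q) 0 0 = 1 := by
        rw [hQ]
        change b.repr (act a⁻¹ (b 0)) 0 = _
        have h5 := hW _ m
        rw [map_sub, Finsupp.sub_apply, Basis.repr_self, Finsupp.single_apply, if_pos rfl,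
          sub_eq_zero] at h5
        exact h5
      refine ⟨⟨?_, ?_, ?_⟩, ?_, ?_, ?_, ?_⟩ <;> rw [tauS_apply, hcon']
      · exact c0
      · rw [c1, Basis.repr_self, Finsupp.single_apply, if_pos rfl]
      · rw [c2, Basis.repr_self, Finsupp.single_apply, if_pos rfl]
      · rw [c1, Basis.repr_self, Finsupp.single_apply, if_neg (by decide)]
      · rw [c2, Basis.repr_self, Finsupp.single_apply, if_neg (by decide)]
      · rw [c1, Basis.repr_self, Finsupp.single_apply, if_neg (by decide)]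
      · rw [c2, Basis.repr_self, Finsupp.single_apply, if_neg (by decide)]
    · by_contra hcon
      have hall : ∀ a ∈ A, ∀ a' ∈ A, (Q⁻¹ * a * Q) 1 0 * (Q⁻¹ * a' * Q) 2 0 -
          (Q⁻¹ * a * Q) 2 0 * (Q⁻¹ * a' * Q) 1 0 = 0 := by
        intro a ha a' ha'
        by_contra hne
        refine hcon ⟨tauS K (Q⁻¹ * a⁻¹ * Q), ⟨tauS K a⁻¹, ⟨a⁻¹, A.inv_mem ha, rfl⟩, ?_⟩,
          tauS K (Q⁻¹ * a'⁻¹ * Q), ⟨tauS K a'⁻¹, ⟨a'⁻¹, A.inv_mem ha', rfl⟩, ?_⟩, ?_⟩
        · rw [hconj]
        · rw [hconj]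
        · rw [tauS_apply, tauS_apply, tauS_apply, tauS_apply, hcon', hcon', inv_inv, inv_inv]
          exact hne
      have hx : ∀ a ∈ A, ∀ v, act a v - v =
          b.repr v 0 • ((Q⁻¹ * a * Q) 1 0 • b 1 + (Q⁻¹ * a * Q) 2 0 • b 2) := by
        intro a ha v
        have m : act a (b 0) - b 0 ∈ fixS A :=
          mem_fix2.1 (h2 ▸ Submodule.mem_top : b 0 ∈ fix2 A) a ha
        have h5 := repr3 b (act a (b 0) - b 0)
        have h6 : b.repr (act a (b 0) - b 0) 0 = 0 := hW _ m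
        have h7 : ∀ i, i ≠ 0 → b.repr (act a (b 0) - b 0) i = (Q⁻¹ * a * Q) i 0 := by
          intro i hi
          rw [hQ, map_sub, Finsupp.sub_apply, Basis.repr_self, Finsupp.single_apply,
            if_neg (Ne.symm hi), sub_zero]
          rfl
        rw [h6, zero_smul, zero_add, h7 1 (by decide), h7 2 (by decide)] at h5
        have h8 := repr3 b v
        generalize b.repr v 0 = c0 at h8 ⊢
        generalize b.repr v 1 = c1 at h8
        generalize b.repr v 2 = c2 at h8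
        rw [h8, act_add, act_add, act_smul, act_smul, act_smul, f1 a ha, f2 a ha, ← h5, smul_sub]
        abel
      obtain ⟨c1, c2, hc, hcz⟩ : ∃ c1 c2 : K, (c1 ≠ 0 ∨ c2 ≠ 0) ∧
          ∀ a ∈ A, c1 * (Q⁻¹ * a * Q) 1 0 + c2 * (Q⁻¹ * a * Q) 2 0 = 0 := by
        by_cases h5 : ∀ a ∈ A, (Q⁻¹ * a * Q) 1 0 = 0 ∧ (Q⁻¹ * a * Q) 2 0 = 0
        · exact ⟨1, 0, Or.inl one_ne_zero, fun a ha => by
            rw [(h5 a ha).1, (h5 a ha).2]
            ring⟩
        · push Not at h5
          obtain ⟨a, ha, h6⟩ := h5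
          refine ⟨-(Q⁻¹ * a * Q) 2 0, (Q⁻¹ * a * Q) 1 0, ?_, fun a' ha' => ?_⟩
          · by_contra h7
            push Not at h7
            exact h6 h7.2 (neg_eq_zero.1 h7.1)
          · have h7 := hall a ha a' ha'
            linear_combination h7
      have hZ : disp A ≤ LinearMap.ker (c1 • b.coord 1 + c2 • b.coord 2) :=
        Submodule.span_le.2 (by
          rintro _ ⟨a, ha, v, rfl⟩
          rw [SetLike.mem_coe, LinearMap.mem_ker, hx a ha v, LinearMap.add_apply,
            LinearMap.smul_apply, LinearMap.smul_apply, Basis.coord_apply, Basis.coord_apply,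
            map_smul, Finsupp.smul_apply, Finsupp.smul_apply]
          have h7 := repr_eq b (x := (Q⁻¹ * a * Q) 1 0 • b 1 + (Q⁻¹ * a * Q) 2 0 • b 2)
            (c0 := 0) (c1 := (Q⁻¹ * a * Q) 1 0) (c2 := (Q⁻¹ * a * Q) 2 0) (by
            rw [zero_smul, zero_add])
          rw [h7.2.1, h7.2.2]
          have h8 := hcz a ha
          simp only [smul_eq_mul]
          linear_combination b.repr v 0 * h8)
      rw [h3] at hZ
      have g1 := LinearMap.mem_ker.1 (hZ f1)
      have g2 := LinearMap.mem_ker.1 (hZ f2)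
      rw [LinearMap.add_apply, LinearMap.smul_apply, LinearMap.smul_apply, Basis.coord_apply,
        Basis.coord_apply, Basis.repr_self, Finsupp.single_apply, Finsupp.single_apply,
        if_pos rfl, if_neg (by decide)] at g1
      rw [LinearMap.add_apply, LinearMap.smul_apply, LinearMap.smul_apply, Basis.coord_apply,
        Basis.coord_apply, Basis.repr_self, Finsupp.single_apply, Finsupp.single_apply,
        if_pos rfl, if_neg (by decide)] at g2
      rcases hc with hc | hc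
      · apply hc
        simpa using g1
      · apply hc
        simpa using g2

/-! ### The `r`-part of `alph` -/

omit [CharP K 3] in
theorem alph_surjective : Function.Surjective (alph K) := by
  intro t
  let d : Fin 3 → K := ![(t : K), ((t⁻¹ : Kˣ) : K), 1]
  let g : SLp 3 K := ⟨Matrix.diagonal d, by
    rw [Matrix.det_diagonal, Fin.prod_univ_three]
    change (t : K) * ((t⁻¹ : Kˣ) : K) * 1 = 1
    rw [mul_one, Units.mul_inv]⟩
  have hg : ∀ i j, g i j = if i = j then d i else 0 := fun i j => Matrix.diagonal_apply _ _ _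
  refine ⟨⟨g, mem_parP.2 ⟨?_, ?_⟩⟩, Units.ext ?_⟩
  · rw [hg, if_neg (by decide)]
  · rw [hg, if_neg (by decide)]
  · rw [alph_val]
    change g 0 0 = _
    rw [hg, if_pos rfl]
    rfl

omit [CharP K 3] in
theorem parP_data {r : ℕ} (hr : r.Prime) (hrd : r ∣ Nat.card Kˣ) :
    ∃ (Λ : Type) (_ : CommGroup Λ) (_ : Finite Λ) (_ : Nontrivial Λ) (δ : parP K →* Λ),
      IsPGroup r Λ ∧ Function.Surjective δ ∧ ∀ g h, alph K g = alph K h → δ g = δ h := by
  have : Fact r.Prime := ⟨hr⟩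
  obtain ⟨a, m, hm, ham⟩ := Nat.exists_eq_pow_mul_and_not_dvd
    (Nat.card_pos (α := Kˣ)).ne' r hr.ne_one
  let φ : parP K →* Kˣ := (powMonoidHom m).comp (alph K)
  have hφ : ∀ t, φ t = alph K t ^ m := fun t => rfl
  obtain ⟨x, hx⟩ := exists_prime_orderOf_dvd_card' (G := Kˣ) r hrd
  obtain ⟨t, ht⟩ := alph_surjective (K := K) x
  have hne : φ t ≠ 1 := by
    rw [hφ, ht]
    intro h
    exact hm (hx ▸ orderOf_dvd_of_pow_eq_one h)
  refine ⟨φ.range, inferInstance, inferInstance,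
    ⟨⟨⟨φ t, ⟨t, rfl⟩⟩, 1, fun h => hne (congrArg Subtype.val h)⟩⟩, φ.rangeRestrict, ?_,
    φ.rangeRestrict_surjective, fun g h hgh => Subtype.ext ?_⟩
  · rintro ⟨_, t, rfl⟩
    refine ⟨a, Subtype.ext ?_⟩
    change φ t ^ r ^ a = 1
    rw [hφ, ← pow_mul, mul_comm, ← ham, pow_card_eq_one']
  · change φ g = φ h
    rw [hφ, hφ, hgh]

/-! ### The result -/

/-- the second alternative, transported by an automorphism -/
theorem exists_del {D A : Subgroup (SLp 3 K)} (φ : SLp 3 K ≃* SLp 3 K)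
    (hD : ∀ d ∈ D, φ d ∈ parP K) (hA : ∀ a ∈ A, IsR (φ a))
    (hsp : SpanR {x | ∃ a ∈ A, x = φ a}) :
    ∃ (P : Subgroup (SLp 3 K)) (del : P →* Kˣ), D ≤ P ∧ Function.Surjective del ∧
      ∀ u : P, (∀ a ∈ A, (u : SLp 3 K) * a = a * u) → del u = 1 := by
  refine ⟨(parP K).comap φ.toMonoidHom, (alph K).comp (φ.toMonoidHom.subgroupComap (parP K)), hD,
    fun t => ?_, fun u hu => ?_⟩
  · obtain ⟨g, hg⟩ := alph_surjective (K := K) t
    obtain ⟨x, hx⟩ := φ.surjective (g : SLp 3 K)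
    refine ⟨⟨x, ?_⟩, ?_⟩
    · change φ x ∈ parP K
      rw [hx]
      exact g.2
    · rw [← hg]
      change alph K ⟨φ x, _⟩ = alph K g
      congr 1
      exact Subtype.ext hx
  · have hu' : φ u ∈ parP K := u.2
    have h1 := entry_of_comm (u := φ (u : SLp 3 K)) (mem_parP.1 hu')
      (S := {x | ∃ a ∈ A, x = φ a}) (by
        rintro _ ⟨a, ha, rfl⟩
        exact hA a ha) hsp (by
        rintro _ ⟨a, ha, rfl⟩
        rw [← map_mul, hu a ha, map_mul])
    exact Units.ext h1

/-- **Geometry of case I.** -/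
theorem geo_I (D A : Subgroup (SLp 3 K)) (hn : ∀ d ∈ D, ∀ a ∈ A, d * a * d⁻¹ ∈ A)
    (hA : IsPGroup 3 A) (hA1 : A ≠ ⊥) :
    (∃ Q : SLp 3 K, ∀ d ∈ D, Q⁻¹ * d * Q ∈ lowB 3 K) ∨
      ∃ (P : Subgroup (SLp 3 K)) (del : P →* Kˣ), D ≤ P ∧ Function.Surjective del ∧
        ∀ u : P, (∀ a ∈ A, (u : SLp 3 K) * a = a * u) → del u = 1 := by
  have hcj : ∀ Q g : SLp 3 K, MulAut.conj Q⁻¹ g = Q⁻¹ * g * Q := fun Q g => by
    rw [MulAut.conj_apply, inv_inv]
  rcases caseI_geom D A hn hA hA1 with h | ⟨Q, h1, h2, h3⟩ | ⟨Q, h1, h2, h3⟩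
  · exact Or.inl h
  · refine Or.inr (exists_del (MulAut.conj Q⁻¹) (fun d hd => ?_) (fun a ha => ?_) ?_)
    · rw [hcj]
      exact h1 d hd
    · rw [hcj]
      exact h2 a ha
    · simpa only [hcj] using h3
  · refine Or.inr (exists_del ((tauS K).trans (MulAut.conj Q⁻¹)) (fun d hd => ?_)
      (fun a ha => ?_) ?_)
    · rw [MulEquiv.trans_apply, hcj]
      exact h1 _ ⟨d, hd, rfl⟩
    · rw [MulEquiv.trans_apply, hcj]
      exact h2 _ ⟨a, ha, rfl⟩
    · obtain ⟨_, ⟨_, ⟨a, ha, rfl⟩, rfl⟩, _, ⟨_, ⟨b, hb, rfl⟩, rfl⟩, hne⟩ := h3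
      exact ⟨_, ⟨a, ha, rfl⟩, _, ⟨b, hb, rfl⟩, by
        rw [MulEquiv.trans_apply, MulEquiv.trans_apply, hcj, hcj]
        exact hne⟩

end

end Pool.Agent.CoveringSubgroups.H6
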