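import Pool.Agent.Lib.MP_7252b7_al_h6.Lemmas
import Pool.Agent.Lib.MP_7252b7_al_h6.GeoI
import Pool.Agent.Lib.MP_7252b7_al_h9.MinMain

/-!
# Case I: a normal 3-subgroup
-/

set_option autoImplicit false
set_option linter.unusedSectionVars false

namespace Pool.Agent.CoveringSubgroups.H6

open Pool.Agent.CoveringSubgroups Pool.Agent.CoveringSubgroups.H9

section

variable {G X : Type} [Group G] [Group X]

lemma compSub_isPGroup {p : ℕ} {W : Subgroup (G ≀ᵣ X)} (hW : IsPGroup p W) :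
    IsPGroup p (compSub W) := by
  rintro ⟨v, hv⟩
  obtain ⟨w, hw, hw1, rfl⟩ := mem_compSub.1 hv
  obtain ⟨j, hj⟩ := hW ⟨w, hw⟩
  refine ⟨j, Subtype.ext ?_⟩
  have h1 : w ^ p ^ j = 1 := congrArg Subtype.val hj
  have h2 := (pow_base w hw1 (p ^ j)).2
  rw [h1] at h2
  exact (congrFun h2 1).symm

lemma exists_left_ne {W : Subgroup (G ≀ᵣ X)} (hW1 : W ≠ ⊥) (hWb : ∀ w ∈ W, w.right = 1) :
    ∃ w ∈ W, ∃ z, w.left z ≠ 1 := by
  obtain ⟨a, haA, ha1⟩ : ∃ a ∈ W, a ≠ 1 := (Subgroup.bot_or_exists_ne_one W).resolve_left hW1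
  by_contra hcon
  push Not at hcon
  exact ha1 (RegularWreathProduct.ext (funext (hcon a haA)) (hWb a haA))

lemma comap_conj_ne_bot {W : Subgroup (G ≀ᵣ X)} (hW1 : W ≠ ⊥) (m : G ≀ᵣ X) :
    W.comap (MulAut.conj m).toMonoidHom ≠ ⊥ := by
  obtain ⟨a, haA, ha1⟩ : ∃ a ∈ W, a ≠ 1 := (Subgroup.bot_or_exists_ne_one W).resolve_left hW1
  intro h
  have h1 : m⁻¹ * a * m ∈ W.comap (MulAut.conj m).toMonoidHom := by
    show m * (m⁻¹ * a * m) * m⁻¹ ∈ W
    have e : m * (m⁻¹ * a * m) * m⁻¹ = a := by group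
    rw [e]; exact haA
  rw [h, Subgroup.mem_bot] at h1
  apply ha1
  have e : a = m * (m⁻¹ * a * m) * m⁻¹ := by group
  rw [e, h1]; group

lemma comap_conj_normal {H W : Subgroup (G ≀ᵣ X)} (hWn : ∀ h ∈ H, ∀ w ∈ W, h * w * h⁻¹ ∈ W)
    (m : G ≀ᵣ X) : ∀ h ∈ H.comap (MulAut.conj m).toMonoidHom,
    ∀ w ∈ W.comap (MulAut.conj m).toMonoidHom, h * w * h⁻¹ ∈ W.comap (MulAut.conj m).toMonoidHom := by
  intro h hh w hw
  have h1 := hWn _ hh _ hw
  show (MulAut.conj m).toMonoidHom (h * w * h⁻¹) ∈ W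
  rw [map_mul, map_mul, map_inv]
  exact h1

lemma comap_conj_base {W : Subgroup (G ≀ᵣ X)} (hWb : ∀ w ∈ W, w.right = 1) (m : G ≀ᵣ X) :
    ∀ w ∈ W.comap (MulAut.conj m).toMonoidHom, w.right = 1 := by
  intro w hw
  have h1 : (m * w * m⁻¹).right = 1 := hWb _ hw
  have h2 : m.right * w.right * m.right⁻¹ = 1 := by simpa using h1
  have h3 : w.right = m.right⁻¹ * (m.right * w.right * m.right⁻¹) * m.right := by group
  rw [h3, h2]; group

lemma compSub_ne_bot {W : Subgroup (G ≀ᵣ X)} (hW1 : W ≠ ⊥)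
    (hWb : ∀ w ∈ W, w.right = 1) {m : G ≀ᵣ X}
    (hm : ∀ w ∈ W.comap (MulAut.conj m).toMonoidHom, ∀ z, w.left z ∈ compSub W) :
    compSub W ≠ ⊥ := by
  intro h
  obtain ⟨w, hw, z, hz⟩ := exists_left_ne (comap_conj_ne_bot hW1 m) (comap_conj_base hWb m)
  have h1 := hm w hw z
  rw [h, Subgroup.mem_bot] at h1
  exact hz h1

/-- conjugation by a constant element -/
lemma const_conj (Q : G) (h : G ≀ᵣ X) (z : X) :
    ((⟨fun _ => Q, 1⟩ : G ≀ᵣ X) * h * (⟨fun _ => Q, 1⟩ : G ≀ᵣ X)⁻¹).left z =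
      Q * h.left z * Q⁻¹ := by
  simp

lemma left_of_const_conj {H : Subgroup (G ≀ᵣ X)} {D E : Subgroup G} (Q : G)
    (hD : ∀ g ∈ H, ∀ z, g.left z ∈ D) (hQ : ∀ d ∈ D, Q⁻¹ * d * Q ∈ E) :
    ∀ g ∈ H.comap (MulAut.conj (⟨fun _ => Q, 1⟩ : G ≀ᵣ X)).toMonoidHom, ∀ z, g.left z ∈ E := by
  intro g hg z
  have h1 := hD _ hg z
  have h2 : ((MulAut.conj (⟨fun _ => Q, 1⟩ : G ≀ᵣ X)).toMonoidHom g).left z =
    Q * g.left z * Q⁻¹ := const_conj Q g z
  rw [h2] at h1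
  have h3 := hQ _ h1
  have e : Q⁻¹ * (Q * g.left z * Q⁻¹) * Q = g.left z := by group
  rwa [e] at h3

end

/-- the `r`-part of a homomorphism to a finite abelian group -/
theorem exists_rpart {N A : Type} [Group N] [CommGroup A] [Finite A] (δ : N →* A)
    (hδ : Function.Surjective δ) {r : ℕ} (hr : r.Prime) (hrd : r ∣ Nat.card A) :
    ∃ (Λ : Type) (_ : CommGroup Λ) (_ : Finite Λ) (_ : Nontrivial Λ) (μ : N →* Λ),
      IsPGroup r Λ ∧ Function.Surjective μ ∧ ∀ g, δ g = 1 → μ g = 1 := by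
  have : Fact r.Prime := ⟨hr⟩
  obtain ⟨a, m, hm, ham⟩ := Nat.exists_eq_pow_mul_and_not_dvd
    (Nat.card_pos (α := A)).ne' r hr.ne_one
  let φ : N →* A := (powMonoidHom m).comp δ
  have hφ : ∀ t, φ t = δ t ^ m := fun t => rfl
  obtain ⟨x, hx⟩ := exists_prime_orderOf_dvd_card' (G := A) r hrd
  obtain ⟨t, ht⟩ := hδ x
  have hne : φ t ≠ 1 := by
    rw [hφ, ht]
    intro h
    exact hm (hx ▸ orderOf_dvd_of_pow_eq_one h)
  refine ⟨φ.range, inferInstance, inferInstance, ⟨⟨1, φ.rangeRestrict t, fun h => hne ?_⟩⟩,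
    φ.rangeRestrict, ?_, φ.rangeRestrict_surjective, fun g hg => ?_⟩
  · exact (congrArg Subtype.val h).symm
  · rintro ⟨_, t, rfl⟩
    refine ⟨a, Subtype.ext ?_⟩
    show (φ t) ^ r ^ a = 1
    rw [hφ, ← pow_mul, mul_comm m, ← ham, pow_card_eq_one']
  · apply Subtype.ext
    show φ g = 1
    rw [hφ, hg, one_pow]

variable {F : GroupClass} {f : ℕ → GroupClass}

section

variable (hF : IsFormation F) (hf : IsLocallyDefinedBy F f)

include hF hf

/-- **Case I.** -/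
theorem case_I (hher : ∀ (G : Type) [Group G] (H : Subgroup G), F G → F H)
    {K : Type} [Field K] [CharP K 3] [Finite K] {r : ℕ} (hr : r.Prime) (h3r : 3 < r)
    (hrK : r ∣ Nat.card Kˣ) (hfr : IsFormation (f r)) (hf3 : IsFormation (f 3))
    {X X1 : Type} [Group X] [Group X1] (hX : F X) {H W : Subgroup (SLp 3 K ≀ᵣ X)} (hH : Cov F H)
    (hWH : W ≤ H) (hWn : ∀ h ∈ H, ∀ w ∈ W, h * w * h⁻¹ ∈ W) (hW : IsPGroup 3 W) (hW1 : W ≠ ⊥)
    (hWb : ∀ w ∈ W, w.right = 1)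
    (ζ : X →* X1) (hζ : Function.Surjective ζ) (hY : CF F f r X1) : CF F f 3 X1 := by
  classical
  have : Fact (Nat.Prime 3) := ⟨Nat.prime_three⟩
  have hXf : Finite X := hF.finite X hX
  obtain ⟨m, hm1, hm2, hm3⟩ := kk2 (right_surj (F := F) (f := f) hF hf hX hH)
  obtain ⟨hm4, hm5⟩ := hm3 W hWn hWb
  have hA1 : compSub W ≠ ⊥ := compSub_ne_bot hW1 hWb hm4
  have hcov' : Cov F (H.comap (MulAut.conj m).toMonoidHom) := hH.conj hF m
  have hWH' : W.comap (MulAut.conj m).toMonoidHom ≤ H.comap (MulAut.conj m).toMonoidHom :=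
    Subgroup.comap_mono hWH
  have hWn' := comap_conj_normal hWn m
  have hWp' : IsPGroup 3 (W.comap (MulAut.conj m).toMonoidHom) :=
    hW.comap_of_injective _ (MulAut.conj m).injective
  have hWb' := comap_conj_base hWb m
  have hW1' := comap_conj_ne_bot hW1 m
  set H' := H.comap (MulAut.conj m).toMonoidHom with hH'
  set W' := W.comap (MulAut.conj m).toMonoidHom with hW'
  rcases geo_I (compSub H) (compSub W) (compSub_conj hWn) (compSub_isPGroup hW) hA1 with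
    ⟨Q, hQ⟩ | ⟨P, del, hDP, hdel, hcen⟩
  · obtain ⟨Λ, _, _, _, μ, hΛ, hμ, hker, l, hl⟩ := lowB_data (p := 3) (K := K) Nat.prime_three hr
      h3r hrK
    obtain ⟨c, hc⟩ : ∃ c : SLp 3 K ≀ᵣ X, c = ⟨fun _ => Q, 1⟩ := ⟨_, rfl⟩
    have hN : ∀ h ∈ H'.comap (MulAut.conj c).toMonoidHom, ∀ y, h.left y ∈ lowB 3 K := by
      rw [hc]
      exact left_of_const_conj Q hm2 hQ
    have hWp2 : IsPGroup 3 (W'.comap (MulAut.conj c).toMonoidHom) :=
      hWp'.comap_of_injective _ (MulAut.conj c).injective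
    have hWb2 := comap_conj_base hWb' c
    refine apply_main hF hf hher hr Nat.prime_three hfr hf3 (lowB 3 K) hΛ μ hμ hker hX
      (W := W'.comap (MulAut.conj c).toMonoidHom) (hcov'.conj hF c) (Subgroup.comap_mono hWH')
      (comap_conj_normal hWn' c) hWp2 (comap_conj_ne_bot hW1' c) hWb2 hN ?_ ζ hζ hY
    intro w hw x hx
    refine ⟨l, fun t ht htc => hx ?_⟩
    have hwH : w ∈ H'.comap (MulAut.conj c).toMonoidHom := Subgroup.comap_mono hWH' hw
    have hwl := hN w hwH x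
    refine uni_eq_one_of_comm t.2 hwl (hl t ht) (fun i => ?_) htc
    obtain ⟨j, hj⟩ := hWp2 ⟨w, hw⟩
    have h1 : w ^ 3 ^ j = 1 := congrArg Subtype.val hj
    have h2 := congrFun (pow_base w (hWb2 w hw) (3 ^ j)).2 x
    rw [h1] at h2
    have h3 : (⟨w.left x, hwl⟩ : lowB 3 K) ^ 3 ^ j = 1 := Subtype.ext h2.symm
    have h4 := congrArg (lowDiag 3 K) h3
    rw [map_pow, map_one] at h4
    have h5 := congrArg Units.val (congrFun h4 i)
    have h6 : (w.left x) i i ^ 3 ^ j = 1 := h5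
    have h10 : iterateFrobenius K 3 j ((w.left x) i i) = iterateFrobenius K 3 j 1 := by
      rw [iterateFrobenius_def, map_one, h6]
    exact iterateFrobenius_inj K 3 j h10
  · obtain ⟨Λ, _, _, _, μ, hΛ, hμ, hμ1⟩ := exists_rpart del hdel hr hrK
    have hinj := wrIncl_injective (X := X) P
    have hNP : ∀ h ∈ H', ∀ y, h.left y ∈ P := fun h hh y => hDP (hm2 h hh y)
    have hrange : H' ≤ (wrIncl P X).range := fun h hh => mem_range_wrIncl (hNP h hh)
    have hWn2 : ∀ h ∈ H'.comap (wrIncl P X), ∀ a ∈ W'.comap (wrIncl P X),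
        h * a * h⁻¹ ∈ W'.comap (wrIncl P X) := by
      intro h hh a ha
      show wrIncl P X (h * a * h⁻¹) ∈ W'
      rw [map_mul, map_mul, map_inv]
      exact hWn' _ hh _ ha
    refine delta_lemma hF hf hher hr Nat.prime_three hf3 hΛ μ hμ hX
      (H := H'.comap (wrIncl P X)) (A := W'.comap (wrIncl P X))
      (hcov'.comap hF _ hinj hrange) hWn2 (Subgroup.comap_mono hWH')
      (hWp'.comap_of_injective _ hinj) ?_ ζ hζ hY
    refine cen_of_comm μ hWn2 (fun a ha => hWb' _ ha) ?_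
    intro y u hu
    apply hμ1
    apply hcen
    intro v hv
    obtain ⟨w, hw, rfl⟩ := hm5 v hv y
    obtain ⟨a, rfl⟩ := hrange (hWH' hw)
    exact congrArg Subtype.val (hu a hw)

end

end Pool.Agent.CoveringSubgroups.H6
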