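import Pool.Agent.Lib.MP_7252b7_al_h6.GeoDefs
import Pool.Agent.Lib.MP_7252b7_al_h6.GeoI

/-!
# Subgroups of `SL_3(K)` with a normal elementary abelian `s`-subgroup, `s ≠ 3`

`geo_IIa`: conjugate into the monomial group (with the subgroup diagonal) or into `blk`.
-/

set_option autoImplicit false
set_option linter.unusedSectionVars false

namespace Pool.Agent.CoveringSubgroups.H6

open Module Pool.Agent.CoveringSubgroups.H9

/-! ### Diagonal bases for elementary abelian groups -/

/-- diagonal bases for elementary abelian groups -/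
theorem exists_basis_elem {p : ℕ} (hp : p.Prime) {K : Type} [Field K] [CharP K p] [Finite K] {s : ℕ}
    (hs : s.Prime) (hsK : s ∣ Nat.card Kˣ) (A : Type) [Group A] [Finite A]
    (hcomm : ∀ a b : A, a * b = b * a) (hexp : ∀ a : A, a ^ s = 1) :
    ∀ (n : ℕ) (V : Type) [AddCommGroup V] [Module K V] [FiniteDimensional K V],
      finrank K V = n → ∀ ρ : A →* End K V,
        ∃ b : Basis (Fin n) K V, TriBasis ρ b ∧ ((Nat.card A : K) ≠ 0 → DiagBasis ρ b) := by
  intro n
  induction n with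
  | zero =>
    intro V _ _ _ hV ρ
    exact ⟨finBasisOfFinrankEq K V hV, fun d j => j.elim0, fun _ d j => j.elim0⟩
  | succ n ih =>
    intro V _ _ _ hV ρ
    have h1 : finrank K (Dual K V) = n + 1 := by rw [Subspace.dual_finrank_eq, hV]
    have hnt : Nontrivial (Dual K V) := Module.nontrivial_of_finrank_pos (R := K) (by omega)
    obtain ⟨φ, hφ⟩ := exists_eig_elem hp hs (Or.inr hsK) _ A le_rfl hcomm hexp (Dual K V)
      (dualRep ρ)
    have hφ' := hypVec_of_eigVec hφ
    obtain ⟨b, hb, hb'⟩ := ih (LinearMap.ker φ) (finrank_ker_hyp hφ'.1 hV)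
      (subRep ρ _ (ker_inv hφ'))
    exact exists_basis_step hφ' (ker_inv hφ') b hb hb'

variable {K : Type} [Field K]

/-- the diagonal entries in a basis -/
noncomputable def chi (b : Basis (Fin 3) K (Fin 3 → K)) (a : SLp 3 K) (i : Fin 3) : K :=
  b.repr (act a (b i)) i

/-- bases in which `A` is diagonal -/
def DiagB (A : Subgroup (SLp 3 K)) (b : Basis (Fin 3) K (Fin 3 → K)) : Prop :=
  ∀ a ∈ A, ∀ i j, i ≠ j → b.repr (act a (b j)) i = 0

theorem DiagB.act_eq {A : Subgroup (SLp 3 K)} {b : Basis (Fin 3) K (Fin 3 → K)} (h : DiagB A b)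
    {a : SLp 3 K} (ha : a ∈ A) (j : Fin 3) : act a (b j) = chi b a j • b j := by
  apply b.repr.injective
  ext i
  rw [map_smul, Finsupp.smul_apply, Basis.repr_self, Finsupp.single_apply]
  by_cases hij : j = i
  · rw [if_pos hij, ← hij, smul_eq_mul, mul_one]
    rfl
  · rw [if_neg hij, smul_zero]
    exact h a ha i j (Ne.symm hij)

theorem DiagB.repr_act {A : Subgroup (SLp 3 K)} {b : Basis (Fin 3) K (Fin 3 → K)} (h : DiagB A b)
    {a : SLp 3 K} (ha : a ∈ A) (x : Fin 3 → K) (i : Fin 3) :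
    b.repr (act a x) i = chi b a i * b.repr x i := by
  have h1 : act a x = ∑ k, b.repr x k • (chi b a k • b k) := by
    conv_lhs => rw [← b.sum_repr x]
    have h2 : act a (∑ k, b.repr x k • b k) = ∑ k, act a (b.repr x k • b k) :=
      map_sum (actHom K a) _ _
    rw [h2]
    refine Finset.sum_congr rfl fun k _ => ?_
    rw [act_smul, h.act_eq ha]
  rw [h1, map_sum, Finsupp.finsetSum_apply, Finset.sum_eq_single i]
  · rw [map_smul, map_smul, Basis.repr_self, Finsupp.smul_apply, Finsupp.smul_apply,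
      Finsupp.single_apply, if_pos rfl, smul_eq_mul, smul_eq_mul, mul_one, mul_comm]
  · intro k _ hk
    rw [map_smul, map_smul, Basis.repr_self, Finsupp.smul_apply, Finsupp.smul_apply,
      Finsupp.single_apply, if_neg hk, smul_zero, smul_zero]
  · intro h'
    exact absurd (Finset.mem_univ _) h'

section

variable {D A : Subgroup (SLp 3 K)} (hn : ∀ d ∈ D, ∀ a ∈ A, d * a * d⁻¹ ∈ A)
  {b : Basis (Fin 3) K (Fin 3 → K)} (hb : DiagB A b)

include hn hb

theorem chi_conj {d : SLp 3 K} (hd : d ∈ D) {a : SLp 3 K} (ha : a ∈ A) {i j : Fin 3}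
    (hne : b.repr (act d (b j)) i ≠ 0) : chi b a i = chi b (d⁻¹ * a * d) j := by
  have h1 : act a (act d (b j)) = chi b (d⁻¹ * a * d) j • act d (b j) := by
    rw [← act_smul, ← hb.act_eq (inv_conj_mem hn hd ha) j, ← act_mul, ← act_mul]
    congr 1
    group
  have h2 : b.repr (act a (act d (b j))) i = b.repr (chi b (d⁻¹ * a * d) j • act d (b j)) i := by
    rw [h1]
  rw [hb.repr_act ha, map_smul, Finsupp.smul_apply, smul_eq_mul] at h2
  exact mul_right_cancel₀ hne h2

variable [Finite K] [CharP K 3]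

/-- three different weights -/
theorem mon_of_diff (hdiff : ∀ i j, (∀ a ∈ A, chi b a i = chi b a j) → i = j) :
    ∃ Q : SLp 3 K, (∀ d ∈ D, Q⁻¹ * d * Q ∈ mon3 K) ∧
      ∀ a ∈ A, ∀ i j, i ≠ j → (Q⁻¹ * a * Q) i j = 0 := by
  obtain ⟨Q, hQ⟩ := exists_change Nat.prime_three b
  refine ⟨Q, fun d hd => ?_, fun a ha i j hij => ?_⟩
  · have hkey : ∀ i j, (Q⁻¹ * d * Q) i j ≠ 0 → ∀ a ∈ A, chi b a i = chi b (d⁻¹ * a * d) j := by
      intro i j hij a ha
      rw [hQ] at hij
      exact chi_conj hn hb hd ha hij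
    choose σ hσ using fun j => exists_col_ne (Q⁻¹ * d * Q) j
    have huniq : ∀ i j, (Q⁻¹ * d * Q) i j ≠ 0 → i = σ j := by
      intro i j hij
      apply hdiff
      intro a ha
      rw [hkey i j hij a ha, hkey (σ j) j (hσ j) a ha]
    have hinj : Function.Injective σ := by
      intro j j' hjj
      apply hdiff
      intro a ha
      have h1 := hkey (σ j) j (hσ j) _ (hn d hd a ha)
      have h2 := hkey (σ j') j' (hσ j') _ (hn d hd a ha)
      have e : d⁻¹ * (d * a * d⁻¹) * d = a := by group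
      rw [e] at h1 h2
      rw [← h1, ← h2, hjj]
    exact mem_mon3.2 ⟨Equiv.ofBijective σ (Finite.injective_iff_bijective.1 hinj), huniq⟩
  · rw [hQ]
    exact hb a ha i j hij

/-- a double weight -/
theorem blk_of_two (h01 : ∀ a ∈ A, chi b a 0 = chi b a 1)
    (h02 : ¬ ∀ a ∈ A, chi b a 0 = chi b a 2) : ∃ Q : SLp 3 K, ∀ d ∈ D, Q⁻¹ * d * Q ∈ blk K := by
  obtain ⟨Q, hQ⟩ := exists_change Nat.prime_three b
  refine ⟨Q, fun d hd => ?_⟩
  have hkey : ∀ i j, (Q⁻¹ * d * Q) i j ≠ 0 → ∀ a ∈ A, chi b a i = chi b (d⁻¹ * a * d) j := by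
    intro i j hij a ha
    rw [hQ] at hij
    exact chi_conj hn hb hd ha hij
  have h01' : ∀ a ∈ A, chi b (d⁻¹ * a * d) 0 = chi b (d⁻¹ * a * d) 1 := fun a ha =>
    h01 _ (inv_conj_mem hn hd ha)
  set g := Q⁻¹ * d * Q with hg
  have hdet := det3 g
  have hcol : ¬ ∀ a ∈ A, chi b a 2 = chi b (d⁻¹ * a * d) 0 := by
    intro h
    have g00 : g 0 0 = 0 := by
      by_contra hne
      exact h02 fun a ha => by rw [hkey 0 0 hne a ha, h a ha]
    have g10 : g 1 0 = 0 := by
      by_contra hne
      exact h02 fun a ha => by rw [h01 a ha, hkey 1 0 hne a ha, h a ha]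
    have g01 : g 0 1 = 0 := by
      by_contra hne
      exact h02 fun a ha => by rw [hkey 0 1 hne a ha, ← h01' a ha, h a ha]
    have g11 : g 1 1 = 0 := by
      by_contra hne
      exact h02 fun a ha => by rw [h01 a ha, hkey 1 1 hne a ha, ← h01' a ha, h a ha]
    rw [g00, g10, g01, g11] at hdet
    apply one_ne_zero (α := K)
    rw [← hdet]
    ring
  have g20 : g 2 0 = 0 := by
    by_contra hne
    exact hcol fun a ha => hkey 2 0 hne a ha
  have g21 : g 2 1 = 0 := by
    by_contra hne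
    exact hcol fun a ha => by rw [hkey 2 1 hne a ha, h01' a ha]
  have g22 : g 2 2 ≠ 0 := by
    intro h
    rw [g20, g21, h] at hdet
    apply one_ne_zero (α := K)
    rw [← hdet]
    ring
  refine mem_blk.2 ⟨?_, ?_, g20, g21⟩
  · by_contra hne
    exact h02 fun a ha => by rw [hkey 0 2 hne a ha, hkey 2 2 g22 a ha]
  · by_contra hne
    exact h02 fun a ha => by rw [h01 a ha, hkey 1 2 hne a ha, hkey 2 2 g22 a ha]

omit hn in
/-- equal weights -/
theorem eq_bot_of_equal (h01 : ∀ a ∈ A, chi b a 0 = chi b a 1)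
    (h02 : ∀ a ∈ A, chi b a 0 = chi b a 2) : A = ⊥ := by
  refine (Subgroup.eq_bot_iff_forall A).2 fun a ha => ?_
  obtain ⟨Q, hQ⟩ := exists_change Nat.prime_three b
  have hd : ∀ i, (Q⁻¹ * a * Q) i i = chi b a 0 := by
    intro i
    rw [hQ]
    change chi b a i = chi b a 0
    fin_cases i
    · rfl
    · exact (h01 a ha).symm
    · exact (h02 a ha).symm
  have ho : ∀ i j, i ≠ j → (Q⁻¹ * a * Q) i j = 0 := by
    intro i j hij
    rw [hQ]
    exact hb a ha i j hij
  have hdet := det3 (Q⁻¹ * a * Q)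
  rw [hd, hd, hd, ho 1 2 (by decide), ho 0 1 (by decide), ho 0 2 (by decide)] at hdet
  have h5 : chi b a 0 ^ 3 = 1 := by linear_combination hdet
  have h6 : (chi b a 0 - 1) ^ 3 = 0 := by
    rw [sub_pow_char, h5, one_pow, sub_self]
  have h7 := sub_eq_zero.1 (pow_eq_zero_iff (by norm_num) |>.1 h6)
  have h8 : Q⁻¹ * a * Q = 1 := by
    apply Matrix.SpecialLinearGroup.ext
    intro i j
    rw [Matrix.SpecialLinearGroup.coe_one, Matrix.one_apply]
    split_ifs with h
    · rw [← h, hd, h7]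
    · exact ho i j h
  have h9 : a = Q * (Q⁻¹ * a * Q) * Q⁻¹ := by group
  rw [h9, h8]
  group

end

/-- reindexing -/
theorem chi_reindex (b : Basis (Fin 3) K (Fin 3 → K)) (e : Equiv.Perm (Fin 3)) (a : SLp 3 K)
    (i : Fin 3) : chi (b.reindex e) a i = chi b a (e.symm i) := by
  rw [chi, chi, Basis.reindex_apply, Basis.repr_reindex_apply]

theorem DiagB.reindex {A : Subgroup (SLp 3 K)} {b : Basis (Fin 3) K (Fin 3 → K)} (h : DiagB A b)
    (e : Equiv.Perm (Fin 3)) : DiagB A (b.reindex e) := by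
  intro a ha i j hij
  rw [Basis.reindex_apply, Basis.repr_reindex_apply]
  exact h a ha _ _ fun h' => hij (e.symm.injective h')

/-- **Geometry of case II, first part.** -/
theorem geo_IIa [CharP K 3] [Finite K] {s : ℕ} (hs : s.Prime) (hs3 : s ≠ 3)
    (hsK : s ∣ Nat.card Kˣ) (D A : Subgroup (SLp 3 K)) (hn : ∀ d ∈ D, ∀ a ∈ A, d * a * d⁻¹ ∈ A)
    (hAc : ∀ a ∈ A, ∀ b ∈ A, a * b = b * a) (hAs : ∀ a ∈ A, a ^ s = 1) (hA1 : A ≠ ⊥) :
    (∃ Q : SLp 3 K, (∀ d ∈ D, Q⁻¹ * d * Q ∈ mon3 K) ∧
      ∀ a ∈ A, ∀ i j, i ≠ j → (Q⁻¹ * a * Q) i j = 0) ∨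
    ∃ Q : SLp 3 K, ∀ d ∈ D, Q⁻¹ * d * Q ∈ blk K := by
  classical
  have hcard : (Nat.card A : K) ≠ 0 := by
    intro h
    have h1 : 3 ∣ Nat.card A := (CharP.cast_eq_zero_iff K 3 _).1 h
    have : Fact (Nat.Prime 3) := ⟨Nat.prime_three⟩
    obtain ⟨x, hx⟩ := exists_prime_orderOf_dvd_card' (G := A) 3 h1
    have h2 : orderOf x ∣ s := orderOf_dvd_of_pow_eq_one (Subtype.ext (hAs x x.2))
    rw [hx] at h2
    exact hs3 ((Nat.prime_dvd_prime_iff_eq Nat.prime_three hs).1 h2).symm
  obtain ⟨b, -, hb'⟩ := exists_basis_elem Nat.prime_three (K := K) hs hsK A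
    (fun x y => Subtype.ext (hAc x x.2 y y.2)) (fun x => Subtype.ext (hAs x x.2)) 3 (Fin 3 → K)
    (Module.finrank_fin_fun K) (actA A)
  have hb : DiagB A b := by
    intro a ha i j hij
    obtain ⟨c, hc⟩ := hb' hcard ⟨a, ha⟩ j
    have hc' : act a (b j) = c • b j := hc
    rw [hc', map_smul, Finsupp.smul_apply, Basis.repr_self, Finsupp.single_apply,
      if_neg (Ne.symm hij), smul_zero]
  by_cases h01 : ∀ a ∈ A, chi b a 0 = chi b a 1
  · by_cases h02 : ∀ a ∈ A, chi b a 0 = chi b a 2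
    · exact absurd (eq_bot_of_equal hb h01 h02) hA1
    · exact Or.inr (blk_of_two hn hb h01 h02)
  · by_cases h02 : ∀ a ∈ A, chi b a 0 = chi b a 2
    · right
      refine blk_of_two hn (hb.reindex (Equiv.swap 1 2)) (fun a ha => ?_) fun h => h01 fun a ha => ?_
      · rw [chi_reindex, chi_reindex, Equiv.symm_swap, Equiv.swap_apply_left,
          Equiv.swap_apply_of_ne_of_ne (by decide) (by decide)]
        exact h02 a ha
      · have h1 := h a ha
        rw [chi_reindex, chi_reindex, Equiv.symm_swap, Equiv.swap_apply_right,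
          Equiv.swap_apply_of_ne_of_ne (by decide) (by decide)] at h1
        exact h1
    · by_cases h12 : ∀ a ∈ A, chi b a 1 = chi b a 2
      · right
        refine blk_of_two hn (hb.reindex (Equiv.swap 0 2)) (fun a ha => ?_)
          fun h => h02 fun a ha => ?_
        · rw [chi_reindex, chi_reindex, Equiv.symm_swap, Equiv.swap_apply_left,
            Equiv.swap_apply_of_ne_of_ne (by decide) (by decide)]
          exact (h12 a ha).symm
        · have h1 := h a ha
          rw [chi_reindex, chi_reindex, Equiv.symm_swap, Equiv.swap_apply_left,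
            Equiv.swap_apply_right] at h1
          exact h1.symm
      · left
        refine mon_of_diff hn hb fun i j hij => ?_
        fin_cases i <;> fin_cases j <;>
          first
          | rfl
          | exact absurd hij h01
          | exact absurd hij h02
          | exact absurd hij h12
          | exact absurd (fun a ha => (hij a ha).symm) h01
          | exact absurd (fun a ha => (hij a ha).symm) h02
          | exact absurd (fun a ha => (hij a ha).symm) h12

end Pool.Agent.CoveringSubgroups.H6
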