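import Pool.Agent.Lib.MP_7252b7_al_h6.GeoDefs

/-!
# Three primes theorem, geometry of case II: subgroups of `PGL_2(K)`

`K` a finite field of characteristic 3 with `4 ∣ |K*|`.
-/

set_option autoImplicit false

open Polynomial Matrix

namespace Pool.Agent.CoveringSubgroups.H6

namespace IIb

variable {K : Type} [Field K]

/-- 2 x 2 matrices. -/
abbrev Mt (K : Type) := Matrix (Fin 2) (Fin 2) K

theorem sq_eq (x : Mt K) : x * x = x.trace • x - x.det • (1 : Mt K) := by
  ext i j
  fin_cases i <;> fin_cases j <;>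
    simp [Matrix.mul_apply, Matrix.trace_fin_two, Matrix.det_fin_two, Fin.sum_univ_two] <;> ring

theorem det_sub (x : Mt K) (a : K) :
    (x - a • (1 : Mt K)).det = a * a - x.trace * a + x.det := by
  simp [Matrix.trace_fin_two, Matrix.det_fin_two]
  ring

/-- The Frobenius of `K[x]`. -/
theorem frob [Fintype K] (x : Mt K) : x ^ Fintype.card K * x ^ Fintype.card K =
    x.trace • x ^ Fintype.card K - x.det • (1 : Mt K) := by
  set q := Fintype.card K with hq
  set f : K[X] := X * X - C x.trace * X + C x.det with hf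
  have h0 : aeval x f = 0 := by
    simp only [hf, map_add, map_sub, map_mul, aeval_X, aeval_C]
    rw [sq_eq, Algebra.algebraMap_eq_smul_one, Algebra.algebraMap_eq_smul_one, smul_mul_assoc,
      one_mul]
    abel
  have h1 : aeval (x ^ q) f = 0 := by
    rw [← expand_aeval, FiniteField.expand_card, map_pow, h0, zero_pow Fintype.card_ne_zero]
  simp only [hf, map_add, map_sub, map_mul, aeval_X, aeval_C] at h1
  rw [Algebra.algebraMap_eq_smul_one, Algebra.algebraMap_eq_smul_one, smul_mul_assoc,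
      one_mul] at h1
  rw [← sub_eq_zero, ← h1]
  abel

/-- `x ^ q - x` has an eigenvalue of `x` in its kernel. -/
theorem exists_eig [Fintype K] (x : Mt K) (h : (x ^ Fintype.card K - x).det = 0) :
    ∃ a : K, (x - a • (1 : Mt K)).det = 0 := by
  classical
  set q := Fintype.card K with hq
  set φ : K[X] →* K := (Matrix.detMonoidHom).comp ((aeval x : K[X] →ₐ[K] Mt K) : K[X] →* Mt K)
    with hφ
  have hφa : ∀ g : K[X], φ g = (aeval x g).det := fun g => rfl
  have h1 : (X ^ q - X : K[X]) = (Finset.univ.val.map fun a : K => X - C a).prod := by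
    have h2 := Polynomial.prod_multiset_X_sub_C_of_monic_of_roots_card_eq
      (p := (X ^ q - X : K[X])) ((monic_X_pow q).sub_of_left (by
        rw [degree_X, degree_X_pow]
        exact_mod_cast Fintype.one_lt_card)) (by
        rw [FiniteField.roots_X_pow_card_sub_X, FiniteField.X_pow_card_sub_X_natDegree_eq K
          Fintype.one_lt_card]
        rfl)
    rw [FiniteField.roots_X_pow_card_sub_X] at h2
    exact h2.symm
  have h2 : φ (X ^ q - X) = 0 := by
    rw [hφa, map_sub, map_pow, aeval_X]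
    exact h
  rw [h1, map_multiset_prod, Multiset.prod_eq_zero_iff, Multiset.map_map, Multiset.mem_map] at h2
  obtain ⟨a, _, ha⟩ := h2
  refine ⟨a, ?_⟩
  rw [Function.comp_apply, hφa, map_sub, aeval_X, aeval_C, Algebra.algebraMap_eq_smul_one] at ha
  exact ha

/-- No eigenvalue in `K`: the Frobenius is the conjugation. -/
theorem frob_eq [Fintype K] {x : Mt K} (h : ∀ a : K, (x - a • (1 : Mt K)).det ≠ 0) :
    x ^ Fintype.card K = x.trace • (1 : Mt K) - x := by
  set q := Fintype.card K with hq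
  have h1 : (x ^ q - x).det ≠ 0 := fun h0 => by
    obtain ⟨a, ha⟩ := exists_eig x h0
    exact h a ha
  have h2 : (x ^ q - x) * (x ^ q - (x.trace • (1 : Mt K) - x)) = 0 := by
    have e1 : (x ^ q - x) * (x ^ q - (x.trace • (1 : Mt K) - x)) =
        x ^ q * x ^ q - x.trace • x ^ q + (x.trace • x - x * x) + (x ^ q * x - x * x ^ q) := by
      simp only [sub_mul, mul_sub, mul_smul_comm, mul_one, smul_sub]
      abel
    rw [e1, frob, sq_eq, ← pow_succ, ← pow_succ', sub_self, add_zero]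
    abel
  have h3 : IsUnit (x ^ q - x) := (Matrix.isUnit_iff_isUnit_det _).2 (isUnit_iff_ne_zero.2 h1)
  exact sub_eq_zero.1 ((h3.mul_right_eq_zero).1 h2)

theorem smul_one_det (a : K) : (a • (1 : Mt K)).det = a * a := by
  simp
  ring

/-- Scalar matrices. -/
def Sc (x : Mt K) : Prop := ∃ c : K, x = c • (1 : Mt K)

/-- The centraliser of a matrix which is not scalar. -/
theorem exists_lin {x y : Mt K} (hx : ¬ Sc x) (h : y * x = x * y) :
    ∃ a b : K, y = a • (1 : Mt K) + b • x := by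
  have e00 := congrFun (congrFun h 0) 0
  have e01 := congrFun (congrFun h 0) 1
  have e10 := congrFun (congrFun h 1) 0
  simp only [Matrix.mul_apply, Fin.sum_univ_two] at e00 e01 e10
  by_cases h1 : x 0 1 = 0
  · by_cases h2 : x 1 0 = 0
    · have h3 : x 0 0 - x 1 1 ≠ 0 := fun h3 => hx ⟨x 0 0, by
        ext i j
        fin_cases i <;> fin_cases j
        · simp
        · simp [h1]
        · simp [h2]
        · simp [sub_eq_zero.1 h3]⟩
      rw [h1] at e00 e01
      rw [h2] at e00 e10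
      have h4 : y 0 1 = 0 := by
        have : y 0 1 * (x 0 0 - x 1 1) = 0 := by linear_combination -e01
        exact (mul_eq_zero.1 this).resolve_right h3
      have h5 : y 1 0 = 0 := by
        have : y 1 0 * (x 0 0 - x 1 1) = 0 := by linear_combination e10
        exact (mul_eq_zero.1 this).resolve_right h3
      refine ⟨y 0 0 - (y 0 0 - y 1 1) / (x 0 0 - x 1 1) * x 0 0,
        (y 0 0 - y 1 1) / (x 0 0 - x 1 1), ?_⟩
      ext i j
      fin_cases i <;> fin_cases j
      · simp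
      · simp [h1, h4]
      · simp [h2, h5]
      · simp
        field_simp
        ring
    · refine ⟨y 0 0 - y 1 0 / x 1 0 * x 0 0, y 1 0 / x 1 0, ?_⟩
      ext i j
      fin_cases i <;> fin_cases j
      · simp
      · simp only [Fin.zero_eta, Fin.mk_one, Matrix.add_apply, Matrix.smul_apply, Matrix.one_apply,
          smul_eq_mul]
        simp
        field_simp
        linear_combination e00
      · simp
        field_simp
      · simp
        field_simp
        linear_combination e10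
  · refine ⟨y 0 0 - y 0 1 / x 0 1 * x 0 0, y 0 1 / x 0 1, ?_⟩
    ext i j
    fin_cases i <;> fin_cases j
    · simp
    · simp
      field_simp
    · simp
      field_simp
      linear_combination -e00
    · simp
      field_simp
      linear_combination -e01

/-- Diagonalisation. -/
theorem exists_diag {x : Mt K} {l m : K} (hlm : l ≠ m) (hl : (x - l • (1 : Mt K)).det = 0)
    (hm : (x - m • (1 : Mt K)).det = 0) :
    ∃ Q : GL (Fin 2) K, x * Q.1 = Q.1 * !![l, 0; 0, m] := by
  obtain ⟨v, hv, hv'⟩ := Matrix.exists_mulVec_eq_zero_iff.2 hl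
  obtain ⟨w, hw, hw'⟩ := Matrix.exists_mulVec_eq_zero_iff.2 hm
  have v0 := congrFun hv' 0
  have v1 := congrFun hv' 1
  have w0 := congrFun hw' 0
  have w1 := congrFun hw' 1
  simp only [Matrix.mulVec, dotProduct, Fin.sum_univ_two, Matrix.sub_apply, Matrix.smul_apply,
    Matrix.one_apply, smul_eq_mul, Pi.zero_apply] at v0 v1 w0 w1
  simp at v0 v1 w0 w1
  have hdet : v 0 * w 1 - w 0 * v 1 ≠ 0 := by
    intro h0
    have e0 : v 0 * w 0 = 0 := by
      have : (l - m) * (v 0 * w 0) = 0 := by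
        linear_combination v 0 * w0 - w 0 * v0 - x 0 1 * h0
      exact (mul_eq_zero.1 this).resolve_left (sub_ne_zero.2 hlm)
    have e1 : v 1 * w 1 = 0 := by
      have : (l - m) * (v 1 * w 1) = 0 := by
        linear_combination v 1 * w1 - w 1 * v1 + x 1 0 * h0
      exact (mul_eq_zero.1 this).resolve_left (sub_ne_zero.2 hlm)
    rcases mul_eq_zero.1 e0 with h1 | h1
    · have h2 : v 1 ≠ 0 := fun h2 => hv (funext fun i => by fin_cases i <;> assumption)
      have h3 : w 1 = 0 := (mul_eq_zero.1 e1).resolve_left h2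
      rw [h1, h3] at h0
      simp only [mul_zero, zero_sub, neg_eq_zero, mul_eq_zero, h2, or_false] at h0
      exact hw (funext fun i => by fin_cases i <;> assumption)
    · have h2 : w 1 ≠ 0 := fun h2 => hw (funext fun i => by fin_cases i <;> assumption)
      have h3 : v 1 = 0 := (mul_eq_zero.1 e1).resolve_right h2
      rw [h1, h3] at h0
      simp only [mul_zero, sub_zero, mul_eq_zero, h2, or_false] at h0
      exact hv (funext fun i => by fin_cases i <;> assumption)
  refine ⟨Matrix.GeneralLinearGroup.mkOfDetNeZero !![v 0, w 0; v 1, w 1] (by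
    rw [Matrix.det_fin_two_of]
    exact hdet), ?_⟩
  change x * !![v 0, w 0; v 1, w 1] = !![v 0, w 0; v 1, w 1] * !![l, 0; 0, m]
  ext i j
  fin_cases i <;> fin_cases j
  · simp [Matrix.mul_apply, Fin.sum_univ_two]
    linear_combination v0
  · simp [Matrix.mul_apply, Fin.sum_univ_two]
    linear_combination w0
  · simp [Matrix.mul_apply, Fin.sum_univ_two]
    linear_combination v1
  · simp [Matrix.mul_apply, Fin.sum_univ_two]
    linear_combination w1

/-- Monomial matrices. -/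
def Mon (g : Mt K) : Prop := (g 0 1 = 0 ∧ g 1 0 = 0) ∨ (g 0 0 = 0 ∧ g 1 1 = 0)

/-- A matrix which maps `x` to a matrix commuting with `x` is monomial in the eigenbasis. -/
theorem mon_of_comm {x : Mt K} {l m : K} (hlm : l ≠ m) {Q g y : GL (Fin 2) K}
    (hQ : x * Q.1 = Q.1 * !![l, 0; 0, m]) (hy : g.1 * x = y.1 * g.1) (hc : y.1 * x = x * y.1) :
    Mon (Q⁻¹ * g * Q).1 := by
  set g' : GL (Fin 2) K := Q⁻¹ * g * Q with hg'
  set y' : GL (Fin 2) K := Q⁻¹ * y * Q with hy'
  have hx : x = Q.1 * !![l, 0; 0, m] * (Q⁻¹).1 := by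
    rw [← hQ, mul_assoc, Units.mul_inv, mul_one]
  have e1 : g'.1 * !![l, 0; 0, m] = y'.1 * g'.1 := by
    have h1 : g'.1 * !![l, 0; 0, m] = (Q⁻¹).1 * (g.1 * x) * Q.1 := by
      rw [hx, hg']
      simp only [Units.val_mul, mul_assoc]
      rw [Units.inv_mul, mul_one]
    have h2 : y'.1 * g'.1 = (Q⁻¹).1 * (y.1 * g.1) * Q.1 := by
      rw [hg', hy']
      simp only [Units.val_mul, mul_assoc]
      rw [← mul_assoc Q.1, Units.mul_inv, one_mul]
    rw [h1, h2, hy]
  have e2 : y'.1 * !![l, 0; 0, m] = !![l, 0; 0, m] * y'.1 := by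
    have h1 : y'.1 * !![l, 0; 0, m] = (Q⁻¹).1 * (y.1 * x) * Q.1 := by
      rw [hx, hy']
      simp only [Units.val_mul, mul_assoc]
      rw [Units.inv_mul, mul_one]
    have h2 : !![l, 0; 0, m] * y'.1 = (Q⁻¹).1 * (x * y.1) * Q.1 := by
      rw [hx, hy']
      simp only [Units.val_mul, mul_assoc]
      rw [← mul_assoc (Q⁻¹).1 Q.1, Units.inv_mul, one_mul]
    rw [h1, h2, hc]
  have hlm' : l - m ≠ 0 := sub_ne_zero.2 hlm
  have y01 : y'.1 0 1 = 0 := by
    have h1 := congrFun (congrFun e2 0) 1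
    simp [Matrix.mul_apply, Fin.sum_univ_two] at h1
    have h2 : y'.1 0 1 * (l - m) = 0 := by linear_combination -h1
    exact (mul_eq_zero.1 h2).resolve_right hlm'
  have y10 : y'.1 1 0 = 0 := by
    have h1 := congrFun (congrFun e2 1) 0
    simp [Matrix.mul_apply, Fin.sum_univ_two] at h1
    have h2 : y'.1 1 0 * (l - m) = 0 := by linear_combination h1
    exact (mul_eq_zero.1 h2).resolve_right hlm'
  have a00 := congrFun (congrFun e1 0) 0
  have a01 := congrFun (congrFun e1 0) 1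
  have a10 := congrFun (congrFun e1 1) 0
  have a11 := congrFun (congrFun e1 1) 1
  simp [Matrix.mul_apply, Fin.sum_univ_two, y01, y10] at a00 a01 a10 a11
  have hdet : g'.1 0 0 * g'.1 1 1 - g'.1 0 1 * g'.1 1 0 ≠ 0 := by
    rw [← Matrix.det_fin_two]
    exact (Matrix.isUnit_iff_isUnit_det _).1 g'.isUnit |>.ne_zero
  by_cases h0 : g'.1 0 0 = 0
  · right
    refine ⟨h0, ?_⟩
    have h1 : g'.1 1 0 ≠ 0 := fun h1 => hdet (by rw [h0, h1]; ring)
    by_contra h2
    have h3 : l = y'.1 1 1 := mul_right_cancel₀ h1 (by linear_combination a10)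
    have h4 : m = y'.1 1 1 := mul_right_cancel₀ h2 (by linear_combination a11)
    exact hlm (h3.trans h4.symm)
  · left
    have h3 : l = y'.1 0 0 := mul_right_cancel₀ h0 (by linear_combination a00)
    have h01 : g'.1 0 1 = 0 := by
      by_contra h2
      have h4 : m = y'.1 0 0 := mul_right_cancel₀ h2 (by linear_combination a01)
      exact hlm (h3.trans h4.symm)
    refine ⟨h01, ?_⟩
    have h11 : g'.1 1 1 ≠ 0 := fun h1 => hdet (by rw [h01, h1]; ring)
    by_contra h2
    have h4 : m = y'.1 1 1 := mul_right_cancel₀ h11 (by linear_combination a11)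
    have h5 : l = y'.1 1 1 := mul_right_cancel₀ h2 (by linear_combination a10)
    exact hlm (h5.trans h4.symm)

/-! ### The projective group -/

/-- The class of a matrix. -/
def mk : GL (Fin 2) K →* PG K := QuotientGroup.mk' _

theorem mk_def (g : GL (Fin 2) K) : mk g = QuotientGroup.mk g := rfl

theorem mk_surj (d : PG K) : ∃ g : GL (Fin 2) K, mk g = d := QuotientGroup.mk'_surjective _ d

theorem mem_center {g : GL (Fin 2) K} : g ∈ Subgroup.center (GL (Fin 2) K) ↔ Sc g.1 := by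
  rw [Matrix.GeneralLinearGroup.mem_center_iff_val_mem_range_scalar]
  constructor
  · rintro ⟨a, ha⟩
    exact ⟨a, by rw [← ha, Matrix.smul_one_eq_diagonal]; rfl⟩
  · rintro ⟨a, ha⟩
    exact ⟨a, by rw [ha, Matrix.smul_one_eq_diagonal]; rfl⟩

theorem mk_eq_one {g : GL (Fin 2) K} : mk g = 1 ↔ Sc g.1 := by
  rw [← mem_center]
  exact QuotientGroup.eq_one_iff g

theorem det_ne (g : GL (Fin 2) K) : g.1.det ≠ 0 :=
  ((Matrix.isUnit_iff_isUnit_det _).1 g.isUnit).ne_zero

theorem mk_eq {g h : GL (Fin 2) K} (e : mk g = mk h) : ∃ c : K, c ≠ 0 ∧ g.1 = c • h.1 := by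
  have h1 : mk (g * h⁻¹) = 1 := by rw [map_mul, map_inv, e, mul_inv_cancel]
  obtain ⟨c, hc⟩ := mk_eq_one.1 h1
  have h2 : g.1 = c • h.1 := by
    have h3 : g = g * h⁻¹ * h := by group
    rw [h3, Units.val_mul, hc, smul_mul_assoc, one_mul]
  refine ⟨c, fun h0 => det_ne g ?_, h2⟩
  rw [h2, h0, zero_smul, Matrix.det_zero]

theorem mk_eq_of {g h : GL (Fin 2) K} {c : K} (e : g.1 = c • h.1) : mk g = mk h := by
  have h1 : mk (g * h⁻¹) = 1 := by
    rw [mk_eq_one]
    exact ⟨c, by rw [Units.val_mul, e, smul_mul_assoc, Units.mul_inv]⟩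
  rw [map_mul, map_inv] at h1
  exact mul_inv_eq_one.1 h1

/-- Commuting classes. -/
theorem comm_or {g h : GL (Fin 2) K} (e : mk g * mk h = mk h * mk g) :
    g.1 * h.1 = h.1 * g.1 ∨ g.1 * h.1 = -(h.1 * g.1) := by
  rw [← map_mul, ← map_mul] at e
  obtain ⟨c, _, hc⟩ := mk_eq e
  rw [Units.val_mul, Units.val_mul] at hc
  have h1 := congrArg Matrix.det hc
  rw [Matrix.det_smul, Matrix.det_mul, Matrix.det_mul, Fintype.card_fin] at h1
  have h2 : (c ^ 2 - 1) * (h.1.det * g.1.det) = 0 := by linear_combination -h1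
  have h3 : (c - 1) * (c + 1) = 0 := by
    have := (mul_eq_zero.1 h2).resolve_right (mul_ne_zero (det_ne h) (det_ne g))
    linear_combination this
  rcases mul_eq_zero.1 h3 with h4 | h4
  · left
    rw [hc, sub_eq_zero.1 h4, one_smul]
  · right
    rw [hc, eq_neg_of_add_eq_zero_left h4, neg_smul, one_smul]

theorem comm_of {g h : GL (Fin 2) K}
    (e : g.1 * h.1 = h.1 * g.1 ∨ g.1 * h.1 = -(h.1 * g.1)) : mk g * mk h = mk h * mk g := by
  rw [← map_mul, ← map_mul]
  rcases e with e | e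
  · exact mk_eq_of (c := 1) (by rw [Units.val_mul, Units.val_mul, e, one_smul])
  · exact mk_eq_of (c := -1) (by rw [Units.val_mul, Units.val_mul, e, neg_smul, one_smul])

/-- The trace of an involution is zero. -/
theorem trace_of_sq {x : Mt K} (hx : ¬ Sc x) (h : Sc (x * x)) : x.trace = 0 := by
  obtain ⟨c, hc⟩ := h
  by_contra h0
  rw [sq_eq] at hc
  refine hx ⟨(c + x.det) / x.trace, ?_⟩
  have h1 : x.trace • x = (c + x.det) • (1 : Mt K) := by
    rw [add_smul, ← hc]
    abel
  rw [div_eq_inv_mul, mul_smul, ← h1, smul_smul, inv_mul_cancel₀ h0, one_smul]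

theorem sq_of_trace {x : Mt K} (h : x.trace = 0) : x * x = (-x.det) • (1 : Mt K) := by
  rw [sq_eq, h, zero_smul, zero_sub, neg_smul]

/-- An anticommuting matrix has trace zero. -/
theorem trace_of_anti (h2 : (2 : K) ≠ 0) {g x : GL (Fin 2) K} (h : g.1 * x.1 = -(x.1 * g.1)) :
    g.1.trace = 0 := by
  have h1 : g.1 = -(x.1 * g.1 * (x⁻¹).1) := by
    rw [← neg_mul, ← h, mul_assoc, Units.mul_inv, mul_one]
  have h3 : g.1.trace = -g.1.trace := by
    conv_lhs => rw [h1]
    rw [Matrix.trace_neg, Matrix.trace_mul_comm, ← mul_assoc, Units.inv_mul, one_mul]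
  have h4 : 2 * g.1.trace = 0 := by linear_combination h3
  exact (mul_eq_zero.1 h4).resolve_left h2

/-- The conclusion of the diagonal case. -/
theorem concl {D : Subgroup (PG K)} {x : Mt K} {l m : K} (hlm : l ≠ m)
    (hl : (x - l • (1 : Mt K)).det = 0) (hm : (x - m • (1 : Mt K)).det = 0)
    (h : ∀ g : GL (Fin 2) K, mk g ∈ D → ∃ y : GL (Fin 2) K, g.1 * x = y.1 * g.1 ∧
      y.1 * x = x * y.1) :
    ∃ Q : PG K, ∀ d ∈ D, ∃ g : GL (Fin 2) K, mk g = Q⁻¹ * d * Q ∧ Mon g.1 := by
  obtain ⟨Q, hQ⟩ := exists_diag hlm hl hm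
  refine ⟨mk Q, fun d hd => ?_⟩
  obtain ⟨g, rfl⟩ := mk_surj d
  obtain ⟨y, h1, h2⟩ := h g hd
  exact ⟨Q⁻¹ * g * Q, by rw [map_mul, map_mul, map_inv], mon_of_comm hlm hQ h1 h2⟩

/-- The diagonal case, for an involution. -/
theorem concl_inv (h2 : (2 : K) ≠ 0) {D : Subgroup (PG K)} {x : GL (Fin 2) K} {w : K}
    (hx : ¬ Sc x.1) (hw : x.1 * x.1 = (w * w) • (1 : Mt K))
    (h : ∀ d ∈ D, d * mk x = mk x * d) :
    ∃ Q : PG K, ∀ d ∈ D, ∃ g : GL (Fin 2) K, mk g = Q⁻¹ * d * Q ∧ Mon g.1 := by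
  have ht : x.1.trace = 0 := trace_of_sq hx ⟨_, hw⟩
  have hdet : x.1.det = -(w * w) := by
    have h3 := sq_of_trace ht
    rw [hw] at h3
    have h4 := congrFun (congrFun h3 0) 0
    simp at h4
    rw [h4, neg_neg]
  have hw0 : w ≠ 0 := fun h0 => det_ne x (by rw [hdet, h0]; ring)
  refine concl (x := x.1) (l := w) (m := -w) ?_ ?_ ?_ ?_
  · intro h3
    have h4 : 2 * w = 0 := by linear_combination h3
    exact (mul_ne_zero h2 hw0) h4
  · rw [det_sub, hdet, ht]
    ring
  · rw [det_sub, hdet, ht]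
    ring
  · intro g hg
    refine ⟨g * x * g⁻¹, ?_, ?_⟩
    · rw [← Units.val_mul, ← Units.val_mul]
      congr 1
      group
    · have h3 : (g * x * g⁻¹).1 = x.1 ∨ (g * x * g⁻¹).1 = -x.1 := by
        rcases comm_or (h _ hg) with h4 | h4
        · left
          rw [Units.val_mul, Units.val_mul, h4, mul_assoc, Units.mul_inv, mul_one]
        · right
          rw [Units.val_mul, Units.val_mul, h4, neg_mul, mul_assoc, Units.mul_inv, mul_one]
      rcases h3 with h3 | h3
      · rw [h3]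
      · rw [h3, neg_mul, mul_neg]

theorem eq_one_of_coprime {G : Type} [Group G] {g : G} {m n : ℕ} (h : Nat.Coprime m n)
    (hm : g ^ m = 1) (hn : g ^ n = 1) : g = 1 := by
  have h1 : orderOf g ∣ Nat.gcd m n :=
    Nat.dvd_gcd (orderOf_dvd_of_pow_eq_one hm) (orderOf_dvd_of_pow_eq_one hn)
  rw [h] at h1
  exact orderOf_eq_one_iff.1 (Nat.dvd_one.1 h1)

theorem mk_pow_eq {x : GL (Fin 2) K} {n : ℕ} (h : Sc (x.1 ^ n)) : mk x ^ n = 1 := by
  rw [← map_pow, mk_eq_one, Units.val_pow_eq_pow_val]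
  exact h

theorem sc_of_mk_pow {x : GL (Fin 2) K} {n : ℕ} (h : mk x ^ n = 1) : Sc (x.1 ^ n) := by
  rw [← map_pow, mk_eq_one, Units.val_pow_eq_pow_val] at h
  exact h

theorem exists_ne_one {G : Type} [Group G] {A : Subgroup G} (h : A ≠ ⊥) :
    ∃ a ∈ A, a ≠ 1 := by
  obtain ⟨a, ha⟩ := Subgroup.ne_bot_iff_exists_ne_one.1 h
  exact ⟨a.1, a.2, fun h => ha (Subtype.ext h)⟩

/-- The case of an odd prime. -/
theorem case_odd [Fintype K] [CharP K 3] {s : ℕ} (hs : s.Prime) (hs2 : s ≠ 2) (hs3 : s ≠ 3)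
    (hsK : s ∣ Fintype.card K - 1) (D A : Subgroup (PG K))
    (hn : ∀ d ∈ D, ∀ a ∈ A, d * a * d⁻¹ ∈ A) (hAc : ∀ a ∈ A, ∀ b ∈ A, a * b = b * a)
    (hAs : ∀ a ∈ A, a ^ s = 1) (hA1 : A ≠ ⊥) :
    ∃ Q : PG K, ∀ d ∈ D, ∃ g : GL (Fin 2) K, mk g = Q⁻¹ * d * Q ∧ Mon g.1 := by
  have h2 : (2 : K) ≠ 0 := by
    intro h0
    have h1 : (3 : K) = 0 := by exact_mod_cast CharP.cast_eq_zero K 3
    have h3 : (1 : K) = 0 := by linear_combination h1 - h0
    exact one_ne_zero h3
  obtain ⟨a, haA, ha1⟩ := exists_ne_one hA1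
  obtain ⟨x, rfl⟩ := mk_surj a
  have hc2 : Nat.Coprime 2 s := (Nat.coprime_primes Nat.prime_two hs).2 (Ne.symm hs2)
  have hc3 : Nat.Coprime 3 s := (Nat.coprime_primes Nat.prime_three hs).2 (Ne.symm hs3)
  have hx : ¬ Sc x.1 := fun h => ha1 (mk_eq_one.2 h)
  have hxs : mk x ^ s = 1 := hAs _ haA
  have key2 : ∀ y : GL (Fin 2) K, mk y ^ s = 1 → y.1.trace = 0 → mk y = 1 := by
    intro y hy h0
    refine eq_one_of_coprime hc2 (mk_pow_eq ⟨-y.1.det, ?_⟩) hy
    rw [pow_two]
    exact sq_of_trace h0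
  have heig : ∃ l : K, (x.1 - l • (1 : Mt K)).det = 0 := by
    by_contra hno
    push Not at hno
    have h1 := frob_eq hno
    have h3 : mk x ^ Fintype.card K = mk x := by
      obtain ⟨k, hk⟩ := hsK
      have h4 : Fintype.card K = s * k + 1 := by
        have := Fintype.one_lt_card (α := K)
        omega
      rw [h4, pow_add, pow_mul, hxs, one_pow, one_mul, pow_one]
    rw [← map_pow] at h3
    obtain ⟨c, _, hc⟩ := mk_eq h3
    rw [Units.val_pow_eq_pow_val, h1] at hc
    have h5 : (1 + c) • x.1 = x.1.trace • (1 : Mt K) := by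
      rw [add_smul, one_smul, ← hc]
      abel
    by_cases h6 : 1 + c = 0
    · have h7 : x.1.trace = 0 := by
        rw [h6, zero_smul] at h5
        have h8 := congrFun (congrFun h5 0) 0
        simp at h8
        exact h8.symm
      exact ha1 (key2 x hxs h7)
    · refine hx ⟨(1 + c)⁻¹ * x.1.trace, ?_⟩
      rw [mul_smul, ← h5, smul_smul, inv_mul_cancel₀ h6, one_smul]
  obtain ⟨l, hl⟩ := heig
  have hl' : l * l - x.1.trace * l + x.1.det = 0 := by
    rw [← det_sub]
    exact hl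
  refine concl (x := x.1) (l := l) (m := x.1.trace - l) ?_ hl ?_ ?_
  · intro hlm
    have h1 : (x.1 - l • (1 : Mt K)) * (x.1 - l • (1 : Mt K)) = 0 := by
      have e1 : (x.1 - l • (1 : Mt K)) * (x.1 - l • (1 : Mt K)) =
          x.1 * x.1 - (2 * l) • x.1 + (l * l) • (1 : Mt K) := by
        simp only [sub_mul, mul_sub, smul_mul_assoc, mul_smul_comm, one_mul, mul_one, smul_sub,
          smul_smul, two_mul, add_smul]
        abel
      have e2 : x.1.trace = 2 * l := by linear_combination -hlm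
      have e3 : x.1.det = l * l := by linear_combination hl' + l * e2
      rw [e1, sq_eq, e2, e3]
      abel
    have h3 : Sc (x.1 ^ 3) := by
      refine ⟨l * (l * l), ?_⟩
      have h30 : (3 : K) = 0 := by exact_mod_cast CharP.cast_eq_zero K 3
      set e := x.1 - l • (1 : Mt K) with he
      have hxe : x.1 = e + l • (1 : Mt K) := by rw [he]; abel
      rw [hxe]
      have e4 : (e + l • (1 : Mt K)) ^ 3 = e * e * e + (3 * l) • (e * e) + (3 * (l * l)) • e +
          (l * (l * l)) • (1 : Mt K) := by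
        have e5 : (3 : K) = 1 + 1 + 1 := by norm_num
        rw [e5]
        simp only [pow_succ, pow_zero, one_mul, add_mul, mul_add, smul_mul_assoc, mul_smul_comm,
          mul_one, smul_add, smul_smul, add_smul]
        abel
      rw [e4, h1, h30]
      simp
    exact ha1 (eq_one_of_coprime hc3 (mk_pow_eq h3) hxs)
  · rw [det_sub]
    linear_combination hl'
  · intro g hg
    have hyA : mk (g * x * g⁻¹) ∈ A := by
      rw [map_mul, map_mul, map_inv]
      exact hn _ hg _ haA
    refine ⟨g * x * g⁻¹, ?_, ?_⟩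
    · rw [← Units.val_mul, ← Units.val_mul]
      congr 1
      group
    · rcases comm_or (hAc _ hyA _ haA) with h4 | h4
      · exact h4
      · exfalso
        have h5 := key2 _ (hAs _ hyA) (trace_of_anti h2 h4)
        rw [map_mul, map_mul, map_inv, mul_inv_eq_one] at h5
        exact ha1 (mul_left_cancel (h5.trans (mul_one _).symm))

/-- A nonsquare: an element of `D` commuting with `x` is a power of it. -/
theorem nonsq_comm [Fintype K] [CharP K 3] (h4 : 4 ∣ Fintype.card K - 1) (h2 : (2 : K) ≠ 0)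
    {D : Subgroup (PG K)}
    (hD : ∀ t : ℕ, t.Prime → t ∣ Nat.card D → t = 3 ∨ t ∣ Fintype.card K - 1)
    {x : GL (Fin 2) K} {z : K} (hz : x.1 * x.1 = z • (1 : Mt K)) (hx : ¬ Sc x.1)
    (hsq : ∀ w : K, w * w ≠ z) {u : GL (Fin 2) K} (hu : mk u ∈ D) (hc : u.1 * x.1 = x.1 * u.1) :
    mk u = 1 ∨ mk u = mk x := by
  classical
  obtain ⟨α, β, hab⟩ := exists_lin hx hc
  have ht : x.1.trace = 0 := trace_of_sq hx ⟨_, hz⟩
  have hdet : x.1.det = -z := by
    have h3 := sq_of_trace ht
    rw [hz] at h3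
    have h4 := congrFun (congrFun h3 0) 0
    simp at h4
    rw [h4, neg_neg]
  have htu : u.1.trace = 2 * α := by
    rw [hab, Matrix.trace_add, Matrix.trace_smul, Matrix.trace_smul, ht, Matrix.trace_one,
      Fintype.card_fin]
    simp
    ring
  by_cases hb : β = 0
  · left
    rw [mk_eq_one]
    exact ⟨α, by rw [hab, hb, zero_smul, add_zero]⟩
  have hno : ∀ t : K, (u.1 - t • (1 : Mt K)).det ≠ 0 := by
    intro t h0
    have e1 : u.1 - t • (1 : Mt K) = β • (x.1 - ((t - α) / β) • (1 : Mt K)) := by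
      rw [hab, smul_sub, smul_smul, mul_div_cancel₀ _ hb, sub_smul]
      abel
    rw [e1, Matrix.det_smul, Fintype.card_fin, det_sub, ht, hdet] at h0
    have h3 := (mul_eq_zero.1 h0).resolve_left (pow_ne_zero 2 hb)
    exact hsq ((t - α) / β) (by linear_combination h3)
  have h5 : mk u ^ (Fintype.card K + 1) = 1 := by
    apply mk_pow_eq
    refine ⟨u.1.det, ?_⟩
    rw [pow_succ, frob_eq hno, sub_mul, smul_mul_assoc, one_mul, sq_eq]
    abel
  have hdv : orderOf (mk u) ∣ Fintype.card K + 1 := orderOf_dvd_of_pow_eq_one h5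
  have hdD : orderOf (mk u) ∣ Nat.card D := by
    have h6 : orderOf (⟨mk u, hu⟩ : D) = orderOf (mk u) := Subgroup.orderOf_mk _ _
    rw [← h6]
    exact orderOf_dvd_natCard _
  have h3K : 3 ∣ Fintype.card K := by
    have := (CharP.cast_eq_zero_iff K 3 (Fintype.card K)).1 (FiniteField.cast_card_eq_zero K)
    exact this
  have hK1 := Fintype.one_lt_card (α := K)
  have hp : ∀ t : ℕ, t.Prime → t ∣ orderOf (mk u) → t = 2 := by
    intro t ht htd
    have h7 := htd.trans hdv
    rcases hD t ht (htd.trans hdD) with h8 | h8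
    · rw [h8] at h7
      omega
    · have h9 : t ∣ 2 := by
        have h10 : t ∣ (Fintype.card K + 1) - (Fintype.card K - 1) := Nat.dvd_sub h7 h8
        have h11 : (Fintype.card K + 1) - (Fintype.card K - 1) = 2 := by omega
        rwa [h11] at h10
      exact (Nat.prime_dvd_prime_iff_eq ht Nat.prime_two).1 h9
  have hord : orderOf (mk u) ∣ 2 := by
    have hne : orderOf (mk u) ≠ 0 := by
      intro h0
      rw [h0, zero_dvd_iff] at hdv
      omega
    have h7 := Nat.eq_prime_pow_of_unique_prime_dvd hne (p := 2) (fun {d} hd hdd => hp d hd hdd)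
    set k := (orderOf (mk u)).primeFactorsList.length with hk
    rcases Nat.lt_or_ge k 2 with h8 | h8
    · rw [h7]
      exact (pow_dvd_pow 2 (by omega : k ≤ 1)).trans (by norm_num)
    · exfalso
      have h9 : 2 ^ 2 ∣ Fintype.card K + 1 := by
        rw [h7] at hdv
        exact (pow_dvd_pow 2 h8).trans hdv
      omega
  have hsc : Sc (u.1 ^ 2) := sc_of_mk_pow (orderOf_dvd_iff_pow_eq_one.1 hord)
  have hus : ¬ Sc u.1 := by
    rintro ⟨c, hc'⟩
    exact hno c (by rw [hc', sub_self, Matrix.det_zero])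
  rw [pow_two] at hsc
  have h6 := trace_of_sq hus hsc
  rw [htu] at h6
  right
  refine mk_eq_of (c := β) ?_
  rw [hab, (mul_eq_zero.1 h6).resolve_left h2, zero_smul, zero_add]

/-- The case of a fixed involution. -/
theorem case_inv [Fintype K] [CharP K 3] (h4 : 4 ∣ Fintype.card K - 1) (h2 : (2 : K) ≠ 0)
    {D : Subgroup (PG K)}
    (hD : ∀ t : ℕ, t.Prime → t ∣ Nat.card D → t = 3 ∨ t ∣ Fintype.card K - 1)
    {x : GL (Fin 2) K} (hx : ¬ Sc x.1) (hx2 : mk x ^ 2 = 1) (hxD : mk x ∈ D)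
    (hxc : ∀ d ∈ D, d * mk x = mk x * d) :
    ∃ Q : PG K, ∀ d ∈ D, ∃ g : GL (Fin 2) K, mk g = Q⁻¹ * d * Q ∧ Mon g.1 := by
  obtain ⟨z, hz⟩ := sc_of_mk_pow hx2
  rw [pow_two] at hz
  by_cases hsq : ∃ w : K, w * w = z
  · obtain ⟨w, hw⟩ := hsq
    exact concl_inv h2 hx (by rw [hz, hw]) hxc
  push Not at hsq
  have hcomm : ∀ u : GL (Fin 2) K, mk u ∈ D → u.1 * x.1 = x.1 * u.1 →
      mk u = 1 ∨ mk u = mk x := fun u hu hc => nonsq_comm h4 h2 hD hz hx hsq hu hc
  have hxx : mk x * mk x = 1 := by rw [← pow_two]; exact hx2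
  by_cases hanti : ∃ g : GL (Fin 2) K, mk g ∈ D ∧ g.1 * x.1 = -(x.1 * g.1)
  · obtain ⟨g, hg, hga⟩ := hanti
    have hgs : ∀ g : GL (Fin 2) K, g.1 * x.1 = -(x.1 * g.1) → ¬ Sc g.1 := by
      rintro g hga ⟨c, hc⟩
      rw [hc, smul_mul_assoc, mul_smul_comm, one_mul, mul_one] at hga
      have h5 : (2 * c) • x.1 = 0 := by
        rw [two_mul, add_smul]
        nth_rewrite 1 [hga]
        exact neg_add_cancel _
      have h6 := congrArg Matrix.det h5
      rw [Matrix.det_smul, Matrix.det_zero, Fintype.card_fin] at h6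
      have h7 := (mul_eq_zero.1 h6).resolve_right (det_ne x)
      have h8 := (mul_eq_zero.1 (pow_eq_zero_iff (two_ne_zero) |>.1 h7)).resolve_left h2
      exact det_ne g (by rw [hc, h8, zero_smul, Matrix.det_zero])
    -- an involution `h` anticommuting with `x` and with a square
    have hex : ∃ h : GL (Fin 2) K, mk h ∈ D ∧ h.1 * x.1 = -(x.1 * h.1) ∧
        ∃ w : K, h.1 * h.1 = (w * w) • (1 : Mt K) := by
      have hgn := sq_of_trace (trace_of_anti h2 hga)
      by_cases hn : ∃ w : K, w * w = -g.1.det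
      · obtain ⟨w, hw⟩ := hn
        exact ⟨g, hg, hga, w, by rw [hgn, hw]⟩
      · refine ⟨g * x, ?_, ?_, ?_⟩
        · rw [map_mul]
          exact D.mul_mem hg hxD
        · rw [Units.val_mul, hga, neg_mul, mul_assoc, hga, mul_neg]
        · have hn0 : -g.1.det ≠ 0 := neg_ne_zero.2 (det_ne g)
          have hz0 : z ≠ 0 := fun h0 => det_ne x (by
            have h5 := congrArg Matrix.det hz
            rw [h0, zero_smul, Matrix.det_mul, Matrix.det_zero] at h5
            exact mul_self_eq_zero.1 h5)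
          have hch : ringChar K ≠ 2 := by
            rw [ringChar.eq K 3]
            norm_num
          have hn1 : ¬ IsSquare (-g.1.det) := fun ⟨w, hw⟩ => hn ⟨w, hw.symm⟩
          have hz1 : ¬ IsSquare z := fun ⟨w, hw⟩ => hsq w hw.symm
          have hm1 : IsSquare (-1 : K) := by
            rw [FiniteField.isSquare_neg_one_iff]
            have := Fintype.one_lt_card (α := K)
            omega
          have hnz : IsSquare (-g.1.det * z) := by
            rw [FiniteField.isSquare_iff hch hn0] at hn1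
            rw [FiniteField.isSquare_iff hch hz0] at hz1
            rw [FiniteField.isSquare_iff hch (mul_ne_zero hn0 hz0), mul_pow,
              (FiniteField.pow_dichotomy hch hn0).resolve_left hn1,
              (FiniteField.pow_dichotomy hch hz0).resolve_left hz1]
            norm_num
          obtain ⟨w, hw⟩ := hm1.mul hnz
          refine ⟨w, ?_⟩
          rw [← hw, Units.val_mul]
          have h5 : g.1 * x.1 * (g.1 * x.1) = -(g.1 * g.1 * (x.1 * x.1)) := by
            rw [mul_assoc, ← mul_assoc x.1 g.1, ← neg_eq_iff_eq_neg.2 hga, neg_mul, mul_neg,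
              mul_assoc, ← mul_assoc g.1]
          rw [h5, hgn, hz, smul_mul_assoc, one_mul, smul_smul]
          rw [← neg_smul]
          congr 1
          ring
    obtain ⟨h, hhD, hha, w, hw⟩ := hex
    have hch : mk x * mk h = mk h * mk x := (comm_of (Or.inr hha)).symm
    refine concl_inv h2 (hgs h hha) hw ?_
    intro d hd
    obtain ⟨u, rfl⟩ := mk_surj d
    rcases comm_or (hxc _ hd) with h5 | h5
    · rcases hcomm u hd h5 with h6 | h6
      · rw [h6, one_mul, mul_one]
      · rw [h6, hch]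
    · have h6 : (u * h).1 * x.1 = x.1 * (u * h).1 := by
        rw [Units.val_mul, mul_assoc, hha, mul_neg, ← mul_assoc, h5, neg_mul, neg_neg, mul_assoc]
      have hhh : mk h * mk h = 1 := by
        rw [← map_mul, mk_eq_one, Units.val_mul, hw]
        exact ⟨_, rfl⟩
      rcases hcomm (u * h) (by rw [map_mul]; exact D.mul_mem hd hhD) h6 with h7 | h7
      · rw [map_mul] at h7
        have h8 : mk u = mk h := by
          rw [eq_inv_of_mul_eq_one_left h7, inv_eq_of_mul_eq_one_left hhh]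
        rw [h8]
      · rw [map_mul] at h7
        have h8 : mk u = mk x * mk h := by
          rw [← h7, mul_assoc, hhh, mul_one]
        rw [h8, hch, mul_assoc, ← hch]
  · push Not at hanti
    have ht : x.1.trace = 0 := trace_of_sq hx ⟨_, hz⟩
    rw [Matrix.trace_fin_two] at ht
    have hz00 := congrFun (congrFun hz 0) 0
    simp [Matrix.mul_apply, Fin.sum_univ_two] at hz00
    have hc : x.1 1 0 ≠ 0 := fun h0 => hsq (x.1 0 0) (by
      rw [← hz00, h0]
      ring)
    set Q : GL (Fin 2) K := Matrix.GeneralLinearGroup.mkOfDetNeZero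
      !![1, x.1 0 0; 0, x.1 1 0] (by
        rw [Matrix.det_fin_two_of]
        simpa using hc) with hQ
    have hxQ : x.1 * Q.1 = Q.1 * !![0, z; 1, 0] := by
      change x.1 * !![1, x.1 0 0; 0, x.1 1 0] = !![1, x.1 0 0; 0, x.1 1 0] * !![0, z; 1, 0]
      ext i j
      fin_cases i <;> fin_cases j
      · simp [Matrix.mul_apply, Fin.sum_univ_two]
      · simp [Matrix.mul_apply, Fin.sum_univ_two]
        linear_combination hz00
      · simp [Matrix.mul_apply, Fin.sum_univ_two]
      · simp [Matrix.mul_apply, Fin.sum_univ_two]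
        linear_combination x.1 1 0 * ht
    refine ⟨mk Q, fun d hd => ?_⟩
    obtain ⟨u, rfl⟩ := mk_surj d
    have h5 : u.1 * x.1 = x.1 * u.1 := by
      rcases comm_or (hxc _ hd) with h5 | h5
      · exact h5
      · exact absurd h5 (hanti u hd)
    rcases hcomm u hd h5 with h6 | h6
    · refine ⟨1, ?_, Or.inl ⟨by simp, by simp⟩⟩
      rw [h6, map_one, mul_one, inv_mul_cancel]
    · refine ⟨Q⁻¹ * x * Q, by rw [h6, map_mul, map_mul, map_inv], Or.inr ?_⟩
      have h7 : (Q⁻¹ * x * Q).1 = !![0, z; 1, 0] := by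
        rw [Units.val_mul, Units.val_mul, mul_assoc, hxQ, ← mul_assoc, Units.inv_mul, one_mul]
      rw [h7]
      simp

/-- The centraliser of a Klein four group. -/
theorem klein {x y : GL (Fin 2) K} (h2 : (2 : K) ≠ 0) (hx : ¬ Sc x.1)
    (hy2 : mk y * mk y = 1) (hxy : x.1 * y.1 = -(y.1 * x.1)) {c : PG K}
    (hcx : c * mk x = mk x * c) (hcy : c * mk y = mk y * c) :
    c = 1 ∨ c = mk x ∨ c = mk y ∨ c = mk x * mk y := by
  -- an element commuting with `x` as a matrix
  have key : ∀ u : GL (Fin 2) K, u.1 * x.1 = x.1 * u.1 → mk u * mk y = mk y * mk u →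
      mk u = 1 ∨ mk u = mk x := by
    intro u hu huy
    obtain ⟨α, β, hab⟩ := exists_lin hx hu
    have hyu : y.1 * u.1 = α • y.1 - β • (x.1 * y.1) := by
      rw [hab, mul_add, mul_smul_comm, mul_one, mul_smul_comm, hxy, smul_neg, sub_neg_eq_add]
    have huy' : u.1 * y.1 = α • y.1 + β • (x.1 * y.1) := by
      rw [hab, add_mul, smul_mul_assoc, one_mul, smul_mul_assoc]
    rcases comm_or huy with h5 | h5
    · left
      rw [hyu, huy'] at h5
      have h6 : (2 * β) • (x * y).1 = 0 := by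
        rw [two_mul, add_smul, Units.val_mul]
        have : β • (x.1 * y.1) = - (β • (x.1 * y.1)) := by
          have := add_left_cancel (h5.trans (sub_eq_add_neg _ _))
          exact this
        nth_rewrite 1 [this]
        exact neg_add_cancel _
      have h7 := congrArg Matrix.det h6
      rw [Matrix.det_smul, Matrix.det_zero, Fintype.card_fin] at h7
      have h8 := (pow_eq_zero_iff (two_ne_zero)).1 ((mul_eq_zero.1 h7).resolve_right (det_ne _))
      have h9 := (mul_eq_zero.1 h8).resolve_left h2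
      rw [mk_eq_one]
      exact ⟨α, by rw [hab, h9, zero_smul, add_zero]⟩
    · right
      rw [hyu, huy', neg_sub] at h5
      have h6 : (2 * α) • y.1 = 0 := by
        have h10 : α • y.1 = -(α • y.1) := by
          have h11 : β • (x.1 * y.1) + α • y.1 = β • (x.1 * y.1) + -(α • y.1) := by
            rw [add_comm, h5, sub_eq_add_neg]
          exact add_left_cancel h11
        rw [two_mul, add_smul]
        nth_rewrite 1 [h10]
        exact neg_add_cancel _
      have h7 := congrArg Matrix.det h6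
      rw [Matrix.det_smul, Matrix.det_zero, Fintype.card_fin] at h7
      have h8 := (pow_eq_zero_iff (two_ne_zero)).1 ((mul_eq_zero.1 h7).resolve_right (det_ne _))
      have h9 := (mul_eq_zero.1 h8).resolve_left h2
      exact mk_eq_of (c := β) (by rw [hab, h9, zero_smul, zero_add])
  obtain ⟨u, rfl⟩ := mk_surj c
  rcases comm_or hcx with h5 | h5
  · rcases key u h5 hcy with h6 | h6
    · exact Or.inl h6
    · exact Or.inr (Or.inl h6)
  · have h6 : (u * y).1 * x.1 = x.1 * (u * y).1 := by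
      rw [Units.val_mul, mul_assoc, ← neg_eq_iff_eq_neg.2 hxy, mul_neg, ← mul_assoc, h5, neg_mul,
        neg_neg, mul_assoc]
    have h7 : mk (u * y) * mk y = mk y * mk (u * y) := by
      rw [map_mul, hcy, mul_assoc, hcy]
    rcases key (u * y) h6 h7 with h8 | h8
    · right; right; left
      rw [map_mul] at h8
      rw [eq_inv_of_mul_eq_one_left h8, inv_eq_of_mul_eq_one_left hy2]
    · right; right; right
      rw [map_mul] at h8
      rw [← h8, mul_assoc, hy2, mul_one]

/-- The permutations of the nontrivial elements of a group. -/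
def cperm {G : Type} [Group G] (A : Subgroup G) :
    Subgroup.normalizer (A : Set G) →* Equiv.Perm {a : G // a ∈ A ∧ a ≠ 1} where
  toFun n :=
    { toFun := fun a => ⟨n.1 * a.1 * n.1⁻¹, (Subgroup.mem_normalizer_iff.1 n.2 a.1).1 a.2.1,
        fun h => a.2.2 (by
          have h1 : n.1 * a.1 = n.1 * 1 := by rw [mul_one]; exact mul_inv_eq_one.1 h
          exact mul_left_cancel h1)⟩
      invFun := fun a => ⟨n.1⁻¹ * a.1 * n.1, by
          have h1 := (Subgroup.mem_normalizer_iff.1 (inv_mem n.2) a.1).1 a.2.1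
          rwa [inv_inv] at h1,
        fun h => a.2.2 (by
          have h1 : a.1 = n.1 * (n.1⁻¹ * a.1 * n.1) * n.1⁻¹ := by group
          rw [h1, h]
          group)⟩
      left_inv := fun a => Subtype.ext (by
        change n.1⁻¹ * (n.1 * a.1 * n.1⁻¹) * n.1 = a.1
        group)
      right_inv := fun a => Subtype.ext (by
        change n.1 * (n.1⁻¹ * a.1 * n.1) * n.1⁻¹ = a.1
        group) }
  map_one' := by
    ext a
    change (1 : G) * a.1 * (1 : G)⁻¹ = a.1
    group
  map_mul' m n := by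
    ext a
    change (m.1 * n.1) * a.1 * (m.1 * n.1)⁻¹ = m.1 * (n.1 * a.1 * n.1⁻¹) * m.1⁻¹
    group

theorem perm3_a : ∀ p : Equiv.Perm (Fin 3), p ^ 3 = 1 → p ≠ 1 → ∀ i, p i ≠ i := by
  decide

set_option maxRecDepth 100000 in
theorem perm3_b : ∀ p0 p1 p2 : Equiv.Perm (Fin 3), p0 0 ≠ 0 → p1 1 ≠ 1 → p2 2 ≠ 2 →
    (p0 ^ 3 = 1 ∧ p0 ≠ 1) ∨ (p1 ^ 3 = 1 ∧ p1 ≠ 1) ∨ (p2 ^ 3 = 1 ∧ p2 ≠ 1) ∨
    ((p0 * p1) ^ 3 = 1 ∧ p0 * p1 ≠ 1) ∨ ((p0 * p2) ^ 3 = 1 ∧ p0 * p2 ≠ 1) ∨
    ((p1 * p2) ^ 3 = 1 ∧ p1 * p2 ≠ 1) := by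
  decide

/-- The case of a four group. -/
theorem case_klein [Finite K] (h2 : (2 : K) ≠ 0) (D A : Subgroup (PG K))
    (hn : ∀ d ∈ D, ∀ a ∈ A, d * a * d⁻¹ ∈ A)
    (hAc : ∀ a ∈ A, ∀ b ∈ A, a * b = b * a)
    (hAs : ∀ a ∈ A, a ^ 2 = 1) (hA1 : A ≠ ⊥)
    (hfix : ∀ a ∈ A, a ≠ 1 → ∃ d ∈ D, d * a ≠ a * d) :
    ∃ (N : Subgroup (PG K)) (mu : N →* Equiv.Perm (Fin 3)),
        D ≤ N ∧ (∀ u : N, mu u = 1 → u ^ 2 = 1) ∧ (∃ d : N, d.1 ∈ D ∧ orderOf (mu d) = 3) ∧
        ∀ t : N, orderOf (mu t) = 3 → ∀ a ∈ A, a ≠ 1 → (t : PG K) * a ≠ a * t := by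
  classical
  obtain ⟨a, haA, ha1⟩ := exists_ne_one hA1
  obtain ⟨d, hd, hda⟩ := hfix a haA ha1
  have hbA : d * a * d⁻¹ ∈ A := hn d hd a haA
  obtain ⟨x, rfl⟩ := mk_surj a
  obtain ⟨y, hy⟩ := mk_surj (d * mk x * d⁻¹)
  have hyA : mk y ∈ A := by rw [hy]; exact hbA
  have hyx : mk y ≠ mk x := by
    intro h
    rw [hy] at h
    exact hda (mul_inv_eq_iff_eq_mul.1 h)
  have hy1 : mk y ≠ 1 := by
    intro h
    rw [hy] at h
    apply ha1
    have h1 := mul_inv_eq_one.1 h
    exact mul_left_cancel (h1.trans (mul_one _).symm)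
  have hx : ¬ Sc x.1 := fun h => ha1 (mk_eq_one.2 h)
  have hys : ¬ Sc y.1 := fun h => hy1 (mk_eq_one.2 h)
  have hxx : mk x * mk x = 1 := by rw [← pow_two]; exact hAs _ haA
  have hyy : mk y * mk y = 1 := by rw [← pow_two]; exact hAs _ hyA
  have hxy : x.1 * y.1 = -(y.1 * x.1) := by
    rcases comm_or (hAc _ haA _ hyA) with h | h
    · exfalso
      obtain ⟨α, β, hab⟩ := exists_lin hx h.symm
      have htx : x.1.trace = 0 := trace_of_sq hx (by
        rw [← pow_two]; exact sc_of_mk_pow (hAs _ haA))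
      have hty : y.1.trace = 0 := trace_of_sq hys (by
        rw [← pow_two]; exact sc_of_mk_pow (hAs _ hyA))
      rw [hab, Matrix.trace_add, Matrix.trace_smul, Matrix.trace_smul, htx, Matrix.trace_one,
        Fintype.card_fin] at hty
      have h3 : 2 * α = 0 := by
        simp at hty
        rcases hty with hty | hty
        · rw [hty, mul_zero]
        · exact absurd hty h2
      have h4 := (mul_eq_zero.1 h3).resolve_left h2
      exact hyx (mk_eq_of (c := β) (by rw [hab, h4, zero_smul, zero_add]))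
    · exact h
  have hxyc : mk x * mk y = mk y * mk x := hAc _ haA _ hyA
  have hkl : ∀ c : PG K, c * mk x = mk x * c → c * mk y = mk y * c →
      c = 1 ∨ c = mk x ∨ c = mk y ∨ c = mk x * mk y := fun c h1 h3 =>
    klein h2 hx hyy hxy h1 h3
  have hz1 : mk x * mk y ≠ 1 := by
    intro h
    apply hyx
    rw [eq_inv_of_mul_eq_one_right h, inv_eq_of_mul_eq_one_left hxx]
  have hzx : mk x * mk y ≠ mk x := fun h => hy1 (mul_left_cancel (h.trans (mul_one _).symm))
  have hzy : mk x * mk y ≠ mk y := fun h => ha1 (mul_right_cancel (h.trans (one_mul _).symm))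
  -- the three involutions
  let S := {a : PG K // a ∈ A ∧ a ≠ 1}
  let v : Fin 3 → S := ![⟨mk x, haA, ha1⟩, ⟨mk y, hyA, hy1⟩,
    ⟨mk x * mk y, A.mul_mem haA hyA, hz1⟩]
  have hv : Function.Bijective v := by
    constructor
    · intro i j hij
      have h1 : (v i).1 = (v j).1 := congrArg Subtype.val hij
      fin_cases i <;> fin_cases j
      · rfl
      · exact absurd h1 hyx.symm
      · exact absurd h1 hzx.symm
      · exact absurd h1 hyx
      · rfl
      · exact absurd h1 hzy.symm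
      · exact absurd h1 hzx
      · exact absurd h1 hzy
      · rfl
    · rintro ⟨c, hcA, hc1⟩
      rcases hkl c (hAc _ hcA _ haA) (hAc _ hcA _ hyA) with h | h | h | h
      · exact absurd h hc1
      · exact ⟨0, Subtype.ext h.symm⟩
      · exact ⟨1, Subtype.ext h.symm⟩
      · exact ⟨2, Subtype.ext h.symm⟩
  let e : Fin 3 ≃ S := Equiv.ofBijective v hv
  let N : Subgroup (PG K) := Subgroup.normalizer (A : Set (PG K))
  let mu : N →* Equiv.Perm (Fin 3) := (e.symm.permCongrHom.toMonoidHom).comp (cperm A)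
  have hmu : ∀ (n : N) (i : Fin 3), (e (mu n i)).1 = n.1 * (e i).1 * n.1⁻¹ := by
    intro n i
    have h1 : e (mu n i) = cperm A n (e i) := by
      change e (e.symm (cperm A n (e i))) = _
      exact e.apply_symm_apply _
    rw [h1]
    rfl
  have hDN : D ≤ N := by
    intro g hg
    rw [Subgroup.mem_normalizer_iff]
    intro c
    constructor
    · exact fun hc => hn g hg c hc
    · intro hc
      have h1 := hn g⁻¹ (D.inv_mem hg) _ hc
      have h3 : g⁻¹ * (g * c * g⁻¹) * g⁻¹⁻¹ = c := by group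
      rwa [h3] at h1
  have hfx : ∀ i : Fin 3, ∃ g : N, g.1 ∈ D ∧ mu g i ≠ i := by
    intro i
    obtain ⟨g, hg, hga⟩ := hfix (e i).1 (e i).2.1 (e i).2.2
    refine ⟨⟨g, hDN hg⟩, hg, fun h => hga ?_⟩
    have h1 := hmu ⟨g, hDN hg⟩ i
    rw [h] at h1
    exact (mul_inv_eq_iff_eq_mul.1 h1.symm)
  have hord : ∀ p : Equiv.Perm (Fin 3), p ^ 3 = 1 ∧ p ≠ 1 → orderOf p = 3 := fun p hp =>
    orderOf_eq_prime hp.1 hp.2
  refine ⟨N, mu, hDN, ?_, ?_, ?_⟩
  · intro u hu
    have h1 : ∀ i : Fin 3, u.1 * (e i).1 = (e i).1 * u.1 := by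
      intro i
      have h3 := hmu u i
      rw [hu] at h3
      exact mul_inv_eq_iff_eq_mul.1 h3.symm
    have h3 : u.1 ∈ A := by
      rcases hkl u.1 (h1 0) (h1 1) with h | h | h | h
      · rw [h]; exact A.one_mem
      · rw [h]; exact haA
      · rw [h]; exact hyA
      · rw [h]; exact A.mul_mem haA hyA
    exact Subtype.ext (hAs _ h3)
  · obtain ⟨g0, hg0, h0⟩ := hfx 0
    obtain ⟨g1, hg1, h1⟩ := hfx 1
    obtain ⟨g2, hg2, h3⟩ := hfx 2
    rcases perm3_b _ _ _ h0 h1 h3 with h | h | h | h | h | h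
    · exact ⟨g0, hg0, hord _ h⟩
    · exact ⟨g1, hg1, hord _ h⟩
    · exact ⟨g2, hg2, hord _ h⟩
    · exact ⟨g0 * g1, D.mul_mem hg0 hg1, hord _ (by rw [map_mul]; exact h)⟩
    · exact ⟨g0 * g2, D.mul_mem hg0 hg2, hord _ (by rw [map_mul]; exact h)⟩
    · exact ⟨g1 * g2, D.mul_mem hg1 hg2, hord _ (by rw [map_mul]; exact h)⟩
  · intro t ht c hcA hc1 hcomm
    have h1 : mu t ^ 3 = 1 := orderOf_dvd_iff_pow_eq_one.1 (dvd_of_eq ht)
    have h3 : mu t ≠ 1 := by
      intro h
      rw [h, orderOf_one] at ht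
      norm_num at ht
    refine perm3_a (mu t) h1 h3 (e.symm ⟨c, hcA, hc1⟩) ?_
    apply e.injective
    apply Subtype.ext
    rw [hmu, Equiv.apply_symm_apply, hcomm, mul_assoc, mul_inv_cancel, mul_one]

end IIb

open IIb in
/-- Geometry of case II. -/
theorem geo_IIb {K : Type} [Field K] [CharP K 3] [Finite K] (h4 : 4 ∣ Nat.card Kˣ) {s : ℕ}
    (hs : s.Prime) (hs3 : s ≠ 3) (hsK : s ∣ Nat.card Kˣ) (D A : Subgroup (PG K))
    (hD : ∀ t : ℕ, t.Prime → t ∣ Nat.card D → t = 3 ∨ t ∣ Nat.card Kˣ)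
    (hAD : A ≤ D) (hn : ∀ d ∈ D, ∀ a ∈ A, d * a * d⁻¹ ∈ A)
    (hAc : ∀ a ∈ A, ∀ b ∈ A, a * b = b * a) (hAs : ∀ a ∈ A, a ^ s = 1) (hA1 : A ≠ ⊥) :
    (∃ Q : PG K, ∀ d ∈ D, ∃ g : GL (Fin 2) K, (QuotientGroup.mk g : PG K) = Q⁻¹ * d * Q ∧
      ((g 0 1 = 0 ∧ g 1 0 = 0) ∨ (g 0 0 = 0 ∧ g 1 1 = 0))) ∨
    (s = 2 ∧ ∃ (N : Subgroup (PG K)) (mu : N →* Equiv.Perm (Fin 3)),
        D ≤ N ∧ (∀ u : N, mu u = 1 → u ^ 2 = 1) ∧ (∃ d : N, d.1 ∈ D ∧ orderOf (mu d) = 3) ∧
        ∀ t : N, orderOf (mu t) = 3 → ∀ a ∈ A, a ≠ 1 → (t : PG K) * a ≠ a * t) := by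
  classical
  let _ : Fintype K := Fintype.ofFinite K
  have hc : Nat.card Kˣ = Fintype.card K - 1 := by
    rw [Nat.card_eq_fintype_card, Fintype.card_units]
  rw [hc] at h4 hsK
  simp only [hc] at hD
  have h2 : (2 : K) ≠ 0 := by
    intro h0
    have h1 : (3 : K) = 0 := by exact_mod_cast CharP.cast_eq_zero K 3
    have h3 : (1 : K) = 0 := by linear_combination h1 - h0
    exact one_ne_zero h3
  by_cases hs2 : s = 2
  · subst hs2
    by_cases hfix : ∃ a ∈ A, a ≠ 1 ∧ ∀ d ∈ D, d * a = a * d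
    · obtain ⟨a, haA, ha1, hac⟩ := hfix
      obtain ⟨x, rfl⟩ := mk_surj a
      exact Or.inl (case_inv h4 h2 hD (fun h => ha1 (mk_eq_one.2 h)) (hAs _ haA) (hAD haA) hac)
    · push Not at hfix
      exact Or.inr ⟨rfl, case_klein h2 D A hn hAc hAs hA1 hfix⟩
  · exact Or.inl (case_odd hs hs2 hs3 hsK D A hn hAc hAs hA1)

end Pool.Agent.CoveringSubgroups.H6
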