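import Pool.Agent.Lib.MP_7252b7_al_h6.MonData
import Pool.Agent.Lib.MP_7252b7_al_h6.GeoIIa
import Pool.Agent.Lib.MP_7252b7_al_h6.GeoIIb

/-!
# Case II: no normal 3-subgroup
-/

set_option autoImplicit false
set_option linter.unusedSectionVars false

namespace Pool.Agent.CoveringSubgroups.H6

open Pool.Agent.CoveringSubgroups Pool.Agent.CoveringSubgroups.H9

/-! ### The normal 3-subgroup of a central extension -/

theorem exists_three_sub {G G' : Type} [Group G] [Finite G] [Group G'] {H W : Subgroup G}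
    (hWn : ∀ h ∈ H, ∀ w ∈ W, h * w * h⁻¹ ∈ W) (φ : G →* G')
    (hab : ∀ a ∈ W, ∀ b ∈ W, φ a * φ b = φ b * φ a) (hexp : ∀ a ∈ W, φ a ^ 3 = 1)
    (hne : ∃ a ∈ W, φ a ≠ 1) (hcen : ∀ a ∈ W, φ a = 1 → ∀ b ∈ W, a * b = b * a)
    (hord : ∀ a ∈ W, φ a = 1 → (∃ j, a ^ 3 ^ j = 1) → a = 1) :
    ∃ P ≤ W, (∀ h ∈ H, ∀ w ∈ P, h * w * h⁻¹ ∈ P) ∧ IsPGroup 3 P ∧ P ≠ ⊥ := by
  have hcomm : ∀ a ∈ W, ∀ b ∈ W, a ^ 3 = 1 → b ^ 3 = 1 → a * b = b * a := by
    intro a ha b hb ha3 hb3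
    have hz : b * a * b⁻¹ * a⁻¹ ∈ W :=
      W.mul_mem (W.mul_mem (W.mul_mem hb ha) (W.inv_mem hb)) (W.inv_mem ha)
    have hz1 : φ (b * a * b⁻¹ * a⁻¹) = 1 := by
      rw [map_mul, map_mul, map_mul, map_inv, map_inv, hab b hb a ha]
      group
    have hc := hcen _ hz hz1 a ha
    have h1 : (b * a * b⁻¹) ^ 3 = 1 := by rw [conj_pow, ha3, mul_one, mul_inv_cancel]
    have h2 : b * a * b⁻¹ = (b * a * b⁻¹ * a⁻¹) * a := by group
    have hcm : Commute (b * a * b⁻¹ * a⁻¹) a := hc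
    rw [h2, hcm.mul_pow, ha3, mul_one] at h1
    have h3 := hord _ hz hz1 ⟨1, by rw [pow_one]; exact h1⟩
    have h4 : b * a * b⁻¹ = a := by rw [h2, h3, one_mul]
    rw [mul_inv_eq_iff_eq_mul] at h4
    exact h4.symm
  let P : Subgroup G :=
    { carrier := {a | a ∈ W ∧ a ^ 3 = 1}
      one_mem' := ⟨W.one_mem, one_pow 3⟩
      mul_mem' := by
        rintro a b ⟨ha, ha'⟩ ⟨hb, hb'⟩
        refine ⟨W.mul_mem ha hb, ?_⟩
        have h1 : Commute a b := hcomm a ha b hb ha' hb'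
        rw [h1.mul_pow, ha', hb', one_mul]
      inv_mem' := by
        rintro a ⟨ha, ha'⟩
        exact ⟨W.inv_mem ha, by rw [inv_pow, ha', inv_one]⟩ }
  refine ⟨P, fun a ha => ha.1, ?_, ?_, ?_⟩
  · rintro h hh w ⟨hw, hw'⟩
    exact ⟨hWn h hh w hw, by rw [conj_pow, hw', mul_one, mul_inv_cancel]⟩
  · rintro ⟨a, ha⟩
    exact ⟨1, Subtype.ext (by rw [pow_one]; exact ha.2)⟩
  · obtain ⟨a, ha, ha1⟩ := hne
    obtain ⟨e, he1, he2⟩ := exists_r_part G Nat.prime_three 1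
    have hw : a ^ e ∈ W := W.pow_mem ha e
    have h1 : φ (a ^ e) = φ a := by
      rw [map_pow]
      exact he2 G' (φ a) (by rw [pow_one]; exact hexp a ha)
    have h2 : φ ((a ^ e) ^ 3) = 1 := by rw [map_pow, h1]; exact hexp a ha
    obtain ⟨j, hj⟩ := he1 a
    have h3 := hord _ (W.pow_mem hw 3) h2 ⟨j, by rw [← pow_mul, mul_comm, pow_mul, hj, one_pow]⟩
    intro h
    have h4 : a ^ e ∈ P := ⟨hw, h3⟩
    rw [h, Subgroup.mem_bot] at h4
    rw [h4, map_one] at h1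
    exact ha1 h1.symm

/-! ### The projection to the projective group -/

section proj

variable {K : Type} [Field K]

/-- the map to the projective group -/
noncomputable def toPG (K : Type) [Field K] [Finite K] : blk K →* PG K := IIb.mk.comp (blkGL K)

lemma toPG_surjective [Finite K] : Function.Surjective (toPG K) := by
  intro d
  obtain ⟨g, rfl⟩ := IIb.mk_surj d
  obtain ⟨u, rfl⟩ := blkGL_surjective g
  exact ⟨u, rfl⟩

lemma toPG_one [Finite K] {u : blk K} (hu : toPG K u = 1) :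
    (u : SLp 3 K) 0 0 = (u : SLp 3 K) 1 1 ∧ (u : SLp 3 K) 0 1 = 0 ∧ (u : SLp 3 K) 1 0 = 0 := by
  obtain ⟨c, hc⟩ := IIb.mk_eq_one.1 hu
  have h1 : ∀ i j, (blkGL K u : GL (Fin 2) K).1 i j = (c • (1 : Matrix (Fin 2) (Fin 2) K)) i j := by
    intro i j; rw [hc]
  have h00 : (u : SLp 3 K) 0 0 = c := by
    have := h1 0 0
    rw [blkGL_apply] at this
    simpa using this
  have h11 : (u : SLp 3 K) 1 1 = c := by
    have := h1 1 1
    rw [blkGL_apply] at this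
    simpa using this
  have h01 : (u : SLp 3 K) 0 1 = 0 := by
    have := h1 0 1
    rw [blkGL_apply] at this
    simpa using this
  have h10 : (u : SLp 3 K) 1 0 = 0 := by
    have := h1 1 0
    rw [blkGL_apply] at this
    simpa using this
  exact ⟨h00.trans h11.symm, h01, h10⟩

lemma toPG_comm [Finite K] {u : blk K} (hu : toPG K u = 1) (v : blk K) : u * v = v * u := by
  obtain ⟨h1, h2, h3⟩ := toPG_one hu
  obtain ⟨a1, a2, a3, a4⟩ := mem_blk.1 u.2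
  obtain ⟨b1, b2, b3, b4⟩ := mem_blk.1 v.2
  apply Subtype.ext
  apply Subtype.ext
  ext i j
  show ((u : SLp 3 K) * (v : SLp 3 K)) i j = ((v : SLp 3 K) * (u : SLp 3 K)) i j
  rw [slp_mul, slp_mul, Fin.sum_univ_three, Fin.sum_univ_three]
  fin_cases i <;> fin_cases j <;>
    simp only [Fin.mk_zero, Fin.mk_one, Fin.reduceFinMk, Fin.isValue] <;>
    simp only [a1, a2, a3, a4, b1, b2, b3, b4, h1, h2, h3] <;> ring

lemma toPG_three [Finite K] [CharP K 3] {u : blk K} (hu : toPG K u = 1)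
    (h3 : ∃ j, u ^ 3 ^ j = 1) : u = 1 := by
  have : Fact (Nat.Prime 3) := ⟨Nat.prime_three⟩
  obtain ⟨h1, h2, h3'⟩ := toPG_one hu
  obtain ⟨a1, a2, a3, a4⟩ := mem_blk.1 u.2
  obtain ⟨j, hj⟩ := h3
  have hz : ∀ i k, i ≠ k → (u : SLp 3 K) i k = 0 := by
    intro i k hik
    fin_cases i <;> fin_cases k <;> first | exact absurd rfl hik | assumption
  have hm : (u : SLp 3 K) ∈ mon3 K := ⟨1, fun i k hik => by
    by_contra hne
    exact hik (hz i k hne)⟩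
  have h5 := mon_ker (⟨(u : SLp 3 K), hm⟩ : mon3 K) (monPerm_eq_of _ 1 fun i k hik => by
    by_contra hne
    exact hik (hz i k hne)) ⟨j, Subtype.ext (by
      have h2 : ((u ^ 3 ^ j : blk K) : SLp 3 K) = ((1 : blk K) : SLp 3 K) := by rw [hj]
      exact h2)⟩
  have h6 : (u : SLp 3 K) = 1 := congrArg Subtype.val h5
  exact Subtype.ext h6

end proj

variable {F : GroupClass} {f : ℕ → GroupClass}

/-- the conclusion of the lemma on 3-cycles -/
def Cyc3 (F : GroupClass) {X Y : Type} [Group X] [Group Y] (ζ : X →* Y) : Prop :=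
  ∀ (N : Type) [Group N] [Finite N] (μ : N →* Equiv.Perm (Fin 3)), Function.Surjective μ →
    ∀ H : Subgroup (N ≀ᵣ X), Cov F H → ∀ y, ∃ h ∈ H, h.right = 1 ∧
      (∀ z, μ (h.left z) ∈ alternatingGroup (Fin 3)) ∧ μ (h.left y) ≠ 1 ∧
      ∀ z, μ (h.left z) ≠ 1 → ζ z = ζ y

section

variable (hF : IsFormation F) (hf : IsLocallyDefinedBy F f)

include hF

theorem no_fix2 {K : Type} [Field K] [Finite K] {X Y : Type} [Group X] [Group Y] (ζ : X →* Y)
    (hcyc : Cyc3 F ζ) {H : Subgroup (SLp 3 K ≀ᵣ X)} (hH : Cov F H)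
    (h : ∀ g ∈ H, ∀ z, g.left z ∈ mon3 K ∧ (g.left z) 2 2 ≠ 0) : False := by
  have hinj := wrIncl_injective (X := X) (mon3 K)
  have hrange : H ≤ (wrIncl (mon3 K) X).range := fun g hg => mem_range_wrIncl fun y => (h g hg y).1
  obtain ⟨g, hg, h1, h2, h3, -⟩ := hcyc (mon3 K) (monPerm K) monPerm_surjective
    (H.comap (wrIncl (mon3 K) X)) (hH.comap hF _ hinj hrange) 1
  apply h3
  have h4 : ((g.left 1 : mon3 K) : SLp 3 K) 2 2 ≠ 0 := (h _ hg 1).2
  have h5 : (2 : Fin 3) = monPerm K (g.left 1) 2 := permOf_spec _ _ _ h4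
  exact even_fix _ (Equiv.Perm.mem_alternatingGroup.1 (h2 1)) h5.symm

theorem no_mono {K : Type} [Field K] [Finite K] {X Y : Type} [Group X] [Group Y] (ζ : X →* Y)
    (hcyc : Cyc3 F ζ) {H : Subgroup (SLp 3 K ≀ᵣ X)} (hH : Cov F H)
    (hb : ∀ g ∈ H, ∀ z, g.left z ∈ blk K) (m : PG K ≀ᵣ X) (hm : m.right = 1)
    (hP : ∀ g ∈ ((H.comap (wrIncl (blk K) X)).map (wrQ (toPG K) X)).comap
      (MulAut.conj m).toMonoidHom, ∀ z, ∃ g0 : GL (Fin 2) K,
      (QuotientGroup.mk g0 : PG K) = g.left z ∧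
        ((g0 0 1 = 0 ∧ g0 1 0 = 0) ∨ (g0 0 0 = 0 ∧ g0 1 1 = 0))) : False := by
  obtain ⟨M, hM1, hM2⟩ := wrQ_lift (toPG_surjective (K := K)) m hm
  refine no_fix2 hF ζ hcyc (hH.conj hF (wrIncl (blk K) X M)) ?_
  intro g hg z
  have h1 : wrIncl (blk K) X M * g * (wrIncl (blk K) X M)⁻¹ ∈ H := hg
  obtain ⟨a, ha⟩ := mem_range_wrIncl (X := X) fun y => hb _ h1 y
  have h2 : wrIncl (blk K) X (M⁻¹ * a * M) = g := by
    rw [map_mul, map_mul, map_inv, ha]; group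
  have h3 : wrQ (toPG K) X (M⁻¹ * a * M) ∈
      ((H.comap (wrIncl (blk K) X)).map (wrQ (toPG K) X)).comap (MulAut.conj m).toMonoidHom := by
    show m * wrQ (toPG K) X (M⁻¹ * a * M) * m⁻¹ ∈ (H.comap (wrIncl (blk K) X)).map (wrQ (toPG K) X)
    refine ⟨a, ?_, ?_⟩
    · show wrIncl (blk K) X a ∈ H
      rw [ha]; exact h1
    · rw [← hM2, ← map_inv, ← map_mul, ← map_mul]
      congr 1
      group
  obtain ⟨g0, hg0, hz⟩ := hP _ h3 z
  set u := (M⁻¹ * a * M).left z with hu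
  have h4 : IIb.mk g0 = IIb.mk (blkGL K u) := hg0
  obtain ⟨c, hc, hc2⟩ := IIb.mk_eq h4.symm
  have h5 : g.left z = (u : SLp 3 K) := by rw [← h2]; rfl
  rw [h5]
  refine blk_mon u.2 ?_
  have h6 : ∀ i j, (blkGL K u : GL (Fin 2) K).1 i j = c * g0.1 i j := by
    intro i j; rw [hc2]; rfl
  have h00 : (u : SLp 3 K) 0 0 = c * g0.1 0 0 := h6 0 0
  have h01 : (u : SLp 3 K) 0 1 = c * g0.1 0 1 := h6 0 1
  have h10 : (u : SLp 3 K) 1 0 = c * g0.1 1 0 := h6 1 0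
  have h11 : (u : SLp 3 K) 1 1 = c * g0.1 1 1 := h6 1 1
  rcases hz with ⟨h7, h8⟩ | ⟨h7, h8⟩
  · left
    rw [h01, h10]
    exact ⟨by rw [show g0.1 0 1 = 0 from h7, mul_zero], by rw [show g0.1 1 0 = 0 from h8, mul_zero]⟩
  · right
    rw [h00, h11]
    exact ⟨by rw [show g0.1 0 0 = 0 from h7, mul_zero], by rw [show g0.1 1 1 = 0 from h8, mul_zero]⟩

end

end Pool.Agent.CoveringSubgroups.H6
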