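import Pool.Agent.Lib.MP_7252b7_al_h6.CaseII

/-!
# Case II: the conclusion
-/

set_option autoImplicit false
set_option linter.unusedSectionVars false

namespace Pool.Agent.CoveringSubgroups.H6

open Pool.Agent.CoveringSubgroups Pool.Agent.CoveringSubgroups.H9

section

variable {G X : Type} [Group G] [Group X]

lemma compSub_comm {W : Subgroup (G ≀ᵣ X)} (hWb : ∀ w ∈ W, w.right = 1)
    (hWc : ∀ a ∈ W, ∀ b ∈ W, a * b = b * a) : ∀ a ∈ compSub W, ∀ b ∈ compSub W, a * b = b * a := by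
  intro a ha b hb
  obtain ⟨w, hw, -, rfl⟩ := mem_compSub.1 ha
  obtain ⟨w', hw', -, rfl⟩ := mem_compSub.1 hb
  have h := congrFun (congrArg RegularWreathProduct.left (hWc w hw w' hw')) 1
  simpa [hWb w hw, hWb w' hw'] using h

lemma compSub_pow {s : ℕ} {W : Subgroup (G ≀ᵣ X)}
    (hWs : ∀ a ∈ W, a ^ s = 1) : ∀ a ∈ compSub W, a ^ s = 1 := by
  intro a ha
  obtain ⟨w, hw, hw1, rfl⟩ := mem_compSub.1 ha
  have h := (pow_base w hw1 s).2
  rw [hWs w hw] at h
  exact (congrFun h 1).symm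

lemma isPGroup_of_pow {s : ℕ} {W : Subgroup G} (hWs : ∀ a ∈ W, a ^ s = 1) : IsPGroup s W := by
  rintro ⟨a, ha⟩
  exact ⟨1, Subtype.ext (by rw [pow_one]; exact hWs a ha)⟩

lemma dvd_card_of_pow [Finite G] {s : ℕ} (hs : s.Prime) {H W : Subgroup G} (hWH : W ≤ H)
    (hW1 : W ≠ ⊥) (hWs : ∀ a ∈ W, a ^ s = 1) : s ∣ Nat.card H := by
  obtain ⟨a, ha, ha1⟩ := (Subgroup.bot_or_exists_ne_one W).resolve_left hW1
  have h1 : orderOf a = s := by
    rcases (Nat.dvd_prime hs).1 (orderOf_dvd_of_pow_eq_one (hWs a ha)) with h | h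
    · exact absurd (orderOf_eq_one_iff.1 h) ha1
    · exact h
  have h2 : orderOf (⟨a, hWH ha⟩ : H) = s := by rw [← h1]; exact Subgroup.orderOf_mk a (hWH ha)
  rw [← h2]
  exact orderOf_dvd_natCard _

/-- subgroups of the symmetric group of degree three containing a 3-cycle -/
lemma range_three {N : Type} [Group N] (μ : N →* Equiv.Perm (Fin 3)) {d : N}
    (hd : orderOf (μ d) = 3) (hns : ¬ Function.Surjective μ) : ∀ t, Equiv.Perm.sign (μ t) = 1 := by
  intro t
  by_contra hne
  apply hns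
  rw [← MonoidHom.range_eq_top, ← Subgroup.card_eq_iff_eq_top]
  have hdv : ∀ x : N, orderOf (μ x) ∣ Nat.card μ.range := by
    intro x
    have hx : μ x ∈ μ.range := ⟨x, rfl⟩
    have h0 : orderOf (⟨μ x, hx⟩ : μ.range) = orderOf (μ x) := Subgroup.orderOf_mk (μ x) hx
    rw [← h0]
    exact orderOf_dvd_natCard _
  have h3 : 3 ∣ Nat.card μ.range := by
    have h0 := hdv d
    rwa [hd] at h0
  have h2 : 2 ∣ Nat.card μ.range := by
    have h1 : Equiv.Perm.sign (μ t) = -1 := (Int.units_eq_one_or _).resolve_left hne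
    have h4 : 2 ∣ orderOf (μ t) := by
      by_contra h5
      have h6 : Odd (orderOf (μ t)) := by
        rcases Nat.even_or_odd (orderOf (μ t)) with h | h
        · exact absurd h.two_dvd h5
        · exact h
      have h7 := congrArg Equiv.Perm.sign (pow_orderOf_eq_one (μ t))
      rw [map_pow, h1, map_one, h6.neg_one_pow] at h7
      exact absurd h7 (by decide)
    exact h4.trans (hdv t)
  have h6 : 6 ∣ Nat.card μ.range :=
    (Nat.Coprime.mul_dvd_of_dvd_of_dvd (by norm_num : Nat.Coprime 2 3) h2 h3)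
  have h7 : Nat.card (Equiv.Perm (Fin 3)) = 6 := by
    rw [Nat.card_eq_fintype_card, Fintype.card_perm, Fintype.card_fin]; rfl
  rw [h7]
  refine le_antisymm ?_ (Nat.le_of_dvd Nat.card_pos h6)
  rw [← h7]
  exact Subgroup.card_le_card_group _

end

variable {F : GroupClass} {f : ℕ → GroupClass}

section

variable (hF : IsFormation F) (hf : IsLocallyDefinedBy F f)

include hF hf

/-- the case of three different weights -/
theorem case_IIi {K : Type} [Field K] [CharP K 3] [Finite K]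
    {X Y : Type} [Group X] [Group Y] (hX : F X) (ζ : X →* Y) (hζ : Function.Surjective ζ)
    (hcyc : Cyc3 F ζ) {s : ℕ} (hs : s.Prime) (hfs : IsFormation (f s))
    {H W : Subgroup (SLp 3 K ≀ᵣ X)} (hH : Cov F H)
    (hWH : W ≤ H) (hWn : ∀ h ∈ H, ∀ w ∈ W, h * w * h⁻¹ ∈ W) (hWb : ∀ w ∈ W, w.right = 1)
    (hWs : ∀ a ∈ W, a ^ s = 1) (hW1 : W ≠ ⊥)
    (hm : ∀ g ∈ H, ∀ z, g.left z ∈ mon3 K)
    (hd : ∀ g ∈ W, ∀ z i j, i ≠ j → (g.left z) i j = 0) : CF F f s Y := by
  have hXf : Finite X := hF.finite X hX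
  have hinj := wrIncl_injective (X := X) (mon3 K)
  have hrange : H ≤ (wrIncl (mon3 K) X).range := fun g hg => mem_range_wrIncl fun y => hm g hg y
  have hcov := hH.comap hF _ hinj hrange
  refine main_lemma3 hF hf hs hfs (monPerm K) mon_ker hX (H := H.comap (wrIncl (mon3 K) X))
    (A := W.comap (wrIncl (mon3 K) X)) hcov (Subgroup.comap_mono hWH) ?_
    ((isPGroup_of_pow hWs).comap_of_injective _ hinj) ?_ ?_ ?_ ζ hζ
    (hcyc (mon3 K) (monPerm K) monPerm_surjective _ hcov)
  · intro h hh a ha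
    show wrIncl (mon3 K) X (h * a * h⁻¹) ∈ W
    rw [map_mul, map_mul, map_inv]
    exact hWn _ hh _ ha
  · intro h
    obtain ⟨w, hw, hw1⟩ := (Subgroup.bot_or_exists_ne_one W).resolve_left hW1
    obtain ⟨a, rfl⟩ := hrange (hWH hw)
    have h1 : a ∈ W.comap (wrIncl (mon3 K) X) := hw
    rw [h, Subgroup.mem_bot] at h1
    exact hw1 (by rw [h1, map_one])
  · intro a ha
    exact hWb _ ha
  · intro a ha x hx t ht ht1
    exact mon_fpf ht ht1 (hd _ ha x) hx

/-- **Case II.** -/
theorem case_II (hher : ∀ (G : Type) [Group G] (H : Subgroup G), F G → F H)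
    (hsol : ∀ (G : Type) [Group G], F G → Group.IsSolvable G)
    {K : Type} [Field K] [CharP K 3] [Finite K] (h4 : 4 ∣ Nat.card Kˣ)
    (hpr : ∀ (t : ℕ) (G : Type) [Group G], t.Prime → F G → t ∣ Nat.card G →
      t = 3 ∨ t ∣ Nat.card Kˣ) (hf3 : IsFormation (f 3))
    {X Y : Type} [Group X] [Group Y] (hX : F X) (ζ : X →* Y) (hζ : Function.Surjective ζ)
    (hY : CF F f 3 Y) (hcyc : Cyc3 F ζ)
    (hno : ∀ H5 W5 : Subgroup (SLp 3 K ≀ᵣ X), Cov F H5 → W5 ≤ H5 →
      (∀ h ∈ H5, ∀ w ∈ W5, h * w * h⁻¹ ∈ W5) → IsPGroup 3 W5 → (∀ w ∈ W5, w.right = 1) → W5 = ⊥)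
    {s : ℕ} (hs : s.Prime) {H W : Subgroup (SLp 3 K ≀ᵣ X)} (hH : Cov F H)
    (hWH : W ≤ H) (hWn : ∀ h ∈ H, ∀ w ∈ W, h * w * h⁻¹ ∈ W) (hWb : ∀ w ∈ W, w.right = 1)
    (hWc : ∀ a ∈ W, ∀ b ∈ W, a * b = b * a) (hWs : ∀ a ∈ W, a ^ s = 1) (hW1 : W ≠ ⊥) :
    ∃ t : ℕ, t.Prime ∧ t ≠ 3 ∧ (∃ (G : Type) (_ : Group G), F G ∧ t ∣ Nat.card G) ∧
      CF F f t Y := by
  classical
  have hXf : Finite X := hF.finite X hX
  have hsH : s ∣ Nat.card H := dvd_card_of_pow hs hWH hW1 hWs
  have hs3 : s ≠ 3 := by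
    rintro rfl
    exact hW1 (hno H W hH hWH hWn (isPGroup_of_pow hWs) hWb)
  have hsK : s ∣ Nat.card Kˣ := (hpr s H hs hH.1 hsH).resolve_left hs3
  have hfs : IsFormation (f s) := form_of_dvd hf hF hher hs hH.1 hsH
  obtain ⟨m, -, hm2, hm3⟩ := kk2 (right_surj (F := F) (f := f) hF hf hX hH)
  obtain ⟨hm4, -⟩ := hm3 W hWn hWb
  rcases geo_IIa hs hs3 hsK (compSub H) (compSub W) (compSub_conj hWn) (compSub_comm hWb hWc)
    (compSub_pow hWs) (compSub_ne_bot hW1 hWb hm4) with ⟨Q, hQ1, hQ2⟩ | ⟨Q, hQ⟩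
  · refine ⟨s, hs, hs3, ⟨H, inferInstance, hH.1, hsH⟩, ?_⟩
    obtain ⟨c, hc⟩ : ∃ c : SLp 3 K ≀ᵣ X, c = ⟨fun _ => Q, 1⟩ := ⟨_, rfl⟩
    refine case_IIi hF hf hX ζ hζ hcyc hs hfs ((hH.conj hF m).conj hF c)
      (Subgroup.comap_mono (Subgroup.comap_mono hWH))
      (comap_conj_normal (comap_conj_normal hWn m) c)
      (comap_conj_base (comap_conj_base hWb m) c) ?_ (comap_conj_ne_bot (comap_conj_ne_bot hW1 m) c)
      ?_ ?_
    · intro a ha
      have h1 := hWs _ ha
      rw [← map_pow, ← map_pow] at h1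
      exact (MulAut.conj c).injective ((MulAut.conj m).injective (by
        rw [map_one, map_one]; exact h1))
    · rw [hc]
      exact left_of_const_conj Q hm2 hQ1
    · intro g hg z i j hij
      rw [hc] at hg
      have h1 := hm4 _ hg z
      have h2 : ((MulAut.conj (⟨fun _ => Q, 1⟩ : SLp 3 K ≀ᵣ X)).toMonoidHom g).left z =
        Q * g.left z * Q⁻¹ := const_conj Q g z
      rw [h2] at h1
      have h3 := hQ2 _ h1 i j hij
      have e : Q⁻¹ * (Q * g.left z * Q⁻¹) * Q = g.left z := by group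
      rwa [e] at h3
  · -- the block diagonal case
    obtain ⟨c, hc⟩ : ∃ c : SLp 3 K ≀ᵣ X, c = ⟨fun _ => Q, 1⟩ := ⟨_, rfl⟩
    have hH2 := (hH.conj hF m).conj hF c
    have hb : ∀ g ∈ (H.comap (MulAut.conj m).toMonoidHom).comap (MulAut.conj c).toMonoidHom,
        ∀ z, g.left z ∈ blk K := by
      rw [hc]
      exact left_of_const_conj Q hm2 hQ
    generalize (H.comap (MulAut.conj m).toMonoidHom).comap (MulAut.conj c).toMonoidHom = H2 at hH2 hb
    have hinj := wrIncl_injective (X := X) (blk K)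
    have hrange : H2 ≤ (wrIncl (blk K) X).range := fun g hg => mem_range_wrIncl fun y => hb g hg y
    have hH1 := hH2.comap hF _ hinj hrange
    set H1 := H2.comap (wrIncl (blk K) X) with hH1def
    have hHb : Cov F (H1.map (wrQ (toPG K) X)) :=
      Cov.map hF hH1 (wrQ (toPG K) X) (wrQ_surjective toPG_surjective)
    set Hb := H1.map (wrQ (toPG K) X) with hHbdef
    have hPGf : Finite (PG K) := inferInstance
    obtain ⟨m2, hm21, hm22, hm23⟩ := kk2 (right_surj (F := F) (f := f) hF hf hX hHb)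
    by_cases htriv : baseKer Hb = ⊥
    · exfalso
      refine no_mono hF ζ hcyc hH2 hb m2 hm21 ?_
      intro g hg z
      have h1 : g.left z ∈ compSub Hb := hm22 g hg z
      obtain ⟨w, hw, hw1, hw2⟩ := mem_compSub.1 h1
      have h2 : (⟨w, hw⟩ : Hb) ∈ baseKer Hb := hw1
      rw [htriv, Subgroup.mem_bot] at h2
      have h3 : w = 1 := congrArg Subtype.val h2
      refine ⟨1, ?_, Or.inl ⟨rfl, rfl⟩⟩
      rw [← hw2, h3]
      rfl
    have hsolHb : Group.IsSolvable Hb := hsol Hb hHb.1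
    have hbn : (baseKer Hb).Normal := MonoidHom.normal_ker _
    obtain ⟨t, ht, W0, hW0n, hW0b, hW01, hW0c, hW0s⟩ := exists_abelian_normal (baseKer Hb) htriv
    let W2 : Subgroup (PG K ≀ᵣ X) := W0.map Hb.subtype
    have hW2H : W2 ≤ Hb := Subgroup.map_subtype_le _
    have hW2n : ∀ h ∈ Hb, ∀ w ∈ W2, h * w * h⁻¹ ∈ W2 := by
      rintro h hh _ ⟨w, hw, rfl⟩
      exact ⟨⟨h, hh⟩ * w * ⟨h, hh⟩⁻¹, hW0n.conj_mem w hw _, rfl⟩
    have hW2b : ∀ w ∈ W2, w.right = 1 := by
      rintro _ ⟨w, hw, rfl⟩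
      exact hW0b hw
    have hW2c : ∀ a ∈ W2, ∀ b ∈ W2, a * b = b * a := by
      rintro _ ⟨a, ha, rfl⟩ _ ⟨b, hb, rfl⟩
      exact congrArg Subtype.val (hW0c a ha b hb)
    have hW2s : ∀ a ∈ W2, a ^ t = 1 := by
      rintro _ ⟨a, ha, rfl⟩
      exact congrArg Subtype.val (hW0s a ha)
    have hW21 : W2 ≠ ⊥ := by
      intro h
      exact hW01 ((Subgroup.map_eq_bot_iff_of_injective _ Hb.subtype_injective).1 h)
    have htH : t ∣ Nat.card Hb := dvd_card_of_pow ht hW2H hW21 hW2s
    by_cases ht3 : t = 3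
    · exfalso
      subst ht3
      obtain ⟨P, hPW, hPn, hP3, hP1⟩ := exists_three_sub (H := H1)
        (W := H1 ⊓ W2.comap (wrQ (toPG K) X)) (by
          rintro h hh w ⟨hw1, hw2⟩
          refine ⟨H1.mul_mem (H1.mul_mem hh hw1) (H1.inv_mem hh), ?_⟩
          show wrQ (toPG K) X (h * w * h⁻¹) ∈ W2
          rw [map_mul, map_mul, map_inv]
          exact hW2n _ ⟨h, hh, rfl⟩ _ hw2) (wrQ (toPG K) X)
        (fun a ha b hb => hW2c _ ha.2 _ hb.2) (fun a ha => hW2s _ ha.2) (by
          obtain ⟨b, hb, hb1⟩ := (Subgroup.bot_or_exists_ne_one W2).resolve_left hW21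
          obtain ⟨a, ha, rfl⟩ := hW2H hb
          exact ⟨a, ⟨ha, hb⟩, hb1⟩) (by
          intro a ha ha1 b hb
          have ha1' : a.right = 1 := hW2b _ ha.2
          have hb1' : b.right = 1 := hW2b _ hb.2
          refine RegularWreathProduct.ext (funext fun z => ?_) ?_
          · simp only [RegularWreathProduct.mul_left, Pi.mul_apply, ha1', hb1', inv_one, one_mul]
            exact toPG_comm (congrFun (congrArg RegularWreathProduct.left ha1) z) _
          · simp [ha1', hb1']) (by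
          rintro a ha ha1 ⟨j, hj⟩
          have ha1' : a.right = 1 := hW2b _ ha.2
          refine RegularWreathProduct.ext (funext fun z => ?_) ha1'
          refine toPG_three (congrFun (congrArg RegularWreathProduct.left ha1) z) ⟨j, ?_⟩
          have h5 := (pow_base a ha1' (3 ^ j)).2
          rw [hj] at h5
          exact (congrFun h5 z).symm)
      apply hP1
      have h6 := hno H2 (P.map (wrIncl (blk K) X)) hH2 (by
        rintro _ ⟨a, ha, rfl⟩
        exact (hPW ha).1) (by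
        rintro h hh _ ⟨w, hw, rfl⟩
        obtain ⟨h, rfl⟩ := hrange hh
        exact ⟨h * w * h⁻¹, hPn h hh w hw, by rw [map_mul, map_mul, map_inv]⟩)
        (hP3.map _) (by
        rintro _ ⟨a, ha, rfl⟩
        exact hW2b _ (hPW ha).2)
      exact (Subgroup.map_eq_bot_iff_of_injective _ hinj).1 h6
    · have htK : t ∣ Nat.card Kˣ := (hpr t Hb ht hHb.1 htH).resolve_left ht3
      obtain ⟨hm24, -⟩ := hm23 W2 hW2n hW2b
      rcases geo_IIb h4 ht ht3 htK (compSub Hb) (compSub W2)
        (fun q hq hd => hpr q (compSub Hb) hq (F_range hF hher hHb.1) hd) (compSub_mono hW2H)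
        (compSub_conj hW2n) (compSub_comm hW2b hW2c) (compSub_pow hW2s)
        (compSub_ne_bot hW21 hW2b hm24) with ⟨Q2, hQ2⟩ | ⟨rfl, N, mu, hDN, hmu1, ⟨d, -, hd⟩, hfpf⟩
      · exfalso
        refine no_mono hF ζ hcyc hH2 hb (m2 * ⟨fun _ => Q2, 1⟩) (by simp [hm21]) ?_
        intro g hg z
        have h1 : (⟨fun _ => Q2, 1⟩ : PG K ≀ᵣ X) * g * (⟨fun _ => Q2, 1⟩ : PG K ≀ᵣ X)⁻¹ ∈
            Hb.comap (MulAut.conj m2).toMonoidHom := by
          show m2 * ((⟨fun _ => Q2, 1⟩ : PG K ≀ᵣ X) * g * (⟨fun _ => Q2, 1⟩ : PG K ≀ᵣ X)⁻¹) * m2⁻¹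
            ∈ Hb
          have e : m2 * ((⟨fun _ => Q2, 1⟩ : PG K ≀ᵣ X) * g * (⟨fun _ => Q2, 1⟩ : PG K ≀ᵣ X)⁻¹) *
              m2⁻¹ = (m2 * ⟨fun _ => Q2, 1⟩) * g * (m2 * ⟨fun _ => Q2, 1⟩)⁻¹ := by group
          rw [e]
          exact hg
        have h2 := hm22 _ h1 z
        rw [const_conj] at h2
        obtain ⟨g0, hg0, hz⟩ := hQ2 _ h2
        refine ⟨g0, ?_, hz⟩
        rw [hg0]
        group
      · refine ⟨2, Nat.prime_two, by norm_num, ⟨Hb, inferInstance, hHb.1, htH⟩, ?_⟩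
        have hf2 : IsFormation (f 2) := form_of_dvd hf hF hher ht hHb.1 htH
        have hinjN := wrIncl_injective (X := X) N
        have hHb' := hHb.conj hF m2
        have hrangeN : Hb.comap (MulAut.conj m2).toMonoidHom ≤ (wrIncl N X).range :=
          fun g hg => mem_range_wrIncl fun y => hDN (hm22 g hg y)
        have hcovN := hHb'.comap hF _ hinjN hrangeN
        have hW2n' := comap_conj_normal hW2n m2
        have hAn : ∀ h ∈ (Hb.comap (MulAut.conj m2).toMonoidHom).comap (wrIncl N X),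
            ∀ a ∈ (W2.comap (MulAut.conj m2).toMonoidHom).comap (wrIncl N X),
            h * a * h⁻¹ ∈ (W2.comap (MulAut.conj m2).toMonoidHom).comap (wrIncl N X) := by
          intro h hh a ha
          show wrIncl N X (h * a * h⁻¹) ∈ W2.comap (MulAut.conj m2).toMonoidHom
          rw [map_mul, map_mul, map_inv]
          exact hW2n' _ hh _ ha
        have hA2 : IsPGroup 2 ((W2.comap (MulAut.conj m2).toMonoidHom).comap (wrIncl N X)) :=
          ((isPGroup_of_pow hW2s).comap_of_injective _ (MulAut.conj m2).injective).comap_of_injective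
            _ hinjN
        have hA1 : (W2.comap (MulAut.conj m2).toMonoidHom).comap (wrIncl N X) ≠ ⊥ := by
          intro h
          obtain ⟨w, hw, hw1⟩ := (Subgroup.bot_or_exists_ne_one _).resolve_left
            (comap_conj_ne_bot hW21 m2)
          obtain ⟨a, rfl⟩ := hrangeN (Subgroup.comap_mono hW2H hw)
          have h1 : a ∈ (W2.comap (MulAut.conj m2).toMonoidHom).comap (wrIncl N X) := hw
          rw [h, Subgroup.mem_bot] at h1
          exact hw1 (by rw [h1, map_one])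
        have hAb : ∀ a ∈ (W2.comap (MulAut.conj m2).toMonoidHom).comap (wrIncl N X),
            a.right = 1 := fun a ha => comap_conj_base hW2b m2 _ ha
        have hker : ∀ t : N, mu t = 1 → (∃ j, t ^ 3 ^ j = 1) → t = 1 := by
          rintro t ht ⟨j, hj⟩
          have h1 : orderOf t ∣ Nat.gcd 2 (3 ^ j) :=
            Nat.dvd_gcd (orderOf_dvd_of_pow_eq_one (hmu1 t ht)) (orderOf_dvd_of_pow_eq_one hj)
          have h2 : Nat.gcd 2 (3 ^ j) = 1 := Nat.Coprime.pow_right _ (by norm_num)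
          rw [h2, Nat.dvd_one, orderOf_eq_one_iff] at h1
          exact h1
        have hfpf' : ∀ a ∈ (W2.comap (MulAut.conj m2).toMonoidHom).comap (wrIncl N X), ∀ x,
            a.left x ≠ 1 → ∀ t : N, orderOf (mu t) = 3 → t * a.left x ≠ a.left x * t := by
          intro a ha x hx t ht hta
          have h1 : ((a.left x : N) : PG K) ∈ compSub W2 := hm24 _ ha x
          exact hfpf t ht _ h1 (fun h => hx (Subtype.ext h)) (congrArg Subtype.val hta)
        by_cases hsur : Function.Surjective mu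
        · refine main_lemma3 hF hf Nat.prime_two hf2 mu hker hX hcovN
            (Subgroup.comap_mono (Subgroup.comap_mono hW2H)) hAn hA2 hA1 hAb ?_ ζ hζ
            (hcyc N mu hsur _ hcovN)
          intro a ha x hx t ht ht1
          refine hfpf' a ha x hx t ?_
          have h1 := even_pow_three _ ht
          rw [pow_one] at h1
          rcases (Nat.dvd_prime Nat.prime_three).1 (orderOf_dvd_of_pow_eq_one h1) with h | h
          · exact absurd (orderOf_eq_one_iff.1 h) ht1
          · exact h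
        · have heven := range_three mu hd hsur
          let _ : CommGroup mu.range :=
            { (inferInstance : Group mu.range) with
              mul_comm := by
                rintro ⟨_, a, rfl⟩ ⟨_, b, rfl⟩
                apply Subtype.ext
                show mu a * mu b = mu b * mu a
                have h1 : ∀ σ τ : Equiv.Perm (Fin 3), Equiv.Perm.sign σ = 1 →
                  Equiv.Perm.sign τ = 1 → σ * τ = τ * σ := by decide
                exact h1 _ _ (heven a) (heven b) }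
          have hnt : Nontrivial mu.range := ⟨⟨mu.rangeRestrict d, 1, fun h => by
            have h1 : mu d = 1 := congrArg Subtype.val h
            rw [h1, orderOf_one] at hd
            exact absurd hd (by norm_num)⟩⟩
          refine main_lemma hF hf hher Nat.prime_three Nat.prime_two hf3 hf2
            (Λ := mu.range) ?_ mu.rangeRestrict mu.rangeRestrict_surjective ?_ hX hcovN
            (Subgroup.comap_mono (Subgroup.comap_mono hW2H)) hAn hA2 hA1 hAb ?_ ζ hζ hY
          · rintro ⟨_, a, rfl⟩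
            refine ⟨1, Subtype.ext ?_⟩
            exact even_pow_three _ (Equiv.Perm.mem_alternatingGroup.2 (heven a))
          · intro t ht h3
            exact hker t (congrArg Subtype.val ht) h3
          · intro a ha x hx
            refine ⟨mu.rangeRestrict d, fun t ht => hfpf' a ha x hx t ?_⟩
            have h1 : mu t = mu d := congrArg Subtype.val ht
            rw [h1, hd]

end

end Pool.Agent.CoveringSubgroups.H6
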