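import Pool.Agent.Lib.MP_7252b7_al_h9.Tower

/-!
# Closure under extensions by normal `a`-subgroups, for groups of order prime to `r`
-/

set_option autoImplicit false
set_option linter.unusedSectionVars false

namespace Pool.Agent.CoveringSubgroups.H6

open Pool.Agent.CoveringSubgroups Pool.Agent.CoveringSubgroups.H9

variable {F : GroupClass} {f : ℕ → GroupClass}

section

variable (hF : IsFormation F) (hf : IsLocallyDefinedBy F f)

include hF hf

theorem all_CF_rel_aux (hher : ∀ (G : Type) [Group G] (H : Subgroup G), F G → F H)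
    (hsol : ∀ (G : Type) [Group G], F G → Group.IsSolvable G) {r a : ℕ} (ha : InPi F a)
    (h : ∀ p, InPi F p → p ≠ r → ∀ (Y : Type) [Group Y], CF F f p Y → ¬ r ∣ Nat.card Y →
      CF F f a Y) :
    ∀ (n : ℕ) (W : Type) [Group W], F W → ¬ r ∣ Nat.card W → Nat.card W ≤ n → CF F f a W := by
  have hfa := form_of_inPi hf hF hher ha
  intro n
  induction n with
  | zero =>
    intro W _ hW _ hc
    have := hF.finite W hW
    have := Nat.card_pos (α := W)
    omega
  | succ n ih =>
    intro W _ hW hrW hc
    have hWf := hF.finite W hW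
    have hWs := hsol W hW
    by_cases h1 : (⊤ : Subgroup W) = ⊥
    · have : Subsingleton W := by
        rw [← Subgroup.subsingleton_iff (G := W)]
        exact subsingleton_of_bot_eq_top h1.symm
      exact ⟨hW, ⊥, inferInstance, IsPGroup.of_bot, ftriv hfa _⟩
    · obtain ⟨p, hp, A, hAn, -, hA1, -, hAp⟩ := exists_abelian_normal (⊤ : Subgroup W) h1
      have : Fact p.Prime := ⟨hp⟩
      have hApg : IsPGroup p A := by
        rintro ⟨w, hw⟩
        refine ⟨1, Subtype.ext ?_⟩
        show w ^ p ^ 1 = 1
        rw [pow_one]; exact hAp w hw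
      -- quotients by nontrivial normal subgroups are smaller
      have hquot : ∀ Q : Subgroup W, Q.Normal → Q ≠ ⊥ → ∃ (_ : Q.Normal), CF F f a (W ⧸ Q) := by
        intro Q hQ hQ1
        have h2 : Nat.card W = Nat.card (W ⧸ Q) * Nat.card Q :=
          Subgroup.card_eq_card_quotient_mul_card_subgroup Q
        refine ⟨hQ, ih (W ⧸ Q) (hF.quotient W Q hW) ?_ ?_⟩
        · intro hd
          exact hrW (hd.trans (h2 ▸ Dvd.intro _ rfl))
        · have h3 : 2 ≤ Nat.card Q := by
            have := Nat.card_pos (α := Q)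
            have : Nat.card Q ≠ 1 := fun h => hQ1 (Subgroup.card_eq_one.1 h)
            omega
          have h4 := Nat.card_pos (α := W ⧸ Q)
          nlinarith
      obtain ⟨P, hPmem, hPmax⟩ := Set.Finite.exists_maximal
        (s := {P : Subgroup W | P.Normal ∧ IsPGroup p P}) (Set.toFinite _)
        ⟨⊥, inferInstance, IsPGroup.of_bot⟩
      have hPn : P.Normal := hPmem.1
      have hPp : IsPGroup p P := hPmem.2
      have hmax : ∀ Q : Subgroup W, Q.Normal → IsPGroup p Q → Q ≤ P := by
        intro Q hQ hQp
        have h2 : (P ⊔ Q).Normal := inferInstance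
        have h3 : IsPGroup p (P ⊔ Q : Subgroup W) := hPp.to_sup_of_normal_right hQp
        exact le_sup_right.trans (hPmax ⟨h2, h3⟩ le_sup_left)
      have hP1 : P ≠ ⊥ := by
        intro h2
        have := hmax A hAn hApg
        rw [h2, le_bot_iff] at this
        exact hA1 this
      obtain ⟨_, hWP⟩ := hquot P hPn hP1
      have hpd : p ∣ Nat.card W := by
        obtain ⟨w, hw, hw1⟩ := (Subgroup.bot_or_exists_ne_one A).resolve_left hA1
        rw [← orderOf_eq_prime (hAp w hw) hw1]
        exact orderOf_dvd_natCard _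
      have hpπ : InPi F p := ⟨hp, W, inferInstance, hW, hpd⟩
      have hpr : p ≠ r := by
        rintro rfl
        exact hrW hpd
      have hfp := form_of_inPi hf hF hher hpπ
      by_cases hC : ∀ g : W, (∀ a ∈ P, Commute g a) → g ∈ P
      · have h2 : CF F f p (W ⧸ P) := by
          refine CF_act hf hF hp hfp hW P hPp (QuotientGroup.mk' P)
            (QuotientGroup.mk'_surjective P) ?_
          intro g hg
          exact (QuotientGroup.eq_one_iff g).2 (hC g hg)
        have h3 : CF F f p W := by
          refine CF_ext hf hF hp (QuotientGroup.mk' P) (QuotientGroup.mk'_surjective P) ?_ h2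
          rw [QuotientGroup.ker_mk']; exact hPp
        exact h p hpπ hpr W h3 hrW
      · obtain ⟨s, hs, hsp, R, hRn, hRs, hR1⟩ := exists_other hp P hPp hmax hC
        obtain ⟨_, hWR⟩ := hquot R hRn hR1
        refine CF_subdirect hF ha.1 hfa (QuotientGroup.mk' P) (QuotientGroup.mk' R)
          (QuotientGroup.mk'_surjective P) (QuotientGroup.mk'_surjective R) hWP hWR ?_
        intro g hg hg'
        have hgP : g ∈ P := (QuotientGroup.eq_one_iff g).1 hg
        have hgR : g ∈ R := (QuotientGroup.eq_one_iff g).1 hg'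
        have : Fact s.Prime := ⟨hs⟩
        have h2 := IsPGroup.disjoint_of_ne p s hsp.symm P R hPp hRs
        exact (Subgroup.mem_bot).1 (h2.le_bot ⟨hgP, hgR⟩)

/-- **P3.** If `F(p) ∩ (r'-groups) ≤ F(a)` for all `p ≠ r`, then all `r'`-groups of `F` are in
`F(a)`. -/
theorem all_CF_rel (hher : ∀ (G : Type) [Group G] (H : Subgroup G), F G → F H)
    (hsol : ∀ (G : Type) [Group G], F G → Group.IsSolvable G) {r a : ℕ} (ha : InPi F a)
    (h : ∀ p, InPi F p → p ≠ r → ∀ (Y : Type) [Group Y], CF F f p Y → ¬ r ∣ Nat.card Y →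
      CF F f a Y) :
    ∀ (G : Type) [Group G], F G → ¬ r ∣ Nat.card G → CF F f a G := fun G _ hG hr =>
  all_CF_rel_aux hF hf hher hsol ha h _ G hG hr le_rfl

end

end Pool.Agent.CoveringSubgroups.H6
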