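import Pool.Agent.Lib.MP_7252b7_al_h9.Closure
import Pool.Agent.Lib.MP_7252b7_al_h9.KK

/-!
# Existence of `3`-cycles in covering subgroups of wreath products

* `exists_const`: the values in an `r`-group `Λ`: functions which are constant on the cosets of `R`;
* `sgAct`: the action of the signed permutations of `X` on the functions with values in `C3`;
* `nrm`, `fixV`, `actQ`: the norm of a normal subgroup `J` of an acting group, the fixed functions,
  the action of the quotient by `J`;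
* `exists_cyc`: a surjection `μ` to `S_3`, `F(2) ≤ F(3)`: elements of the base of `H` whose
  components are `3`-cycles at `y` and trivial or `3`-cycles on the fibre of `ζ`, trivial elsewhere.
-/

set_option autoImplicit false

namespace Pool.Agent.CoveringSubgroups.H6

open Pool.Agent.CoveringSubgroups
open Pool.Agent.CoveringSubgroups.H9

/-! ### The symmetric group of degree three -/

/-- the cyclic group of order `3` -/
abbrev C3 : Type := Multiplicative (ZMod 3)

/-- the translation part -/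
def nu (a : Equiv.Perm (Fin 3)) : C3 := Multiplicative.ofAdd ((a 0 : Fin 3) : ZMod 3)

lemma nu_mul : ∀ a b : Equiv.Perm (Fin 3),
    nu (a * b) = nu a * nu b ^ ((Equiv.Perm.sign a : ℤˣ) : ℤ) := by
  decide

lemma eq_one_of_nu : ∀ a : Equiv.Perm (Fin 3), Equiv.Perm.sign a = 1 → nu a = 1 → a = 1 := by
  decide

lemma nu_one : nu 1 = 1 := rfl

lemma c3_cube : ∀ c : C3, c ^ 3 = 1 := by decide

lemma exists_three : ∃ c : Equiv.Perm (Fin 3), Equiv.Perm.sign c = 1 ∧ nu c ≠ 1 := by
  refine ⟨finRotate 3, by decide, by decide⟩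

variable {F : GroupClass} {f : ℕ → GroupClass}

/-! ### Quotients in the canonical class -/

section quot

variable (hF : IsFormation F) (hf : IsLocallyDefinedBy F f)

include hF hf

lemma CF_of_equiv {p : ℕ} (hp : p.Prime) {A B : Type} [Group A] [Group B] (e : A ≃* B)
    (h : CF F f p A) : CF F f p B :=
  CF.surj hF hf hp e.toMonoidHom e.surjective h

lemma CF_quot {p : ℕ} (hp : p.Prime) {G B : Type} [Group G] [Group B] (φ : G →* B)
    (hφ : Function.Surjective φ) (h : CF F f p B) : CF F f p (G ⧸ φ.ker) :=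
  CF_of_equiv hF hf hp (QuotientGroup.quotientKerEquivOfSurjective φ hφ).symm h

omit hf in
lemma CF_inf {p : ℕ} (hp : p.Prime) (hfp : IsFormation (f p)) {G : Type} [Group G] [Finite G]
    (A B : Subgroup G) [A.Normal] [B.Normal] (hA : CF F f p (G ⧸ A)) (hB : CF F f p (G ⧸ B)) :
    CF F f p (G ⧸ (A ⊓ B)) := by
  have hA' : A ⊓ B ≤ A := inf_le_left
  have hB' : A ⊓ B ≤ B := inf_le_right
  refine CF_subdirect hF hp hfp (QuotientGroup.map (A ⊓ B) A (MonoidHom.id G) hA')
    (QuotientGroup.map (A ⊓ B) B (MonoidHom.id G) hB') ?_ ?_ hA hB ?_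
  · intro y
    obtain ⟨z, rfl⟩ := QuotientGroup.mk_surjective y
    exact ⟨QuotientGroup.mk z, rfl⟩
  · intro y
    obtain ⟨z, rfl⟩ := QuotientGroup.mk_surjective y
    exact ⟨QuotientGroup.mk z, rfl⟩
  · intro g h1 h2
    obtain ⟨z, rfl⟩ := QuotientGroup.mk_surjective g
    have h3 : z ∈ A := (QuotientGroup.eq_one_iff z).1 h1
    have h4 : z ∈ B := (QuotientGroup.eq_one_iff z).1 h2
    exact (QuotientGroup.eq_one_iff z).2 ⟨h3, h4⟩

end quot

/-! ### The functions which are constant on the cosets of `R` -/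

section const

variable (hF : IsFormation F) (hf : IsLocallyDefinedBy F f)

include hF hf

/-- the first part of the proof of `main_lemma` -/
theorem exists_const (hher : ∀ (G : Type) [Group G] (H : Subgroup G), F G → F H)
    {r : ℕ} (hr : r.Prime) (hfr : IsFormation (f r))
    {N Λ X : Type} [Group N] [CommGroup Λ] [Group X]
    [Finite X] [Finite Λ] (hΛ : IsPGroup r Λ) (μ : N →* Λ)
    (hμ : Function.Surjective μ) (hX : F X) {H : Subgroup (N ≀ᵣ X)} (hH : Cov F H) :
    ∃ (R : Subgroup X) (_ : R.Normal), CF F f r (X ⧸ R) ∧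
      (∀ h ∈ H, h.right = 1 → ∀ z : X, (psi μ (QuotientGroup.mk' R) h).left (QuotientGroup.mk' R z) =
        μ (h.left z) ^ Nat.card R) ∧
      (Function.Injective fun l : Λ => l ^ Nat.card R) ∧
      Function.Surjective (psi μ (QuotientGroup.mk' R)) := by
  classical
  have : Fact r.Prime := ⟨hr⟩
  -- the right projection of `H` is onto
  have hright : ∀ x : X, ∃ h ∈ H, h.right = x := by
    intro x
    obtain ⟨h, h1, h2⟩ := hH.top (RegularWreathProduct.rightHom : N ≀ᵣ X →* X)
      (fun x => ⟨RegularWreathProduct.inl x, RegularWreathProduct.fun_id x⟩) hX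
      (RegularWreathProduct.inl x)
    exact ⟨h, h1, h2⟩
  -- the image in `Λ ≀ X`
  let ψ : N ≀ᵣ X →* Λ ≀ᵣ X := psi μ (MonoidHom.id X)
  have hψl : ∀ a x, (ψ a).left x = μ (a.left x) := by
    intro a x
    show (psi μ (MonoidHom.id X) a).left x = _
    rw [psi_left]
    let := Fintype.ofFinite X
    rw [Finset.prod_eq_single x]
    · simp
    · intro y _ hy; simp [hy]
    · simp
  let Hb : Subgroup (Λ ≀ᵣ X) := H.map ψ
  let πb : Hb →* X := RegularWreathProduct.rightHom.comp Hb.subtype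
  have hπb : Function.Surjective πb := by
    intro x
    obtain ⟨h, h1, h2⟩ := hright x
    exact ⟨⟨ψ h, h, h1, rfl⟩, h2⟩
  have hFHb : F Hb := fsurj hF (ψ.subgroupMap H) (ψ.subgroupMap_surjective H) hH.1
  let L : Subgroup Hb := πb.ker
  have hLbase : ∀ l : Hb, l ∈ L → (l : Λ ≀ᵣ X).right = 1 := fun l hl => hl
  obtain ⟨cΛ, hcΛ⟩ := IsPGroup.iff_card.1 hΛ
  have hΛpow : ∀ l : Λ, l ^ r ^ cΛ = 1 := by
    intro l; rw [← hcΛ]; exact pow_card_eq_one'
  have hL : IsPGroup r L := by
    rintro ⟨l, hl⟩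
    refine ⟨cΛ, ?_⟩
    apply Subtype.ext
    apply Subtype.ext
    show (l : Λ ≀ᵣ X) ^ r ^ cΛ = 1
    have h1 := pow_base (l : Λ ≀ᵣ X) (hLbase l hl) (r ^ cΛ)
    ext x
    · rw [h1.2]; simp [hΛpow]
    · rw [h1.1]; rfl
  let C : Subgroup Hb := Subgroup.centralizer (L : Set Hb)
  have hCn : C.Normal := inferInstance
  let R : Subgroup X := C.map πb
  have hRn : R.Normal := hCn.map πb hπb
  have hRconst : ∀ h ∈ H, h.right = 1 → ∀ ρ ∈ R, ∀ x, μ (h.left (ρ * x)) = μ (h.left x) := by
    intro h hh h1 ρ hρ x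
    obtain ⟨g, hg, hgρ⟩ := R.inv_mem hρ
    have h2 : (⟨ψ h, h, hh, rfl⟩ : Hb) ∈ L := h1
    have h3 := (Subgroup.mem_centralizer_iff.1 hg) _ h2
    have h4 : ψ h * (g : Λ ≀ᵣ X) = g * ψ h := congrArg Subtype.val h3
    have h5 := congrFun (congrArg RegularWreathProduct.left h4) x
    simp only [RegularWreathProduct.mul_left, Pi.mul_apply] at h5
    have h6 : (g : Λ ≀ᵣ X).right = ρ⁻¹ := hgρ
    have h7 : (ψ h).right = 1 := h1
    rw [h6, h7, inv_inv, inv_one, one_mul, mul_comm, mul_left_cancel_iff, hψl, hψl] at h5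
    exact h5.symm
  have hCFR : CF F f r (X ⧸ R) := by
    refine CF_act hf hF hr hfr hFHb L hL ((QuotientGroup.mk' R).comp πb)
      ((QuotientGroup.mk'_surjective R).comp hπb) ?_
    intro g hg
    have h1 : g ∈ C := Subgroup.mem_centralizer_iff.2 fun l hl => ((hg l hl).eq).symm
    exact (QuotientGroup.eq_one_iff _).2 ⟨g, h1, rfl⟩
  -- all functions constant on cosets occur
  have hprod : ∀ h ∈ H, h.right = 1 → ∀ z : X,
      (psi μ (QuotientGroup.mk' R) h).left (QuotientGroup.mk' R z) =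
        μ (h.left z) ^ Nat.card R := by
    intro h hh h1 z
    rw [psi_left_const μ _ h _ (μ (h.left z))]
    · congr 1
      refine Nat.card_congr ((Equiv.mulLeft z⁻¹).subtypeEquiv ?_)
      intro y
      rw [eq_comm]
      exact QuotientGroup.eq
    · intro y h3
      have h4 : y * z⁻¹ ∈ R := by
        have h5 : z⁻¹ * y ∈ R := QuotientGroup.eq.1 h3.symm
        have h6 := hRn.conj_mem _ h5 z
        rwa [mul_inv_cancel_left] at h6
      have h5 := hRconst h hh h1 _ h4 z
      rwa [inv_mul_cancel_right] at h5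
  have hpsi1 : ∀ (c : X ⧸ R → Λ) (x : X), ∃ u : N ≀ᵣ X, u.right = x ∧
      (psi μ (QuotientGroup.mk' R) u).left = c := by
    intro c x
    choose g hg using hμ
    choose w hw using QuotientGroup.mk'_surjective R
    refine ⟨⟨fun y => if w (QuotientGroup.mk' R y) = y then g (c (QuotientGroup.mk' R y)) else 1,
      x⟩, rfl, ?_⟩
    ext κ
    rw [psi_left]
    let := Fintype.ofFinite X
    rw [Finset.prod_eq_single (w κ)]
    · simp only [hw, if_true, hg]
    · intro y _ hy
      by_cases h : QuotientGroup.mk' R y = κ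
      · have h1 : w (QuotientGroup.mk' R y) ≠ y := by rw [h]; exact hy.symm
        simp only [h1, if_false, map_one, ite_self]
      · simp only [h, if_false]
    · simp
  have hpow : Function.Surjective (fun l : Λ => l ^ Nat.card R) := by
    intro l
    obtain ⟨u, hu1, hu2⟩ := hpsi1 (fun _ => l) 1
    obtain ⟨h, hh, h1, h2⟩ := star hF hf hher hr hΛ μ (QuotientGroup.mk' R) hX hCFR hH u
    refine ⟨μ (h.left 1), ?_⟩
    have h3 := hprod h hh (h1.trans hu1) 1
    rw [h2, hu2] at h3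
    exact h3.symm
  have hpowi : Function.Injective (fun l : Λ => l ^ Nat.card R) :=
    Finite.injective_iff_surjective.2 hpow
  refine ⟨R, hRn, hCFR, hprod, hpowi, fun t => ?_⟩
  obtain ⟨x, hx⟩ := QuotientGroup.mk'_surjective R t.right
  obtain ⟨u, hu1, hu2⟩ := hpsi1 t.left x
  exact ⟨u, RegularWreathProduct.ext hu2 (by rw [psi_right, hu1, hx])⟩

end const

/-! ### The signed permutations -/

section sgAct

variable {X : Type} [Group X]

/-- the action of the signed permutations on the functions with values in `C3` -/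
def sgAct : ℤˣ ≀ᵣ X →* MulAut (X → C3) where
  toFun g :=
    { toFun := fun v z => v (g.right⁻¹ * z) ^ ((g.left z : ℤˣ) : ℤ)
      invFun := fun v z => v (g.right * z) ^ ((g.left (g.right * z) : ℤˣ) : ℤ)
      left_inv := fun v => by
        funext z
        show (v (g.right⁻¹ * (g.right * z)) ^ ((g.left (g.right * z) : ℤˣ) : ℤ)) ^
          ((g.left (g.right * z) : ℤˣ) : ℤ) = v z
        rw [← zpow_mul, ← Units.val_mul, Int.units_mul_self, Units.val_one, zpow_one,
          inv_mul_cancel_left]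
      right_inv := fun v => by
        funext z
        show (v (g.right * (g.right⁻¹ * z)) ^ ((g.left (g.right * (g.right⁻¹ * z)) : ℤˣ) : ℤ)) ^
          ((g.left z : ℤˣ) : ℤ) = v z
        rw [mul_inv_cancel_left, ← zpow_mul, ← Units.val_mul, Int.units_mul_self, Units.val_one,
          zpow_one]
      map_mul' := fun v w => by
        funext z
        exact mul_zpow _ _ _ }
  map_one' := by
    ext v z
    show v (1⁻¹ * z) ^ ((1 : ℤˣ) : ℤ) = v z
    rw [inv_one, one_mul, Units.val_one, zpow_one]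
  map_mul' g h := by
    ext v z
    show v ((g.right * h.right)⁻¹ * z) ^ ((g.left z * h.left (g.right⁻¹ * z) : ℤˣ) : ℤ) =
      (v (h.right⁻¹ * (g.right⁻¹ * z)) ^ ((h.left (g.right⁻¹ * z) : ℤˣ) : ℤ)) ^
        ((g.left z : ℤˣ) : ℤ)
    rw [← zpow_mul, mul_inv_rev, mul_assoc, Units.val_mul, mul_comm (_ : ℤ)]

lemma act_apply (g : ℤˣ ≀ᵣ X) (v : X → C3) (z : X) :
    sgAct g v z = v (g.right⁻¹ * z) ^ ((g.left z : ℤˣ) : ℤ) := rfl

end sgAct

/-! ### The signs and the translation parts -/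

section sgn

variable {X : Type} [Group X]

/-- functoriality of the wreath product -/
def wrMap {N M : Type} [Group N] [Group M] (μ : N →* M) : N ≀ᵣ X →* M ≀ᵣ X where
  toFun a := ⟨fun z => μ (a.left z), a.right⟩
  map_one' := by
    ext x
    · simp
    · simp
  map_mul' := by
    intro a b
    ext x
    · simp
    · simp

@[simp] lemma wrMap_left {N M : Type} [Group N] [Group M] (μ : N →* M) (a : N ≀ᵣ X) (z : X) :
    (wrMap μ a).left z = μ (a.left z) := rfl

@[simp] lemma wrMap_right {N M : Type} [Group N] [Group M] (μ : N →* M) (a : N ≀ᵣ X) :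
    (wrMap μ a).right = a.right := rfl

lemma wrMap_surjective {N M : Type} [Group N] [Group M] {μ : N →* M}
    (hμ : Function.Surjective μ) : Function.Surjective (wrMap (X := X) μ) := by
  intro b
  choose g hg using hμ
  refine ⟨⟨fun z => g (b.left z), b.right⟩, ?_⟩
  ext z
  · exact hg _
  · rfl

/-- the signs -/
def sg : Equiv.Perm (Fin 3) ≀ᵣ X →* ℤˣ ≀ᵣ X := wrMap Equiv.Perm.sign

lemma sg_left (a : Equiv.Perm (Fin 3) ≀ᵣ X) (z : X) :
    (sg a).left z = Equiv.Perm.sign (a.left z) := rfl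

lemma sg_right (a : Equiv.Perm (Fin 3) ≀ᵣ X) : (sg a).right = a.right := rfl

/-- the translation parts -/
def nuf (a : Equiv.Perm (Fin 3) ≀ᵣ X) : X → C3 := fun z => nu (a.left z)

lemma nuf_mul (a b : Equiv.Perm (Fin 3) ≀ᵣ X) : nuf (a * b) = nuf a * sgAct (sg a) (nuf b) := by
  funext z
  rw [Pi.mul_apply, act_apply]
  show nu ((a * b).left z) = _
  rw [RegularWreathProduct.mul_left, Pi.mul_apply, nu_mul]
  rfl

lemma nuf_conj (a b : Equiv.Perm (Fin 3) ≀ᵣ X) (hb : sg b = 1) :
    nuf (a * b * a⁻¹) = sgAct (sg a) (nuf b) := by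
  have h1 := nuf_mul (a * b * a⁻¹) a
  have h2 : sg (a * b * a⁻¹) = 1 := by
    rw [map_mul, map_mul, hb, mul_one, map_inv, mul_inv_cancel]
  rw [h2, map_one, inv_mul_cancel_right, nuf_mul, mul_comm] at h1
  exact (mul_right_cancel h1).symm

end sgn

/-! ### The norm -/

section norm

variable {X : Type} {E : Type} [Group E] (a : E →* MulAut (X → C3)) (J : Subgroup E)

section fin

variable [Finite E]

/-- the norm of `J` -/
noncomputable def nrm : (X → C3) →* (X → C3) :=
  letI := Fintype.ofFinite J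
  { toFun := fun v => ∏ j : J, a j v
    map_one' := by simp
    map_mul' := fun v w => by
      simp only [map_mul]
      exact Finset.prod_mul_distrib }

lemma nrm_apply (v : X → C3) :
    nrm a J v = letI := Fintype.ofFinite J; ∏ j : J, a j v := rfl

lemma nrm_act [hJ : J.Normal] (g : E) (v : X → C3) : nrm a J (a g v) = a g (nrm a J v) := by
  let := Fintype.ofFinite J
  rw [nrm_apply, nrm_apply, map_prod]
  refine (Fintype.prod_equiv (MulAut.conjNormal (H := J) g).toEquiv _ _ fun j => ?_).symm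
  show a g (a j v) = a ((MulAut.conjNormal g j : J) : E) (a g v)
  rw [MulAut.conjNormal_apply]
  simp only [← MulAut.mul_apply, ← map_mul]
  rw [inv_mul_cancel_right]

lemma act_nrm {i : E} (hi : i ∈ J) (v : X → C3) : a i (nrm a J v) = nrm a J v := by
  let := Fintype.ofFinite J
  rw [nrm_apply, map_prod]
  refine Fintype.prod_equiv (Equiv.mulLeft (⟨i, hi⟩ : J)) _ _ fun j => ?_
  show a i (a j v) = a ((⟨i, hi⟩ * j : J) : E) v
  rw [← MulAut.mul_apply, ← map_mul]
  rfl

lemma nrm_fix {v : X → C3} (hv : ∀ j ∈ J, a j v = v) : nrm a J v = v ^ Nat.card J := by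
  let := Fintype.ofFinite J
  rw [nrm_apply, Finset.prod_congr rfl fun (j : J) _ => hv j j.2, Finset.prod_const,
    Finset.card_univ, Nat.card_eq_fintype_card]

end fin

/-- the fixed functions -/
def fixV : Subgroup (X → C3) where
  carrier := {v | ∀ j ∈ J, a j v = v}
  one_mem' := fun j _ => map_one _
  mul_mem' := fun hv hw j hj => by rw [map_mul, hv j hj, hw j hj]
  inv_mem' := fun hv j hj => by rw [map_inv, hv j hj]

lemma act_mem_fixV [hJ : J.Normal] (g : E) {v : X → C3} (hv : v ∈ fixV a J) :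
    a g v ∈ fixV a J := by
  intro j hj
  have h1 := hv (g⁻¹ * j * g) (by
    have := hJ.conj_mem j hj g⁻¹
    rwa [inv_inv] at this)
  have h2 : a g (a (g⁻¹ * j * g) v) = a j (a g v) := by
    simp only [← MulAut.mul_apply, ← map_mul]
    congr 2
    group
  rw [← h2, h1]

/-- the action on the fixed functions -/
def actV [hJ : J.Normal] : E →* MulAut (fixV a J) where
  toFun g :=
    { toFun := fun v => ⟨a g v, act_mem_fixV a J g v.2⟩
      invFun := fun v => ⟨a g⁻¹ v, act_mem_fixV a J g⁻¹ v.2⟩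
      left_inv := fun v => Subtype.ext (by
        show a g⁻¹ (a g v) = v
        rw [← MulAut.mul_apply, ← map_mul, inv_mul_cancel, map_one, MulAut.one_apply])
      right_inv := fun v => Subtype.ext (by
        show a g (a g⁻¹ v) = v
        rw [← MulAut.mul_apply, ← map_mul, mul_inv_cancel, map_one, MulAut.one_apply])
      map_mul' := fun v w => Subtype.ext (map_mul (a g) _ _) }
  map_one' := by
    ext v : 2
    show a 1 (v : X → C3) = v
    rw [map_one, MulAut.one_apply]
  map_mul' g h := by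
    ext v : 2
    show a (g * h) (v : X → C3) = a g (a h v)
    rw [map_mul, MulAut.mul_apply]

lemma actV_apply [hJ : J.Normal] (g : E) (v : fixV a J) :
    ((actV a J g v : fixV a J) : X → C3) = a g v := rfl

/-- the action of the quotient -/
def actQ [hJ : J.Normal] : E ⧸ J →* MulAut (fixV a J) :=
  QuotientGroup.lift J (actV a J) fun j hj => by
    ext v : 2
    exact v.2 j hj

lemma actQ_apply [hJ : J.Normal] (g : E) (v : fixV a J) :
    ((actQ a J (QuotientGroup.mk g) v : fixV a J) : X → C3) = a g v := rfl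

end norm

/-! ### Three-cycles -/

/-- the image of a covering subgroup -/
lemma Cov.map (hF : IsFormation F) {G G' : Type} [Group G] [Group G'] {H : Subgroup G}
    (h : Cov F H) (π : G →* G') (hπ : Function.Surjective π) : Cov F (H.map π) := by
  refine ⟨fsurj hF (π.subgroupMap H) (π.subgroupMap_surjective H) h.1, ?_⟩
  intro U hHU K _ φ hφ hK u
  have h1 : H ≤ U.comap π := Subgroup.map_le_iff_le_comap.1 hHU
  let e : U.comap π →* U := (π.comp (U.comap π).subtype).codRestrict U fun x => x.2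
  have he : Function.Surjective e := by
    rintro ⟨b, hb⟩
    obtain ⟨c, rfl⟩ := hπ b
    exact ⟨⟨c, hb⟩, rfl⟩
  obtain ⟨w, rfl⟩ := he u
  obtain ⟨x, hx, h2⟩ := h.2 (U.comap π) h1 K (φ.comp e) (hφ.comp he) hK w
  exact ⟨e x, ⟨x, hx, rfl⟩, h2⟩

section main

variable (hF : IsFormation F) (hf : IsLocallyDefinedBy F f)

include hF hf

/-- the case `N = S_3` -/
theorem exists_cyc0 (hher : ∀ (G : Type) [Group G] (H : Subgroup G), F G → F H)
    (hf2 : IsFormation (f 2)) (hf3 : IsFormation (f 3))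
    (hle : ∀ (Z : Type) [Group Z], CF F f 2 Z → CF F f 3 Z)
    {X Y : Type} [Group X] [Group Y] [Finite X] (hX : F X)
    {H : Subgroup (Equiv.Perm (Fin 3) ≀ᵣ X)} (hH : Cov F H) (ζ : X →* Y)
    (hζ : Function.Surjective ζ) (hY : CF F f 3 Y) (y : X) :
    ∃ h ∈ H, h.right = 1 ∧ (∀ z, Equiv.Perm.sign (h.left z) = 1) ∧ h.left y ≠ 1 ∧
      ∀ z, h.left z ≠ 1 → ζ z = ζ y := by
  classical
  have h3p : Nat.Prime 3 := Nat.prime_three
  have : Fact (Nat.Prime 3) := ⟨h3p⟩
  have hZ2 : IsPGroup 2 ℤˣ := IsPGroup.of_card (n := 1) (by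
    rw [Nat.card_eq_fintype_card]
    rfl)
  have hC3 : IsPGroup 3 C3 := IsPGroup.of_card (n := 1) (by
    rw [Nat.card_eq_fintype_card]
    rfl)
  obtain ⟨R, hRn, hRCF, hprod, hinj, hpsi⟩ := exists_const hF hf hher Nat.prime_two hf2 hZ2
    (Equiv.Perm.sign : Equiv.Perm (Fin 3) →* ℤˣ) (Equiv.Perm.sign_surjective (Fin 3)) hX hH
  have hXR : Finite (X ⧸ R) := inferInstance
  -- the wreath product of the signs
  have hW2 : CF F f 2 (ℤˣ ≀ᵣ (X ⧸ R)) := by
    have : Fact (Nat.Prime 2) := ⟨Nat.prime_two⟩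
    refine CF_ext hf hF Nat.prime_two (RegularWreathProduct.rightHom : ℤˣ ≀ᵣ (X ⧸ R) →* X ⧸ R)
      ?_ ?_ hRCF
    · intro q
      exact ⟨RegularWreathProduct.inl q, RegularWreathProduct.fun_id q⟩
    · rintro ⟨a, ha⟩
      have ha' : a.right = 1 := ha
      refine ⟨1, Subtype.ext ?_⟩
      show a ^ 2 ^ 1 = 1
      obtain ⟨h1, h2⟩ := pow_base a ha' (2 ^ 1)
      ext x
      · rw [h2]
        show ((a.left x ^ 2 ^ 1 : ℤˣ) : ℤ) = 1
        rw [pow_one, Int.units_sq]
        rfl
      · rw [h1]; rfl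
  have hW3 := hle _ hW2
  -- the image of `H`
  set Hb : Subgroup (ℤˣ ≀ᵣ X) := H.map sg with hHb
  have hFHb : F Hb := fsurj hF (sg.subgroupMap H) (sg.subgroupMap_surjective H) hH.1
  have hright : ∀ x : X, ∃ h ∈ H, h.right = x := by
    intro x
    obtain ⟨h, h1, h2⟩ := hH.top (RegularWreathProduct.rightHom : Equiv.Perm (Fin 3) ≀ᵣ X →* X)
      (fun x => ⟨RegularWreathProduct.inl x, RegularWreathProduct.fun_id x⟩) hX
      (RegularWreathProduct.inl x)
    exact ⟨h, h1, h2⟩
  let a : Hb →* MulAut (X → C3) := sgAct.comp Hb.subtype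
  have ha : ∀ (g : Hb) (v : X → C3) (z : X),
      a g v z = v ((g : ℤˣ ≀ᵣ X).right⁻¹ * z) ^ (((g : ℤˣ ≀ᵣ X).left z : ℤˣ) : ℤ) :=
    fun g v z => act_apply _ v z
  -- the kernel of the action on the translation parts
  have hstab : ∀ (g : Hb) (h : Equiv.Perm (Fin 3) ≀ᵣ X), h ∈ H → sg h = 1 →
      ∃ h' ∈ H, sg h' = 1 ∧ a g (nuf h) = nuf h' := by
    rintro ⟨_, h₀, hh₀, rfl⟩ h hh h1
    refine ⟨h₀ * h * h₀⁻¹, H.mul_mem (H.mul_mem hh₀ hh) (H.inv_mem hh₀), ?_, ?_⟩
    · rw [map_mul, map_mul, h1, mul_one, map_inv, mul_inv_cancel]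
    · exact (nuf_conj h₀ h h1).symm
  let Ck : Subgroup Hb :=
    { carrier := {g | ∀ h ∈ H, sg h = 1 → a g (nuf h) = nuf h}
      one_mem' := fun h _ _ => by rw [map_one, MulAut.one_apply]
      mul_mem' := fun {g g'} hg hg' h hh h1 => by
        rw [map_mul, MulAut.mul_apply, hg' h hh h1, hg h hh h1]
      inv_mem' := fun {g} hg h hh h1 => by
        have h2 := congrArg (a g⁻¹) (hg h hh h1)
        rw [← MulAut.mul_apply, ← map_mul, inv_mul_cancel, map_one, MulAut.one_apply] at h2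
        exact h2.symm }
  have hCkn : Ck.Normal := ⟨fun g hg g' h hh h1 => by
    obtain ⟨h', hh', h1', h2⟩ := hstab g'⁻¹ h hh h1
    rw [map_mul, map_mul, MulAut.mul_apply, MulAut.mul_apply, h2, hg h' hh' h1', ← h2,
      ← MulAut.mul_apply, ← map_mul, mul_inv_cancel, map_one, MulAut.one_apply]⟩
  have hCF1 : CF F f 3 (Hb ⧸ Ck) := by
    let σ : H →* Hb := sg.subgroupMap H
    have hσ : Function.Surjective σ := sg.subgroupMap_surjective H
    have hfin : Finite H := hF.finite _ hH.1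
    refine CF_act hf hF h3p hf3 hH.1 σ.ker ?_ ((QuotientGroup.mk' Ck).comp σ)
      ((QuotientGroup.mk'_surjective Ck).comp hσ) ?_
    · rintro ⟨⟨h, hh⟩, h1⟩
      have h1' : sg h = 1 := congrArg Subtype.val h1
      refine ⟨1, ?_⟩
      apply Subtype.ext
      apply Subtype.ext
      show h ^ 3 ^ 1 = 1
      have h4 : h.right = 1 := by rw [← sg_right, h1']; rfl
      obtain ⟨h2, h3⟩ := pow_base h h4 (3 ^ 1)
      refine RegularWreathProduct.ext ?_ ?_
      · rw [h3]
        funext z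
        show h.left z ^ 3 ^ 1 = 1
        have h5 : Equiv.Perm.sign (h.left z) = 1 := by
          rw [← sg_left, h1']
          rfl
        revert h5
        generalize h.left z = s
        revert s
        decide
      · rw [h2]; rfl
    · rintro ⟨g, hg⟩ hcom
      refine (QuotientGroup.eq_one_iff _).2 fun h hh h1 => ?_
      have h2 : (⟨h, hh⟩ : H) ∈ σ.ker := Subtype.ext h1
      have h3 : g * h = h * g := congrArg Subtype.val (hcom _ h2).eq
      have h4 : g * h * g⁻¹ = h := by rw [h3, mul_inv_cancel_right]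
      have h5 := nuf_conj g h h1
      rw [h4] at h5
      exact h5.symm
  -- the map to the wreath product of the signs
  let π₁ : Hb →* ℤˣ ≀ᵣ (X ⧸ R) :=
    (psi (MonoidHom.id ℤˣ) (QuotientGroup.mk' R)).comp Hb.subtype
  have hπ₁ : ∀ (h : Equiv.Perm (Fin 3) ≀ᵣ X) (hh : h ∈ H), π₁ ⟨sg h, h, hh, rfl⟩ =
      psi (Equiv.Perm.sign : Equiv.Perm (Fin 3) →* ℤˣ) (QuotientGroup.mk' R) h :=
    fun h hh => rfl
  have hπ₁s : Function.Surjective π₁ := by
    intro t
    obtain ⟨u, rfl⟩ := hpsi t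
    obtain ⟨h, hh, h2⟩ := hH.top _ hpsi hW2.1 u
    exact ⟨⟨sg h, h, hh, rfl⟩, (hπ₁ h hh).trans h2⟩
  let π₂ : Hb →* Y := ζ.comp (RegularWreathProduct.rightHom.comp Hb.subtype)
  have hπ₂s : Function.Surjective π₂ := by
    intro t
    obtain ⟨x, rfl⟩ := hζ t
    obtain ⟨h, hh, rfl⟩ := hright x
    exact ⟨⟨sg h, h, hh, rfl⟩, rfl⟩
  have hHbf : Finite Hb := hF.finite _ hFHb
  set J : Subgroup Hb := Ck ⊓ (π₁.ker ⊓ π₂.ker) with hJ
  have hJn : J.Normal := inferInstance
  have hCFJ : CF F f 3 (Hb ⧸ J) :=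
    CF_inf hF h3p hf3 _ _ hCF1 (CF_inf hF h3p hf3 _ _ (CF_quot hF hf h3p π₁ hπ₁s hW3)
      (CF_quot hF hf h3p π₂ hπ₂s hY))
  have hfree : ∀ j : Hb, j ∈ J → (j : ℤˣ ≀ᵣ X).right = 1 → j = 1 := by
    rintro ⟨_, h, hh, rfl⟩ hj h1
    have h2 : psi (Equiv.Perm.sign : Equiv.Perm (Fin 3) →* ℤˣ) (QuotientGroup.mk' R) h = 1 := by
      rw [← hπ₁ h hh]
      exact hj.2.1
    refine Subtype.ext (RegularWreathProduct.ext ?_ h1)
    funext z
    have h3 := hprod h hh h1 z
    rw [h2] at h3
    refine hinj ?_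
    show Equiv.Perm.sign (h.left z) ^ Nat.card R = 1 ^ Nat.card R
    rw [one_pow, ← h3]
    rfl
  -- the target
  have hfixf : Finite (fixV a J) := inferInstance
  let G2 := fixV a J ⋊[actQ a J] (Hb ⧸ J)
  have hG2f : Finite G2 := Finite.of_equiv _ (SemidirectProduct.equivProd (φ := actQ a J)).symm
  have hG2 : CF F f 3 G2 := by
    refine CF_ext hf hF h3p (SemidirectProduct.rightHom : G2 →* Hb ⧸ J)
      SemidirectProduct.rightHom_surjective ?_ hCFJ
    rw [← SemidirectProduct.range_inl_eq_ker_rightHom]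
    have h1 : IsPGroup 3 (fixV a J) := by
      intro v
      refine ⟨1, Subtype.ext ?_⟩
      show (v : X → C3) ^ 3 ^ 1 = 1
      funext z
      exact c3_cube _
    exact h1.of_surjective _ (MonoidHom.rangeRestrict_surjective _)
  -- the preimage
  let U : Subgroup (Equiv.Perm (Fin 3) ≀ᵣ X) := Hb.comap sg
  have hHU : H ≤ U := fun h hh => ⟨h, hh, rfl⟩
  let σ : U →* Hb := (sg.comp U.subtype).codRestrict Hb fun u => u.2
  let θ : U →* G2 :=
    { toFun := fun u => ⟨⟨nrm a J (nuf (u : Equiv.Perm (Fin 3) ≀ᵣ X)),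
        fun j hj => act_nrm a J hj _⟩, QuotientGroup.mk (σ u)⟩
      map_one' := by
        refine SemidirectProduct.ext (Subtype.ext ?_) ?_
        · show nrm a J (nuf 1) = 1
          have h1 : (nuf 1 : X → C3) = 1 := rfl
          rw [h1, map_one]
        · show (QuotientGroup.mk (σ 1) : Hb ⧸ J) = 1
          rw [map_one]
          rfl
      map_mul' := fun u w => by
        refine SemidirectProduct.ext (Subtype.ext ?_) ?_
        · show nrm a J (nuf ((u : Equiv.Perm (Fin 3) ≀ᵣ X) * w)) =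
            nrm a J (nuf (u : Equiv.Perm (Fin 3) ≀ᵣ X)) *
              a (σ u) (nrm a J (nuf (w : Equiv.Perm (Fin 3) ≀ᵣ X)))
          rw [nuf_mul, map_mul, ← nrm_act]
          rfl
        · show (QuotientGroup.mk (σ (u * w)) : Hb ⧸ J) = _
          rw [map_mul]
          rfl }
  let Θ : U →* Hb × G2 := σ.prod θ
  have hFΘ : F Θ.range := hher _ _ (fprod hF hFHb hG2.1)
  obtain ⟨c, hc1, hc2⟩ := exists_three
  let u₀ : Equiv.Perm (Fin 3) ≀ᵣ X := ⟨fun z => if z = y then c else 1, 1⟩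
  have hu₀ : sg u₀ = 1 := by
    refine RegularWreathProduct.ext ?_ rfl
    funext z
    rw [sg_left]
    show Equiv.Perm.sign (if z = y then c else 1) = 1
    split_ifs
    · exact hc1
    · exact map_one _
  have hu₀' : u₀ ∈ U := by
    show sg u₀ ∈ Hb
    rw [hu₀]
    exact Hb.one_mem
  have hν : ∀ z, nuf u₀ z = if z = y then nu c else 1 := by
    intro z
    show nu (if z = y then c else 1) = _
    split_ifs
    · rfl
    · rfl
  obtain ⟨⟨h, hhU⟩, hh, h1⟩ := hH.2 U hHU Θ.range Θ.rangeRestrict Θ.rangeRestrict_surjective hFΘ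
    ⟨u₀, hu₀'⟩
  have h2 : Θ ⟨h, hhU⟩ = Θ ⟨u₀, hu₀'⟩ := congrArg Subtype.val h1
  have h3 : sg h = 1 := by
    have h4 : σ ⟨h, hhU⟩ = σ ⟨u₀, hu₀'⟩ := congrArg Prod.fst h2
    have h5 : sg h = sg u₀ := congrArg Subtype.val h4
    rw [h5, hu₀]
  have h4 : nrm a J (nuf h) = nrm a J (nuf u₀) :=
    congrArg (fun t : Hb × G2 => ((t.2.left : fixV a J) : X → C3)) h2
  rw [nrm_fix a J (fun j hj => hj.1 h hh h3)] at h4
  have h5 : h.right = 1 := by
    rw [← sg_right, h3]
    rfl
  have h6 : ∀ z, Equiv.Perm.sign (h.left z) = 1 := fun z => by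
    rw [← sg_left, h3]
    rfl
  let := Fintype.ofFinite J
  -- the value at `y`
  have h7 : nuf h y ^ Nat.card J = nu c := by
    have h8 := congrFun h4 y
    rw [Pi.pow_apply] at h8
    rw [h8, nrm_apply, Finset.prod_apply, Finset.prod_eq_single (1 : J)]
    · rw [Subgroup.coe_one, map_one, MulAut.one_apply, hν, if_pos rfl]
    · intro j _ hj
      rw [ha, hν, if_neg, one_zpow]
      intro h9
      refine hj (Subtype.ext (hfree j j.2 ?_))
      rwa [mul_eq_right, inv_eq_one] at h9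
    · intro h9
      exact absurd (Finset.mem_univ _) h9
  have h8 : ∀ z, ζ z ≠ ζ y → nuf h z ^ Nat.card J = 1 := by
    intro z hz
    have h9 := congrFun h4 z
    rw [Pi.pow_apply] at h9
    rw [h9, nrm_apply, Finset.prod_apply]
    refine Finset.prod_eq_one fun j _ => ?_
    rw [ha, hν, if_neg, one_zpow]
    intro h10
    refine hz ?_
    have h11 : ζ ((j : Hb) : ℤˣ ≀ᵣ X).right = 1 := j.2.2.2
    rw [← h10, map_mul, map_inv, h11, inv_one, one_mul]
  have h9 : Nat.Coprime (Nat.card J) 3 := by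
    rw [Nat.coprime_comm, Nat.Prime.coprime_iff_not_dvd h3p]
    rintro ⟨d, hd⟩
    rw [hd, pow_mul, c3_cube, one_pow] at h7
    exact hc2 h7.symm
  refine ⟨h, hh, h5, h6, fun h10 => hc2 ?_, fun z hz => ?_⟩
  · rw [← h7]
    show nu (h.left y) ^ _ = 1
    rw [h10, nu_one, one_pow]
  · by_contra hne
    have h11 : nuf h z = 1 := by
      have h12 := pow_gcd_eq_one.2 ⟨h8 z hne, c3_cube (nuf h z)⟩
      rwa [h9, pow_one] at h12
    exact hz (eq_one_of_nu _ (h6 z) h11)

/-- **Three-cycles in a covering subgroup of a wreath product.** -/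
theorem exists_cyc (hher : ∀ (G : Type) [Group G] (H : Subgroup G), F G → F H)
    (hf2 : IsFormation (f 2)) (hf3 : IsFormation (f 3))
    (hle : ∀ (Z : Type) [Group Z], CF F f 2 Z → CF F f 3 Z)
    {N X Y : Type} [Group N] [Group X] [Group Y] [Finite N] [Finite X]
    (μ : N →* Equiv.Perm (Fin 3)) (hμ : Function.Surjective μ) (hX : F X)
    {H : Subgroup (N ≀ᵣ X)} (hH : Cov F H) (ζ : X →* Y)
    (hζ : Function.Surjective ζ) (hY : CF F f 3 Y) (y : X) :
    ∃ h ∈ H, h.right = 1 ∧ (∀ z, μ (h.left z) ∈ alternatingGroup (Fin 3)) ∧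
      μ (h.left y) ≠ 1 ∧ ∀ z, μ (h.left z) ≠ 1 → ζ z = ζ y := by
  obtain ⟨_, ⟨h, hh, rfl⟩, h1, h2, h3, h4⟩ := exists_cyc0 hF hf hher hf2 hf3 hle hX
    (Cov.map hF hH (wrMap μ) (wrMap_surjective hμ)) ζ hζ hY y
  exact ⟨h, hh, h1, fun z => Equiv.Perm.mem_alternatingGroup.2 (h2 z), h3, h4⟩

end main

end Pool.Agent.CoveringSubgroups.H6
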