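import Mathlib

/-!
# Groups with a Sylow tower `r`, `s`, `t`
-/

set_option autoImplicit false

namespace Pool.Agent.CoveringSubgroups.H6

/-- the finite groups with normal subgroups `R ≤ S`, `R` an `r`-group, `S / R` an `s`-group and
`G / S` a `t`-group -/
def SSS (r s t : ℕ) (G : Type) [Group G] : Prop :=
  Finite G ∧ ∃ R S : Subgroup G, R.Normal ∧ S.Normal ∧ R ≤ S ∧ (∃ a, Nat.card R = r ^ a) ∧
    (∃ b, R.relIndex S = s ^ b) ∧ ∃ c, S.index = t ^ c

end Pool.Agent.CoveringSubgroups.H6
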