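import Pool.Agent.Lib.MP_7252b7_al_h6.ClRel
import Pool.Agent.Lib.MP_7252b7_al_h6.SSS

/-!
# Formations of groups with a Sylow tower on three primes
-/

set_option autoImplicit false
set_option linter.unusedSectionVars false

namespace Pool.Agent.CoveringSubgroups.H6

open Pool.Agent.CoveringSubgroups Pool.Agent.CoveringSubgroups.H9

variable {F : GroupClass} {f : ℕ → GroupClass}

/-- if `C_p ≀ X` is in `F` and all groups of `F` have a nontrivial normal Sylow subgroup, then the
Sylow `p`-subgroup of `X` is normal -/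
theorem wr_syl (hF : IsFormation F)
    (hsyl : ∀ (G : Type) [Group G], F G → Nontrivial G →
      ∃ q : ℕ, q.Prime ∧ ∃ P : Sylow q G, P.toSubgroup.Normal ∧ P.toSubgroup ≠ ⊥)
    {p : ℕ} (hp : p.Prime) {X : Type} [Group X] (hW : F (Multiplicative (ZMod p) ≀ᵣ X)) :
    ∀ P : Sylow p X, P.toSubgroup.Normal := by
  have : Fact p.Prime := ⟨hp⟩
  have hWf := hF.finite _ hW
  let S := Multiplicative (ZMod p)
  let ρ : S ≀ᵣ X →* X := RegularWreathProduct.rightHom
  have hρ : Function.Surjective ρ := fun x =>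
    ⟨RegularWreathProduct.inl x, RegularWreathProduct.fun_id x⟩
  have hXf : Finite X := Finite.of_surjective ρ hρ
  have hS : ∀ x : S, x ^ p = 1 := by
    intro x
    have := pow_card_eq_one' (x := x)
    have hc : Nat.card S = p := Nat.card_zmod p
    rwa [hc] at this
  have hbp : ∀ g : S ≀ᵣ X, g.right = 1 → g ^ p = 1 := by
    intro g hg
    have h2 := pow_base g hg p
    refine RegularWreathProduct.ext ?_ h2.1
    rw [h2.2]
    funext z
    rw [Pi.pow_apply, hS]; rfl
  obtain ⟨t, ht⟩ := exists_ne (1 : S)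
  classical
  let b : S ≀ᵣ X := ⟨fun y => if y = 1 then t else 1, 1⟩
  have hb : b ≠ 1 := by
    intro h
    have h2 := congrArg (fun a : S ≀ᵣ X => a.left 1) h
    simp only [b, if_true] at h2
    exact ht h2
  have hnt : Nontrivial (S ≀ᵣ X) := ⟨⟨b, 1, hb⟩⟩
  obtain ⟨q, hq, P, hPn, hP1⟩ := hsyl _ hW hnt
  have : Fact q.Prime := ⟨hq⟩
  have hqp : q = p := by
    by_contra hqp
    apply hP1
    rw [Subgroup.eq_bot_iff_forall]
    -- an element of `P` whose order divides a power of `p` is trivial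
    have h1 : ∀ g : S ≀ᵣ X, g ∈ P.toSubgroup → g ^ p = 1 → g = 1 := by
      intro g hg hgp
      obtain ⟨j, hj⟩ := P.isPGroup' ⟨g, hg⟩
      have hj' : g ^ q ^ j = 1 := congrArg Subtype.val hj
      have h8 : orderOf g ∣ Nat.gcd p (q ^ j) :=
        Nat.dvd_gcd (orderOf_dvd_of_pow_eq_one hgp) (orderOf_dvd_of_pow_eq_one hj')
      have h9 : Nat.gcd p (q ^ j) = 1 :=
        Nat.Coprime.pow_right _ ((Nat.coprime_primes hp hq).2 (Ne.symm hqp))
      rwa [h9, Nat.dvd_one, orderOf_eq_one_iff] at h8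
    intro g hg
    -- `g` commutes with `b`
    have h2 : g * b * g⁻¹ * b⁻¹ = 1 := by
      apply h1
      · have := hPn.conj_mem _ (P.toSubgroup.inv_mem hg) b
        have e : g * b * g⁻¹ * b⁻¹ = g * (b * g⁻¹ * b⁻¹) := by group
        rw [e]
        exact P.toSubgroup.mul_mem hg this
      · apply hbp
        simp [b]
    have h3 : g * b = b * g := by
      rw [mul_inv_eq_one, mul_inv_eq_iff_eq_mul] at h2
      exact h2
    have h4 : g.right = 1 := by
      have h5 := congrArg (fun a : S ≀ᵣ X => a.left 1) h3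
      simp only [RegularWreathProduct.mul_left, Pi.mul_apply, b, if_true] at h5
      by_contra h6
      have h7 : ¬ (g.right⁻¹ * 1 = 1) := by
        rw [mul_one, inv_eq_one]; exact h6
      rw [if_neg h7] at h5
      simp only [inv_one, mul_one] at h5
      have h8 : g.left 1 * 1 = g.left 1 * t := by
        rw [mul_one, mul_comm]; exact h5
      exact ht (mul_left_cancel h8).symm
    exact h1 g hg (hbp g h4)
  subst hqp
  -- the image of `P` is a normal Sylow subgroup
  have hmn : (P.toSubgroup.map ρ).Normal := hPn.map ρ hρ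
  have hmp : IsPGroup q (P.toSubgroup.map ρ) := P.isPGroup'.map ρ
  have hmi : ¬ q ∣ (P.toSubgroup.map ρ).index := fun h =>
    P.not_dvd_index (h.trans (P.toSubgroup.index_map_dvd hρ))
  let Q : Sylow q X := hmp.toSylow hmi
  have hQ : (Q : Subgroup X) = P.toSubgroup.map ρ := IsPGroup.toSylow_coe hmp hmi
  have hQn : (Q : Subgroup X).Normal := by rw [hQ]; exact hmn
  intro P'
  have := Sylow.unique_of_normal Q hQn
  have h5 : P' = Q := Subsingleton.elim _ _
  rw [h5]; exact hQn

/-- all groups of `F` have a normal Sylow `p`-subgroup -/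
theorem closed_syl' (hF : IsFormation F)
    (hsyl : ∀ (G : Type) [Group G], F G → Nontrivial G →
      ∃ q : ℕ, q.Prime ∧ ∃ P : Sylow q G, P.toSubgroup.Normal ∧ P.toSubgroup ≠ ⊥)
    {p : ℕ} (hp : p.Prime) (hcl : ClosedUnder F p) :
    ∀ (G : Type) [Group G], F G → ∀ P : Sylow p G, P.toSubgroup.Normal := by
  have : Fact p.Prime := ⟨hp⟩
  intro G _ hG
  have hGf := hF.finite G hG
  refine wr_syl hF hsyl hp ?_
  let S := Multiplicative (ZMod p)
  let ρ : S ≀ᵣ G →* G := RegularWreathProduct.rightHom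
  have hρ : Function.Surjective ρ := fun x =>
    ⟨RegularWreathProduct.inl x, RegularWreathProduct.fun_id x⟩
  have hS : ∀ x : S, x ^ p = 1 := by
    intro x
    have := pow_card_eq_one' (x := x)
    have hc : Nat.card S = p := Nat.card_zmod p
    rwa [hc] at this
  have hk : IsPGroup p ρ.ker := by
    rintro ⟨a, ha⟩
    refine ⟨1, Subtype.ext ?_⟩
    show a ^ p ^ 1 = 1
    rw [pow_one]
    have h1 := pow_base a ha p
    refine RegularWreathProduct.ext ?_ h1.1
    rw [h1.2]
    funext z
    rw [Pi.pow_apply, hS]; rfl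
  exact hcl (S ≀ᵣ G) ρ.ker hk (fquot hF ρ hρ hG)

/-- a finite group all of whose order's prime divisors are `t` has order a power of `t` -/
lemma card_eq_pow {t n : ℕ} (hn : n ≠ 0) (h : ∀ q, q.Prime → q ∣ n → q = t) :
    ∃ c, n = t ^ c :=
  ⟨_, Nat.eq_prime_pow_of_unique_prime_dvd hn fun hr hd => h _ hr hd⟩

section

variable (hF : IsFormation F) (hf : IsLocallyDefinedBy F f)

include hF hf

/-- **P4.** -/
theorem eq_sss (hher : ∀ (G : Type) [Group G] (H : Subgroup G), F G → F H)
    (hsol : ∀ (G : Type) [Group G], F G → Group.IsSolvable G) {r s t : ℕ}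
    (hrs : r ≠ s) (hrt : r ≠ t) (hst : s ≠ t) (hr : InPi F r) (hs : InPi F s) (ht : InPi F t)
    (hpi : ∀ q, InPi F q → q = r ∨ q = s ∨ q = t) (hrc : ClosedUnder F r)
    (hsyl : ∀ (G : Type) [Group G], F G → Nontrivial G →
      ∃ q : ℕ, q.Prime ∧ ∃ P : Sylow q G, P.toSubgroup.Normal ∧ P.toSubgroup ≠ ⊥)
    (h : ∀ (Y : Type) [Group Y], Canon F t Y → ¬ r ∣ Nat.card Y → Canon F s Y) :
    ∀ (G : Type) [Group G], F G ↔ SSS r s t G := by
  have : Fact r.Prime := ⟨hr.1⟩
  have : Fact s.Prime := ⟨hs.1⟩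
  have : Fact t.Prime := ⟨ht.1⟩
  have hfs := form_of_inPi hf hF hher hs
  have hft := form_of_inPi hf hF hher ht
  -- the `r'`-groups of `F` are in `F(s)`
  have hCs : ∀ (X : Type) [Group X], F X → ¬ r ∣ Nat.card X → Canon F s X := by
    intro X _ hX hrX
    rw [canon_iff hF hf hs.1 hfs]
    refine all_CF_rel hF hf hher hsol hs ?_ X hX hrX
    intro p hp hpr Y _ hY hrY
    rcases hpi p hp with rfl | rfl | rfl
    · exact absurd rfl hpr
    · exact hY
    · exact (canon_iff hF hf hs.1 hfs).1 (h Y ((canon_iff hF hf ht.1 hft).2 hY) hrY)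
  -- they have a normal Sylow `s`-subgroup
  have hns : ∀ (X : Type) [Group X], F X → ¬ r ∣ Nat.card X → ∀ P : Sylow s X,
      P.toSubgroup.Normal := by
    intro X _ hX hrX
    have hXf := hF.finite X hX
    refine wr_syl hF hsyl hs.1 ?_
    let S := Multiplicative (ZMod s)
    refine (hCs X hX hrX).2 (S ≀ᵣ X) (RegularWreathProduct.rightHom : S ≀ᵣ X →* X)
      (fun x => ⟨RegularWreathProduct.inl x, RegularWreathProduct.fun_id x⟩) ?_
    have hS : ∀ x : S, x ^ s = 1 := by
      intro x
      have := pow_card_eq_one' (x := x)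
      have hc : Nat.card S = s := Nat.card_zmod s
      rwa [hc] at this
    rintro ⟨a, ha⟩
    refine ⟨1, Subtype.ext ?_⟩
    show a ^ s ^ 1 = 1
    rw [pow_one]
    have h1 := pow_base a ha s
    refine RegularWreathProduct.ext ?_ h1.1
    rw [h1.2]
    funext z
    rw [Pi.pow_apply, hS]; rfl
  intro G _
  constructor
  · intro hG
    have hGf := hF.finite G hG
    obtain ⟨P⟩ : Nonempty (Sylow r G) := inferInstance
    have hPn : P.toSubgroup.Normal := closed_syl' hF hsyl hr.1 hrc G hG P
    let R : Subgroup G := P.toSubgroup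
    let π := QuotientGroup.mk' R
    have hπ : Function.Surjective π := QuotientGroup.mk'_surjective R
    have hX : F (G ⧸ R) := hF.quotient G R hG
    have hrX : ¬ r ∣ Nat.card (G ⧸ R) := by
      rw [← Subgroup.index_eq_card]
      exact P.not_dvd_index
    obtain ⟨Q⟩ : Nonempty (Sylow s (G ⧸ R)) := inferInstance
    have hQn : Q.toSubgroup.Normal := hns _ hX hrX Q
    have hSn : (Q.toSubgroup.comap π).Normal := hQn.comap π
    have hker : π.ker = R := QuotientGroup.ker_mk' R
    refine ⟨hGf, R, Q.toSubgroup.comap π, hPn, hSn, ?_, ?_, ?_, ?_⟩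
    · intro x hx
      have h0 : π x = 1 := by rw [← MonoidHom.mem_ker, hker]; exact hx
      rw [Subgroup.mem_comap, h0]
      exact Q.toSubgroup.one_mem
    · exact IsPGroup.iff_card.1 P.isPGroup'
    · have h0 := Subgroup.relIndex_ker (K := Q.toSubgroup.comap π) π
      rw [hker, Subgroup.map_comap_eq_self_of_surjective hπ] at h0
      obtain ⟨b, hb⟩ := IsPGroup.iff_card.1 Q.isPGroup'
      exact ⟨b, h0.trans hb⟩
    · rw [Subgroup.index_comap_of_surjective _ hπ]
      refine card_eq_pow Subgroup.index_ne_zero_of_finite ?_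
      intro q hq hd
      have h1 : F ((G ⧸ R) ⧸ Q.toSubgroup) := hF.quotient _ _ hX
      have h2 : q ∣ Nat.card ((G ⧸ R) ⧸ Q.toSubgroup) := by
        rw [← Subgroup.index_eq_card]; exact hd
      rcases hpi q ⟨hq, _, _, h1, h2⟩ with rfl | rfl | rfl
      · exact absurd (hd.trans (Subgroup.index_dvd_card _)) hrX
      · exact absurd hd Q.not_dvd_index
      · rfl
  · rintro ⟨hGf, R, S, hRn, hSn, hRS, ⟨a, ha⟩, ⟨b, hb⟩, ⟨c, hc⟩⟩
    refine hrc G R (IsPGroup.of_card ha) ?_
    -- the quotient by `S`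
    have hT : IsPGroup t (G ⧸ S) := by
      refine IsPGroup.of_card (n := c) ?_
      rw [← Subgroup.index_eq_card]; exact hc
    have hFT : F (G ⧸ S) := (CF_of_pGroup hF hf hher ht (G ⧸ S) hT).1
    have hrT : ¬ r ∣ Nat.card (G ⧸ S) := by
      rw [← Subgroup.index_eq_card, hc]
      intro hd
      exact hrt ((Nat.prime_dvd_prime_iff_eq hr.1 ht.1).1 (hr.1.dvd_of_dvd_pow hd))
    let φ : G ⧸ R →* G ⧸ S := QuotientGroup.map R S (MonoidHom.id G) hRS
    have hφ : Function.Surjective φ := by
      intro x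
      obtain ⟨g, rfl⟩ := QuotientGroup.mk_surjective x
      exact ⟨QuotientGroup.mk g, rfl⟩
    refine (hCs _ hFT hrT).2 (G ⧸ R) φ hφ ?_
    have h1 : φ.ker = S.map (QuotientGroup.mk' R) := by
      ext x
      obtain ⟨g, rfl⟩ := QuotientGroup.mk'_surjective R x
      rw [MonoidHom.mem_ker, Subgroup.mem_map]
      constructor
      · intro hg
        have hg' : (QuotientGroup.mk g : G ⧸ S) = 1 := hg
        exact ⟨g, (QuotientGroup.eq_one_iff g).1 hg', rfl⟩
      · rintro ⟨y, hy, hyg⟩
        have h2 : φ (QuotientGroup.mk' R y) = 1 := by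
          show (QuotientGroup.mk y : G ⧸ S) = 1
          exact (QuotientGroup.eq_one_iff y).2 hy
        rw [← hyg]; exact h2
    rw [h1]
    refine IsPGroup.of_card (n := b) ?_
    rw [← hb, ← Subgroup.relIndex_ker, QuotientGroup.ker_mk']

end

end Pool.Agent.CoveringSubgroups.H6
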