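import Pool.Agent.Lib.MP_7252b7_al_h9.SlCases

/-!
# Monomial and block diagonal matrices in `SL_3(K)`
-/

set_option autoImplicit false
set_option linter.unusedSectionVars false

namespace Pool.Agent.CoveringSubgroups.H6

open Pool.Agent.CoveringSubgroups Pool.Agent.CoveringSubgroups.H9 Module

variable {K : Type} [Field K]

/-- monomial matrices -/
def mon3 (K : Type) [Field K] [Finite K] : Subgroup (SLp 3 K) :=
  subOfFinite
    { carrier := {g | ∃ σ : Equiv.Perm (Fin 3), ∀ i j, g i j ≠ 0 → i = σ j}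
      one_mem' := by
        refine ⟨1, fun i j h => ?_⟩
        by_contra hne
        have hne' : i ≠ j := hne
        exact h (by rw [Matrix.SpecialLinearGroup.coe_one, Matrix.one_apply_ne hne'])
      mul_mem' := by
        rintro a b ⟨σ, hσ⟩ ⟨τ, hτ⟩
        refine ⟨σ * τ, fun i j h => ?_⟩
        rw [slp_mul] at h
        obtain ⟨k, -, hk⟩ := Finset.exists_ne_zero_of_sum_ne_zero h
        rw [hσ i k (left_ne_zero_of_mul hk), hτ k j (right_ne_zero_of_mul hk)]
        rfl }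

lemma mem_mon3 [Finite K] {g : SLp 3 K} :
    g ∈ mon3 K ↔ ∃ σ : Equiv.Perm (Fin 3), ∀ i j, g i j ≠ 0 → i = σ j := Iff.rfl

/-- the permutation of a monomial matrix -/
noncomputable def permOf [Finite K] (g : mon3 K) : Equiv.Perm (Fin 3) := (mem_mon3.1 g.2).choose

lemma permOf_spec [Finite K] (g : mon3 K) (i j : Fin 3) (h : (g : SLp 3 K) i j ≠ 0) :
    i = permOf g j := (mem_mon3.1 g.2).choose_spec i j h

lemma permOf_unique [Finite K] (g : mon3 K) (σ : Equiv.Perm (Fin 3))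
    (h : ∀ i j, (g : SLp 3 K) i j ≠ 0 → i = σ j) : permOf g = σ := by
  refine Equiv.ext fun j => ?_
  obtain ⟨i, hi⟩ := exists_col_ne (g : SLp 3 K) j
  rw [← permOf_spec g i j hi, ← h i j hi]

/-- the permutation of a monomial matrix -/
noncomputable def monPerm (K : Type) [Field K] [Finite K] : mon3 K →* Equiv.Perm (Fin 3) where
  toFun := permOf
  map_one' := permOf_unique _ _ fun i j h => by
    by_contra hne
    have hne' : i ≠ j := hne
    exact h (by
      show (1 : SLp 3 K) i j = 0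
      rw [Matrix.SpecialLinearGroup.coe_one, Matrix.one_apply_ne hne'])
  map_mul' := by
    intro a b
    refine permOf_unique _ _ fun i j h => ?_
    have h1 : ((a * b : mon3 K) : SLp 3 K) i j = ∑ k, (a : SLp 3 K) i k * (b : SLp 3 K) k j :=
      slp_mul _ _ _ _
    rw [h1] at h
    obtain ⟨k, -, hk⟩ := Finset.exists_ne_zero_of_sum_ne_zero h
    rw [permOf_spec a i k (left_ne_zero_of_mul hk), permOf_spec b k j (right_ne_zero_of_mul hk)]
    rfl

lemma monPerm_spec [Finite K] (g : mon3 K) (i j : Fin 3) (h : i ≠ monPerm K g j) :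
    (g : SLp 3 K) i j = 0 := by
  by_contra hne
  exact h (permOf_spec g i j hne)

lemma monPerm_eq_of [Finite K] (g : mon3 K) (σ : Equiv.Perm (Fin 3))
    (h : ∀ i j, (g : SLp 3 K) i j ≠ 0 → i = σ j) : monPerm K g = σ := permOf_unique g σ h

/-- block diagonal matrices -/
def blk (K : Type) [Field K] [Finite K] : Subgroup (SLp 3 K) :=
  subOfFinite
    { carrier := {g | g 0 2 = 0 ∧ g 1 2 = 0 ∧ g 2 0 = 0 ∧ g 2 1 = 0}
      one_mem' := by
        refine ⟨?_, ?_, ?_, ?_⟩ <;> rfl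
      mul_mem' := by
        rintro a b ⟨a1, a2, a3, a4⟩ ⟨b1, b2, b3, b4⟩
        refine ⟨?_, ?_, ?_, ?_⟩ <;> rw [slp_mul, Fin.sum_univ_three]
        · rw [b1, b2, a1]; ring
        · rw [b1, b2, a2]; ring
        · rw [a3, a4, b3]; ring
        · rw [a3, a4, b4]; ring }

lemma mem_blk [Finite K] {g : SLp 3 K} :
    g ∈ blk K ↔ g 0 2 = 0 ∧ g 1 2 = 0 ∧ g 2 0 = 0 ∧ g 2 1 = 0 := Iff.rfl

lemma blk_det [Finite K] {g : SLp 3 K} (hg : g ∈ blk K) :
    (g 0 0 * g 1 1 - g 0 1 * g 1 0) * g 2 2 = 1 := by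
  obtain ⟨h1, h2, h3, h4⟩ := mem_blk.1 hg
  have h5 := g.2
  rw [Matrix.det_fin_three] at h5
  change g 0 0 * g 1 1 * g 2 2 - g 0 0 * g 1 2 * g 2 1 - g 0 1 * g 1 0 * g 2 2 +
    g 0 1 * g 1 2 * g 2 0 + g 0 2 * g 1 0 * g 2 1 - g 0 2 * g 1 1 * g 2 0 = 1 at h5
  rw [h1, h2] at h5
  linear_combination h5

/-- the upper left block -/
noncomputable def blkGL (K : Type) [Field K] [Finite K] : blk K →* GL (Fin 2) K where
  toFun g := Matrix.GeneralLinearGroup.mkOfDetNeZero
    !![(g : SLp 3 K) 0 0, (g : SLp 3 K) 0 1; (g : SLp 3 K) 1 0, (g : SLp 3 K) 1 1] (by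
      rw [Matrix.det_fin_two_of]
      exact left_ne_zero_of_mul (by rw [blk_det g.2]; exact one_ne_zero))
  map_one' := by
    apply Units.ext
    ext i j
    fin_cases i <;> fin_cases j <;> rfl
  map_mul' := by
    intro a b
    obtain ⟨a1, a2, a3, a4⟩ := mem_blk.1 a.2
    apply Units.ext
    rw [Units.val_mul]
    ext i j
    have h : ∀ i j : Fin 3, ((a * b : blk K) : SLp 3 K) i j =
        (a : SLp 3 K) i 0 * (b : SLp 3 K) 0 j + (a : SLp 3 K) i 1 * (b : SLp 3 K) 1 j +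
        (a : SLp 3 K) i 2 * (b : SLp 3 K) 2 j := fun i j => by
      rw [← Fin.sum_univ_three (f := fun k => (a : SLp 3 K) i k * (b : SLp 3 K) k j)]
      exact slp_mul _ _ _ _
    rw [Matrix.mul_apply, Fin.sum_univ_two]
    fin_cases i <;> fin_cases j
    · show ((a * b : blk K) : SLp 3 K) 0 0 = (a : SLp 3 K) 0 0 * (b : SLp 3 K) 0 0 +
        (a : SLp 3 K) 0 1 * (b : SLp 3 K) 1 0
      rw [h, a1]; ring
    · show ((a * b : blk K) : SLp 3 K) 0 1 = (a : SLp 3 K) 0 0 * (b : SLp 3 K) 0 1 +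
        (a : SLp 3 K) 0 1 * (b : SLp 3 K) 1 1
      rw [h, a1]; ring
    · show ((a * b : blk K) : SLp 3 K) 1 0 = (a : SLp 3 K) 1 0 * (b : SLp 3 K) 0 0 +
        (a : SLp 3 K) 1 1 * (b : SLp 3 K) 1 0
      rw [h, a2]; ring
    · show ((a * b : blk K) : SLp 3 K) 1 1 = (a : SLp 3 K) 1 0 * (b : SLp 3 K) 0 1 +
        (a : SLp 3 K) 1 1 * (b : SLp 3 K) 1 1
      rw [h, a2]; ring

lemma blkGL_apply [Finite K] (g : blk K) :
    ((blkGL K g : GL (Fin 2) K) : Matrix (Fin 2) (Fin 2) K) =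
    !![(g : SLp 3 K) 0 0, (g : SLp 3 K) 0 1; (g : SLp 3 K) 1 0, (g : SLp 3 K) 1 1] := rfl

/-- the projective group in dimension two -/
abbrev PG (K : Type) [Field K] : Type := GL (Fin 2) K ⧸ Subgroup.center (GL (Fin 2) K)

end Pool.Agent.CoveringSubgroups.H6
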