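import Pool.Agent.Lib.MP_7252b7_al_h6.Rad

/-!
# Wreath products: the components of a normal subgroup, the delta lemma, the lemma on 3-cycles
-/

set_option autoImplicit false
set_option linter.unusedSectionVars false

namespace Pool.Agent.CoveringSubgroups.H6

open Pool.Agent.CoveringSubgroups Pool.Agent.CoveringSubgroups.H9

section comp

variable {G X : Type} [Group G] [Group X]

/-- the components at the coordinate `1` -/
def compSub (W : Subgroup (G ≀ᵣ X)) : Subgroup G := (baseProj W).range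

lemma mem_compSub {W : Subgroup (G ≀ᵣ X)} {v : G} :
    v ∈ compSub W ↔ ∃ w ∈ W, w.right = 1 ∧ w.left 1 = v := mem_range_baseProj

lemma compSub_mono {W H : Subgroup (G ≀ᵣ X)} (h : W ≤ H) : compSub W ≤ compSub H := by
  intro v hv
  obtain ⟨w, hw, h1⟩ := mem_compSub.1 hv
  exact mem_compSub.2 ⟨w, h hw, h1⟩

lemma conj_left_base (h : G ≀ᵣ X) {w : G ≀ᵣ X} (hw : w.right = 1) (z : X) :
    (h * w * h⁻¹).left z = h.left z * w.left (h.right⁻¹ * z) * (h.left z)⁻¹ := by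
  simp [hw]

lemma compSub_conj {H W : Subgroup (G ≀ᵣ X)} (hWn : ∀ h ∈ H, ∀ w ∈ W, h * w * h⁻¹ ∈ W) :
    ∀ d ∈ compSub H, ∀ v ∈ compSub W, d * v * d⁻¹ ∈ compSub W := by
  intro d hd v hv
  obtain ⟨h, hh, hh1, rfl⟩ := mem_compSub.1 hd
  obtain ⟨w, hw, hw1, rfl⟩ := mem_compSub.1 hv
  refine mem_compSub.2 ⟨_, hWn h hh w hw, by simp [hw1], ?_⟩
  rw [conj_left_base h hw1, hh1]
  simp

/-- one conjugation for all normal subgroups -/
theorem kk2 {H : Subgroup (G ≀ᵣ X)} (hr : ∀ x : X, ∃ h ∈ H, h.right = x) :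
    ∃ m : G ≀ᵣ X, m.right = 1 ∧
      (∀ g ∈ H.comap (MulAut.conj m).toMonoidHom, ∀ z, g.left z ∈ compSub H) ∧
      ∀ W : Subgroup (G ≀ᵣ X), (∀ h ∈ H, ∀ w ∈ W, h * w * h⁻¹ ∈ W) → (∀ w ∈ W, w.right = 1) →
        (∀ w ∈ W.comap (MulAut.conj m).toMonoidHom, ∀ z, w.left z ∈ compSub W) ∧
        ∀ v ∈ compSub W, ∀ z, ∃ w ∈ W.comap (MulAut.conj m).toMonoidHom, w.left z = v := by
  choose t ht1 ht2 using hr
  refine ⟨⟨fun z => (t z).left z, 1⟩, rfl, ?_, ?_⟩
  · intro g hg z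
    have h0 : (⟨fun z => (t z).left z, 1⟩ : G ≀ᵣ X) * g *
        (⟨fun z => (t z).left z, 1⟩ : G ≀ᵣ X)⁻¹ ∈ H := hg
    rw [mem_compSub]
    refine ⟨(t z)⁻¹ * ((⟨fun z => (t z).left z, 1⟩ : G ≀ᵣ X) * g *
        (⟨fun z => (t z).left z, 1⟩ : G ≀ᵣ X)⁻¹) * t (g.right⁻¹ * z),
      H.mul_mem (H.mul_mem (H.inv_mem (ht1 z)) h0) (ht1 _), ?_, ?_⟩
    · simp [ht2]
    · simp [ht2]
      group
  · intro W hWn hWb
    constructor
    · intro w hw z
      have h0 : (⟨fun z => (t z).left z, 1⟩ : G ≀ᵣ X) * w *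
          (⟨fun z => (t z).left z, 1⟩ : G ≀ᵣ X)⁻¹ ∈ W := hw
      have hw1 : w.right = 1 := by simpa using hWb _ h0
      have h1 := hWn _ (H.inv_mem (ht1 z)) _ h0
      refine mem_compSub.2 ⟨_, h1, hWb _ h1, ?_⟩
      rw [conj_left_base _ (hWb _ h0), conj_left_base _ hw1]
      simp [ht2]
      group
    · intro v hv z
      obtain ⟨w0, hw0, hw01, rfl⟩ := mem_compSub.1 hv
      have h1 := hWn _ (ht1 z) _ hw0
      refine ⟨(⟨fun z => (t z).left z, 1⟩ : G ≀ᵣ X)⁻¹ * (t z * w0 * (t z)⁻¹) *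
        (⟨fun z => (t z).left z, 1⟩ : G ≀ᵣ X), ?_, ?_⟩
      · show (⟨fun z => (t z).left z, 1⟩ : G ≀ᵣ X) * _ * (⟨fun z => (t z).left z, 1⟩ : G ≀ᵣ X)⁻¹ ∈ W
        have e : (⟨fun z => (t z).left z, 1⟩ : G ≀ᵣ X) *
            ((⟨fun z => (t z).left z, 1⟩ : G ≀ᵣ X)⁻¹ * (t z * w0 * (t z)⁻¹) *
              (⟨fun z => (t z).left z, 1⟩ : G ≀ᵣ X)) *
            (⟨fun z => (t z).left z, 1⟩ : G ≀ᵣ X)⁻¹ = t z * w0 * (t z)⁻¹ := by group
        rw [e]
        exact h1
      · simp [ht2, hw01]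
        group

lemma even_pow_three (σ : Equiv.Perm (Fin 3)) (h : σ ∈ alternatingGroup (Fin 3)) :
    σ ^ 3 ^ 1 = 1 := by
  have h1 : ∀ σ : Equiv.Perm (Fin 3), Equiv.Perm.sign σ = 1 → σ ^ 3 = 1 := by decide
  rw [pow_one]
  exact h1 σ (Equiv.Perm.mem_alternatingGroup.1 h)

lemma cen_of_comm {Λ : Type} [CommGroup Λ] (δ : G →* Λ) {H A : Subgroup (G ≀ᵣ X)}
    (hAn : ∀ h ∈ H, ∀ a ∈ A, h * a * h⁻¹ ∈ A) (hAb : ∀ a ∈ A, a.right = 1)
    (hsp : ∀ y, ∀ u : G, (∀ a ∈ A, u * a.left y = a.left y * u) → δ u = 1) :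
    ∀ g ∈ H, (∀ a ∈ A, g * a = a * g) → ∀ h ∈ H, h.right = 1 → ∀ y,
      δ (h.left (g.right * y)) = δ (h.left y) := by
  intro g _ hga h hh hh1 y
  have key : ∀ a ∈ A, g.left (g.right * y) * a.left y = a.left (g.right * y) *
      g.left (g.right * y) := by
    intro a ha
    have h1 := congrFun (congrArg RegularWreathProduct.left (hga a ha)) (g.right * y)
    simpa [hAb a ha] using h1
  set x := g.right * y with hx
  have h2 : δ ((h.left x)⁻¹ * (g.left x * h.left y * (g.left x)⁻¹)) = 1 := by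
    refine hsp x _ fun a ha => ?_
    have k1 := key a ha
    have k2 := key _ (hAn h hh a ha)
    rw [conj_left_base h (hAb a ha), conj_left_base h (hAb a ha), hh1] at k2
    simp only [inv_one, one_mul] at k2
    have e1 : a.left x = g.left x * a.left y * (g.left x)⁻¹ := by
      rw [k1]; group
    have e2 : h.left x * a.left x * (h.left x)⁻¹ =
        g.left x * (h.left y * a.left y * (h.left y)⁻¹) * (g.left x)⁻¹ := by
      rw [k2]; group
    calc (h.left x)⁻¹ * (g.left x * h.left y * (g.left x)⁻¹) * a.left x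
        = (h.left x)⁻¹ * (g.left x * (h.left y * a.left y * (h.left y)⁻¹) * (g.left x)⁻¹) *
          (g.left x * h.left y * (g.left x)⁻¹) := by
          rw [e1]; group
      _ = a.left x * ((h.left x)⁻¹ * (g.left x * h.left y * (g.left x)⁻¹)) := by
          rw [← e2]; group
  rw [map_mul, map_mul, map_mul, map_inv, map_inv, mul_comm (δ (g.left x)), mul_inv_cancel_right,
    inv_mul_eq_one] at h2
  exact h2

end comp

variable {F : GroupClass} {f : ℕ → GroupClass}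

section

variable (hF : IsFormation F) (hf : IsLocallyDefinedBy F f)

include hF hf

/-- **The delta lemma.** -/
theorem delta_lemma (hher : ∀ (G : Type) [Group G] (H : Subgroup G), F G → F H)
    {r s : ℕ} (hr : r.Prime) (hs : s.Prime) (hfs : IsFormation (f s))
    {N Λ X Y : Type} [Group N] [Finite N] [CommGroup Λ] [Nontrivial Λ] [Group X] [Group Y]
    [Finite X] [Finite Λ] (hΛ : IsPGroup r Λ) (δ : N →* Λ)
    (hδ : Function.Surjective δ)
    (hX : F X) {H A : Subgroup (N ≀ᵣ X)} (hH : Cov F H)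
    (hAn : ∀ h ∈ H, ∀ a ∈ A, h * a * h⁻¹ ∈ A) (hAH : A ≤ H) (hA : IsPGroup s A)
    (hcen : ∀ g ∈ H, (∀ a ∈ A, g * a = a * g) → ∀ h ∈ H, h.right = 1 → ∀ y,
      δ (h.left (g.right * y)) = δ (h.left y))
    (ζ : X →* Y) (hζ : Function.Surjective ζ) (hY : CF F f r Y) : CF F f s Y := by
  classical
  have hright := right_surj (F := F) (f := f) hF hf hX hH
  have hAH' : (A.subgroupOf H).Normal := by
    refine ⟨?_⟩
    rintro ⟨a', ha'⟩ ha'' ⟨h', hh'⟩
    exact hAn h' hh' a' ha''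
  have hAH'' : IsPGroup s (A.subgroupOf H) :=
    hA.comap_of_injective H.subtype H.subtype_injective
  refine CF_act hf hF hs hfs hH.1 (A.subgroupOf H) hAH''
    (ζ.comp (RegularWreathProduct.rightHom.comp H.subtype)) ?_ ?_
  · refine hζ.comp fun x => ?_
    obtain ⟨h, h1, h2⟩ := hright x
    exact ⟨⟨h, h1⟩, h2⟩
  · rintro ⟨g, hg⟩ hgc
    have hga : ∀ a ∈ A, g * a = a * g := fun a ha =>
      congrArg Subtype.val (hgc ⟨a, hAH ha⟩ ha).eq
    show ζ g.right = 1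
    by_contra hne
    obtain ⟨l1, hl1⟩ := exists_ne (1 : Λ)
    obtain ⟨t1, ht1⟩ := hδ l1
    obtain ⟨h, hh, h1, h2⟩ := star hF hf hher hr hΛ δ ζ hX hY hH
      (⟨fun y => if y = 1 then t1 else 1, 1⟩ : N ≀ᵣ X)
    have h3 := psi_left_eq δ ζ h g.right (fun y => hcen g hg hga h hh h1 y) 1
    rw [h2, mul_one, psi_left, psi_left] at h3
    have h4 : ∀ κ : Y, (let := Fintype.ofFinite X
      ∏ y : X, if ζ y = κ then δ (if y = 1 then t1 else 1) else 1) = if κ = 1 then l1 else 1 := by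
      intro κ
      let := Fintype.ofFinite X
      rw [Finset.prod_eq_single (1 : X)]
      · rw [map_one, if_pos rfl, ht1]
        by_cases h : κ = 1
        · simp [h]
        · rw [if_neg h, if_neg (Ne.symm h)]
      · intro y _ hy
        rw [if_neg hy, map_one, ite_self]
      · simp
    have h5 : (1 : Λ) = l1 := by
      have h6 := (h4 (ζ g.right)).symm.trans (Eq.trans ?_ (h4 1))
      · rwa [if_neg hne, if_pos rfl] at h6
      · convert h3
    exact hl1 h5.symm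

/-- **The main lemma for 3-cycles.** -/
theorem main_lemma3 {s : ℕ} (hs : s.Prime) (hfs : IsFormation (f s))
    {N X Y : Type} [Group N] [Finite N] [Group X] [Group Y] [Finite X]
    (μ : N →* Equiv.Perm (Fin 3)) (hker : ∀ t : N, μ t = 1 → (∃ j, t ^ 3 ^ j = 1) → t = 1)
    (hX : F X) {H A : Subgroup (N ≀ᵣ X)} (hH : Cov F H) (hAH : A ≤ H)
    (hAn : ∀ h ∈ H, ∀ a ∈ A, h * a * h⁻¹ ∈ A) (hA : IsPGroup s A) (hA1 : A ≠ ⊥)
    (hAb : ∀ a ∈ A, a.right = 1)
    (hfpf : ∀ a ∈ A, ∀ x, a.left x ≠ 1 → ∀ t : N, μ t ∈ alternatingGroup (Fin 3) → μ t ≠ 1 →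
      t * a.left x ≠ a.left x * t)
    (ζ : X →* Y) (hζ : Function.Surjective ζ)
    (hcyc : ∀ y, ∃ h ∈ H, h.right = 1 ∧ (∀ z, μ (h.left z) ∈ alternatingGroup (Fin 3)) ∧
      μ (h.left y) ≠ 1 ∧ ∀ z, μ (h.left z) ≠ 1 → ζ z = ζ y) : CF F f s Y := by
  classical
  have hright := right_surj (F := F) (f := f) hF hf hX hH
  obtain ⟨a, haA, ha1⟩ : ∃ a ∈ A, a ≠ 1 := (Subgroup.bot_or_exists_ne_one A).resolve_left hA1
  obtain ⟨z, hz⟩ : ∃ z, a.left z ≠ 1 := by
    by_contra hcon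
    push Not at hcon
    exact ha1 (RegularWreathProduct.ext (funext hcon) (hAb a haA))
  obtain ⟨h0, hh0, h01, h02, h03, h04⟩ := hcyc z
  have h3pow : ∀ y, μ (h0.left y) ^ 3 ^ 1 = 1 := by
    intro y
    exact even_pow_three _ (h02 y)
  obtain ⟨e, he1, he2⟩ := exists_r_part N Nat.prime_three 1
  have hh1 : h0 ^ e ∈ H := H.pow_mem hh0 e
  have hp := pow_base h0 h01 e
  set h := h0 ^ e with hh
  have hμh : ∀ y, μ (h.left y) = μ (h0.left y) := by
    intro y
    rw [hp.2, Pi.pow_apply, map_pow, he2 _ _ (h3pow y)]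
  have hhy : ∀ y, ζ y ≠ ζ z → h.left y = 1 := by
    intro y hy
    refine hker _ ?_ ?_
    · rw [hμh]
      by_contra h5
      exact hy (h04 y h5)
    · rw [hp.2]
      exact he1 _
  set c := h * a * h⁻¹ * a⁻¹ with hc
  have hcA : c ∈ A := A.mul_mem (hAn h hh1 a haA) (A.inv_mem haA)
  have hcl : ∀ y, c.left y = h.left y * a.left y * (h.left y)⁻¹ * (a.left y)⁻¹ := by
    intro y
    rw [hc]
    simp [hp.1, hAb a haA]
  have hcz : c.left z ≠ 1 := by
    rw [hcl]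
    intro h1
    refine hfpf a haA z hz (h.left z) (by rw [hμh]; exact h02 z) (by rw [hμh]; exact h03) ?_
    rw [mul_inv_eq_one, mul_inv_eq_iff_eq_mul] at h1
    exact h1
  have hcy : ∀ y, c.left y ≠ 1 → ζ y = ζ z := by
    intro y hy
    by_contra h1
    refine hy ?_
    rw [hcl, hhy y h1]
    simp
  have hAH' : (A.subgroupOf H).Normal := by
    refine ⟨?_⟩
    rintro ⟨a', ha'⟩ ha'' ⟨h', hh'⟩
    exact hAn h' hh' a' ha''
  have hAH'' : IsPGroup s (A.subgroupOf H) :=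
    hA.comap_of_injective H.subtype H.subtype_injective
  refine CF_act hf hF hs hfs hH.1 (A.subgroupOf H) hAH''
    (ζ.comp (RegularWreathProduct.rightHom.comp H.subtype)) ?_ ?_
  · refine hζ.comp fun x => ?_
    obtain ⟨h, h1, h2⟩ := hright x
    exact ⟨⟨h, h1⟩, h2⟩
  · rintro ⟨g, hg⟩ hgc
    have h1 := hgc ⟨c, hAH hcA⟩ hcA
    have h2 : g * c = c * g := congrArg Subtype.val h1.eq
    have h3 := congrFun (congrArg RegularWreathProduct.left h2) z
    simp only [RegularWreathProduct.mul_left, Pi.mul_apply, hAb c hcA, inv_one, one_mul] at h3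
    have h4 : c.left (g.right⁻¹ * z) ≠ 1 := by
      intro h5
      rw [h5, mul_one] at h3
      exact hcz (by simpa using h3)
    have h5 := hcy _ h4
    show ζ g.right = 1
    rw [map_mul, map_inv] at h5
    simpa using h5

end

end Pool.Agent.CoveringSubgroups.H6
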