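import Pool.Agent.Lib.MP_7252b7_al_h6.CaseI
import Pool.Agent.Lib.MP_7252b7_al_h6.GeoDefs
import Pool.Agent.Lib.MP_7252b7_al_h6.Cyc

/-!
# Monomial matrices
-/

set_option autoImplicit false
set_option linter.unusedSectionVars false

namespace Pool.Agent.CoveringSubgroups.H6

open Pool.Agent.CoveringSubgroups Pool.Agent.CoveringSubgroups.H9

section

variable {K : Type} [Field K]

theorem monPerm_surjective [Finite K] : Function.Surjective (monPerm K) := by
  classical
  intro σ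
  let d : Fin 3 → K := fun j => if j = 0 then ((Equiv.Perm.sign σ : ℤ) : K) else 1
  let M : Matrix (Fin 3) (Fin 3) K := (σ⁻¹).permMatrix K * Matrix.diagonal d
  have hM : M.det = 1 := by
    have h1 : M.det = ((σ⁻¹).permMatrix K).det * (Matrix.diagonal d).det := Matrix.det_mul _ _
    have h2 : ((Equiv.Perm.sign σ : ℤ) : K) * ((Equiv.Perm.sign σ : ℤ) : K) = 1 := by
      rcases Int.units_eq_one_or (Equiv.Perm.sign σ) with h | h <;> rw [h] <;> simp
    rw [h1, Matrix.det_permutation, Matrix.det_diagonal, Fin.prod_univ_three, Equiv.Perm.sign_inv]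
    show ((Equiv.Perm.sign σ : ℤ) : K) * ((if (0 : Fin 3) = 0 then ((Equiv.Perm.sign σ : ℤ) : K)
      else 1) * (if (1 : Fin 3) = 0 then ((Equiv.Perm.sign σ : ℤ) : K) else 1) *
      (if (2 : Fin 3) = 0 then ((Equiv.Perm.sign σ : ℤ) : K) else 1)) = 1
    rw [if_pos rfl, if_neg (by decide), if_neg (by decide), mul_one, mul_one]
    exact h2
  have hMe : ∀ i j, M i j ≠ 0 → i = σ j := by
    intro i j h
    by_contra hne
    apply h
    show ((σ⁻¹).permMatrix K * Matrix.diagonal d) i j = 0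
    rw [Matrix.mul_diagonal, Equiv.Perm.permMatrix, PEquiv.toMatrix_apply]
    rw [if_neg, zero_mul]
    intro h2
    apply hne
    have h3 : σ⁻¹ i = j := by simpa using h2
    rw [← h3]
    exact (σ.apply_symm_apply i).symm
  refine ⟨⟨⟨M, hM⟩, σ, hMe⟩, ?_⟩
  exact monPerm_eq_of _ σ hMe

theorem mon_diag [Finite K] {t : mon3 K} (h : monPerm K t = 1) (i j : Fin 3) (hij : i ≠ j) :
    (t : SLp 3 K) i j = 0 := monPerm_spec t i j (by rw [h]; exact hij)

theorem mon_ker [Finite K] [CharP K 3] (t : mon3 K) (h : monPerm K t = 1)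
    (h3 : ∃ j, t ^ 3 ^ j = 1) : t = 1 := by
  have : Fact (Nat.Prime 3) := ⟨Nat.prime_three⟩
  obtain ⟨j, hj⟩ := h3
  have hl : (t : SLp 3 K) ∈ lowB 3 K := fun i k hik => mon_diag h i k hik.ne
  have h1 : (⟨(t : SLp 3 K), hl⟩ : lowB 3 K) ^ 3 ^ j = 1 := Subtype.ext (by
    have h2 : ((t ^ 3 ^ j : mon3 K) : SLp 3 K) = ((1 : mon3 K) : SLp 3 K) := by rw [hj]
    exact h2)
  have h4 := congrArg (lowDiag 3 K) h1
  rw [map_pow, map_one] at h4
  apply Subtype.ext
  apply Subtype.ext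
  ext i k
  by_cases hik : i = k
  · subst hik
    have h5 := congrArg Units.val (congrFun h4 i)
    have h6 : (t : SLp 3 K) i i ^ 3 ^ j = 1 := h5
    have h10 : iterateFrobenius K 3 j ((t : SLp 3 K) i i) = iterateFrobenius K 3 j 1 := by
      rw [iterateFrobenius_def, map_one, h6]
    show (t : SLp 3 K) i i = (1 : Matrix (Fin 3) (Fin 3) K) i i
    rw [Matrix.one_apply_eq]
    exact iterateFrobenius_inj K 3 j h10
  · show (t : SLp 3 K) i k = (1 : Matrix (Fin 3) (Fin 3) K) i k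
    rw [Matrix.one_apply_ne hik]
    exact mon_diag h i k hik

lemma three_cycle : ∀ σ : Equiv.Perm (Fin 3), Equiv.Perm.sign σ = 1 → σ ≠ 1 →
    ∀ i, i = 0 ∨ i = σ 0 ∨ i = σ (σ 0) := by decide

lemma even_fix : ∀ σ : Equiv.Perm (Fin 3), Equiv.Perm.sign σ = 1 → σ 2 = 2 → σ = 1 := by decide

theorem mon_fpf [Finite K] [CharP K 3] {t a : mon3 K}
    (ht : monPerm K t ∈ alternatingGroup (Fin 3)) (ht1 : monPerm K t ≠ 1)
    (ha : ∀ i j, i ≠ j → (a : SLp 3 K) i j = 0) (ha1 : a ≠ 1) : t * a ≠ a * t := by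
  have : Fact (Nat.Prime 3) := ⟨Nat.prime_three⟩
  intro h
  apply ha1
  have h0 : (t : SLp 3 K) * (a : SLp 3 K) = a * t := congrArg Subtype.val h
  have h1 : ∀ i j, (t : SLp 3 K) i j * (a : SLp 3 K) j j = (a : SLp 3 K) i i * (t : SLp 3 K) i j := by
    intro i j
    have h2 : ((t : SLp 3 K) * (a : SLp 3 K)) i j = ((a : SLp 3 K) * (t : SLp 3 K)) i j := by rw [h0]
    rw [slp_mul, slp_mul, Finset.sum_eq_single j, Finset.sum_eq_single i] at h2
    · exact h2
    · intro k _ hk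
      rw [ha i k hk.symm, zero_mul]
    · simp
    · intro k _ hk
      rw [ha k j hk, mul_zero]
    · simp
  have h2 : ∀ j, (a : SLp 3 K) (monPerm K t j) (monPerm K t j) = (a : SLp 3 K) j j := by
    intro j
    obtain ⟨i, hi⟩ := exists_col_ne (t : SLp 3 K) j
    have h3 : i = monPerm K t j := permOf_spec t i j hi
    rw [← h3]
    have h4 := h1 i j
    rw [mul_comm] at h4
    exact (mul_right_cancel₀ hi h4).symm
  have h3 : ∀ i, (a : SLp 3 K) i i = (a : SLp 3 K) 0 0 := by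
    intro i
    rcases three_cycle _ (Equiv.Perm.mem_alternatingGroup.1 ht) ht1 i with h | h | h
    · rw [h]
    · rw [h, h2]
    · rw [h, h2, h2]
  have h4 : (a : SLp 3 K) 0 0 = 1 := by
    have h5 := det_of_diag ha
    rw [Fin.prod_univ_three, h3 1, h3 2] at h5
    have h6 : frobenius K 3 ((a : SLp 3 K) 0 0) = frobenius K 3 1 := by
      rw [frobenius_def, map_one]
      linear_combination h5
    exact frobenius_inj K 3 h6
  apply Subtype.ext
  apply Subtype.ext
  ext i k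
  by_cases hik : i = k
  · subst hik
    show (a : SLp 3 K) i i = (1 : Matrix (Fin 3) (Fin 3) K) i i
    rw [Matrix.one_apply_eq, h3, h4]
  · show (a : SLp 3 K) i k = (1 : Matrix (Fin 3) (Fin 3) K) i k
    rw [Matrix.one_apply_ne hik]
    exact ha i k hik

/-- block diagonal matrices with monomial block -/
theorem blk_mon [Finite K] {g : SLp 3 K} (hg : g ∈ blk K)
    (h : (g 0 1 = 0 ∧ g 1 0 = 0) ∨ (g 0 0 = 0 ∧ g 1 1 = 0)) : g ∈ mon3 K ∧ g 2 2 ≠ 0 := by
  obtain ⟨h1, h2, h3, h4⟩ := mem_blk.1 hg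
  refine ⟨?_, right_ne_zero_of_mul (by rw [blk_det hg]; exact one_ne_zero)⟩
  rcases h with ⟨h5, h6⟩ | ⟨h5, h6⟩
  · refine ⟨1, fun i j hij => ?_⟩
    show i = j
    by_contra hne
    apply hij
    fin_cases i <;> fin_cases j <;> first | exact absurd rfl hne | assumption
  · refine ⟨Equiv.swap 0 1, fun i j hij => ?_⟩
    by_contra hne
    apply hij
    fin_cases i <;> fin_cases j <;> first | exact absurd (by decide) hne | assumption

theorem blkGL_surjective [Finite K] : Function.Surjective (blkGL K) := by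
  intro g
  let M : Matrix (Fin 3) (Fin 3) K := !![g 0 0, g 0 1, 0; g 1 0, g 1 1, 0; 0, 0, (g.det⁻¹ : Kˣ)]
  have hdet : (g.det : K) = g 0 0 * g 1 1 - g 0 1 * g 1 0 := by
    show (g : Matrix (Fin 2) (Fin 2) K).det = _
    rw [Matrix.det_fin_two]
  have hM : M.det = 1 := by
    rw [Matrix.det_fin_three]
    show g 0 0 * g 1 1 * ((g.det⁻¹ : Kˣ) : K) - g 0 0 * 0 * 0 - g 0 1 * g 1 0 * ((g.det⁻¹ : Kˣ) : K) +
      g 0 1 * 0 * 0 + 0 * g 1 0 * 0 - 0 * g 1 1 * 0 = 1
    have h1 : (g.det : K) * ((g.det⁻¹ : Kˣ) : K) = 1 := Units.mul_inv _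
    rw [hdet] at h1
    linear_combination h1
  refine ⟨⟨⟨M, hM⟩, rfl, rfl, rfl, rfl⟩, ?_⟩
  apply Units.ext
  rw [blkGL_apply]
  ext i j
  fin_cases i <;> fin_cases j <;> rfl

end

section

variable {G G' X : Type} [Group G] [Group G'] [Group X]

/-- the functor `φ ≀ X` -/
def wrQ (φ : G →* G') (X : Type) [Group X] : G ≀ᵣ X →* G' ≀ᵣ X where
  toFun a := ⟨fun y => φ (a.left y), a.right⟩
  map_one' := RegularWreathProduct.ext (funext fun _ => map_one φ) rfl
  map_mul' _ _ := RegularWreathProduct.ext (funext fun _ => map_mul φ _ _) rfl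

lemma wrQ_left (φ : G →* G') (a : G ≀ᵣ X) (y : X) : (wrQ φ X a).left y = φ (a.left y) := rfl

lemma wrQ_right (φ : G →* G') (a : G ≀ᵣ X) : (wrQ φ X a).right = a.right := rfl

lemma wrQ_surjective {φ : G →* G'} (hφ : Function.Surjective φ) :
    Function.Surjective (wrQ φ X) := by
  intro b
  choose g hg using hφ
  exact ⟨⟨fun y => g (b.left y), b.right⟩, RegularWreathProduct.ext (funext fun _ => hg _) rfl⟩

lemma wrQ_lift {φ : G →* G'} (hφ : Function.Surjective φ) (b : G' ≀ᵣ X) (hb : b.right = 1) :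
    ∃ a : G ≀ᵣ X, a.right = 1 ∧ wrQ φ X a = b := by
  obtain ⟨a, rfl⟩ := wrQ_surjective (X := X) hφ b
  exact ⟨a, hb, rfl⟩

end

end Pool.Agent.CoveringSubgroups.H6
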