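import Mathlib

/-!
# The groups `PSL_2(l)`, `l` a prime, `l = 5` mod `8`, `l = 2` mod `9`

* `exists_prime_l`: such primes with prescribed behaviour at finitely many primes;
* `psl_data`: the order, no elements of order `6`, an inverted element of order `3`, an `A_4`.
-/

set_option autoImplicit false
set_option linter.unusedSectionVars false

namespace Pool.Agent.CoveringSubgroups.H6

/-! ### The primes -/

theorem exists_prime_l (S : Finset ℕ) : ∃ l : ℕ, l.Prime ∧ l % 8 = 5 ∧ l % 9 = 2 ∧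
    ∀ s ∈ S, s.Prime → 5 ≤ s → ¬ s ∣ l * (l ^ 2 - 1) := by
  classical
  set T := S.filter fun s => s.Prime ∧ 5 ≤ s with hT
  set P := ∏ s ∈ T, s with hP
  have hTm : ∀ s ∈ T, s.Prime ∧ 5 ≤ s := fun s hs => (Finset.mem_filter.1 hs).2
  have hP0 : P ≠ 0 := Finset.prod_ne_zero_iff.2 fun s hs => (hTm s hs).1.ne_zero
  have hcop : ∀ a : ℕ, (∀ s ∈ T, Nat.Coprime a s) → Nat.Coprime a P := fun a h =>
    Nat.Coprime.prod_right h
  have h8P : Nat.Coprime 8 (9 * P) := by
    refine Nat.Coprime.mul_right (by norm_num) (hcop 8 fun s hs => ?_)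
    have h1 : Nat.Coprime 2 s := (Nat.coprime_primes Nat.prime_two (hTm s hs).1).2 (by
      have := (hTm s hs).2
      omega)
    exact Nat.Coprime.pow_left 3 h1
  have h9P : Nat.Coprime 9 P := hcop 9 fun s hs => by
    have h1 : Nat.Coprime 3 s := (Nat.coprime_primes Nat.prime_three (hTm s hs).1).2 (by
      have := (hTm s hs).2
      omega)
    exact Nat.Coprime.pow_left 2 h1
  obtain ⟨a, ha8, ha9⟩ := Nat.chineseRemainder h8P 5 2
  have ha9' : a ≡ 2 [MOD 9] := ha9.of_mul_right P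
  have haP : a ≡ 2 [MOD P] := ha9.of_mul_left 9
  have hsP : ∀ s ∈ T, s ∣ P := fun s hs => Finset.dvd_prod_of_mem _ hs
  have has : ∀ s ∈ T, a ≡ 2 [MOD s] := fun s hs => haP.of_dvd (hsP s hs)
  have hcopa : Nat.Coprime a (8 * (9 * P)) := by
    refine Nat.Coprime.mul_right ?_ (Nat.Coprime.mul_right ?_ (hcop a fun s hs => ?_))
    · have h1 : Nat.Coprime 5 8 := by norm_num
      rw [Nat.Coprime, ha8.gcd_eq]
      exact h1
    · have h1 : Nat.Coprime 2 9 := by norm_num
      rw [Nat.Coprime, ha9'.gcd_eq]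
      exact h1
    · rw [Nat.Coprime, (has s hs).gcd_eq]
      exact (Nat.coprime_primes Nat.prime_two (hTm s hs).1).2 (by
        have := (hTm s hs).2
        omega)
  obtain ⟨l, hlP, hl, hmod⟩ := Nat.forall_exists_prime_gt_and_modEq P
    (q := 8 * (9 * P)) (by positivity) hcopa
  have hl8 : l ≡ 5 [MOD 8] := (hmod.of_mul_right (9 * P)).trans ha8
  have hl9P : l ≡ 2 [MOD 9 * P] := (hmod.of_mul_left 8).trans ha9
  have hl9 : l ≡ 2 [MOD 9] := hl9P.of_mul_right P
  have hlPm : l ≡ 2 [MOD P] := hl9P.of_mul_left 9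
  refine ⟨l, hl, hl8, hl9, fun s hs hsp hs5 hdvd => ?_⟩
  have hsT : s ∈ T := Finset.mem_filter.2 ⟨hs, hsp, hs5⟩
  have hsl : s ≤ P := Nat.le_of_dvd (Nat.pos_of_ne_zero hP0) (hsP s hsT)
  rcases (Nat.Prime.dvd_mul hsp).1 hdvd with h | h
  · have := (Nat.prime_dvd_prime_iff_eq hsp hl).1 h
    omega
  · have h1 : l ≡ 2 [MOD s] := hlPm.of_dvd (hsP s hsT)
    have h2 : l ^ 2 ≡ 2 ^ 2 [MOD s] := h1.pow 2
    have h3 : l ^ 2 ≡ 1 [MOD s] :=
      ((Nat.modEq_iff_dvd' (Nat.one_le_pow _ _ hl.pos)).2 h).symm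
    have h4 : 1 ≡ 4 [MOD s] := h3.symm.trans h2
    have h5 : s ∣ 4 - 1 := (Nat.modEq_iff_dvd' (by norm_num)).1 h4
    have h6 := Nat.le_of_dvd (by norm_num) h5
    omega

/-! ### Matrices -/

section

variable {K : Type} [Field K]

/-- `SL_2` -/
abbrev S2 (K : Type) [Field K] : Type := Matrix.SpecialLinearGroup (Fin 2) K

/-- a matrix -/
def mk2 (a b c d : K) (h : a * d - b * c = 1) : S2 K :=
  ⟨!![a, b; c, d], by rw [Matrix.det_fin_two_of]; exact h⟩

theorem mk2_det_mul {a b c d a' b' c' d' : K} (h : a * d - b * c = 1)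
    (h' : a' * d' - b' * c' = 1) :
    (a * a' + b * c') * (c * b' + d * d') - (a * b' + b * d') * (c * a' + d * c') = 1 := by
  linear_combination (a * d - b * c) * h' + h

theorem mk2_mul {a b c d a' b' c' d' : K} (h : a * d - b * c = 1) (h' : a' * d' - b' * c' = 1) :
    mk2 a b c d h * mk2 a' b' c' d' h' =
      mk2 (a * a' + b * c') (a * b' + b * d') (c * a' + d * c') (c * b' + d * d')
        (mk2_det_mul h h') := by
  apply Subtype.ext
  rw [Matrix.SpecialLinearGroup.coe_mul]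
  exact Matrix.mul_fin_two _ _ _ _ _ _ _ _

theorem mk2_congr {a b c d a' b' c' d' : K} (h : a * d - b * c = 1) (h' : a' * d' - b' * c' = 1)
    (ha : a = a') (hb : b = b') (hc : c = c') (hd : d = d') :
    mk2 a b c d h = mk2 a' b' c' d' h' := by
  subst ha hb hc hd
  rfl

theorem exists_mk2 (g : S2 K) : ∃ a b c d h, g = mk2 a b c d h := by
  have h := g.2
  rw [Matrix.det_fin_two] at h
  refine ⟨g 0 0, g 0 1, g 1 0, g 1 1, h, Subtype.ext ?_⟩
  exact Matrix.eta_fin_two _

theorem one_eq_mk2 : (1 : S2 K) = mk2 1 0 0 1 (by ring) := by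
  apply Subtype.ext
  exact Matrix.one_fin_two

/-- the projective group -/
abbrev PS (K : Type) [Field K] : Type := S2 K ⧸ Subgroup.center (S2 K)

/-- the projection -/
def pr (K : Type) [Field K] : S2 K →* PS K := QuotientGroup.mk' _

theorem pr_surj : Function.Surjective (pr K) := QuotientGroup.mk'_surjective _

theorem pr_mk2_eq_one {a b c d : K} (h : a * d - b * c = 1) :
    pr K (mk2 a b c d h) = 1 ↔ b = 0 ∧ c = 0 ∧ a = d := by
  have h1 : pr K (mk2 a b c d h) = 1 ↔ mk2 a b c d h ∈ Subgroup.center (S2 K) :=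
    QuotientGroup.eq_one_iff _
  rw [h1, Matrix.SpecialLinearGroup.mem_center_iff]
  constructor
  · rintro ⟨r, -, hr⟩
    have e : ∀ i j, (Matrix.scalar (Fin 2) r) i j = (mk2 a b c d h : Matrix (Fin 2) (Fin 2) K) i j :=
      fun i j => by rw [hr]
    have e01 := e 0 1
    have e10 := e 1 0
    have e00 := e 0 0
    have e11 := e 1 1
    rw [Matrix.scalar_apply, Matrix.diagonal_apply] at e01 e10 e00 e11
    rw [if_neg (by decide)] at e01 e10
    rw [if_pos rfl] at e00 e11
    exact ⟨e01.symm, e10.symm, e00.symm.trans e11⟩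
  · rintro ⟨rfl, rfl, rfl⟩
    refine ⟨a, ?_, ?_⟩
    · rw [Fintype.card_fin]
      linear_combination h
    · ext i j
      rw [Matrix.scalar_apply, Matrix.diagonal_apply]
      fin_cases i <;> fin_cases j <;> rfl

theorem pr_neg {a b c d : K} (h : a * d - b * c = 1) (h' : (-a) * (-d) - (-b) * (-c) = 1) :
    pr K (mk2 (-a) (-b) (-c) (-d) h') = pr K (mk2 a b c d h) := by
  have h1 : mk2 (-a) (-b) (-c) (-d) h' = mk2 a b c d h * mk2 (-1) 0 0 (-1) (by ring) := by
    rw [mk2_mul]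
    refine mk2_congr _ _ ?_ ?_ ?_ ?_ <;> ring
  rw [h1, map_mul, (pr_mk2_eq_one (K := K) (a := -1) (b := 0) (c := 0) (d := -1) _).2
    ⟨rfl, rfl, rfl⟩, mul_one]

/-- no elements of order `6` -/
theorem no_six (h3 : ∀ t : K, t ^ 2 ≠ 3) (x : PS K) : orderOf x ≠ 6 := by
  intro hx
  obtain ⟨g, rfl⟩ := pr_surj x
  obtain ⟨a, b, c, d, h, rfl⟩ := exists_mk2 g
  set g := mk2 a b c d h with hg
  have h6 : pr K (g * g * g * (g * g * g)) = 1 := by
    have := pow_orderOf_eq_one (pr K g)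
    rw [hx] at this
    rw [← this]
    simp only [map_mul, pow_succ, pow_zero, one_mul, mul_assoc]
  have h3' : pr K (g * g * g) ≠ 1 := by
    intro h'
    have h1 : pr K g ^ 3 = 1 := by
      rw [← h']
      simp only [map_mul, pow_succ, pow_zero, one_mul]
    have h2 := orderOf_dvd_of_pow_eq_one h1
    rw [hx] at h2
    revert h2
    decide
  have h2' : pr K (g * g) ≠ 1 := by
    intro h'
    have h1 : pr K g ^ 2 = 1 := by
      rw [← h']
      simp only [map_mul, pow_succ, pow_zero, one_mul]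
    have h2 := orderOf_dvd_of_pow_eq_one h1
    rw [hx] at h2
    revert h2
    decide
  -- elements with trace zero
  have key : ∀ {a b c d : K} (h : a * d - b * c = 1),
      pr K (mk2 a b c d h * mk2 a b c d h) = 1 → pr K (mk2 a b c d h) ≠ 1 → a + d = 0 := by
    intro a b c d h h1 h2
    rw [mk2_mul, pr_mk2_eq_one] at h1
    by_contra hne
    apply h2
    rw [pr_mk2_eq_one]
    obtain ⟨e1, e2, e3⟩ := h1
    refine ⟨?_, ?_, ?_⟩
    · have : b * (a + d) = 0 := by linear_combination e1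
      exact (mul_eq_zero.1 this).resolve_right hne
    · have : c * (a + d) = 0 := by linear_combination e2
      exact (mul_eq_zero.1 this).resolve_right hne
    · have : (a - d) * (a + d) = 0 := by linear_combination e3
      exact sub_eq_zero.1 ((mul_eq_zero.1 this).resolve_right hne)
  have hggg : g * g * g = mk2 _ _ _ _ (mk2_det_mul (mk2_det_mul h h) h) := by
    rw [hg, mk2_mul, mk2_mul]
  rw [hggg] at h6 h3'
  have ht := key _ h6 h3'
  have ht' : (a + d) * ((a + d) ^ 2 - 3) = 0 := by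
    linear_combination ht + 3 * (a + d) * h
  rcases mul_eq_zero.1 ht' with h0 | h0
  · apply h2'
    rw [hg, mk2_mul, pr_mk2_eq_one]
    refine ⟨?_, ?_, ?_⟩
    · linear_combination b * h0
    · linear_combination c * h0
    · linear_combination (a - d) * h0
  · exact h3 (a + d) (sub_eq_zero.1 h0)

/-- an element of order three inverted by an element -/
theorem exists_inverted {i : K} (hi : i * i = -1) :
    ∃ c g : PS K, orderOf c = 3 ∧ g * c * g⁻¹ = c⁻¹ := by
  set c : S2 K := mk2 0 (-1) 1 (-1) (by ring) with hc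
  set g : S2 K := mk2 i 0 i (-i) (by linear_combination -hi) with hg
  have hcc : c * c = mk2 (-1) 1 (-1) 0 (by ring) := by
    rw [hc, mk2_mul]
    refine mk2_congr _ _ ?_ ?_ ?_ ?_ <;> ring
  have hccc : c * c * c = 1 := by
    rw [hcc, hc, mk2_mul, one_eq_mk2]
    refine mk2_congr _ _ ?_ ?_ ?_ ?_ <;> ring
  have hgc : g * c = c * c * g := by
    rw [hcc, hg, hc, mk2_mul, mk2_mul]
    refine mk2_congr _ _ ?_ ?_ ?_ ?_ <;> ring
  refine ⟨pr K c, pr K g, ?_, ?_⟩
  · have : Fact (Nat.Prime 3) := ⟨Nat.prime_three⟩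
    refine orderOf_eq_prime ?_ ?_
    · rw [← map_pow, pow_succ, pow_succ, pow_one, hccc, map_one]
    · rw [hc, Ne, pr_mk2_eq_one]
      rintro ⟨h1, -⟩
      exact one_ne_zero (neg_eq_zero.1 h1)
  · rw [← map_inv, ← map_inv, ← map_mul, ← map_mul, hgc, mul_inv_cancel_right]
    congr 1
    exact eq_inv_of_mul_eq_one_left hccc

end

/-! ### A group of order `12` -/

section

variable {N : Type} [Group N]

/-- the stabiliser of a cyclic triple -/
def cycB (x : ZMod 3 → N) : Subgroup N where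
  carrier := {b | ∃ k : ZMod 3, ∀ i, b * x i * b⁻¹ = x (i + k)}
  one_mem' := ⟨0, fun i => by rw [one_mul, inv_one, mul_one, add_zero]⟩
  mul_mem' := by
    rintro a b ⟨k, hk⟩ ⟨k', hk'⟩
    refine ⟨k' + k, fun i => ?_⟩
    rw [← add_assoc, ← hk, ← hk']
    group
  inv_mem' := by
    rintro a ⟨k, hk⟩
    refine ⟨-k, fun i => ?_⟩
    have h1 := hk (i + -k)
    rw [neg_add_cancel_right] at h1
    rw [← h1]
    group

theorem mem_cycB {x : ZMod 3 → N} {b : N} :
    b ∈ cycB x ↔ ∃ k : ZMod 3, ∀ i, b * x i * b⁻¹ = x (i + k) := Iff.rfl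

/-- the shift -/
noncomputable def cycK {x : ZMod 3 → N} (b : cycB x) : ZMod 3 := (mem_cycB.1 b.2).choose

theorem cycK_spec {x : ZMod 3 → N} (b : cycB x) (i : ZMod 3) :
    (b : N) * x i * (b : N)⁻¹ = x (i + cycK b) := (mem_cycB.1 b.2).choose_spec i

theorem cycK_eq {x : ZMod 3 → N} (hx : Function.Injective x) (b : cycB x) {k : ZMod 3}
    (h : (b : N) * x 0 * (b : N)⁻¹ = x k) : cycK b = k := by
  have h1 := cycK_spec b 0
  rw [zero_add, h] at h1
  exact (hx h1).symm

/-- the shift as a homomorphism -/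
noncomputable def cycMu {x : ZMod 3 → N} (hx : Function.Injective x) :
    cycB x →* Multiplicative (ZMod 3) where
  toFun b := Multiplicative.ofAdd (cycK b)
  map_one' := by
    rw [cycK_eq hx 1 (k := 0) (by rw [Subgroup.coe_one, one_mul, inv_one, mul_one])]
    rfl
  map_mul' a b := by
    rw [cycK_eq hx (a * b) (k := cycK b + cycK a) (by
      have h1 := cycK_spec b 0
      have h2 := cycK_spec a (0 + cycK b)
      rw [← h1, zero_add] at h2
      rw [← h2, Subgroup.coe_mul]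
      group), add_comm]
    rfl

theorem exists_A4 {x0 x1 x2 w : N} (h0 : x0 * x0 = 1) (h1 : x1 * x1 = 1) (h2 : x2 * x2 = 1)
    (h01 : x0 * x1 = x2) (h10 : x1 * x0 = x2) (hx0 : x0 ≠ 1) (hx1 : x1 ≠ 1) (hx2 : x2 ≠ 1)
    (hw0 : w * x0 = x2 * w) (hw2 : w * x2 = x1 * w) (hw1 : w * x1 = x0 * w) :
    ∃ (B V : Subgroup N) (mu : B →* Multiplicative (ZMod 3)), Function.Surjective mu ∧
      Nat.card V = 4 ∧ ∀ v ∈ V, ∃ hv : v ∈ B, mu ⟨v, hv⟩ = 1 := by
  classical
  have h02 : x0 * x2 = x1 := by rw [← h01, ← mul_assoc, h0, one_mul]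
  have h20 : x2 * x0 = x1 := by rw [← h10, mul_assoc, h0, mul_one]
  have h12 : x1 * x2 = x0 := by rw [← h10, ← mul_assoc, h1, one_mul]
  have h21 : x2 * x1 = x0 := by rw [← h01, mul_assoc, h1, mul_one]
  have n01 : x0 ≠ x1 := fun h => hx2 (by rw [← h01, ← h, h0])
  have n02 : x0 ≠ x2 := fun h => hx1 (by rw [← h02, ← h, h0])
  have n12 : x1 ≠ x2 := fun h => hx0 (by rw [← h12, ← h, h1])
  set x : ZMod 3 → N := ![x0, x1, x2] with hx
  have e0 : x 0 = x0 := rfl
  have e1 : x 1 = x1 := rfl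
  have e2 : x 2 = x2 := rfl
  have hinj : Function.Injective x := by
    intro i j hij
    fin_cases i <;> fin_cases j <;>
      first
      | rfl
      | exact absurd hij n01
      | exact absurd hij n02
      | exact absurd hij n12
      | exact absurd hij n01.symm
      | exact absurd hij n02.symm
      | exact absurd hij n12.symm
  let V : Subgroup N :=
    { carrier := {v | v = 1 ∨ v = x0 ∨ v = x1 ∨ v = x2}
      one_mem' := Or.inl rfl
      mul_mem' := by
        rintro a b (rfl | rfl | rfl | rfl) (rfl | rfl | rfl | rfl) <;>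
          simp [h0, h1, h2, h01, h10, h02, h20, h12, h21]
      inv_mem' := by
        rintro a (rfl | rfl | rfl | rfl)
        · exact Or.inl inv_one
        · exact Or.inr (Or.inl (inv_eq_of_mul_eq_one_left h0))
        · exact Or.inr (Or.inr (Or.inl (inv_eq_of_mul_eq_one_left h1)))
        · exact Or.inr (Or.inr (Or.inr (inv_eq_of_mul_eq_one_left h2))) }
  have hV : ∀ v, v ∈ V ↔ v = 1 ∨ v = x0 ∨ v = x1 ∨ v = x2 := fun v => Iff.rfl
  have hcard : Nat.card V = 4 := by
    have h3 : (V : Set N) = {1, x0, x1, x2} := by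
      ext v
      exact hV v
    rw [← SetLike.coe_sort_coe, h3, Nat.card_coe_set_eq, Set.ncard_insert_of_notMem (by
      simp only [Set.mem_insert_iff, Set.mem_singleton_iff]
      push Not
      exact ⟨hx0.symm, hx1.symm, hx2.symm⟩), Set.ncard_insert_of_notMem (by
      simp only [Set.mem_insert_iff, Set.mem_singleton_iff]
      push Not
      exact ⟨n01, n02⟩), Set.ncard_pair n12]
  have hcomm : ∀ v ∈ V, ∀ i, v * x i * v⁻¹ = x (i + 0) := by
    intro v hv i
    rw [add_zero, mul_inv_eq_iff_eq_mul]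
    have hi : x i = x0 ∨ x i = x1 ∨ x i = x2 := by
      fin_cases i
      · exact Or.inl rfl
      · exact Or.inr (Or.inl rfl)
      · exact Or.inr (Or.inr rfl)
    rcases (hV v).1 hv with rfl | rfl | rfl | rfl
    · rw [one_mul, mul_one]
    · rcases hi with hi | hi | hi <;> rw [hi]
      · rw [h01, h10]
      · rw [h02, h20]
    · rcases hi with hi | hi | hi <;> rw [hi]
      · rw [h01, h10]
      · rw [h12, h21]
    · rcases hi with hi | hi | hi <;> rw [hi]
      · rw [h02, h20]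
      · rw [h12, h21]
  have hwB : ∀ i, w * x i * w⁻¹ = x (i + 2) := by
    intro i
    rw [mul_inv_eq_iff_eq_mul]
    fin_cases i
    · exact hw0
    · exact hw1
    · exact hw2
  refine ⟨cycB x, V, cycMu hinj, ?_, hcard, fun v hv => ⟨⟨0, hcomm v hv⟩, ?_⟩⟩
  · set W : cycB x := ⟨w, 2, hwB⟩ with hW
    have h3 : cycMu hinj W = Multiplicative.ofAdd 2 := by
      change Multiplicative.ofAdd (cycK W) = _
      rw [cycK_eq hinj W (k := 2) (by
        have := hwB 0
        rw [zero_add] at this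
        exact this)]
    have h4 : ∀ y : Multiplicative (ZMod 3), ∃ j : Fin 3, y = (Multiplicative.ofAdd 2) ^ (j : ℕ) := by
      decide
    intro y
    obtain ⟨j, hj⟩ := h4 y
    exact ⟨W ^ (j : ℕ), by rw [map_pow, h3, hj]⟩
  · change Multiplicative.ofAdd (cycK _) = _
    rw [cycK_eq hinj _ (k := 0) (by
      have := hcomm v hv 0
      rw [zero_add] at this
      exact this)]
    rfl

end

/-! ### The result -/

section

variable {K : Type} [Field K]

theorem exists_A4_PS {i : K} (hi : i * i = -1) (h2 : (2 : K) ≠ 0) :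
    ∃ (B V : Subgroup (PS K)) (mu : B →* Multiplicative (ZMod 3)), Function.Surjective mu ∧
      Nat.card V = 4 ∧ ∀ v ∈ V, ∃ hv : v ∈ B, mu ⟨v, hv⟩ = 1 := by
  have hi0 : i ≠ 0 := by
    rintro rfl
    rw [mul_zero] at hi
    exact one_ne_zero (neg_eq_zero.1 hi.symm)
  obtain ⟨h, hh⟩ : ∃ h : K, 2 * h = 1 := ⟨2⁻¹, mul_inv_cancel₀ h2⟩
  have hii : i ≠ -i := by
    intro h'
    have : 2 * i = 0 := by linear_combination h'
    exact hi0 ((mul_eq_zero.1 this).resolve_left h2)
  set I : S2 K := mk2 i 0 0 (-i) (by linear_combination -hi) with hI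
  set J : S2 K := mk2 0 1 (-1) 0 (by ring) with hJ
  set IJ : S2 K := mk2 0 i i 0 (by linear_combination -hi) with hIJ
  set w : S2 K := mk2 (h * (-1 + i)) (h * (1 + i)) (h * (-1 + i)) (h * (-1 - i)) (by
    linear_combination (-2 * h * h) * hi + (2 * h + 1) * hh) with hw
  have hneg : ∀ g : S2 K, ∀ {a b c d : K} (h : a * d - b * c = 1), g = mk2 a b c d h →
      b = 0 → c = 0 → a = d → pr K g = 1 := by
    intro g a b c d h hg h1 h2 h3
    rw [hg, pr_mk2_eq_one]
    exact ⟨h1, h2, h3⟩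
  refine exists_A4 (x0 := pr K I) (x1 := pr K J) (x2 := pr K IJ) (w := pr K w) ?_ ?_ ?_ ?_ ?_ ?_ ?_
    ?_ ?_ ?_ ?_
  · rw [← map_mul, hI, mk2_mul, pr_mk2_eq_one]
    refine ⟨?_, ?_, ?_⟩ <;> ring
  · rw [← map_mul, hJ, mk2_mul, pr_mk2_eq_one]
    refine ⟨?_, ?_, ?_⟩ <;> ring
  · rw [← map_mul, hIJ, mk2_mul, pr_mk2_eq_one]
    refine ⟨?_, ?_, ?_⟩ <;> ring
  · rw [← map_mul]
    congr 1
    rw [hI, hJ, hIJ, mk2_mul]
    refine mk2_congr _ _ ?_ ?_ ?_ ?_ <;> ring
  · rw [← map_mul]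
    have e : J * I = mk2 (-0) (-i) (-i) (-0) (by linear_combination -hi) := by
      rw [hI, hJ, mk2_mul]
      refine mk2_congr _ _ ?_ ?_ ?_ ?_ <;> ring
    rw [e, hIJ]
    exact pr_neg _ _
  · rw [hI, Ne, pr_mk2_eq_one]
    rintro ⟨-, -, h'⟩
    exact hii h'
  · rw [hJ, Ne, pr_mk2_eq_one]
    rintro ⟨h', -⟩
    exact one_ne_zero h'
  · rw [hIJ, Ne, pr_mk2_eq_one]
    rintro ⟨h', -⟩
    exact hi0 h'
  · rw [← map_mul, ← map_mul]
    congr 1
    rw [hI, hw, hIJ, mk2_mul, mk2_mul]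
    refine mk2_congr _ _ ?_ ?_ ?_ ?_ <;> ring
  · rw [← map_mul, ← map_mul]
    congr 1
    rw [hJ, hw, hIJ, mk2_mul, mk2_mul]
    refine mk2_congr _ _ ?_ ?_ ?_ ?_
    · linear_combination h * hi
    · linear_combination h * hi
    · linear_combination -h * hi
    · linear_combination h * hi
  · rw [← map_mul, ← map_mul]
    congr 1
    rw [hJ, hw, hI, mk2_mul, mk2_mul]
    refine mk2_congr _ _ ?_ ?_ ?_ ?_
    · linear_combination -h * hi
    · linear_combination -h * hi
    · linear_combination h * hi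
    · linear_combination -h * hi

theorem card_S2 [Finite K] : Nat.card (S2 K) * (Nat.card K - 1) =
    (Nat.card K ^ 2 - 1) * (Nat.card K ^ 2 - Nat.card K) := by
  classical
  have := Fintype.ofFinite K
  have h1 : Nat.card (S2 K) =
      Nat.card (MonoidHom.ker (Matrix.GeneralLinearGroup.det : GL (Fin 2) K →* Kˣ)) := by
    refine Nat.card_congr (Equiv.ofBijective (fun A : S2 K =>
      (⟨Matrix.SpecialLinearGroup.toGL A, ?_⟩ :
        MonoidHom.ker (Matrix.GeneralLinearGroup.det : GL (Fin 2) K →* Kˣ))) ⟨?_, ?_⟩)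
    · rw [MonoidHom.mem_ker]
      exact Units.ext A.2
    · intro A B h
      exact Matrix.SpecialLinearGroup.toGL_injective (congrArg Subtype.val h)
    · rintro ⟨g, hg⟩
      refine ⟨⟨(g : Matrix (Fin 2) (Fin 2) K), ?_⟩, Subtype.ext (Units.ext rfl)⟩
      exact congrArg Units.val (MonoidHom.mem_ker.1 hg)
  have h2 := Subgroup.card_eq_card_quotient_mul_card_subgroup
    (MonoidHom.ker (Matrix.GeneralLinearGroup.det : GL (Fin 2) K →* Kˣ))
  rw [Nat.card_congr (QuotientGroup.quotientKerEquivOfSurjective _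
    Matrix.GeneralLinearGroup.det_surjective).toEquiv, ← h1, Matrix.card_GL_field,
    Fin.prod_univ_two, Nat.card_units] at h2
  rw [mul_comm, ← h2]
  simp [Nat.card_eq_fintype_card]

end

theorem two_ne_sq : ∀ r : ZMod 3, (2 : ZMod 3) ≠ r * r := by decide

theorem psl_data {l : ℕ} (hl : l.Prime) (h8 : l % 8 = 5) (h9 : l % 9 = 2) :
    ∃ (N : Type) (_ : Group N) (_ : Finite N), Nat.card N * 2 = l * (l ^ 2 - 1) ∧
      (∀ g : N, orderOf g ≠ 6) ∧ (∃ c g : N, orderOf c = 3 ∧ g * c * g⁻¹ = c⁻¹) ∧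
      ∃ (B V : Subgroup N) (mu : B →* Multiplicative (ZMod 3)), Function.Surjective mu ∧
        Nat.card V = 4 ∧ ∀ v ∈ V, ∃ hv : v ∈ B, mu ⟨v, hv⟩ = 1 := by
  have : Fact l.Prime := ⟨hl⟩
  have : Fact (Nat.Prime 3) := ⟨Nat.prime_three⟩
  have h2 : (2 : ZMod l) ≠ 0 := by
    intro h
    have h1 : ((2 : ℕ) : ZMod l) = 0 := by exact_mod_cast h
    rw [ZMod.natCast_eq_zero_iff] at h1
    have := (Nat.prime_dvd_prime_iff_eq hl Nat.prime_two).1 h1
    omega
  obtain ⟨i, hi⟩ : IsSquare (-1 : ZMod l) := ZMod.exists_sq_eq_neg_one_iff.2 (by omega)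
  have h3 : ∀ t : ZMod l, t ^ 2 ≠ 3 := by
    intro t ht
    have h1 : IsSquare ((3 : ℕ) : ZMod l) := ⟨t, by rw [← pow_two, ht]; norm_cast⟩
    rw [ZMod.exists_sq_eq_prime_iff_of_mod_four_eq_one (by omega) (by decide)] at h1
    have h4 : (l : ZMod 3) = 2 := by
      have h5 : l % 3 = 2 := by omega
      have h6 : ((l % 3 : ℕ) : ZMod 3) = l := ZMod.natCast_mod l 3
      rw [← h6, h5]
      rfl
    rw [h4] at h1
    obtain ⟨r, hr⟩ := h1
    exact two_ne_sq r hr
  have hcc : Nat.card (Subgroup.center (S2 (ZMod l))) = 2 := by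
    rw [Nat.card_congr (Matrix.SpecialLinearGroup.center_equiv_rootsOfUnity' (0 : Fin 2)).toEquiv,
      Fintype.card_fin]
    exact (IsPrimitiveRoot.neg_one l (by omega)).card_rootsOfUnity
  refine ⟨PS (ZMod l), inferInstance, inferInstance, ?_, no_six h3, exists_inverted hi.symm,
    exists_A4_PS hi.symm h2⟩
  have h4 := Subgroup.card_eq_card_quotient_mul_card_subgroup (Subgroup.center (S2 (ZMod l)))
  rw [hcc] at h4
  rw [← h4]
  have h5 := card_S2 (K := ZMod l)
  rw [Nat.card_zmod] at h5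
  have hl1 := hl.one_lt
  have h6 : l ^ 2 - l = l * (l - 1) := by rw [Nat.mul_sub, mul_one, pow_two]
  rw [h6] at h5
  have h7 : Nat.card (S2 (ZMod l)) * (l - 1) = (l * (l ^ 2 - 1)) * (l - 1) := by
    rw [h5]
    ring
  exact Nat.eq_of_mul_eq_mul_right (by omega) h7

end Pool.Agent.CoveringSubgroups.H6
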