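import Pool.Agent.Lib.MP_7252b7_al_h9.KK
import Pool.Agent.Lib.MP_7252b7_al_h9.Final

/-!
# Covering subgroups of wreath products: auxiliary results

* `CF_hom`: a group with a homomorphism to a group of `F(p)`, the kernel a `p`-group, is in `F(p)`;
* `exists_rad`: the normal subgroup `R` attached to an abelian quotient of the components;
* `delta_lemma`: the centralizer of a normal `s`-subgroup of the covering subgroup.
-/

set_option autoImplicit false
set_option linter.unusedSectionVars false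

namespace Pool.Agent.CoveringSubgroups.H6

open Pool.Agent.CoveringSubgroups Pool.Agent.CoveringSubgroups.H9

section embed

variable {E Y : Type} [Group E] [Group Y]

/-- The embedding of an extension into a wreath product. -/
noncomputable def emb (φ : E →* Y) (s : Y → E) (hs : ∀ e x, φ (s x)⁻¹ * φ e * φ (s (φ e⁻¹ * x)) = 1) :
    E →* φ.ker ≀ᵣ Y where
  toFun e := ⟨fun x => ⟨(s x)⁻¹ * e * s (φ e⁻¹ * x), by
    rw [MonoidHom.mem_ker, map_mul, map_mul]
    exact hs e x⟩, φ e⟩
  map_one' := by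
    refine RegularWreathProduct.ext (funext fun x => Subtype.ext ?_) (map_one φ)
    show (s x)⁻¹ * 1 * s (φ 1⁻¹ * x) = 1
    rw [inv_one, map_one, one_mul, mul_one, inv_mul_cancel]
  map_mul' := by
    intro a b
    refine RegularWreathProduct.ext (funext fun x => Subtype.ext ?_) (map_mul φ a b)
    show (s x)⁻¹ * (a * b) * s (φ (a * b)⁻¹ * x) =
      ((s x)⁻¹ * a * s (φ a⁻¹ * x)) * ((s ((φ a)⁻¹ * x))⁻¹ * b * s (φ b⁻¹ * ((φ a)⁻¹ * x)))
    have e1 : φ (a * b)⁻¹ * x = φ b⁻¹ * ((φ a)⁻¹ * x) := by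
      rw [mul_inv_rev, map_mul, map_inv, map_inv, mul_assoc]
    rw [e1, map_inv φ a]
    group

lemma exists_section (φ : E →* Y) :
    ∃ s : Y → E, ∀ e x, φ (s x)⁻¹ * φ e * φ (s (φ e⁻¹ * x)) = 1 := by
  classical
  -- representatives of the cosets of the range
  let R := φ.range
  let rel : Setoid Y := QuotientGroup.rightRel R
  have hrel : ∀ x y : Y, rel x y ↔ y * x⁻¹ ∈ R := fun x y => QuotientGroup.rightRel_apply
  have hex : ∀ x : Y, ∃ e : E, φ e = x * (Quotient.out (Quotient.mk rel x))⁻¹ := by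
    intro x
    have h1 : rel (Quotient.out (Quotient.mk rel x)) x := Quotient.exact (Quotient.out_eq _)
    exact (hrel _ _).1 h1
  choose s hs using hex
  refine ⟨s, fun e x => ?_⟩
  have h2 : Quotient.mk rel (φ e⁻¹ * x) = Quotient.mk rel x := by
    refine Quotient.sound ((hrel _ _).2 ?_)
    exact ⟨e, by rw [mul_inv_rev, map_inv, inv_inv]; group⟩
  rw [map_inv, hs, hs, h2, map_inv]
  group

lemma emb_injective (φ : E →* Y) (s : Y → E)
    (hs : ∀ e x, φ (s x)⁻¹ * φ e * φ (s (φ e⁻¹ * x)) = 1) : Function.Injective (emb φ s hs) := by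
  rw [injective_iff_map_eq_one]
  intro e he
  have h1 : φ e = 1 := congrArg (fun a => RegularWreathProduct.right a) he
  have h2 := congrFun (congrArg (fun a => RegularWreathProduct.left a) he) 1
  have h3 : (s 1)⁻¹ * e * s (φ e⁻¹ * 1) = 1 := congrArg Subtype.val h2
  rw [map_inv, h1, inv_one, one_mul, mul_assoc, inv_mul_eq_one] at h3
  have h4 : s 1 * 1 = e * s 1 := by rw [mul_one]; exact h3
  exact (mul_eq_right.1 h3.symm)

end embed

variable {F : GroupClass} {f : ℕ → GroupClass}

section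

variable (hF : IsFormation F) (hf : IsLocallyDefinedBy F f)

include hF hf

theorem F_hom (hher : ∀ (G : Type) [Group G] (H : Subgroup G), F G → F H)
    {p : ℕ} (hp : p.Prime) {E Y : Type} [Group E] [Finite E] [Group Y] (φ : E →* Y)
    (hk : IsPGroup p φ.ker) (hY : CF F f p Y) : F E := by
  have : Fact p.Prime := ⟨hp⟩
  have hYf : Finite Y := hF.finite Y hY.1
  obtain ⟨s, hs⟩ := exists_section φ
  have h1 : CF F f p (φ.ker ≀ᵣ Y) := by
    refine CF_ext hf hF hp (RegularWreathProduct.rightHom : φ.ker ≀ᵣ Y →* Y) ?_ ?_ hY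
    · intro q
      exact ⟨RegularWreathProduct.inl q, RegularWreathProduct.fun_id q⟩
    · obtain ⟨n, hn⟩ := IsPGroup.iff_card.1 hk
      rintro ⟨a, ha⟩
      have ha' : a.right = 1 := ha
      refine ⟨n, Subtype.ext ?_⟩
      show a ^ p ^ n = 1
      have h2 := pow_base a ha' (p ^ n)
      refine RegularWreathProduct.ext ?_ h2.1
      rw [h2.2]
      funext x
      rw [Pi.pow_apply, ← hn]
      exact pow_card_eq_one'
  have h2 : F (emb φ s hs).range := hher _ _ h1.1
  exact hF.iso _ _ (MonoidHom.ofInjective (emb_injective φ s hs)).symm h2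

/-- a group with a homomorphism to a group of `F(p)`, the kernel a `p`-group -/
theorem CF_hom (hher : ∀ (G : Type) [Group G] (H : Subgroup G), F G → F H)
    {p : ℕ} (hp : p.Prime) {E Y : Type} [Group E] [Finite E] [Group Y] (φ : E →* Y)
    (hk : IsPGroup p φ.ker) (hY : CF F f p Y) : CF F f p E := by
  have hfp : IsFormation (f p) := by
    obtain ⟨h1, P, hP, h2, h3⟩ := hY
    exact form_of_mem hf hp h3
  rw [← canon_iff hF hf hp hfp]
  refine ⟨inferInstance, ?_⟩
  intro E' _ _ ψ hψ hψk
  refine F_hom hF hf hher hp (φ.comp ψ) ?_ hY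
  have e : (φ.comp ψ).ker = φ.ker.comap ψ := by
    ext x
    rfl
  rw [e]
  exact hk.comap_of_ker_isPGroup ψ hψk

/-- the covering subgroup maps onto `X` -/
theorem right_surj {N X : Type} [Group N] [Group X] (hX : F X) {H : Subgroup (N ≀ᵣ X)}
    (hH : Cov F H) (x : X) : ∃ h ∈ H, h.right = x := by
  obtain ⟨h, h1, h2⟩ := hH.top (RegularWreathProduct.rightHom : N ≀ᵣ X →* X)
    (fun x => ⟨RegularWreathProduct.inl x, RegularWreathProduct.fun_id x⟩) hX
    (RegularWreathProduct.inl x)
  exact ⟨h, h1, h2⟩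

end

end Pool.Agent.CoveringSubgroups.H6
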