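import Pool.Agent.Lib.MP_7252b7_al_h6.SSS
import Pool.Agent.Lib.MP_7252b7_al_h61.Frattini

/-!
# Covering subgroups for the classes of `p`-groups by groups of a class of `p'`-groups
-/

set_option autoImplicit false

namespace Pool.Agent.CoveringSubgroups.H6

open Pool.Agent.CoveringSubgroups

/-- extensions of `p`-groups by groups of the class `C` -/
def Tow (p : ℕ) (C : GroupClass) (G : Type) [Group G] : Prop :=
  Finite G ∧ ∃ (N : Subgroup G) (_ : N.Normal), IsPGroup p N ∧ C (G ⧸ N)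

/-- finite `t`-groups -/
def Tg (t : ℕ) (G : Type) [Group G] : Prop := Finite G ∧ IsPGroup t G

section

variable {p : ℕ} {C : GroupClass}

theorem Tow.iso (hiso : ∀ (G H : Type) [Group G] [Group H], (G ≃* H) → C G → C H)
    (G H : Type) [Group G] [Group H] (e : G ≃* H) (h : Tow p C G) : Tow p C H := by
  obtain ⟨hfin, N, hN, hp, hC⟩ := h
  have hsur : Function.Surjective e.toMonoidHom := e.surjective
  have hN' : (N.map e.toMonoidHom).Normal := hN.map _ hsur
  refine ⟨Finite.of_equiv G e.toEquiv, N.map e.toMonoidHom, hN', hp.map _, ?_⟩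
  exact hiso _ _ (QuotientGroup.congr N _ e rfl) hC

theorem Tow.quotient (hiso : ∀ (G H : Type) [Group G] [Group H], (G ≃* H) → C G → C H)
    (hquot : ∀ (G : Type) [Group G] (N : Subgroup G) [N.Normal], C G → C (G ⧸ N))
    (G : Type) [Group G] (K : Subgroup G) [K.Normal] (h : Tow p C G) : Tow p C (G ⧸ K) := by
  obtain ⟨hfin, N, hN, hp, hC⟩ := h
  have hs1 : Function.Surjective (QuotientGroup.mk' K) := QuotientGroup.mk'_surjective K
  have hN' : (N.map (QuotientGroup.mk' K)).Normal := hN.map _ hs1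
  refine ⟨inferInstance, N.map (QuotientGroup.mk' K), hN', hp.map _, ?_⟩
  have hs2 : Function.Surjective (QuotientGroup.mk' (N.map (QuotientGroup.mk' K))) :=
    QuotientGroup.mk'_surjective _
  let ψ : G →* (G ⧸ K) ⧸ (N.map (QuotientGroup.mk' K)) :=
    (QuotientGroup.mk' (N.map (QuotientGroup.mk' K))).comp (QuotientGroup.mk' K)
  have hψ : Function.Surjective ψ := hs2.comp hs1
  have hNψ : N ≤ ψ.ker := by
    intro x hx
    rw [MonoidHom.mem_ker]
    exact (QuotientGroup.eq_one_iff _).2 ⟨x, hx, rfl⟩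
  let χ : G ⧸ N →* (G ⧸ K) ⧸ (N.map (QuotientGroup.mk' K)) := QuotientGroup.lift N ψ hNψ
  have hχ : Function.Surjective χ := by
    intro y
    obtain ⟨x, rfl⟩ := hψ y
    exact ⟨(x : G ⧸ N), rfl⟩
  exact hiso _ _ (QuotientGroup.quotientKerEquivOfSurjective χ hχ) (hquot _ χ.ker hC)

theorem Tow.ext (hiso : ∀ (G H : Type) [Group G] [Group H], (G ≃* H) → C G → C H)
    (G : Type) [Group G] [Finite G] (N : Subgroup G) [N.Normal] (hN : IsPGroup p N)
    (h : Tow p C (G ⧸ N)) : Tow p C G := by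
  obtain ⟨-, M, hM, hp, hC⟩ := h
  have hs1 : Function.Surjective (QuotientGroup.mk' N) := QuotientGroup.mk'_surjective N
  have hM' : (M.comap (QuotientGroup.mk' N)).Normal := hM.comap _
  refine ⟨inferInstance, M.comap (QuotientGroup.mk' N), hM', ?_, ?_⟩
  · refine IsPGroup.comap_of_ker_isPGroup hp _ ?_
    rw [QuotientGroup.ker_mk']
    exact hN
  · let ψ : G →* (G ⧸ N) ⧸ M := (QuotientGroup.mk' M).comp (QuotientGroup.mk' N)
    have hψ : Function.Surjective ψ := (QuotientGroup.mk'_surjective M).comp hs1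
    have hk : ψ.ker = M.comap (QuotientGroup.mk' N) := by
      ext x
      rw [MonoidHom.mem_ker, Subgroup.mem_comap]
      exact QuotientGroup.eq_one_iff _
    have e : G ⧸ ψ.ker ≃* (G ⧸ N) ⧸ M := QuotientGroup.quotientKerEquivOfSurjective ψ hψ
    exact hiso _ _ ((QuotientGroup.quotientMulEquivOfEq hk).symm.trans e).symm hC

theorem Tow.closed [Fact p.Prime] (hcop : ∀ (G : Type) [Group G], C G → ¬ p ∣ Nat.card G)
    (G : Type) [Group G] (h : Tow p C G) (P : Sylow p G) : (P : Subgroup G).Normal := by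
  obtain ⟨hfin, N, hN, hp, hC⟩ := h
  have hidx : ¬ p ∣ N.index := by
    rw [Subgroup.index_eq_card]
    exact hcop _ hC
  let Q : Sylow p G := hp.toSylow hidx
  have hQ : (Q : Subgroup G) = N := rfl
  have hQn : (Q : Subgroup G).Normal := hN
  have := Q.unique_of_normal hQn
  have hPQ : P = Q := Subsingleton.elim _ _
  rw [hPQ]
  exact hQn

/-- covering subgroups of `p'`-groups -/
theorem hasCovering_tow_of_coprime [Fact p.Prime]
    (hiso : ∀ (G H : Type) [Group G] [Group H], (G ≃* H) → C G → C H)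
    (L : Type) [Group L] [Finite L] (hL : ¬ p ∣ Nat.card L) (h : HasCovering C L) :
    HasCovering (Tow p C) L := by
  obtain ⟨H, hH⟩ := h
  refine ⟨H, ⟨inferInstance, ⊥, inferInstance, IsPGroup.of_bot,
    hiso _ _ (QuotientGroup.quotientBot (G := H)).symm hH.1⟩, ?_⟩
  intro U hU N _ hUN u
  refine hH.2 U hU N ?_ u
  obtain ⟨hfin, M, hM, hMp, hC⟩ := hUN
  obtain ⟨n, hn⟩ := IsPGroup.iff_card.1 hMp
  have h1 : Nat.card M ∣ Nat.card L :=
    (M.card_subgroup_dvd_card.trans (Subgroup.card_quotient_dvd_card N)).trans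
      U.card_subgroup_dvd_card
  have hn0 : n = 0 := by
    by_contra h0
    exact hL (((dvd_pow_self p h0).trans (dvd_of_eq hn.symm)).trans h1)
  have hM1 : M = ⊥ := by
    rw [hn0, pow_zero] at hn
    exact Subgroup.card_eq_one.1 hn
  subst hM1
  exact hiso _ _ (QuotientGroup.quotientBot (G := U ⧸ N)) hC

/-- **Frattini step** -/
theorem hasCovering_tow (hp : p.Prime)
    (hiso : ∀ (G H : Type) [Group G] [Group H], (G ≃* H) → C G → C H)
    (hquot : ∀ (G : Type) [Group G] (N : Subgroup G) [N.Normal], C G → C (G ⧸ N))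
    (hcop : ∀ (G : Type) [Group G], C G → ¬ p ∣ Nat.card G)
    (h : ∀ (G : Type) [Group G] [Finite G], HasCovering C G)
    (G : Type) [Group G] [Finite G] : HasCovering (Tow p C) G := by
  have : Fact p.Prime := ⟨hp⟩
  obtain ⟨P⟩ : Nonempty (Sylow p G) := inferInstance
  refine hasCovering_of_normalizer (Tow.iso hiso) (Tow.quotient hiso hquot) (Tow.closed hcop)
    (Tow.ext hiso) P (hasCovering_tow_of_coprime hiso _ ?_ (h _))
  set N := Subgroup.normalizer ((P : Subgroup G) : Set G) with hN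
  intro hd
  have hle : (P : Subgroup G) ≤ N := Subgroup.le_normalizer
  have h1 : Nat.card (N ⧸ (P : Subgroup G).subgroupOf N) = (P : Subgroup G).relIndex N := by
    rw [Subgroup.relIndex, Subgroup.index_eq_card]
  rw [h1] at hd
  have h2 : (P : Subgroup G).relIndex N ∣ (P : Subgroup G).index :=
    Subgroup.relIndex_dvd_index_of_le hle
  exact P.not_dvd_index (hd.trans h2)

end

/-- Sylow subgroups are covering subgroups for the class of `t`-groups -/
theorem hasCovering_tg {t : ℕ} (ht : t.Prime) (G : Type) [Group G] [Finite G] :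
    HasCovering (Tg t) G := by
  have : Fact t.Prime := ⟨ht⟩
  obtain ⟨Q⟩ : Nonempty (Sylow t G) := inferInstance
  refine ⟨Q, ⟨inferInstance, Q.isPGroup'⟩, ?_⟩
  intro U hU N _ hUN u
  let QU : Subgroup U := (Q : Subgroup G).subgroupOf U
  have hidx : ¬ t ∣ QU.index := by
    have h2 : QU.index ∣ (Q : Subgroup G).index := Subgroup.relIndex_dvd_index_of_le hU
    exact fun h => Q.not_dvd_index (h.trans h2)
  have htop : QU ⊔ N = ⊤ := by
    have h1 : (QU ⊔ N).index ∣ QU.index := Subgroup.index_dvd_of_le le_sup_left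
    have h2 : (QU ⊔ N).index ∣ N.index := Subgroup.index_dvd_of_le le_sup_right
    obtain ⟨hf, hT⟩ := hUN
    obtain ⟨n, hn⟩ := IsPGroup.iff_card.1 hT
    have h3 : N.index = t ^ n := by rw [Subgroup.index_eq_card, hn]
    rw [h3] at h2
    obtain ⟨k, -, hk⟩ := (Nat.dvd_prime_pow ht).1 h2
    rw [← Subgroup.index_eq_one, hk]
    rcases Nat.eq_zero_or_pos k with h4 | h4
    · rw [h4, pow_zero]
    · exfalso
      apply hidx
      refine dvd_trans ?_ h1
      rw [hk]
      exact dvd_pow_self t h4.ne'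
  have hu : u ∈ QU ⊔ N := by rw [htop]; trivial
  obtain ⟨a, ha, n, hn, rfl⟩ := Subgroup.mem_sup_of_normal_right.1 hu
  exact ⟨a, n, ha, hn, rfl⟩

/-- `SSS r s t` in steps -/
theorem sss_iff {r s t : ℕ} (hr : r.Prime) (hs : s.Prime) (ht : t.Prime) (G : Type) [Group G] :
    SSS r s t G ↔ Tow r (Tow s (Tg t)) G := by
  have : Fact r.Prime := ⟨hr⟩
  have : Fact s.Prime := ⟨hs⟩
  have : Fact t.Prime := ⟨ht⟩
  constructor
  · rintro ⟨hfin, R, S, hR, hS, hRS, ⟨a, ha⟩, ⟨b, hb⟩, c, hc⟩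
    refine ⟨hfin, R, hR, IsPGroup.iff_card.2 ⟨a, ha⟩, inferInstance, S.map (QuotientGroup.mk' R),
      hS.map _ (QuotientGroup.mk'_surjective R), ?_, inferInstance, ?_⟩
    · refine IsPGroup.iff_card.2 ⟨b, ?_⟩
      rw [← hb, ← Subgroup.relIndex_bot_left]
      have h1 : (⊥ : Subgroup (G ⧸ R)) = R.map (QuotientGroup.mk' R) := by
        rw [QuotientGroup.map_mk'_self]
      rw [h1, Subgroup.relIndex_map_map]
      rw [QuotientGroup.ker_mk', sup_idem, sup_of_le_left hRS]
    · refine IsPGroup.iff_card.2 ⟨c, ?_⟩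
      rw [← hc, ← Subgroup.index_eq_card, Subgroup.index_map, QuotientGroup.ker_mk',
        sup_of_le_left hRS, MonoidHom.range_eq_top.2 (QuotientGroup.mk'_surjective R),
        Subgroup.index_top, mul_one]
  · rintro ⟨hfin, R, hR, hRp, -, M, hM, hMp, -, hT⟩
    obtain ⟨a, ha⟩ := IsPGroup.iff_card.1 hRp
    obtain ⟨b, hb⟩ := IsPGroup.iff_card.1 hMp
    obtain ⟨c, hc⟩ := IsPGroup.iff_card.1 hT
    refine ⟨hfin, R, M.comap (QuotientGroup.mk' R), hR, hM.comap _, ?_, ⟨a, ha⟩, ⟨b, ?_⟩, c, ?_⟩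
    · intro x hx
      rw [Subgroup.mem_comap]
      have : (QuotientGroup.mk' R) x = 1 := (QuotientGroup.eq_one_iff x).2 hx
      rw [this]
      exact M.one_mem
    · have h1 : R = (⊥ : Subgroup (G ⧸ R)).comap (QuotientGroup.mk' R) := by
        rw [MonoidHom.comap_bot, QuotientGroup.ker_mk']
      have h2 := congrArg
        (fun X : Subgroup G => X.relIndex (M.comap (QuotientGroup.mk' R))) h1
      refine h2.trans ?_
      rw [Subgroup.relIndex_comap, Subgroup.map_comap_eq_self_of_surjective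
        (QuotientGroup.mk'_surjective R), Subgroup.relIndex_bot_left, hb]
    · rw [Subgroup.index_comap_of_surjective _ (QuotientGroup.mk'_surjective R),
        Subgroup.index_eq_card, hc]

theorem Tg.iso {t : ℕ} (G H : Type) [Group G] [Group H] (e : G ≃* H) (h : Tg t G) : Tg t H :=
  ⟨@Finite.of_equiv _ _ h.1 e.toEquiv, h.2.of_equiv e⟩

theorem Tg.quotient {t : ℕ} (G : Type) [Group G] (N : Subgroup G) [N.Normal] (h : Tg t G) :
    Tg t (G ⧸ N) := by
  have := h.1
  exact ⟨inferInstance, h.2.to_quotient N⟩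

theorem Tg.coprime {p t : ℕ} (hp : p.Prime) (ht : t.Prime) (hpt : p ≠ t) (G : Type) [Group G]
    (h : Tg t G) : ¬ p ∣ Nat.card G := by
  have : Fact t.Prime := ⟨ht⟩
  have := h.1
  obtain ⟨n, hn⟩ := IsPGroup.iff_card.1 h.2
  rw [hn]
  intro h1
  exact hpt ((Nat.prime_dvd_prime_iff_eq hp ht).1 (hp.dvd_of_dvd_pow h1))

theorem Tow.coprime {p s : ℕ} {C : GroupClass} (hp : p.Prime) (hs : s.Prime) (hps : p ≠ s)
    (hcop : ∀ (G : Type) [Group G], C G → ¬ p ∣ Nat.card G) (G : Type) [Group G]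
    (h : Tow s C G) : ¬ p ∣ Nat.card G := by
  have : Fact s.Prime := ⟨hs⟩
  obtain ⟨hfin, N, hN, hNp, hC⟩ := h
  obtain ⟨n, hn⟩ := IsPGroup.iff_card.1 hNp
  rw [← N.card_mul_index, Subgroup.index_eq_card, hn]
  intro h1
  rcases hp.dvd_mul.1 h1 with h2 | h2
  · exact hps ((Nat.prime_dvd_prime_iff_eq hp hs).1 (hp.dvd_of_dvd_pow h2))
  · exact hcop _ hC h2

/-- **All finite groups have covering subgroups for the class `SSS r s t`.** -/
theorem sss_covering {F : GroupClass} {r s t : ℕ} (hr : r.Prime) (hs : s.Prime) (ht : t.Prime)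
    (hrs : r ≠ s) (hrt : r ≠ t) (hst : s ≠ t)
    (hFG : ∀ (G : Type) [Group G], F G ↔ SSS r s t G) (G : Type) [Group G] [Finite G] :
    HasCovering F G := by
  have h1 : ∀ (G : Type) [Group G] [Finite G], HasCovering (Tow s (Tg t)) G := fun G _ _ =>
    hasCovering_tow hs Tg.iso Tg.quotient (Tg.coprime hs ht hst) (hasCovering_tg ht) G
  obtain ⟨H, hH1, hH2⟩ := hasCovering_tow (C := Tow s (Tg t)) hr (Tow.iso Tg.iso)
    (Tow.quotient Tg.iso Tg.quotient)
    (Tow.coprime hr hs hrs (Tg.coprime hr ht hrt)) h1 G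
  refine ⟨H, (hFG _).2 ((sss_iff hr hs ht _).2 hH1), fun U hU N _ hUN u => ?_⟩
  exact hH2 U hU N ((sss_iff hr hs ht _).1 ((hFG _).1 hUN)) u

end Pool.Agent.CoveringSubgroups.H6
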