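import Pool.Agent.Lib.MP_7252b7_al_h6.TT
import Pool.Agent.Lib.MP_7252b7_al_h6.EqSSS
import Pool.Agent.Lib.MP_7252b7_al_h6.SssCov

/-!
# Sylow tower formations on the primes 2, 3, r
-/

set_option autoImplicit false
set_option linter.unusedSectionVars false

namespace Pool.Agent.CoveringSubgroups.H6

open Pool.Agent.CoveringSubgroups Pool.Agent.CoveringSubgroups.H9

/-- the Sylow `p`-subgroups of `C_s ≀ C_p` are not normal -/
theorem not_normal_wr {p s : ℕ} (hp : p.Prime) (hs : s.Prime) (hsp : s ≠ p)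
    (hcl : ∀ P : Sylow p (Multiplicative (ZMod s) ≀ᵣ Multiplicative (ZMod p)),
      P.toSubgroup.Normal) : False := by
  have : Fact p.Prime := ⟨hp⟩
  have : Fact s.Prime := ⟨hs⟩
  let C := Multiplicative (ZMod p)
  let S := Multiplicative (ZMod s)
  have hC : IsPGroup p C := by
    refine IsPGroup.of_card (n := 1) ?_
    rw [pow_one]
    exact Nat.card_zmod p
  have hS : ∀ x : S, x ^ s = 1 := by
    intro x
    have := pow_card_eq_one' (x := x)
    have hc : Nat.card S = s := Nat.card_zmod s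
    rwa [hc] at this
  obtain ⟨c, hc⟩ := exists_ne (1 : C)
  obtain ⟨t, ht⟩ := exists_ne (1 : S)
  let g : S ≀ᵣ C := RegularWreathProduct.inl c
  have hg1 : g.right = c := rfl
  have hg2 : g.left = 1 := rfl
  have hgp : IsPGroup p (Subgroup.zpowers g) := by
    let ι : C →* S ≀ᵣ C := RegularWreathProduct.inl
    have h3 : IsPGroup p ι.range := hC.of_surjective ι.rangeRestrict ι.rangeRestrict_surjective
    refine h3.to_le ?_
    rw [Subgroup.zpowers_le]
    exact ⟨c, rfl⟩
  obtain ⟨P, hP⟩ := hgp.exists_le_sylow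
  have hPn := hcl P
  have hgP : g ∈ P.toSubgroup := hP (Subgroup.mem_zpowers g)
  classical
  let b : S ≀ᵣ C := ⟨fun y => if y = 1 then t else 1, 1⟩
  have hb : b⁻¹ * g * b * g⁻¹ ∈ P.toSubgroup := by
    refine P.toSubgroup.mul_mem ?_ (P.toSubgroup.inv_mem hgP)
    have := hPn.conj_mem g hgP b⁻¹
    rwa [inv_inv] at this
  have hbr : (b⁻¹ * g * b * g⁻¹).right = 1 := by
    simp [b]
  have hbs : (b⁻¹ * g * b * g⁻¹) ^ s = 1 := by
    have h2 := pow_base _ hbr s
    refine RegularWreathProduct.ext ?_ h2.1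
    rw [h2.2]
    funext z
    rw [Pi.pow_apply, hS]; rfl
  obtain ⟨j, hj⟩ := P.isPGroup' ⟨_, hb⟩
  have hj' : (b⁻¹ * g * b * g⁻¹) ^ p ^ j = 1 := congrArg Subtype.val hj
  have h8 : orderOf (b⁻¹ * g * b * g⁻¹) ∣ Nat.gcd s (p ^ j) :=
    Nat.dvd_gcd (orderOf_dvd_of_pow_eq_one hbs) (orderOf_dvd_of_pow_eq_one hj')
  have h9 : Nat.gcd s (p ^ j) = 1 :=
    Nat.Coprime.pow_right _ ((Nat.coprime_primes hs hp).2 hsp)
  rw [h9, Nat.dvd_one, orderOf_eq_one_iff, mul_inv_eq_one, mul_assoc, inv_mul_eq_iff_eq_mul] at h8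
  have h2 := congrArg (fun a : S ≀ᵣ C => a.left 1) h8
  simp only [RegularWreathProduct.mul_left, Pi.mul_apply, hg1, hg2, Pi.one_apply, one_mul, b,
    mul_one, inv_one, if_true] at h2
  have h3 : ¬ (c⁻¹ = 1) := by rwa [inv_eq_one]
  rw [if_neg h3] at h2
  exact ht h2.symm

/-- the kernel of `C_s ≀ X → X` is an `s`-group -/
lemma wr_ker {s : ℕ} (hs : s.Prime) (X : Type) [Group X] [Finite X] :
    IsPGroup s (RegularWreathProduct.rightHom : Multiplicative (ZMod s) ≀ᵣ X →* X).ker := by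
  have : Fact s.Prime := ⟨hs⟩
  let S := Multiplicative (ZMod s)
  have hS : ∀ x : S, x ^ s = 1 := by
    intro x
    have := pow_card_eq_one' (x := x)
    have hc : Nat.card S = s := Nat.card_zmod s
    rwa [hc] at this
  rintro ⟨a, ha⟩
  refine ⟨1, Subtype.ext ?_⟩
  show a ^ s ^ 1 = 1
  rw [pow_one]
  have h1 := pow_base a ha s
  refine RegularWreathProduct.ext ?_ h1.1
  rw [h1.2]
  funext z
  rw [Pi.pow_apply, hS]; rfl

variable {F : GroupClass} {f : ℕ → GroupClass}

section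

variable (hF : IsFormation F) (hf : IsLocallyDefinedBy F f)

include hF hf

/-- if `F(p) = F(s)`, then some nontrivial group of `F` has no nontrivial normal Sylow subgroup -/
theorem not_both (hher : ∀ (G : Type) [Group G] (H : Subgroup G), F G → F H)
    (hsyl : ∀ (G : Type) [Group G], F G → Nontrivial G →
      ∃ q : ℕ, q.Prime ∧ ∃ P : Sylow q G, P.toSubgroup.Normal ∧ P.toSubgroup ≠ ⊥)
    {p s : ℕ} (hp : InPi F p) (hs : InPi F s) (hsp : s ≠ p) (hle : CanonLE F p s)
    (hle' : CanonLE F s p) : False := by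
  have : Fact p.Prime := ⟨hp.1⟩
  have : Fact s.Prime := ⟨hs.1⟩
  have hfp := form_of_inPi hf hF hher hp
  have hfs := form_of_inPi hf hF hher hs
  let C := Multiplicative (ZMod p)
  let S := Multiplicative (ZMod s)
  have hC : IsPGroup p C := by
    refine IsPGroup.of_card (n := 1) ?_
    rw [pow_one]
    exact Nat.card_zmod p
  have hsur : ∀ (S X : Type) [Group S] [Group X],
      Function.Surjective (RegularWreathProduct.rightHom : S ≀ᵣ X →* X) := fun S X _ _ x =>
    ⟨RegularWreathProduct.inl x, RegularWreathProduct.fun_id x⟩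
  have h1 : Canon F s C := hle C ((canon_iff hF hf hp.1 hfp).2 (CF_of_pGroup hF hf hher hp C hC))
  have h2 : CF F f s (S ≀ᵣ C) :=
    CF_ext hf hF hs.1 (RegularWreathProduct.rightHom : S ≀ᵣ C →* C) (hsur S C) (wr_ker hs.1 C)
      ((canon_iff hF hf hs.1 hfs).1 h1)
  have h3 : Canon F p (S ≀ᵣ C) := hle' _ ((canon_iff hF hf hs.1 hfs).2 h2)
  have h4 : F (C ≀ᵣ (S ≀ᵣ C)) :=
    h3.2 _ (RegularWreathProduct.rightHom : C ≀ᵣ (S ≀ᵣ C) →* S ≀ᵣ C) (hsur C (S ≀ᵣ C))
      (wr_ker hp.1 (S ≀ᵣ C))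
  exact not_normal_wr hp.1 hs.1 hsp (wr_syl hF hsyl hp.1 h4)

/-- **Sylow tower formations on the primes 2, 3, r.** -/
theorem sylow_three (hher : ∀ (G : Type) [Group G] (H : Subgroup G), F G → F H)
    (hsol : ∀ (G : Type) [Group G], F G → Group.IsSolvable G)
    (hsyl : ∀ (G : Type) [Group G], F G → Nontrivial G →
      ∃ q : ℕ, q.Prime ∧ ∃ P : Sylow q G, P.toSubgroup.Normal ∧ P.toSubgroup ≠ ⊥)
    {r : ℕ} (hr : r.Prime) (h5 : 5 ≤ r) (h2 : InPi F 2) (h3 : InPi F 3)
    (hπ : ∀ q, InPi F q → q = 2 ∨ q = 3 ∨ q = r) :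
    (∀ (G : Type) [Group G] [Finite G], HasCovering F G) ↔
      (ClosedUnder F 2 ∧ ∀ (G : Type) [Group G] [Finite G], ¬ 2 ∣ Nat.card G → HasCovering F G) ∨
      (ClosedUnder F 3 ∧ ∀ (G : Type) [Group G] [Finite G], ¬ 3 ∣ Nat.card G → HasCovering F G) ∨
      (∀ (G : Type) [Group G], F G ↔ SSS r 2 3 G) ∨ ∀ (G : Type) [Group G], F G ↔ SSS r 3 2 G := by
  have hr2 : r ≠ 2 := by omega
  have hr3 : r ≠ 3 := by omega
  constructor
  · intro hcov
    rcases three_primes hF hf hher hsol hcov h2 h3 hπ with h | h | ⟨hrπ, h⟩ | ⟨h, h'⟩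
    · exact Or.inl ⟨h, fun G _ _ _ => hcov G⟩
    · exact Or.inr (Or.inl ⟨h, fun G _ _ _ => hcov G⟩)
    · right; right
      have hfin : {q | InPi F q}.Finite := by
        refine Set.Finite.subset (Set.toFinite ({2, 3, r} : Set ℕ)) ?_
        intro q hq
        rcases hπ q hq with h | h | h <;> simp [h]
      rcases step_al hF hf hher {r} (by simp [hr, h5]) (fun G _ _ _ => hcov G) hfin h2 h3
        with hal | hal
      · right
        refine eq_sss hF hf hher hsol hr3 hr2 (by norm_num) hrπ h3 h2 ?_ h hsyl ?_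
        · intro q hq
          rcases hπ q hq with h | h | h <;> simp [h]
        · intro Y _ hY hrY
          exact hal Y hY (by simpa using hrY)
      · left
        refine eq_sss hF hf hher hsol hr2 hr3 (by norm_num) hrπ h2 h3 ?_ h hsyl ?_
        · intro q hq
          rcases hπ q hq with h | h | h <;> simp [h]
        · intro Y _ hY hrY
          exact hal Y hY (by simpa using hrY)
    · exact (not_both hF hf hher hsyl h2 h3 (by norm_num) h h').elim
  · rintro (⟨h, h'⟩ | ⟨h, h'⟩ | h | h) G _ _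
    · exact covering_of_normal hF Nat.prime_two (closed_syl' hF hsyl Nat.prime_two h) h h' G
    · exact covering_of_normal hF Nat.prime_three (closed_syl' hF hsyl Nat.prime_three h) h h' G
    · exact sss_covering hr Nat.prime_two Nat.prime_three hr2 hr3 (by norm_num) h G
    · exact sss_covering hr Nat.prime_three Nat.prime_two hr3 hr2 (by norm_num) h G

end

end Pool.Agent.CoveringSubgroups.H6
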