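import Pool.Agent.Lib.MP_7252b7_al_h6.CaseIIb
import Pool.Agent.Lib.MP_7252b7_al_h9.MinFinal

/-!
# Part (B): `F(2) ≤ F(3)` implies closure under 3-groups or `F(3) ≤ F(s)`
-/

set_option autoImplicit false
set_option linter.unusedSectionVars false

namespace Pool.Agent.CoveringSubgroups.H6

open Pool.Agent.CoveringSubgroups Pool.Agent.CoveringSubgroups.H9

/-- an abelian normal subgroup in the base group -/
theorem exists_base_abelian {G X : Type} [Group G] [Group X] [Finite G] [Finite X]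
    {H : Subgroup (G ≀ᵣ X)} [Group.IsSolvable H] (hbase : ∃ h ∈ H, h.right = 1 ∧ h ≠ 1) :
    ∃ s : ℕ, s.Prime ∧ ∃ W : Subgroup (G ≀ᵣ X), W ≤ H ∧ (∀ h ∈ H, ∀ w ∈ W, h * w * h⁻¹ ∈ W) ∧
      (∀ w ∈ W, w.right = 1) ∧ (∀ a ∈ W, ∀ b ∈ W, a * b = b * a) ∧ (∀ a ∈ W, a ^ s = 1) ∧
      W ≠ ⊥ := by
  obtain ⟨h, hh, hh1, hh2⟩ := hbase
  have hbase : baseKer H ≠ ⊥ := by
    intro hb
    have h1 : (⟨h, hh⟩ : H) ∈ baseKer H := hh1
    rw [hb, Subgroup.mem_bot] at h1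
    exact hh2 (congrArg Subtype.val h1)
  have hbn : (baseKer H).Normal := MonoidHom.normal_ker _
  obtain ⟨s, hs, W0, hW0n, hW0b, hW01, hW0c, hW0s⟩ := exists_abelian_normal (baseKer H) hbase
  refine ⟨s, hs, W0.map H.subtype, Subgroup.map_subtype_le _, ?_, ?_, ?_, ?_, ?_⟩
  · rintro h hh _ ⟨w, hw, rfl⟩
    exact ⟨⟨h, hh⟩ * w * ⟨h, hh⟩⁻¹, hW0n.conj_mem w hw _, rfl⟩
  · rintro _ ⟨w, hw, rfl⟩
    exact hW0b hw
  · rintro _ ⟨a, ha, rfl⟩ _ ⟨b, hb, rfl⟩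
    exact congrArg Subtype.val (hW0c a ha b hb)
  · rintro _ ⟨a, ha, rfl⟩
    exact congrArg Subtype.val (hW0s a ha)
  · intro h
    exact hW01 ((Subgroup.map_eq_bot_iff_of_injective _ H.subtype_injective).1 h)

variable {F : GroupClass} {f : ℕ → GroupClass}

section

variable (hF : IsFormation F) (hf : IsLocallyDefinedBy F f)

include hF hf

/-- **Key theorem for the prime 3.** -/
theorem key3 (hher : ∀ (G : Type) [Group G] (H : Subgroup G), F G → F H)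
    (hsol : ∀ (G : Type) [Group G], F G → Group.IsSolvable G)
    {K : Type} [Field K] [CharP K 3] [Finite K] (h4 : 4 ∣ Nat.card Kˣ)
    (hpr : ∀ (t : ℕ) (G : Type) [Group G], t.Prime → F G → t ∣ Nat.card G →
      t = 3 ∨ t ∣ Nat.card Kˣ)
    {r : ℕ} (hr : r.Prime) (h3r : 3 < r) (hrK : r ∣ Nat.card Kˣ) (hf2 : IsFormation (f 2))
    (hf3 : IsFormation (f 3)) (hfr : IsFormation (f r))
    (hle : ∀ (Z : Type) [Group Z], CF F f 2 Z → CF F f 3 Z)
    {X Y Z : Type} [Group X] [Group Y] [Group Z] (hcov : HasCovering F (SLp 3 K ≀ᵣ X)) (hX : F X)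
    (ζ : X →* Y) (hζ : Function.Surjective ζ) (hY : CF F f r Y)
    (ξ : X →* Z) (hξ : Function.Surjective ξ) (hZ : CF F f 3 Z) :
    CF F f 3 Y ∨ ∃ t : ℕ, t.Prime ∧ t ≠ 3 ∧
      (∃ (G : Type) (_ : Group G), F G ∧ t ∣ Nat.card G) ∧ CF F f t Z := by
  by_cases hY3 : CF F f 3 Y
  · exact Or.inl hY3
  right
  have : Fact (Nat.Prime 3) := ⟨Nat.prime_three⟩
  have hXf : Finite X := hF.finite X hX
  have hcyc : Cyc3 F ξ := by
    intro N _ _ μ hμ H hH y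
    exact exists_cyc hF hf hher hf2 hf3 hle μ hμ hX hH _ hξ hZ y
  have hno : ∀ H5 W5 : Subgroup (SLp 3 K ≀ᵣ X), Cov F H5 → W5 ≤ H5 →
      (∀ h ∈ H5, ∀ w ∈ W5, h * w * h⁻¹ ∈ W5) → IsPGroup 3 W5 → (∀ w ∈ W5, w.right = 1) →
      W5 = ⊥ := by
    intro H5 W5 hH5 hWH hWn hWp hWb
    by_contra hne
    exact hY3 (case_I hF hf hher hr h3r hrK hfr hf3 hX hH5 hWH hWn hWp hne hWb ζ hζ hY)
  obtain ⟨H, hH'⟩ := hcov
  have hH : Cov F H := cov_of_isCovering hF hH'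
  obtain ⟨Λ, _, _, _, μ, hΛ, hμ, -, -, -⟩ := nStd_data (p := 3) (K := K) Nat.prime_three
  have hbase := exists_base hF hf hher Nat.prime_three hf3 (nStd 3 K) hΛ μ hμ hX hH
  have hsolH : Group.IsSolvable H := hsol H hH.1
  obtain ⟨s, hs, W, hWH, hWn, hWb, hWc, hWs, hW1⟩ := exists_base_abelian hbase
  exact case_II hF hf hher hsol h4 hpr hf3 hX ξ hξ hZ hcyc hno hs hH hWH hWn hWb hWc hWs hW1

omit hF hf in
/-- a finite field of characteristic three with enough roots of unity -/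
theorem exists_field3 (P : Finset ℕ) (hP : ∀ s ∈ P, s.Prime) :
    ∃ (K : Type) (_ : Field K) (_ : CharP K 3) (_ : Finite K), 4 ∣ Nat.card Kˣ ∧
      ∀ s ∈ P, s = 3 ∨ s ∣ Nat.card Kˣ := by
  have : Fact (Nat.Prime 3) := ⟨Nat.prime_three⟩
  obtain ⟨k, hk0, hk2, hk⟩ : ∃ k : ℕ, k ≠ 0 ∧ 2 ∣ k ∧ ∀ s ∈ P, s - 1 ∣ k := by
    refine ⟨2 * ∏ s ∈ P, (s - 1), ?_, dvd_mul_right _ _, fun s hs =>
      (Finset.dvd_prod_of_mem _ hs).mul_left 2⟩
    refine mul_ne_zero (by norm_num) (Finset.prod_ne_zero_iff.2 ?_)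
    intro s hs
    have := (hP s hs).two_le
    omega
  have hcard : Nat.card (GaloisField 3 k)ˣ = 3 ^ k - 1 := by
    rw [Nat.card_units, GaloisField.card 3 k hk0]
  refine ⟨GaloisField 3 k, inferInstance, inferInstance, inferInstance, ?_, ?_⟩
  · rw [hcard]
    obtain ⟨t, rfl⟩ := hk2
    have h5 : 3 ^ (2 * t) ≡ 1 [MOD 4] := by
      rw [pow_mul]
      have h6 : (3 : ℕ) ^ 2 ≡ 1 [MOD 4] := by decide
      have := h6.pow t
      rwa [one_pow] at this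
    exact (Nat.modEq_iff_dvd' (Nat.one_le_pow _ _ (by norm_num))).1 h5.symm
  · intro s hs
    rw [hcard]
    by_cases hsp : s = 3
    · exact Or.inl hsp
    · right
      have : Fact s.Prime := ⟨hP s hs⟩
      have h2 : Nat.Coprime 3 s := (Nat.coprime_primes Nat.prime_three (hP s hs)).2 (Ne.symm hsp)
      have h3 : 3 ^ Nat.totient s ≡ 1 [MOD s] := Nat.ModEq.pow_totient h2
      rw [Nat.totient_prime (hP s hs)] at h3
      obtain ⟨t, ht⟩ := hk s hs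
      have h4 : 3 ^ k ≡ 1 [MOD s] := by
        rw [ht, pow_mul]
        have := h3.pow t
        rwa [one_pow] at this
      exact (Nat.modEq_iff_dvd' (Nat.one_le_pow _ _ (by norm_num))).1 h4.symm

theorem step_B (hher : ∀ (G : Type) [Group G] (H : Subgroup G), F G → F H)
    (hsol : ∀ (G : Type) [Group G], F G → Group.IsSolvable G)
    (hcov : ∀ (G : Type) [Group G] [Finite G], HasCovering F G)
    (hfin : {q | InPi F q}.Finite) (h2 : InPi F 2) (h3 : InPi F 3) (hle : CanonLE F 2 3) :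
    ClosedUnder F 3 ∨ ∃ s : ℕ, InPi F s ∧ s ≠ 3 ∧ CanonLE F 3 s := by
  by_contra hcon
  push Not at hcon
  obtain ⟨hcl, hcon⟩ := hcon
  have hr : ∃ r, InPi F r ∧ ¬ CanonLE F r 3 := by
    by_contra h
    push Not at h
    exact hcl (closed_of_le hF hf hher hsol h3 h)
  obtain ⟨r, hr, hr3⟩ := hr
  have hr3' : r ≠ 3 := by
    rintro rfl
    exact hr3 fun Y _ hY => hY
  have hr2' : r ≠ 2 := by
    rintro rfl
    exact hr3 hle
  have h3r : 3 < r := by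
    have := hr.1.two_le
    omega
  simp only [CanonLE] at hcon hr3
  push Not at hcon hr3
  obtain ⟨Y, _, hY1, hY2⟩ := hr3
  have hf2 := form_of_inPi hf hF hher h2
  have hf3 := form_of_inPi hf hF hher h3
  have hfr := form_of_inPi hf hF hher hr
  obtain ⟨Z, _, hZ1, hZ2⟩ := exists_product' hF hf hfin.toFinset hher h3
  obtain ⟨K, _, _, _, hK4, hK⟩ := exists_field3 hfin.toFinset
    (fun s hs => (hfin.mem_toFinset.1 hs : InPi F s).1)
  have hdvd : ∀ s, InPi F s → s = 3 ∨ s ∣ Nat.card Kˣ := fun s hs =>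
    hK s (hfin.mem_toFinset.2 hs)
  have hX : F (Y × Z) := fprod hF hY1.mem hZ1.mem
  have hXf : Finite (Y × Z) := hF.finite _ hX
  have hCY := (canon_iff hF hf hr.1 hfr).1 hY1
  have hCZ := (canon_iff hF hf h3.1 hf3).1 hZ1
  have hle' : ∀ (Z : Type) [Group Z], CF F f 2 Z → CF F f 3 Z := by
    intro Z _ hZ
    exact (canon_iff hF hf h3.1 hf3).1 (hle Z ((canon_iff hF hf h2.1 hf2).2 hZ))
  rcases key3 hF hf hher hsol hK4
    (fun t G _ ht hG hd => hdvd t ⟨ht, G, inferInstance, hG, hd⟩) hr.1 h3r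
    ((hdvd r hr).resolve_left hr3') hf2 hf3 hfr hle' (hcov _) hX
    (MonoidHom.fst Y Z) Prod.fst_surjective hCY (MonoidHom.snd Y Z) Prod.snd_surjective hCZ
    with h | ⟨t, ht, ht3, ⟨G, _, hG1, hG2⟩, hCt⟩
  · exact hY2 ((canon_iff hF hf h3.1 hf3).2 h)
  · have htπ : InPi F t := ⟨ht, G, inferInstance, hG1, hG2⟩
    have hft := form_of_inPi hf hF hher htπ
    obtain ⟨Z', _, hZ'⟩ := hcon t htπ ht3
    exact hZ2 t (hfin.mem_toFinset.2 htπ) htπ ⟨Z', _, hZ'⟩ ((canon_iff hF hf ht hft).2 hCt)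

end

end Pool.Agent.CoveringSubgroups.H6
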