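import Pool.Agent.Lib.MP_7252b7_al_h6.StepB
import Pool.Agent.Lib.MP_7252b7_al_h6.AlCore
import Pool.Agent.Lib.MP_7252b7_al_h6.Psl

/-!
# The theorem on the primes 2 and 3
-/

set_option autoImplicit false
set_option linter.unusedSectionVars false

namespace Pool.Agent.CoveringSubgroups.H6

open Pool.Agent.CoveringSubgroups Pool.Agent.CoveringSubgroups.H9

lemma dvd_twelve {n : ℕ} (hn : n ≠ 0) (h : ∀ t : ℕ, t.Prime → t ∣ n → t = 2 ∨ t = 3)
    (h8 : ¬ 8 ∣ n) (h9 : ¬ 9 ∣ n) : n ∣ 12 := by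
  obtain ⟨a, m, hm, rfl⟩ := Nat.exists_eq_pow_mul_and_not_dvd hn 2 (by norm_num)
  have hm0 : m ≠ 0 := right_ne_zero_of_mul hn
  obtain ⟨b, k, hk, rfl⟩ := Nat.exists_eq_pow_mul_and_not_dvd hm0 3 (by norm_num)
  have hk1 : k = 1 := by
    by_contra hne
    obtain ⟨t, ht, htk⟩ := Nat.exists_prime_and_dvd hne
    rcases h t ht ((htk.mul_left _).mul_left _) with rfl | rfl
    · exact hm (htk.mul_left _)
    · exact hk htk
  have ha : a ≤ 2 := by
    by_contra h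
    apply h8
    have : (2 : ℕ) ^ 3 ∣ 2 ^ a := pow_dvd_pow 2 (by omega)
    exact this.mul_right _
  have hb : b ≤ 1 := by
    by_contra h
    apply h9
    have : (3 : ℕ) ^ 2 ∣ 3 ^ b := pow_dvd_pow 3 (by omega)
    exact (this.mul_right _).mul_left _
  rw [hk1, mul_one]
  exact mul_dvd_mul (pow_dvd_pow 2 ha) (pow_dvd_pow 3 hb)

lemma card_mod {l n : ℕ} (h8 : l % 8 = 5) (h9 : l % 9 = 2) (hn : n * 2 = l * (l ^ 2 - 1)) :
    ¬ 8 ∣ n ∧ ¬ 9 ∣ n := by
  obtain ⟨a, rfl⟩ : ∃ a, l = 8 * a + 5 := ⟨l / 8, by omega⟩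
  have e : (8 * a + 5) ^ 2 - 1 = 8 * (8 * a ^ 2 + 10 * a + 3) := by
    have : (8 * a + 5) ^ 2 = 8 * (8 * a ^ 2 + 10 * a + 3) + 1 := by ring
    omega
  constructor
  · rintro ⟨c, rfl⟩
    rw [e] at hn
    have h1 : 2 * c = (8 * a + 5) * (8 * a ^ 2 + 10 * a + 3) := by
      have : 8 * (2 * c) = 8 * ((8 * a + 5) * (8 * a ^ 2 + 10 * a + 3)) := by linarith
      omega
    have h2 : (8 * a + 5) * (8 * a ^ 2 + 10 * a + 3) =
        2 * (32 * a ^ 3 + 60 * a ^ 2 + 37 * a + 7) + 1 := by ring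
    rw [h2] at h1
    omega
  · rintro ⟨c, rfl⟩
    set l := 8 * a + 5 with hl
    obtain ⟨b, hb⟩ : ∃ b, l = 9 * b + 2 := ⟨l / 9, by omega⟩
    have e2 : l ^ 2 - 1 = 9 * (9 * b ^ 2 + 4 * b) + 3 := by
      have : l ^ 2 = 9 * (9 * b ^ 2 + 4 * b) + 3 + 1 := by rw [hb]; ring
      omega
    rw [e2, hb] at hn
    have h1 : 9 * (c * 2) = 9 * (b * (9 * (9 * b ^ 2 + 4 * b) + 3) + 2 * (9 * b ^ 2 + 4 * b)) + 6 := by
      linarith
    omega

variable {F : GroupClass} {f : ℕ → GroupClass}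

section

variable (hF : IsFormation F) (hf : IsLocallyDefinedBy F f)

include hF hf

/-- the primes 2 and 3 are comparable -/
theorem step_al (hher : ∀ (G : Type) [Group G] (H : Subgroup G), F G → F H)
    (τ : Finset ℕ) (hτ : ∀ t ∈ τ, t.Prime ∧ 5 ≤ t)
    (hcov : ∀ (G : Type) [Group G] [Finite G], (∀ t ∈ τ, ¬ t ∣ Nat.card G) → HasCovering F G)
    (hfin : {q | InPi F q}.Finite) (h2 : InPi F 2) (h3 : InPi F 3) :
    (∀ (Y : Type) [Group Y], Canon F 2 Y → (∀ t ∈ τ, ¬ t ∣ Nat.card Y) → Canon F 3 Y) ∨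
      ∀ (Y : Type) [Group Y], Canon F 3 Y → (∀ t ∈ τ, ¬ t ∣ Nat.card Y) → Canon F 2 Y := by
  classical
  by_contra hcon
  push Not at hcon
  obtain ⟨⟨Y2, _, hY2, hτ2, hY2'⟩, Y3, _, hY3, hτ3, hY3'⟩ := hcon
  have hf2 := form_of_inPi hf hF hher h2
  have hf3 := form_of_inPi hf hF hher h3
  have hC2 := (canon_iff hF hf h2.1 hf2).1 hY2
  have hC3 := (canon_iff hF hf h3.1 hf3).1 hY3
  have hX : F (Y2 × Y3) := fprod hF hY2.mem hY3.mem
  have hXf : Finite (Y2 × Y3) := hF.finite _ hX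
  obtain ⟨l, hl, h8, h9, hlS⟩ := exists_prime_l (hfin.toFinset ∪ τ)
  obtain ⟨N, _, _, hcard, h6, hc, hV⟩ := psl_data hl h8 h9
  obtain ⟨hN8, hN9⟩ := card_mod h8 h9 hcard
  have hdvd : ∀ t : ℕ, t.Prime → 5 ≤ t → t ∈ hfin.toFinset ∪ τ → ¬ t ∣ Nat.card N := by
    intro t ht h5 htS hd
    exact hlS t htS ht h5 (hcard ▸ hd.mul_right 2)
  have h12 : ∀ D : Subgroup N, F D → Nat.card D ∣ 12 := by
    intro D hD
    have hDN := D.card_subgroup_dvd_card
    refine dvd_twelve Nat.card_pos.ne' ?_ (fun h => hN8 (h.trans hDN)) fun h => hN9 (h.trans hDN)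
    intro t ht hd
    by_contra hne
    push Not at hne
    have h5 : 5 ≤ t := by
      by_contra h
      have := ht.two_le
      interval_cases t
      · exact hne.1 rfl
      · exact hne.2 rfl
      · exact absurd ht (by norm_num)
    exact hdvd t ht h5 (Finset.mem_union_left _ (hfin.mem_toFinset.2 ⟨ht, D, inferInstance, hD, hd⟩))
      (hd.trans hDN)
  obtain ⟨H, hH⟩ := hcov (N ≀ᵣ (Y2 × Y3)) (by
    intro t ht hd
    obtain ⟨htp, ht5⟩ := hτ t ht
    rw [RegularWreathProduct.card, Nat.card_prod] at hd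
    rcases (Nat.Prime.dvd_mul htp).1 hd with h | h
    · exact hdvd t htp ht5 (Finset.mem_union_right _ ht) (htp.dvd_of_dvd_pow h)
    · rcases (Nat.Prime.dvd_mul htp).1 h with h | h
      · exact hτ2 t ht h
      · exact hτ3 t ht h)
  rcases al_core hF hf hher hf2 hf3 h12 hN8 hN9 h6 hc hV hX (cov_of_isCovering hF hH)
    (MonoidHom.fst Y2 Y3) Prod.fst_surjective hC2 (MonoidHom.snd Y2 Y3) Prod.snd_surjective hC3
    with h | h
  · exact hY2' ((canon_iff hF hf h3.1 hf3).2 h)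
  · exact hY3' ((canon_iff hF hf h2.1 hf2).2 h)

/-- **The theorem on the primes 2 and 3.** -/
theorem two_three (hher : ∀ (G : Type) [Group G] (H : Subgroup G), F G → F H)
    (hsol : ∀ (G : Type) [Group G], F G → Group.IsSolvable G)
    (hcov : ∀ (G : Type) [Group G] [Finite G], HasCovering F G)
    (hfin : {q | InPi F q}.Finite) (h2 : InPi F 2) (h3 : InPi F 3) :
    ClosedUnder F 2 ∨ ClosedUnder F 3 ∨ (CanonLE F 2 3 ∧ CanonLE F 3 2) ∨
      ∃ s : ℕ, InPi F s ∧ 5 ≤ s ∧ CanonLE F 2 s ∧ CanonLE F 3 s := by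
  by_cases hc2 : ClosedUnder F 2
  · exact Or.inl hc2
  by_cases hc3 : ClosedUnder F 3
  · exact Or.inr (Or.inl hc3)
  right; right
  have h5 : ∀ s, InPi F s → s ≠ 2 → s ≠ 3 → 5 ≤ s := by
    intro s hs hs2 hs3
    by_contra h
    have := hs.1.two_le
    interval_cases s
    · exact hs2 rfl
    · exact hs3 rfl
    · exact absurd hs.1 (by norm_num)
  have htr : ∀ {a b c : ℕ}, CanonLE F a b → CanonLE F b c → CanonLE F a c :=
    fun h h' Y _ hY => h' Y (h Y hY)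
  rcases step_al hF hf hher ∅ (by simp) (fun G _ _ _ => hcov G) hfin h2 h3 with h | h
  · have hle : CanonLE F 2 3 := fun Y _ hY => h Y hY (by simp)
    obtain ⟨s, hs, hs3, h3s⟩ := (step_B hF hf hher hsol hcov hfin h2 h3 hle).resolve_left hc3
    by_cases hs2 : s = 2
    · subst hs2
      exact Or.inl ⟨hle, h3s⟩
    · exact Or.inr ⟨s, hs, h5 s hs hs2 hs3, htr hle h3s, h3s⟩
  · have hle : CanonLE F 3 2 := fun Y _ hY => h Y hY (by simp)
    rcases min_dichotomy hF hf hher hsol hcov hfin h2 (fun q hq => hq.1.two_le) with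
      h' | ⟨-, s, hs, hs2, h2s, -⟩
    · exact absurd h' hc2
    · by_cases hs3 : s = 3
      · subst hs3
        exact Or.inl ⟨h2s, hle⟩
      · exact Or.inr ⟨s, hs, h5 s hs hs2 hs3, h2s, htr hle h2s⟩

/-- **Three primes.** -/
theorem three_primes (hher : ∀ (G : Type) [Group G] (H : Subgroup G), F G → F H)
    (hsol : ∀ (G : Type) [Group G], F G → Group.IsSolvable G)
    (hcov : ∀ (G : Type) [Group G] [Finite G], HasCovering F G)
    (h2 : InPi F 2) (h3 : InPi F 3) {r : ℕ} (hπ : ∀ q, InPi F q → q = 2 ∨ q = 3 ∨ q = r) :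
    ClosedUnder F 2 ∨ ClosedUnder F 3 ∨ (InPi F r ∧ ClosedUnder F r) ∨
      (CanonLE F 2 3 ∧ CanonLE F 3 2) := by
  have hfin : {q | InPi F q}.Finite := by
    refine Set.Finite.subset (Set.toFinite ({2, 3, r} : Set ℕ)) ?_
    intro q hq
    rcases hπ q hq with h | h | h <;> simp [h]
  rcases two_three hF hf hher hsol hcov hfin h2 h3 with h | h | h | ⟨s, hs, h5, h6, h7⟩
  · exact Or.inl h
  · exact Or.inr (Or.inl h)
  · exact Or.inr (Or.inr (Or.inr h))
  · have hsr : s = r := by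
      rcases hπ s hs with h | h | h
      · omega
      · omega
      · exact h
    subst hsr
    refine Or.inr (Or.inr (Or.inl ⟨hs, closed_of_le hF hf hher hsol hs fun q hq => ?_⟩))
    rcases hπ q hq with rfl | rfl | rfl
    · exact h6
    · exact h7
    · exact fun Y _ hY => hY

end

end Pool.Agent.CoveringSubgroups.H6
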